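import Pool.Graph.R_seed8.H916R2.OddChar

/-!
# The determinants of the eigenspaces: a combinatorial identity and a non-vanishing theorem
-/

set_option linter.unusedSectionVars false

open Finset

namespace Pool.Agent.H842.CR

open Pool.Agent.H916R2

section count
variable {e : ℕ} [NeZero e]

/-- tuples of nonzero residues with given sum -/
def Tup (e k : ℕ) (z : ZMod e) : Type := {a : Fin k → ZMod e // (∀ j, a j ≠ 0) ∧ ∑ j, a j = z}

noncomputable instance (k : ℕ) (z : ZMod e) : Fintype (Tup e k z) := by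
  classical
  unfold Tup
  infer_instance

/-- decomposition of a sum over tuples -/
theorem sum_Tup {M : Type} [AddCommMonoid M] (k : ℕ) (z : ZMod e)
    (F : (Fin (k + 1) → ZMod e) → M) :
    ∑ a : Tup e (k + 1) z, F a.1 =
      ∑ c ∈ univ.filter (fun c : ZMod e => c ≠ 0), ∑ a : Tup e k (z - c), F (Fin.cons c a.1) := by
  classical
  have h1 : ∀ (k : ℕ) (z : ZMod e) (G : (Fin k → ZMod e) → M), ∑ a : Tup e k z, G a.1 =
      ∑ a ∈ univ.filter (fun a : Fin k → ZMod e => (∀ j, a j ≠ 0) ∧ ∑ j, a j = z), G a := by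
    intro k z G
    rw [Finset.sum_subtype (p := fun a : Fin k → ZMod e => (∀ j, a j ≠ 0) ∧ ∑ j, a j = z)]
    · rfl
    · intro a
      simp
  rw [h1, Finset.sum_congr rfl fun c _ => h1 k (z - c) (fun a => F (Fin.cons c a))]
  rw [Finset.sum_sigma']
  refine Finset.sum_bij' (fun a _ => (⟨a 0, fun j => a j.succ⟩ : Σ _ : ZMod e, Fin k → ZMod e))
    (fun a _ => (Fin.cons a.1 a.2 : Fin (k + 1) → ZMod e)) ?_ ?_ ?_ ?_ ?_
  · intro a ha
    rw [Finset.mem_filter] at ha
    rw [Finset.mem_sigma, Finset.mem_filter, Finset.mem_filter]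
    refine ⟨⟨Finset.mem_univ _, ha.2.1 0⟩, Finset.mem_univ _, fun j => ha.2.1 _, ?_⟩
    have := ha.2.2
    rw [Fin.sum_univ_succ] at this
    rw [← this]
    ring
  · rintro ⟨c, a⟩ ha
    rw [Finset.mem_sigma, Finset.mem_filter, Finset.mem_filter] at ha
    rw [Finset.mem_filter]
    refine ⟨Finset.mem_univ _, ?_, ?_⟩
    · intro j
      refine Fin.cases ?_ ?_ j
      · exact ha.1.2
      · intro j
        exact ha.2.2.1 j
    · rw [Fin.sum_univ_succ]
      simp only [Fin.cons_zero, Fin.cons_succ]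
      rw [ha.2.2.2]
      ring
  · intro a _
    exact Fin.cons_self_tail a
  · rintro ⟨c, a⟩ _
    rfl
  · intro a _
    show F a = F (Fin.cons (a 0) fun j => a j.succ)
    congr 1
    exact (Fin.cons_self_tail a).symm

/-- the number of tuples -/
noncomputable def cnt (e k : ℕ) [NeZero e] (z : ZMod e) : ℤ := (Fintype.card (Tup e k z) : ℤ)

/-- the sum of a function over all entries of all tuples -/
noncomputable def ent {e : ℕ} [NeZero e] (g : ZMod e → ℤ) (k : ℕ) (z : ZMod e) : ℤ :=
  ∑ a : Tup e k z, ∑ j, g (a.1 j)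

/-- the recursive formula of the numbers of tuples -/
def AN (e : ℕ) : ℕ → ℤ
  | 0 => 0
  | k + 1 => ((e : ℤ) - 1) * AN e k + (-1) ^ k

theorem sum_shift (F : ZMod e → ℤ) (z : ZMod e) :
    ∑ c ∈ univ.filter (fun c : ZMod e => c ≠ 0), F (z - c) = ∑ w, F w - F z := by
  classical
  have h1 : ∑ c, F (z - c) = ∑ w, F w := Equiv.sum_comp (Equiv.subLeft z) F
  rw [← h1, ← Finset.sum_filter_add_sum_filter_not univ (fun c : ZMod e => c ≠ 0)]
  have h2 : ∑ c ∈ univ.filter (fun c : ZMod e => ¬ c ≠ 0), F (z - c) = F z := by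
    have : univ.filter (fun c : ZMod e => ¬ c ≠ 0) = {0} := by
      ext c
      simp
    rw [this, Finset.sum_singleton, sub_zero]
  rw [h2]
  ring

theorem cnt_eq (k : ℕ) (z : ZMod e) : cnt e k z = AN e k + (-1) ^ k * (if z = 0 then 1 else 0) := by
  classical
  induction k generalizing z with
  | zero =>
    unfold cnt AN
    by_cases hz : z = 0
    · rw [if_pos hz]
      have : Fintype.card (Tup e 0 z) = 1 := by
        rw [Fintype.card_eq_one_iff]
        exact ⟨⟨fun j => j.elim0, fun j => j.elim0, by simp [hz]⟩, fun a =>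
          Subtype.ext (funext fun j => j.elim0)⟩
      rw [this]
      simp
    · rw [if_neg hz]
      have : Fintype.card (Tup e 0 z) = 0 := by
        rw [Fintype.card_eq_zero_iff]
        exact ⟨fun a => hz (by have := a.2.2; simpa using this.symm)⟩
      rw [this]
      simp
  | succ k ih =>
    have h1 : cnt e (k + 1) z = ∑ c ∈ univ.filter (fun c : ZMod e => c ≠ 0), cnt e k (z - c) := by
      have := sum_Tup (M := ℤ) k z (fun _ => 1)
      simp only [Finset.sum_const, Finset.card_univ, nsmul_eq_mul, mul_one] at this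
      exact this
    rw [h1, sum_shift]
    have h2 : ∑ w : ZMod e, cnt e k w = (e : ℤ) * AN e k + (-1) ^ k := by
      simp only [ih]
      rw [Finset.sum_add_distrib, Finset.sum_const, Finset.card_univ, ZMod.card, nsmul_eq_mul,
        ← Finset.mul_sum, Finset.sum_ite_eq' univ (0 : ZMod e) (fun _ => (1 : ℤ)),
        if_pos (Finset.mem_univ _), mul_one]
    rw [h2, ih]
    show _ = ((e : ℤ) - 1) * AN e k + (-1) ^ k + _
    rw [pow_succ]
    ring

theorem ent_eq (g : ZMod e → ℤ) (h0 : g 0 = 0) (hg : ∑ c, g c = 0) (k : ℕ) (z : ZMod e) :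
    ent g (k + 1) z = (k + 1) * (-1) ^ k * g z := by
  classical
  have hstep : ∀ (k : ℕ) (z : ZMod e), ent g (k + 1) z =
      (-1) ^ k * g z + ∑ c ∈ univ.filter (fun c : ZMod e => c ≠ 0), ent g k (z - c) := by
    intro k z
    unfold ent
    rw [sum_Tup k z (fun a => ∑ j, g (a j))]
    have h1 : ∀ c ∈ univ.filter (fun c : ZMod e => c ≠ 0), ∑ a : Tup e k (z - c),
        ∑ j, g ((Fin.cons c a.1 : Fin (k + 1) → ZMod e) j) =
        g c * cnt e k (z - c) + ∑ a : Tup e k (z - c), ∑ j, g (a.1 j) := by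
      intro c _
      have : ∀ a : Tup e k (z - c), ∑ j, g ((Fin.cons c a.1 : Fin (k + 1) → ZMod e) j) =
          g c + ∑ j, g (a.1 j) := by
        intro a
        rw [Fin.sum_univ_succ]
        simp only [Fin.cons_zero, Fin.cons_succ]
      simp only [this, Finset.sum_add_distrib, Finset.sum_const, Finset.card_univ, nsmul_eq_mul]
      unfold cnt
      ring
    rw [Finset.sum_congr rfl h1, Finset.sum_add_distrib]
    congr 1
    simp only [cnt_eq, mul_add, Finset.sum_add_distrib]
    rw [← Finset.sum_mul]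
    have h2 : ∑ c ∈ univ.filter (fun c : ZMod e => c ≠ 0), g c = 0 := by
      rw [← hg]
      apply Finset.sum_subset (Finset.subset_univ _)
      intro c _ hc
      have : c = 0 := by
        by_contra h
        exact hc (Finset.mem_filter.2 ⟨Finset.mem_univ _, h⟩)
      rw [this, h0]
    rw [h2, zero_mul, zero_add]
    have h3 : ∀ c ∈ univ.filter (fun c : ZMod e => c ≠ 0),
        g c * ((-1) ^ k * (if z - c = 0 then 1 else 0)) =
        if c = z then (-1) ^ k * g z else 0 := by
      intro c _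
      by_cases hc : c = z
      · rw [hc, sub_self, if_pos rfl, if_pos rfl]
        ring
      · rw [if_neg (fun h => hc (sub_eq_zero.1 h).symm), if_neg hc]
        ring
    rw [Finset.sum_congr rfl h3, Finset.sum_ite_eq' (univ.filter (fun c : ZMod e => c ≠ 0)) z
      (fun _ => (-1) ^ k * g z)]
    split_ifs with hz
    · rfl
    · have : z = 0 := by
        by_contra h
        exact hz (Finset.mem_filter.2 ⟨Finset.mem_univ _, h⟩)
      rw [this, h0, mul_zero]
  induction k generalizing z with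
  | zero =>
    rw [hstep, sum_shift]
    have h1 : ∀ w, ent g 0 w = 0 := by
      intro w
      unfold ent
      refine Finset.sum_eq_zero fun a _ => ?_
      exact Finset.sum_eq_zero fun j _ => j.elim0
    simp [h1]
  | succ k ih =>
    rw [hstep, sum_shift]
    simp only [ih]
    rw [← Finset.mul_sum, hg, pow_succ]
    push_cast
    ring

theorem sum_saw : ∑ c : ZMod e, saw c = 0 := by
  have h1 : ∑ c : ZMod e, saw (-c) = ∑ c : ZMod e, saw c := Equiv.sum_comp (Equiv.neg _) _
  have h2 : ∑ c : ZMod e, saw (-c) = - ∑ c : ZMod e, saw c := by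
    rw [← Finset.sum_neg_distrib]
    exact Finset.sum_congr rfl fun c _ => saw_neg c
  linarith [h1, h2]

theorem AN_pos (he : 3 ≤ e) (k : ℕ) : (k : ℤ) + 5 ≤ AN e (k + 4) := by
  have he' : (3 : ℤ) ≤ e := by exact_mod_cast he
  induction k with
  | zero =>
    show _ ≤ ((e : ℤ) - 1) * (((e : ℤ) - 1) * (((e : ℤ) - 1) * (((e : ℤ) - 1) * 0 + (-1) ^ 0) +
      (-1) ^ 1) + (-1) ^ 2) + (-1) ^ 3
    norm_num
    nlinarith [mul_nonneg (by linarith : (0 : ℤ) ≤ e - 3) (by linarith : (0 : ℤ) ≤ e - 1),
      mul_nonneg (mul_nonneg (by linarith : (0 : ℤ) ≤ e - 3) (by linarith : (0 : ℤ) ≤ e - 1))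
        (by linarith : (0 : ℤ) ≤ e - 1)]
  | succ k ih =>
    show _ ≤ ((e : ℤ) - 1) * AN e (k + 4) + (-1) ^ (k + 4)
    have h1 : (-1 : ℤ) ≤ (-1) ^ (k + 4) := by
      rcases neg_one_pow_eq_or ℤ (k + 4) with h | h <;> rw [h] <;> norm_num
    push_cast
    nlinarith

/-- the determinants are not of type zero -/
theorem AN_ne (he : 3 ≤ e) {n : ℕ} (hn : 1 ≤ n) (hex : ¬ (n = 2 ∧ e = 3)) :
    AN e (n + 1) - (-1) ^ n * (n + 1) ≠ 0 := by
  have he' : (3 : ℤ) ≤ e := by exact_mod_cast he
  rcases Nat.lt_or_ge n 3 with h3 | h3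
  · interval_cases n
    · show ((e : ℤ) - 1) * (((e : ℤ) - 1) * 0 + (-1) ^ 0) + (-1) ^ 1 - _ ≠ 0
      intro h
      push_cast at h
      nlinarith
    · show ((e : ℤ) - 1) * (((e : ℤ) - 1) * (((e : ℤ) - 1) * 0 + (-1) ^ 0) +
        (-1) ^ 1) + (-1) ^ 2 - _ ≠ 0
      intro h
      have h1 : (e : ℤ) * (e - 3) = 0 := by
        push_cast at h
        linear_combination h
      rcases mul_eq_zero.1 h1 with h2 | h2
      · linarith
      · apply hex
        refine ⟨rfl, ?_⟩
        have : (e : ℤ) = 3 := by linarith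
        exact_mod_cast this
  · obtain ⟨k, rfl⟩ : ∃ k, n = k + 3 := ⟨n - 3, by omega⟩
    have h1 := AN_pos he k
    intro h
    have h2 : AN e (k + 4) = (-1) ^ (k + 3) * ((k : ℤ) + 3 + 1) := by
      have h4 : AN e (k + 3 + 1) - (-1) ^ (k + 3) * (((k + 3 : ℕ) : ℤ) + 1) = 0 := h
      push_cast at h4
      linarith
    rcases neg_one_pow_eq_or ℤ (k + 3) with h3 | h3 <;> rw [h3] at h2 <;> linarith

end count

/-- **Non-degeneracy of the determinants.** An odd function on the residues modulo a prime number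
which is orthogonal to all translates of the sawtooth function is zero. -/
theorem odd_zero {p : ℕ} [hp : Fact p.Prime] {r : ZMod p → ℚ} (hr : ∀ b, r (-b) = - r b)
    (h : ∀ t : (ZMod p)ˣ, ∑ b, r (t * b) * (saw b : ℚ) = 0) : ∀ b, r b = 0 := by
  classical
  have hr0 : r 0 = 0 := by
    have := hr 0
    rw [neg_zero] at this
    linarith
  -- sums against characters
  have hsum : ∀ (χ : DirichletCharacter ℂ p), ∑ u : (ZMod p)ˣ, χ u * (r u : ℂ) = 0 := by
    intro χ
    rcases χ.even_or_odd with hχ | hχ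
    · -- even characters
      have h1 : ∑ u : (ZMod p)ˣ, χ (-u : (ZMod p)ˣ) * (r (-u : (ZMod p)ˣ) : ℂ) =
          ∑ u : (ZMod p)ˣ, χ u * (r u : ℂ) :=
        Equiv.sum_comp (Equiv.neg ((ZMod p)ˣ)) (fun u : (ZMod p)ˣ => χ u * (r u : ℂ))
      have h2 : ∑ u : (ZMod p)ˣ, χ (-u : (ZMod p)ˣ) * (r (-u : (ZMod p)ˣ) : ℂ) =
          - ∑ u : (ZMod p)ˣ, χ u * (r u : ℂ) := by
        rw [← Finset.sum_neg_distrib]
        refine Finset.sum_congr rfl fun u _ => ?_
        rw [Units.val_neg, hχ.eval_neg, hr]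
        push_cast
        ring
      rw [h1] at h2
      have h3 : (2 : ℂ) * ∑ u : (ZMod p)ˣ, χ u * (r u : ℂ) = 0 := by linear_combination h2
      exact (mul_eq_zero.1 h3).resolve_left two_ne_zero
    · -- odd characters
      have hχ' : (χ⁻¹).Odd := by
        unfold DirichletCharacter.Odd at hχ ⊢
        rw [MulChar.inv_apply_eq_inv', hχ]
        norm_num
      obtain ⟨a, ha⟩ := exists_SS_ne_zero χ⁻¹ hχ'
      have ha0 : a ≠ 0 := by
        rintro rfl
        apply ha
        unfold SS
        simp [saw_zero]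
      -- the double sum
      have h1 : ∀ b : ZMod p, ∑ t : (ZMod p)ˣ, χ t * (r (t * b) : ℂ) =
          χ⁻¹ b * ∑ u : (ZMod p)ˣ, χ u * (r u : ℂ) := by
        intro b
        by_cases hb : b = 0
        · rw [hb]
          simp only [mul_zero, hr0, Rat.cast_zero, Finset.sum_const_zero]
          rw [MulChar.map_nonunit _ not_isUnit_zero, zero_mul]
        · let ub : (ZMod p)ˣ := Units.mk0 b hb
          have hub : (ub : ZMod p) = b := rfl
          rw [Finset.mul_sum, ← Equiv.sum_comp (Equiv.mulRight ub) (fun u : (ZMod p)ˣ =>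
            χ⁻¹ b * (χ u * (r u : ℂ)))]
          refine Finset.sum_congr rfl fun t _ => ?_
          rw [Equiv.coe_mulRight, Units.val_mul, hub, map_mul]
          have h2 : χ⁻¹ b * χ b = 1 := by
            rw [MulChar.inv_apply_eq_inv']
            exact inv_mul_cancel₀ (by
              rw [← hub]
              exact (ub.isUnit.map χ).ne_zero)
          linear_combination (-(χ t * (r (t * b) : ℂ))) * h2
      have h2 : ∑ t : (ZMod p)ˣ, χ t * ∑ b, (r (t * b) : ℂ) * (saw b : ℂ) = 0 := by
        refine Finset.sum_eq_zero fun t _ => ?_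
        have h3 : ∑ b, (r (t * b) : ℂ) * (saw b : ℂ) = ((∑ b, r (t * b) * (saw b : ℚ) : ℚ) : ℂ) := by
          push_cast
          rfl
        rw [h3, h t]
        simp
      have h3 : ∑ t : (ZMod p)ˣ, χ t * ∑ b, (r (t * b) : ℂ) * (saw b : ℂ) =
          (∑ u : (ZMod p)ˣ, χ u * (r u : ℂ)) * ∑ b, χ⁻¹ b * (saw b : ℂ) := by
        simp only [Finset.mul_sum]
        rw [Finset.sum_comm]
        refine Finset.sum_congr rfl fun b _ => ?_
        rw [← mul_assoc, ← mul_comm (χ⁻¹ b), ← h1 b, Finset.sum_mul]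
        exact Finset.sum_congr rfl fun t _ => by ring
      rw [h3] at h2
      rcases mul_eq_zero.1 h2 with h4 | h4
      · exact h4
      · exfalso
        apply ha
        -- the sum over units
        let ua : (ZMod p)ˣ := Units.mk0 a ha0
        have hua : (ua : ZMod p) = a := rfl
        have h5 : SS χ⁻¹ a = χ a * ∑ u : (ZMod p)ˣ, χ⁻¹ u * (saw (u : ZMod p) : ℂ) := by
          unfold SS
          rw [Finset.mul_sum, ← Equiv.sum_comp (Equiv.mulRight ua) (fun u : (ZMod p)ˣ =>
            χ a * (χ⁻¹ u * (saw (u : ZMod p) : ℂ)))]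
          refine Finset.sum_congr rfl fun t _ => ?_
          rw [Equiv.coe_mulRight, Units.val_mul, hua, map_mul]
          have h6 : χ⁻¹ a * χ a = 1 := by
            rw [MulChar.inv_apply_eq_inv']
            exact inv_mul_cancel₀ (by
              rw [← hua]
              exact (ua.isUnit.map χ).ne_zero)
          linear_combination (-(χ⁻¹ t * (saw ((t : ZMod p) * a) : ℂ))) * h6
        have h6 : ∑ u : (ZMod p)ˣ, χ⁻¹ u * (saw (u : ZMod p) : ℂ) =
            ∑ b : ZMod p, χ⁻¹ b * (saw b : ℂ) := by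
          rw [← Finset.sum_filter_add_sum_filter_not univ (fun b : ZMod p => b ≠ 0)
            (fun b => χ⁻¹ b * (saw b : ℂ))]
          have h7 : ∑ b ∈ univ.filter (fun b : ZMod p => ¬ b ≠ 0), χ⁻¹ b * (saw b : ℂ) = 0 := by
            refine Finset.sum_eq_zero fun b hb => ?_
            have : b = 0 := by simpa using hb
            rw [this, saw_zero]
            simp
          rw [h7, add_zero]
          refine Finset.sum_bij' (fun (u : (ZMod p)ˣ) _ => (u : ZMod p))
            (fun b hb => Units.mk0 b (Finset.mem_filter.1 hb).2) ?_ ?_ ?_ ?_ ?_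
          · intro u _
            exact Finset.mem_filter.2 ⟨Finset.mem_univ _, u.ne_zero⟩
          · intro b _
            exact Finset.mem_univ _
          · intro u _
            exact Units.mk0_val u _
          · intro b _
            rfl
          · intro u _
            rfl
        rw [h5, h6, h4, mul_zero]
  -- orthogonality
  intro b
  by_cases hb : b = 0
  · rw [hb, hr0]
  let ub : (ZMod p)ˣ := Units.mk0 b hb
  have hub : (ub : ZMod p) = b := rfl
  have h1 : ∑ χ : DirichletCharacter ℂ p, χ b⁻¹ * ∑ u : (ZMod p)ˣ, χ u * (r u : ℂ) = 0 := by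
    refine Finset.sum_eq_zero fun χ _ => ?_
    rw [hsum, mul_zero]
  simp only [Finset.mul_sum] at h1
  rw [Finset.sum_comm] at h1
  have h2 : ∀ u : (ZMod p)ˣ, ∑ χ : DirichletCharacter ℂ p, χ b⁻¹ * (χ u * (r u : ℂ)) =
      if u = ub then ((p.totient : ℕ) : ℂ) * (r b : ℂ) else 0 := by
    intro u
    have h3 := DirichletCharacter.sum_char_inv_mul_char_eq ℂ ub.isUnit (u : ZMod p)
    have h4 : ∑ χ : DirichletCharacter ℂ p, χ b⁻¹ * (χ u * (r u : ℂ)) =
        (∑ χ : DirichletCharacter ℂ p, χ (ub : ZMod p)⁻¹ * χ (u : ZMod p)) * (r u : ℂ) := by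
      rw [Finset.sum_mul]
      refine Finset.sum_congr rfl fun χ _ => ?_
      rw [hub]
      ring
    rw [h4, h3]
    by_cases hu : u = ub
    · rw [hu, if_pos rfl, if_pos rfl, hub]
    · rw [if_neg hu, if_neg (fun h => hu (Units.ext h.symm)), zero_mul]
  rw [Finset.sum_congr rfl fun u _ => h2 u, Finset.sum_ite_eq' univ ub (fun _ =>
    ((p.totient : ℕ) : ℂ) * (r b : ℂ)), if_pos (Finset.mem_univ _)] at h1
  rcases mul_eq_zero.1 h1 with h5 | h5
  · exfalso
    have : 0 < p.totient := Nat.totient_pos.2 hp.out.pos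
    exact this.ne' (by exact_mod_cast h5)
  · exact_mod_cast h5

end Pool.Agent.H842.CR
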