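import Pool.Agent.H842.CR.Defs

/-!
# Linear maps which extend automorphisms of cyclotomic fields
-/

set_option linter.unusedSectionVars false

open Polynomial

namespace Pool.Agent.H842.CR

theorem zt_prim (n : ℕ) (hn : n ≠ 0) : IsPrimitiveRoot (zt n) n :=
  Complex.isPrimitiveRoot_exp n hn

theorem zt_pow {a b : ℕ} (ha : a ≠ 0) (hb : b ≠ 0) : zt (a * b) ^ b = zt a := by
  unfold zt
  rw [← Complex.exp_nat_mul]
  congr 1
  have h1 : (a : ℂ) ≠ 0 := by exact_mod_cast ha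
  have h2 : (b : ℂ) ≠ 0 := by exact_mod_cast hb
  push_cast
  field_simp

/-- a linear map with given values on the powers of a root of unity -/
theorem exists_lin {N t : ℕ} (hN : 0 < N) (ht : Nat.Coprime t N) :
    ∃ τ : ℂ →ₗ[ℚ] ℂ, ∀ j : ℕ, τ (zt N ^ j) = zt N ^ (t * j) := by
  have hζ := zt_prim N hN.ne'
  have hζt : IsPrimitiveRoot (zt N ^ t) N := hζ.pow_of_coprime t ht
  let A : ℚ[X] →ₗ[ℚ] ℂ := (aeval (zt N)).toLinearMap
  let B : ℚ[X] →ₗ[ℚ] ℂ := (aeval (zt N ^ t)).toLinearMap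
  have hker : LinearMap.ker A ≤ LinearMap.ker B := by
    intro P hP
    have h1 : aeval (zt N) P = 0 := hP
    have h2 : minpoly ℚ (zt N) ∣ P := minpoly.dvd _ _ h1
    rw [← cyclotomic_eq_minpoly_rat hζ hN, cyclotomic_eq_minpoly_rat hζt hN] at h2
    obtain ⟨R, rfl⟩ := h2
    show aeval (zt N ^ t) _ = 0
    rw [map_mul, minpoly.aeval, zero_mul]
  let g : (ℚ[X] ⧸ LinearMap.ker A) →ₗ[ℚ] ℂ := (LinearMap.ker A).liftQ B hker
  let e := A.quotKerEquivRange
  obtain ⟨τ, hτ⟩ := LinearMap.exists_extend (g ∘ₗ (e.symm : LinearMap.range A →ₗ[ℚ] _))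
  refine ⟨τ, fun j => ?_⟩
  have h1 : τ (A (X ^ j)) = B (X ^ j) := by
    have h2 := LinearMap.congr_fun hτ ⟨A (X ^ j), LinearMap.mem_range_self _ _⟩
    have h3 : e.symm ⟨A (X ^ j), LinearMap.mem_range_self _ _⟩ =
        (LinearMap.ker A).mkQ (X ^ j) := by
      rw [LinearEquiv.symm_apply_eq]
      rfl
    have h4 : g (e.symm ⟨A (X ^ j), LinearMap.mem_range_self _ _⟩) = B (X ^ j) := by
      rw [h3]
      rfl
    exact h2.trans h4
  have h5 : A (X ^ j) = zt N ^ j := by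
    show aeval (zt N) (X ^ j) = _
    rw [map_pow, aeval_X]
  have h6 : B (X ^ j) = zt N ^ (t * j) := by
    show aeval (zt N ^ t) (X ^ j) = _
    rw [map_pow, aeval_X, ← pow_mul]
  rw [← h5, h1, h6]

theorem zt_mod {p a b : ℕ} (hp : p ≠ 0) (h : a ≡ b [MOD p]) : zt p ^ a = zt p ^ b := by
  have h1 := (zt_prim p hp).pow_eq_one
  rw [← Nat.div_add_mod a p, ← Nat.div_add_mod b p, pow_add, pow_add, pow_mul, pow_mul, h1,
    one_pow, one_pow, one_mul, one_mul, h]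

/-- the linear map which is an automorphism of one cyclotomic field and the identity on others -/
theorem exists_gal {p M : ℕ} (hp : p.Prime) (hM : 0 < M) (hpM : Nat.Coprime p M) (t0 : ℕ)
    (ht0 : Nat.Coprime t0 p) :
    ∃ τ : ℂ →ₗ[ℚ] ℂ, (∀ j : ℕ, τ (zt p ^ j) = zt p ^ (t0 * j)) ∧
      ∀ q : ℕ, q ∣ M → ∀ j : ℕ, τ (zt q ^ j) = zt q ^ j := by
  obtain ⟨t, ht1, ht2⟩ := Nat.chineseRemainder hpM t0 1
  have hc1 : Nat.Coprime t p := by
    unfold Nat.Coprime at ht0 ⊢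
    rw [← ht0]
    exact ht1.gcd_eq
  have hc2 : Nat.Coprime t M := by
    unfold Nat.Coprime
    rw [ht2.gcd_eq, Nat.gcd_one_left]
  obtain ⟨τ, hτ⟩ := exists_lin (Nat.mul_pos hp.pos hM) (Nat.Coprime.mul_right hc1 hc2)
  refine ⟨τ, fun j => ?_, ?_⟩
  · rw [← zt_pow hp.ne_zero hM.ne', ← pow_mul, hτ, ← pow_mul]
    have h1 : zt (p * M) ^ (t * (M * j)) = zt p ^ (t * j) := by
      rw [← zt_pow hp.ne_zero hM.ne', ← pow_mul]
      congr 1
      ring
    have h2 : zt (p * M) ^ (M * (t0 * j)) = zt p ^ (t0 * j) := by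
      rw [← zt_pow hp.ne_zero hM.ne', ← pow_mul]
    rw [h1, h2]
    exact zt_mod hp.ne_zero (ht1.mul_right j)
  · rintro q ⟨M', rfl⟩ j
    have hq0 : q ≠ 0 := by
      rintro rfl
      simp at hM
    have hM0 : M' ≠ 0 := by
      rintro rfl
      simp at hM
    have h0 : zt (p * (q * M')) ^ (p * M') = zt q := by
      have : p * (q * M') = q * (p * M') := by ring
      rw [this]
      exact zt_pow hq0 (Nat.mul_ne_zero hp.ne_zero hM0)
    rw [← h0, ← pow_mul, hτ]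
    have h1 : zt (p * (q * M')) ^ (t * (p * M' * j)) = zt q ^ (t * j) := by
      rw [← h0, ← pow_mul]
      congr 1
      ring
    have h2 : zt (p * (q * M')) ^ (p * M' * j) = zt q ^ j := by
      rw [← h0, ← pow_mul]
    rw [h1, h2]
    apply zt_mod hq0
    have h3 : t ≡ 1 [MOD q] := Nat.ModEq.of_dvd (Dvd.intro M' rfl) ht2
    simpa using h3.mul_right j

end Pool.Agent.H842.CR
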