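import Pool.Agent.H842.CR.Tr
import Pool.Agent.H842.CR.Comb
import Pool.Agent.H842.CR.Gal

/-!
# Cyclic coverings of prime degree of projective spaces
-/

set_option linter.unusedSectionVars false

open Matrix Finset Function

namespace Pool.Agent.H842.CR

open Pool.Agent.TH125.Nod Pool.Agent.H916R2

/-- the factor of the determinants -/
noncomputable def Cst (p m n : ℕ) : ℚ := -((AN (p * m) (n + 1) : ℚ) - (-1) ^ n * (n + 1)) / p

theorem saw_ne {e : ℕ} {c : ZMod e} (h : c ≠ 0) : saw c = 2 * (c.val : ℤ) - e := by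
  unfold saw
  rw [if_neg h]

theorem inner_sum {p m n : ℕ} [NeZero p] [NeZero (p * m)] {b : ZMod p}
    (hb : b ≠ 0) :
    ∑ a : Tup (p * m) (n + 1) (-((m * b.val : ℕ) : ZMod (p * m))),
      (((n : ℚ) + 2) - 2 * ((m * b.val + ∑ j, (a.1 j).val : ℕ) : ℚ) / ((p * m : ℕ) : ℚ)) =
      Cst p m n * (saw b : ℚ) := by
  have hp0 : (p : ℚ) ≠ 0 := by exact_mod_cast (NeZero.ne p)
  have hm0 : (m : ℚ) ≠ 0 := by
    have := NeZero.ne (p * m)
    have h2 : m ≠ 0 := fun h => this (by rw [h, mul_zero])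
    exact_mod_cast h2
  have hmpos : 0 < m := Nat.pos_of_ne_zero (by exact_mod_cast hm0)
  -- the residue `m b`
  set z0 : ZMod (p * m) := ((m * b.val : ℕ) : ZMod (p * m)) with hz0
  have hval : z0.val = m * b.val := by
    rw [hz0, ZMod.val_natCast, Nat.mod_eq_of_lt]
    rw [mul_comm p m]
    exact Nat.mul_lt_mul_of_pos_left (ZMod.val_lt b) hmpos
  have hz0ne : z0 ≠ 0 := by
    intro h
    rw [h, ZMod.val_zero] at hval
    have h1 : b.val ≠ 0 := by rwa [ne_eq, ZMod.val_eq_zero]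
    have : 0 < m * b.val := Nat.mul_pos hmpos (Nat.pos_of_ne_zero h1)
    omega
  have hsaw : saw z0 = m * saw b := by
    rw [saw_ne hz0ne, saw_ne hb, hval]
    push_cast
    ring
  have hterm : ∀ a : Tup (p * m) (n + 1) (-z0),
      (((n : ℚ) + 2) - 2 * ((m * b.val + ∑ j, (a.1 j).val : ℕ) : ℚ) / ((p * m : ℕ) : ℚ)) =
      ((-1 / ((p * m : ℕ) : ℚ)) * (((m : ℤ) * saw b + ∑ j, saw (a.1 j) : ℤ) : ℚ)) := by
    intro a
    have h1 : ∑ j, saw (a.1 j) = 2 * ((∑ j, (a.1 j).val : ℕ) : ℤ) - (n + 1) * (p * m : ℕ) := by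
      have : ∀ j, saw (a.1 j) = 2 * ((a.1 j).val : ℤ) - (p * m : ℕ) := fun j => saw_ne (a.2.1 j)
      simp only [this, Finset.sum_sub_distrib, ← Finset.mul_sum, Finset.sum_const,
        Finset.card_univ, Fintype.card_fin, nsmul_eq_mul]
      push_cast
      ring
    rw [h1, saw_ne hb]
    push_cast
    field_simp
    ring
  rw [Finset.sum_congr rfl fun a _ => hterm a]
  have h2 : ∑ a : Tup (p * m) (n + 1) (-z0),
      ((-1 / ((p * m : ℕ) : ℚ)) * (((m : ℤ) * saw b + ∑ j, saw (a.1 j) : ℤ) : ℚ)) =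
      ((-1 / ((p * m : ℕ) : ℚ)) * ((cnt (p * m) (n + 1) (-z0) * ((m : ℤ) * saw b) +
        ent saw (n + 1) (-z0) : ℤ) : ℚ)) := by
    unfold cnt ent
    push_cast
    rw [← Finset.mul_sum, Finset.sum_add_distrib, Finset.sum_const, Finset.card_univ,
      nsmul_eq_mul]
  rw [h2, cnt_eq, ent_eq saw saw_zero sum_saw, if_neg (neg_ne_zero.2 hz0ne), saw_neg, hsaw]
  unfold Cst
  push_cast
  field_simp
  ring

/-- trace as a sum of eigenvalues -/
theorem trace_basis {B : Type} [Fintype B] [DecidableEq B] {I : Type} [Fintype I] [DecidableEq I]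
    (v : Module.Basis I ℂ (B → ℂ)) {X : Matrix B B ℂ} (μ : I → ℂ)
    (h : ∀ s, X *ᵥ v s = μ s • v s) : trace X = ∑ s, μ s := by
  have h1 := LinearMap.trace_eq_matrix_trace ℂ v (Matrix.toLin' X)
  have h2 := LinearMap.trace_eq_matrix_trace ℂ (Pi.basisFun ℂ B) (Matrix.toLin' X)
  have h3 : LinearMap.toMatrix (Pi.basisFun ℂ B) (Pi.basisFun ℂ B) (Matrix.toLin' X) = X :=
    LinearMap.toMatrix'_toLin' X
  rw [h3, h1] at h2
  rw [← h2]
  unfold trace
  refine Finset.sum_congr rfl fun s _ => ?_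
  rw [Matrix.diag_apply, LinearMap.toMatrix_apply]
  have h4 : (Matrix.toLin' X) (v s) = μ s • v s := h s
  rw [h4, map_smul, Module.Basis.repr_self, Finsupp.smul_apply, Finsupp.single_eq_same,
    smul_eq_mul, mul_one]

variable {B : Type} [Fintype B] [DecidableEq B] {D : Type} [Fintype D]
  [DecidableEq D] {ι : Type} [DecidableEq ι] {k : ℕ}

/-- decomposition of the characters -/
def idxEquiv (p m n : ℕ) : CyclicIndex p m n ≃
    Σ b : {b : ZMod p // b ≠ 0}, Tup (p * m) (n + 1) (-((m * b.1.val : ℕ) : ZMod (p * m))) where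
  toFun a := ⟨⟨a.1.1, a.2.1⟩, ⟨a.1.2, a.2.2.1, by
    have := a.2.2.2
    exact eq_neg_of_add_eq_zero_right this⟩⟩
  invFun a := ⟨(a.1.1, a.2.1), a.1.2, a.2.2.1, by
    have := a.2.2.2
    show _ + ∑ j, a.2.1 j = 0
    rw [this]
    exact add_neg_cancel _⟩
  left_inv _ := rfl
  right_inv _ := rfl

/-- cyclic coverings of projective spaces -/
theorem IsCyclicCover.hasTypes {κ : B → ι} {T : Matrix B B ℚ} {x0 : Matrix B B ℂ}
    {p m n : ι → ℕ} (hp : ∀ i, 0 < p i) (hm : ∀ i, 0 < m i)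
    (hC : IsCyclicCover κ T x0 p m n) : HasTypes κ T x0 p (fun i => Cst (p i) (m i) (n i)) := by
  classical
  obtain ⟨v, hv⟩ := hC
  have : ∀ i, NeZero (p i) := fun i => ⟨(hp i).ne'⟩
  have : ∀ i, NeZero (p i * m i) := fun i => ⟨Nat.mul_ne_zero (hp i).ne' (hm i).ne'⟩
  have hF : ∀ i, Fintype (CyclicIndex (p i) (m i) (n i)) := fun i =>
    Fintype.ofEquiv _ (idxEquiv (p i) (m i) (n i)).symm
  refine ⟨fun i => CyclicIndex (p i) (m i) (n i), hF, fun i a => a.1.1, fun i a => a.deg, v, hv,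
    fun i a => a.2.1, fun i b hb => ?_⟩
  have h1 := inner_sum (p := p i) (m := m i) (n := n i) hb
  rw [saw_ne hb] at h1
  push_cast at h1
  rw [← h1]
  symm
  refine Finset.sum_bij (fun a _ => (idxEquiv (p i) (m i) (n i)).symm ⟨⟨b, hb⟩, a⟩) ?_ ?_ ?_ ?_
  · intro a _
    rw [Finset.mem_filter]
    exact ⟨Finset.mem_univ _, rfl⟩
  · intro a _ a' _ h2
    have h3 := (idxEquiv (p i) (m i) (n i)).symm.injective h2
    rw [Sigma.mk.injEq] at h3
    exact eq_of_heq h3.2
  · intro a ha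
    rw [Finset.mem_filter] at ha
    obtain ⟨-, rfl⟩ := ha
    exact ⟨⟨a.1.2, a.2.2.1, eq_neg_of_add_eq_zero_right a.2.2.2⟩, Finset.mem_univ _, rfl⟩
  · intro a _
    show _ = CyclicIndex.deg _
    unfold CyclicIndex.deg
    push_cast
    rfl

/-- the traces of the Hodge operator -/
theorem trace_types [Fintype ι] {κ : B → ι} {T : Matrix B B ℚ} {x0 : Matrix B B ℂ}
    {p : ι → ℕ} {C : ι → ℚ} [∀ i, NeZero (p i)]
    (hC : HasTypes κ T x0 p C) (i : ι) (j : ℕ) :
    trace (x0 * mC (T ^ j * diagonal (fun a => if κ a = i then (1 : ℚ) else 0))) =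
      ∑ b : ZMod (p i), (zt (p i)) ^ (j * b.val) * ((C i * (saw b : ℚ) : ℚ) : ℂ) := by
  classical
  obtain ⟨S, hS, β, dg, v, hv, hβ, hsum⟩ := hC
  have h1 : ∀ s : Σ i, S i,
      (x0 * mC (T ^ j * diagonal (fun a => if κ a = i then (1 : ℚ) else 0))) *ᵥ v s =
      (if s.1 = i then (zt (p s.1) ^ (β s.1 s.2).val) ^ j * (dg s.1 s.2 : ℂ) else 0) • v s := by
    rintro ⟨i', a⟩
    obtain ⟨h1, h2, h3⟩ := hv i' a
    have h4 : mC (diagonal (fun a => if κ a = i then (1 : ℚ) else 0)) *ᵥ v ⟨i', a⟩ =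
        (if i' = i then (1 : ℂ) else 0) • v ⟨i', a⟩ := by
      funext q
      have h5 : mC (diagonal (fun a => if κ a = i then (1 : ℚ) else 0)) =
          diagonal (fun a => if κ a = i then (1 : ℂ) else 0) := by
        unfold mC
        rw [Matrix.diagonal_map (by simp)]
        congr 1
        funext a
        split_ifs <;> simp
      rw [h5, mulVec_diagonal, Pi.smul_apply, smul_eq_mul]
      by_cases hq : κ q = i'
      · rw [hq]
      · rw [h1 q hq, mul_zero, mul_zero]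
    rw [mC_mul, mC_pow, ← mulVec_mulVec, ← mulVec_mulVec, h4, mulVec_smul, mulVec_smul,
      pow_eig h2, mulVec_smul, h3, smul_smul, smul_smul]
    congr 1
    show (if i' = i then (1 : ℂ) else 0) * (zt (p i') ^ (β i' a).val) ^ j * (dg i' a : ℂ) =
      if i' = i then (zt (p i') ^ (β i' a).val) ^ j * (dg i' a : ℂ) else 0
    split_ifs
    · rw [one_mul]
    · rw [zero_mul, zero_mul]
  rw [trace_basis v _ h1, Fintype.sum_sigma, Finset.sum_eq_single i]
  rotate_left
  · intro i' _ hi'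
    refine Finset.sum_eq_zero fun a _ => ?_
    rw [if_neg hi']
  · intro h
    exact absurd (Finset.mem_univ _) h
  simp only [if_true]
  rw [← Finset.sum_fiberwise univ (β i)]
  refine Finset.sum_congr rfl fun b _ => ?_
  have h6 : ∑ s ∈ univ.filter (fun s => β i s = b),
      (zt (p i) ^ (β i s).val) ^ j * (dg i s : ℂ) =
      ∑ s ∈ univ.filter (fun s => β i s = b), (zt (p i)) ^ (j * b.val) * (dg i s : ℂ) := by
    refine Finset.sum_congr rfl fun s hs => ?_
    rw [(Finset.mem_filter.1 hs).2, ← pow_mul, mul_comm j]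
  rw [h6, ← Finset.mul_sum]
  congr 1
  by_cases hb : b = 0
  · rw [Finset.sum_eq_zero, hb, saw_zero]
    · simp
    · intro s hs
      exact absurd ((Finset.mem_filter.1 hs).2.trans hb) (hβ i s)
  · have h7 := hsum i b hb
    rw [saw_ne hb]
    push_cast
    rw [← Rat.cast_sum, h7]
    push_cast
    ring

/-- powers of a primitive root of unity of odd prime order are not real -/
theorem zt_th {p : ℕ} (hp : p.Prime) (hp2 : p ≠ 2) {b : ZMod p} (hb : b ≠ 0) :
    zt p ^ b.val ≠ 0 ∧ (zt p ^ b.val) ^ 2 ≠ 1 := by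
  have : NeZero p := ⟨hp.ne_zero⟩
  have h1 := zt_prim p hp.ne_zero
  refine ⟨pow_ne_zero _ (h1.ne_zero hp.ne_zero), ?_⟩
  intro h
  rw [← pow_mul, h1.pow_eq_one_iff_dvd] at h
  rcases hp.dvd_mul.1 h with h2 | h2
  · have h3 : b.val ≠ 0 := by rwa [ne_eq, ZMod.val_eq_zero]
    have h4 := Nat.le_of_dvd (Nat.pos_of_ne_zero h3) h2
    have h5 := ZMod.val_lt b
    omega
  · have := (Nat.prime_two.eq_one_or_self_of_dvd p h2)
    rcases this with h3 | h3
    · exact hp.one_lt.ne' h3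
    · exact hp2 h3

/-- the eigenvalues of `T` on the block `i` are powers of the root of unity -/
theorem eig_cyclic {κ : B → ι} {T : Matrix B B ℚ} {x0 : Matrix B B ℂ} {d : ℕ}
    {p : ι → ℕ} {C : ι → ℚ} (hC : HasTypes κ T x0 p C) {P : Matrix B B ℂ} {κ' : B → ι × Th}
    (hE : EB κ T d P κ') (b0 : B) :
    ∃ b : ZMod (p (κ' b0).1), b ≠ 0 ∧ ((κ' b0).2.1 : ℂ) = zt (p (κ' b0).1) ^ b.val := by
  classical
  obtain ⟨S, hS, β, dg, v, hv, hβ, hsum⟩ := hC
  set w := P.col b0 with hw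
  have hw0 : w ≠ 0 := col_ne hE.det b0
  have hr : v.repr w ≠ 0 := fun h => hw0 (by
    have := congrArg v.repr.symm h
    simpa using this)
  obtain ⟨⟨i, a⟩, hs⟩ := Finsupp.ne_iff.1 hr
  rw [Finsupp.zero_apply] at hs
  obtain ⟨h1, h2, h3⟩ := hv i a
  -- the projection to the block
  have hpr : ∀ (N : Matrix B B ℂ) (μ : (Σ i, S i) → ℂ) (c : ℂ),
      (∀ s, N *ᵥ v s = μ s • v s) → N *ᵥ w = c • w → μ ⟨i, a⟩ = c := by
    intro N μ c hN hc
    have h4 : ∀ z : B → ℂ, v.repr (N *ᵥ z) ⟨i, a⟩ = μ ⟨i, a⟩ * v.repr z ⟨i, a⟩ := by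
      intro z
      let L1 : (B → ℂ) →ₗ[ℂ] ℂ := (v.coord ⟨i, a⟩) ∘ₗ (Matrix.toLin' N)
      let L2 : (B → ℂ) →ₗ[ℂ] ℂ := μ ⟨i, a⟩ • v.coord ⟨i, a⟩
      have h5 : L1 = L2 := by
        refine v.ext fun s => ?_
        show v.repr (Matrix.toLin' N (v s)) ⟨i, a⟩ = μ ⟨i, a⟩ * v.repr (v s) ⟨i, a⟩
        rw [Matrix.toLin'_apply, hN, map_smul, Finsupp.smul_apply, smul_eq_mul,
          Module.Basis.repr_self]
        by_cases hs' : s = ⟨i, a⟩
        · rw [hs']
        · rw [Finsupp.single_apply, if_neg hs', mul_zero, mul_zero]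
      exact LinearMap.congr_fun h5 z
    have h6 := h4 w
    rw [hc, map_smul, Finsupp.smul_apply, smul_eq_mul] at h6
    exact (mul_right_cancel₀ hs h6).symm
  have hi : i = (κ' b0).1 := by
    by_contra hcon
    have h4 := hpr (diagonal (fun q => if κ q = (κ' b0).1 then (1 : ℂ) else 0))
      (fun s => if s.1 = (κ' b0).1 then 1 else 0) 1 (by
        rintro ⟨i', a'⟩
        funext q
        rw [mulVec_diagonal, Pi.smul_apply, smul_eq_mul]
        by_cases hq : κ q = i'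
        · rw [hq]
        · rw [(hv i' a').1 q hq, mul_zero, mul_zero]) (by
        rw [one_smul]
        funext q
        rw [mulVec_diagonal]
        by_cases hq : κ q = (κ' b0).1
        · rw [if_pos hq, one_mul]
        · rw [if_neg hq, zero_mul]
          exact (hE.sup b0 q hq).symm)
    simp only [if_neg hcon] at h4
    exact zero_ne_one h4
  subst hi
  have h5 := hpr (mC T) (fun s => zt (p s.1) ^ (β s.1 s.2).val) ((κ' b0).2.1 : ℂ)
    (fun s => (hv s.1 s.2).2.1) (hE.eig b0)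
  exact ⟨β _ a, hβ _ a, h5.symm⟩

/-- an eigenvalue which is not real -/
def mkTh {z : ℂ} (h : z ≠ 0 ∧ z ^ 2 ≠ 1) : Th := ⟨z, h⟩

section assembly
variable {E : Type} {U : Set E} {x : E → Matrix B B ℂ} {y : E → Matrix D D ℂ}
    {κ : B → ι} {Q T : Matrix B B ℚ} {d : ℕ} {sg : ι → ℚ} {p : ι → ℕ} {C : ι → ℚ}

/-- the weights as functions on residues -/
noncomputable def rr (hp : ∀ i, (p i).Prime) (hp2 : ∀ i, p i ≠ 2) (κ' : B → ι × Th)
    (c : Fin k → ι × Th) (i : ι) (b : ZMod (p i)) : ℚ :=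
  if hb : b ≠ 0 then wt κ' sig c (i, mkTh (zt_th (hp i) (hp2 i) hb)) else 0

theorem rr_neg (hp : ∀ i, (p i).Prime) (hp2 : ∀ i, p i ≠ 2)
    (h : Glob κ Q T d sg (mm U x y)) {P : Matrix B B ℂ} {κ' : B → ι × Th} (hE : EB κ T d P κ')
    (c : Fin k → ι × Th) (i : ι) (b : ZMod (p i)) :
    rr hp hp2 κ' c i (-b) = - rr hp hp2 κ' c i b := by
  have : NeZero (p i) := ⟨(hp i).ne_zero⟩
  unfold rr
  by_cases hb : b = 0
  · subst hb
    simp
  · rw [dif_pos (neg_ne_zero.2 hb), dif_pos hb, ← wt_σ (h.dat hE)]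
    congr 1
    unfold sig
    congr 1
    apply Subtype.ext
    show zt (p i) ^ (-b).val = (zt (p i) ^ b.val)⁻¹
    have h1 := (zt_prim (p i) (hp i).ne_zero).pow_eq_one
    have : NeZero b := ⟨hb⟩
    rw [ZMod.val_neg_of_ne_zero]
    apply eq_inv_of_mul_eq_one_left
    rw [← pow_add, Nat.sub_add_cancel (ZMod.val_lt b).le, h1]

/-- the relation with given linear map -/
theorem rel_tau [Fintype ι] [∀ i, NeZero (p i)] (hp : ∀ i, (p i).Prime) (hp2 : ∀ i, p i ≠ 2)
    (h : Glob κ Q T d sg (mm U x y)) {P : Matrix B B ℂ} {κ' : B → ι × Th} (hE : EB κ T d P κ')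
    (hxT : ∀ u ∈ U, x u * mC T = mC T * x u)
    (hxb : ∀ u ∈ U, ∀ a b, κ a ≠ κ b → x u a b = 0)
    (hxs : ∀ u ∈ U, (x u)ᵀ * mC Q + mC Q * x u = 0) (hD : NoChar U y)
    {f : (Fin k → B) → D → ℚ} (hf : ∀ u ∈ U, act (x u, y u) (cx f) = 0)
    {c : Fin k → ι × Th} (hc : prt κ' c (pul P 1 (cx f)) ≠ 0) {u : E} (hu : u ∈ U)
    (hC : HasTypes κ T (x u) p C)
    (t : ∀ i, (ZMod (p i))ˣ) {τ : ℂ →ₗ[ℚ] ℂ}
    (hτ : ∀ i j, τ (zt (p i) ^ j) = zt (p i) ^ ((t i : ZMod (p i)).val * j)) :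
    ∑ i, C i * ∑ b, rr hp hp2 κ' c i (t i * b) * (saw b : ℚ) = 0 := by
  classical
  have h0 := central h hE hxT hxb hxs hD hf hc hu τ
  have hd0 : (d : ℂ) ≠ 0 := by
    exact_mod_cast (by have := h.dpos; omega : d ≠ 0)
  -- the inner sums
  have hin : ∀ q ∈ univ.image κ', ((d : ℂ)⁻¹ * ∑ j ∈ range d,
      ((q.2.1 : ℂ)⁻¹) ^ j * τ (trace (x u * mC (T ^ j *
        diagonal (fun a => if κ a = q.1 then (1 : ℚ) else 0))))) =
      ∑ b : ZMod (p q.1), if (q.2.1 : ℂ) = zt (p q.1) ^ ((t q.1 * b : ZMod (p q.1))).val then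
        ((C q.1 * (saw b : ℚ) : ℚ) : ℂ) else 0 := by
    intro q hq
    obtain ⟨b0, -, hb0⟩ := Finset.mem_image.1 hq
    have hone : (q.2.1 : ℂ) ^ d = 1 := by
      rw [← hb0]
      exact hE.one b0
    have h1 : ∀ j, τ (trace (x u * mC (T ^ j *
        diagonal (fun a => if κ a = q.1 then (1 : ℚ) else 0)))) =
        ∑ b : ZMod (p q.1), (zt (p q.1) ^ ((t q.1 * b : ZMod (p q.1))).val) ^ j *
          ((C q.1 * (saw b : ℚ) : ℚ) : ℂ) := by
      intro j
      rw [trace_types hC q.1 j, map_sum]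
      refine Finset.sum_congr rfl fun b _ => ?_
      rw [lin_mulC', hτ]
      congr 1
      rw [← pow_mul]
      apply zt_mod (hp _).ne_zero
      have h2 : ((t q.1 * b : ZMod (p q.1))).val ≡ (t q.1 : ZMod (p q.1)).val * b.val
          [MOD p q.1] := by
        rw [ZMod.val_mul]
        exact Nat.mod_modEq _ _
      have h3 := (h2.mul_right j).symm
      have e1 : (t q.1 : ZMod (p q.1)).val * (j * b.val) =
        (t q.1 : ZMod (p q.1)).val * b.val * j := by ring
      rw [e1]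
      exact h3
    simp only [h1, Finset.mul_sum]
    rw [Finset.sum_comm]
    refine Finset.sum_congr rfl fun b _ => ?_
    have hzd : (zt (p q.1) ^ ((t q.1 * b : ZMod (p q.1))).val) ^ d = 1 := by
      -- the order of `T` is divisible by `p`
      have hpd : p q.1 ∣ d := by
        have h2 := hone
        obtain ⟨b2, hb2, hb2'⟩ := eig_cyclic hC hE b0
        have h3 := hE.one b0
        rw [hb2', ← pow_mul, (zt_prim _ (hp _).ne_zero).pow_eq_one_iff_dvd] at h3
        rcases (hp _).dvd_mul.1 h3 with h4 | h4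
        · exfalso
          have h5 : b2.val ≠ 0 := by rwa [ne_eq, ZMod.val_eq_zero]
          have h6 := Nat.le_of_dvd (Nat.pos_of_ne_zero h5) h4
          have h7 := ZMod.val_lt b2
          omega
        · rwa [hb0] at h4
      rw [← pow_mul, mul_comm, pow_mul]
      have h8 : zt (p q.1) ^ d = 1 := by
        rw [(zt_prim _ (hp _).ne_zero).pow_eq_one_iff_dvd]
        exact hpd
      rw [h8, one_pow]
    have h4 : ∑ j ∈ range d, (d : ℂ)⁻¹ * (((q.2.1 : ℂ)⁻¹) ^ j *
        ((zt (p q.1) ^ ((t q.1 * b : ZMod (p q.1))).val) ^ j *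
          ((C q.1 * (saw b : ℚ) : ℚ) : ℂ))) =
        (d : ℂ)⁻¹ * (∑ j ∈ range d, ((q.2.1 : ℂ)⁻¹ *
          zt (p q.1) ^ ((t q.1 * b : ZMod (p q.1))).val) ^ j) *
          ((C q.1 * (saw b : ℚ) : ℚ) : ℂ) := by
      rw [Finset.mul_sum, Finset.sum_mul]
      refine Finset.sum_congr rfl fun j _ => ?_
      rw [mul_pow]
      ring
    rw [h4, geom h hE (by rw [mul_pow, inv_pow, hone, hzd, inv_one, mul_one])]
    by_cases h5 : (q.2.1 : ℂ) = zt (p q.1) ^ ((t q.1 * b : ZMod (p q.1))).val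
    · rw [if_pos h5, if_pos (by rw [← h5]; exact inv_mul_cancel₀ q.2.2.1), inv_mul_cancel₀ hd0,
        one_mul]
    · rw [if_neg h5, if_neg, mul_zero, zero_mul]
      intro h6
      exact h5 (inv_mul_eq_one₀ q.2.2.1 |>.1 h6)
  rw [Finset.sum_congr rfl fun q hq => by rw [hin q hq]] at h0
  -- regrouping
  have h1 : ∑ q ∈ univ.image κ', (wt κ' sig c q : ℂ) *
      (∑ b : ZMod (p q.1), if (q.2.1 : ℂ) = zt (p q.1) ^ ((t q.1 * b : ZMod (p q.1))).val then
        ((C q.1 * (saw b : ℚ) : ℚ) : ℂ) else 0) =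
      ((∑ i, C i * ∑ b, rr hp hp2 κ' c i (t i * b) * (saw b : ℚ) : ℚ) : ℂ) := by
    have h2 : ∀ q ∈ univ.image κ', (wt κ' sig c q : ℂ) *
        (∑ b : ZMod (p q.1), if (q.2.1 : ℂ) = zt (p q.1) ^ ((t q.1 * b : ZMod (p q.1))).val then
          ((C q.1 * (saw b : ℚ) : ℚ) : ℂ) else 0) =
        ∑ i, ∑ b : ZMod (p i), if q.1 = i ∧ (q.2.1 : ℂ) = zt (p i) ^ ((t i * b : ZMod (p i))).val
          then ((rr hp hp2 κ' c i (t i * b) * (C i * (saw b : ℚ)) : ℚ) : ℂ)
          else 0 := by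
      rintro ⟨i, z⟩ hq
      rw [Finset.sum_eq_single i]
      rotate_left
      · intro i' _ hi'
        refine Finset.sum_eq_zero fun b _ => ?_
        rw [if_neg (fun h => hi' h.1.symm)]
      · intro h
        exact absurd (Finset.mem_univ _) h
      rw [Finset.mul_sum]
      refine Finset.sum_congr rfl fun b _ => ?_
      by_cases hz : (z.1 : ℂ) = zt (p i) ^ ((t i * b : ZMod (p i))).val
      · have hb0 : (t i * b : ZMod (p i)) ≠ 0 := by
          intro h3
          rw [h3, ZMod.val_zero, pow_zero] at hz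
          apply z.2.2
          rw [hz, one_pow]
        show _ * (if (z.1 : ℂ) = _ then _ else _) = _
        rw [if_pos hz, if_pos ⟨rfl, hz⟩]
        unfold rr
        rw [dif_pos hb0]
        have h3 : mkTh (zt_th (hp i) (hp2 i) hb0) = z :=
          Subtype.ext hz.symm
        rw [h3]
        push_cast
        ring
      · show _ * (if (z.1 : ℂ) = _ then _ else _) = _
        rw [if_neg hz, if_neg (fun h => hz h.2), mul_zero]
    rw [Finset.sum_congr rfl h2, Finset.sum_comm]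
    push_cast
    refine Finset.sum_congr rfl fun i _ => ?_
    rw [Finset.sum_comm, Finset.mul_sum]
    refine Finset.sum_congr rfl fun b _ => ?_
    by_cases hb0 : (t i * b : ZMod (p i)) = 0
    · have h3 : b = 0 := by
        exact (t i).mul_right_eq_zero.1 hb0
      rw [h3, saw_zero]
      simp
    · by_cases hq : (i, mkTh (zt_th (hp i) (hp2 i) hb0)) ∈ univ.image κ'
      · refine (Finset.sum_eq_single (i, mkTh (zt_th (hp i) (hp2 i) hb0)) ?_ ?_).trans ?_
        · rintro ⟨i', z⟩ _ hne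
          rw [if_neg]
          rintro ⟨h3, h4⟩
          apply hne
          exact Prod.ext h3 (Subtype.ext h4)
        · intro h3
          exact absurd hq h3
        · rw [if_pos ⟨rfl, rfl⟩]
          ring
      · rw [Finset.sum_eq_zero]
        · have h3 : rr hp hp2 κ' c i (t i * b) = 0 := by
            unfold rr
            rw [dif_pos hb0]
            unfold wt
            have h4 : (blk κ' (i, mkTh (zt_th (hp i) (hp2 i) hb0))).card = 0 := by
              rw [Finset.card_eq_zero]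
              unfold blk
              rw [Finset.filter_eq_empty_iff]
              intro b' _ hb'
              exact hq (Finset.mem_image.2 ⟨b', Finset.mem_univ _, hb'⟩)
            rw [h4]
            simp
          rw [h3]
          simp
        · rintro ⟨i', z⟩ hz
          rw [if_neg]
          rintro ⟨h3, h4⟩
          apply hq
          have : (i', z) = (i, mkTh (zt_th (hp i) (hp2 i) hb0)) := Prod.ext h3 (Subtype.ext h4)
          rwa [this] at hz
  rw [h1] at h0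
  exact_mod_cast h0

/-- all weights vanish -/
theorem wt_zero [Fintype ι] (hp : ∀ i, (p i).Prime) (hp2 : ∀ i, p i ≠ 2) (hCst : ∀ i, C i ≠ 0)
    (hinj : Injective p)
    (h : Glob κ Q T d sg (mm U x y)) {P : Matrix B B ℂ} {κ' : B → ι × Th} (hE : EB κ T d P κ')
    (hxT : ∀ u ∈ U, x u * mC T = mC T * x u)
    (hxb : ∀ u ∈ U, ∀ a b, κ a ≠ κ b → x u a b = 0)
    (hxs : ∀ u ∈ U, (x u)ᵀ * mC Q + mC Q * x u = 0) (hD : NoChar U y)
    {f : (Fin k → B) → D → ℚ} (hf : ∀ u ∈ U, act (x u, y u) (cx f) = 0)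
    {c : Fin k → ι × Th} (hc : prt κ' c (pul P 1 (cx f)) ≠ 0) {u : E} (hu : u ∈ U)
    (hC : HasTypes κ T (x u) p C) (q : ι × Th) : wt κ' sig c q = 0 := by
  classical
  have : ∀ i, NeZero (p i) := fun i => ⟨(hp i).ne_zero⟩
  have hr0 : ∀ i0, ∀ b, rr hp hp2 κ' c i0 b = 0 := by
    intro i0
    have : Fact (p i0).Prime := ⟨hp i0⟩
    apply odd_zero (rr_neg hp hp2 h hE c i0)
    intro t0
    -- the linear maps
    set M := ∏ i ∈ univ.erase i0, p i with hM
    have hMpos : 0 < M := Finset.prod_pos fun i _ => (hp i).pos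
    have hcop : Nat.Coprime (p i0) M := by
      rw [hM]
      refine Nat.Coprime.prod_right fun i hi => ?_
      rw [Nat.coprime_primes (hp i0) (hp i)]
      intro h1
      exact (Finset.mem_erase.1 hi).1 (hinj h1).symm
    have hdiv : ∀ i, i ≠ i0 → p i ∣ M := fun i hi =>
      Finset.dvd_prod_of_mem _ (Finset.mem_erase.2 ⟨hi, Finset.mem_univ _⟩)
    have hrel : ∀ t0 : (ZMod (p i0))ˣ,
        C i0 * (∑ b, rr hp hp2 κ' c i0 (t0 * b) * (saw b : ℚ)) +
        ∑ i ∈ univ.erase i0, C i *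
          ∑ b, rr hp hp2 κ' c i b * (saw b : ℚ) = 0 := by
      intro t0
      obtain ⟨τ, hτ1, hτ2⟩ := exists_gal (hp i0) hMpos hcop (t0 : ZMod (p i0)).val
        (ZMod.val_coe_unit_coprime t0)
      have h1 := rel_tau hp hp2 h hE hxT hxb hxs hD hf hc hu hC
        (fun i => if hi : i = i0 then (hi ▸ t0) else 1) (τ := τ) (by
          intro i j
          by_cases hi : i = i0
          · subst hi
            simp only [dif_pos]
            exact hτ1 j
          · simp only [dif_neg hi]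
            have : Fact (1 < p i) := ⟨(hp i).one_lt⟩
            rw [hτ2 _ (hdiv i hi), Units.val_one, ZMod.val_one, one_mul])
      rw [← Finset.add_sum_erase univ _ (Finset.mem_univ i0)] at h1
      simp only [dif_pos] at h1
      rw [← h1]
      congr 1
      refine Finset.sum_congr rfl fun i hi => ?_
      simp only [dif_neg (Finset.mem_erase.1 hi).1, Units.val_one, one_mul]
    have h1 := hrel t0
    have h2 := hrel (-t0)
    have h3 : ∑ b, rr hp hp2 κ' c i0 ((-t0 : (ZMod (p i0))ˣ) * b) * (saw b : ℚ) =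
        - ∑ b, rr hp hp2 κ' c i0 (t0 * b) * (saw b : ℚ) := by
      rw [← Finset.sum_neg_distrib]
      refine Finset.sum_congr rfl fun b _ => ?_
      rw [Units.val_neg, neg_mul, rr_neg hp hp2 h hE, neg_mul]
    rw [h3] at h2
    have h4 : (2 * C i0) *
        (∑ b, rr hp hp2 κ' c i0 (t0 * b) * (saw b : ℚ)) = 0 := by linear_combination h1 - h2
    rcases mul_eq_zero.1 h4 with h5 | h5
    · exact absurd h5 (mul_ne_zero two_ne_zero (hCst i0))
    · exact h5
  by_cases hq : q ∈ univ.image κ'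
  · obtain ⟨b0, -, hb0⟩ := Finset.mem_image.1 hq
    obtain ⟨b, hb, hb'⟩ := eig_cyclic hC hE b0
    have h1 := hr0 _ b
    unfold rr at h1
    rw [dif_pos hb] at h1
    have h2 : ((κ' b0).1, mkTh (zt_th (hp (κ' b0).1) (hp2 (κ' b0).1) hb)) = q := by
      rw [← hb0]
      exact Prod.ext rfl (Subtype.ext hb'.symm)
    rwa [h2] at h1
  · unfold wt
    have h4 : (blk κ' q).card = 0 := by
      rw [Finset.card_eq_zero]
      unfold blk
      rw [Finset.filter_eq_empty_iff]
      intro b' _ hb'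
      exact hq (Finset.mem_image.2 ⟨b', Finset.mem_univ _, hb'⟩)
    rw [h4]
    simp

end assembly

/-- **Theorem (all degrees).** -/
theorem core_all {E : Type} [NormedAddCommGroup E] [NormedSpace ℂ E] [Fintype ι] {U : Set E}
    {x : E → Matrix B B ℂ} {y : E → Matrix D D ℂ} {κ : B → ι} {s : ι → ℤ} {Q T : Matrix B B ℚ}
    {d : ℕ} {p : ι → ℕ} {C : ι → ℚ} (hV : IsVHS U x) (hP : IsPolarized U κ s Q x)
    (hT : IsAut U κ Q x T d) (hR : ∀ i, HasReflection U κ Q x y T i)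
    (hp : ∀ i, (p i).Prime) (hp2 : ∀ i, p i ≠ 2) (hinj : Injective p) (hCst : ∀ i, C i ≠ 0)
    (hC : ∃ u ∈ U, HasTypes κ T (x u) p C) (hN : NoChar U y)
    {u : E} (hu : u ∈ U) {f : (Fin k → B) → D → ℚ} (hact : ∀ u ∈ U, act (x u, y u) (cx f) = 0) :
    f ∈ Submodule.span ℚ (productsT κ Q T (y u) k) := by
  have hkill : ∀ a ∈ mm U x y, act a f = 0 := fun a ha => act_mm hact ha
  have hG := glob_mm ⟨u, hu⟩ hV hP hT hR
  obtain ⟨P, κ', hE⟩ := hG.exists_EB
  obtain ⟨u0, hu0, hC0⟩ := hC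
  refine refineT hu hG.lie hG.comm (mem_P0T hG hE hkill ?_) hkill
  intro c hc q
  rw [wt_zero hp hp2 hCst hinj hG hE hT.comm hP.blockx hP.skew hN hact hc hu0 hC0 q]
  exact zero_lt_one

/-- the determinants of cyclic coverings of projective spaces -/
theorem Cst_ne {p m n : ℕ} (hp : p.Prime) (hp2 : p ≠ 2) (hm : 0 < m) (hn : 1 ≤ n)
    (hex : ¬ (n = 2 ∧ p * m = 3)) : Cst p m n ≠ 0 := by
  have h3 : 3 ≤ p := by
    have := hp.two_le
    omega
  have h4 : 3 ≤ p * m := le_trans h3 (Nat.le_mul_of_pos_right _ hm)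
  have : NeZero (p * m) := ⟨by omega⟩
  have h5 := AN_ne h4 hn hex
  unfold Cst
  have h6 : ((AN (p * m) (n + 1) : ℚ) - (-1) ^ n * (n + 1)) ≠ 0 := by
    intro h7
    apply h5
    exact_mod_cast h7
  have h7 : ((p : ℕ) : ℚ) ≠ 0 := by exact_mod_cast hp.ne_zero
  rw [neg_div]
  exact neg_ne_zero.2 (div_ne_zero h6 h7)

end Pool.Agent.H842.CR
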