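import Pool.Agent.H842.CR.Eig

/-!
# Complexification
-/

set_option linter.unusedSectionVars false

open Matrix Finset Function

namespace Pool.Agent.H842.CR

open Pool.Agent.TH125.Nod

variable {B : Type} [Fintype B] [DecidableEq B] {D : Type} [Fintype D]
  [DecidableEq D] {ι : Type} [DecidableEq ι] {k : ℕ}

theorem act_mC (X : Matrix B B ℚ) (f : (Fin k → B) → D → ℚ) :
    act (mC X, (0 : Matrix D D ℂ)) (cx f) = cx (act (X, (0 : Matrix D D ℚ)) f) := by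
  funext J l
  rw [act_apply]
  show _ = ((act (X, (0 : Matrix D D ℚ)) f J l : ℚ) : ℂ)
  rw [act_apply]
  simp only [mC, cx, Matrix.map_apply, Matrix.zero_apply]
  push_cast
  rfl

/-- the complex operators which kill the form -/
def kk (f : (Fin k → B) → D → ℚ) : Submodule ℂ (Matrix B B ℂ) where
  carrier := {X | act (X, (0 : Matrix D D ℂ)) (cx f) = 0}
  zero_mem' := by
    show act ((0 : Matrix B B ℂ), (0 : Matrix D D ℂ)) (cx f) = 0
    have := act_smul (0 : ℂ) ((0 : Matrix B B ℂ), (0 : Matrix D D ℂ)) (cx f)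
    rwa [zero_smul, zero_smul] at this
  add_mem' := by
    intro X Y hX hY
    have := act_add (X, (0 : Matrix D D ℂ)) (Y, (0 : Matrix D D ℂ)) (cx f)
    show act (X + Y, (0 : Matrix D D ℂ)) (cx f) = 0
    rw [Prod.mk_add_mk, add_zero] at this
    rw [this, hX, hY, add_zero]
  smul_mem' := by
    intro c X hX
    have := act_smul c (X, (0 : Matrix D D ℂ)) (cx f)
    show act (c • X, (0 : Matrix D D ℂ)) (cx f) = 0
    rw [Prod.smul_mk, smul_zero] at this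
    rw [this, hX, smul_zero]

theorem kk_br {f : (Fin k → B) → D → ℚ} {X Y : Matrix B B ℂ} (hX : X ∈ kk f) (hY : Y ∈ kk f) :
    X * Y - Y * X ∈ kk f := by
  have h1 : act (X, (0 : Matrix D D ℂ)) (cx f) = 0 := hX
  have h2 : act (Y, (0 : Matrix D D ℂ)) (cx f) = 0 := hY
  have h3 := act_bracket_kill h1 h2
  show act (X * Y - Y * X, (0 : Matrix D D ℂ)) (cx f) = 0
  simpa using h3

theorem mC_mem_kk {f : (Fin k → B) → D → ℚ} {X : Matrix B B ℚ}
    (hX : act (X, (0 : Matrix D D ℚ)) f = 0) : mC X ∈ kk f := by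
  show act (mC X, (0 : Matrix D D ℂ)) (cx f) = 0
  rw [act_mC, hX]
  funext J l
  simp [cx]

/-- a basis expansion of the coordinates of a vector -/
theorem vec_decomp (v : B → ℂ) :
    ∃ (τ : Type) (F : Finset τ) (β : τ → ℂ) (φ : τ → ℂ →ₗ[ℚ] ℚ),
      v = ∑ t ∈ F, β t • vC (fun b => φ t (v b)) := by
  classical
  let b := Module.Basis.ofVectorSpace ℚ ℂ
  let F := (univ : Finset B).biUnion fun p => (b.repr (v p)).support
  refine ⟨_, F, fun t => b t, fun t => b.coord t, ?_⟩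
  funext p
  rw [Finset.sum_apply]
  simp only [Pi.smul_apply, vC, smul_eq_mul]
  conv_lhs => rw [← b.linearCombination_repr (v p)]
  rw [Finsupp.linearCombination_apply, Finsupp.sum_of_support_subset (s := F)]
  · refine Finset.sum_congr rfl fun t _ => ?_
    rw [Module.Basis.coord_apply, Rat.smul_def, mul_comm]
  · intro t ht
    exact Finset.mem_biUnion.2 ⟨p, Finset.mem_univ _, ht⟩
  · intro t _
    rw [zero_smul]

theorem bQ_mC (Q : Matrix B B ℚ) (a : B → ℚ) (v : B → ℂ) (φ : ℂ →ₗ[ℚ] ℚ) :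
    φ (bQ (mC Q) (vC a) v) = bQ Q a (fun b => φ (v b)) := by
  unfold bQ mC vC
  simp only [dotProduct, mulVec, map_sum, Matrix.map_apply, lin_mul]

theorem bQ_mC' (Q : Matrix B B ℚ) (a b : B → ℚ) :
    bQ (mC Q) (vC a) (vC b) = ((bQ Q a b : ℚ) : ℂ) := by
  unfold bQ mC vC
  simp [dotProduct, mulVec]

theorem mC_pow (T : Matrix B B ℚ) (j : ℕ) : mC (T ^ j) = mC T ^ j := by
  induction j with
  | zero => rw [pow_zero, pow_zero, mC_one]
  | succ j ih => rw [pow_succ, pow_succ, mC_mul, ih]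

theorem WW_mC (Q : Matrix B B ℚ) (s : ℚ) (a b : B → ℚ) :
    WW (mC Q) (s : ℂ) (vC a) (vC b) = mC (WW Q s a b) := by
  ext p q
  simp only [WW, EE, mC, vC, Matrix.sub_apply, Matrix.smul_apply, vecMulVec_apply, Matrix.map_apply,
    vecMul, dotProduct, smul_eq_mul]
  push_cast
  rfl

theorem mC_sum {α : Type} (F : Finset α) (X : α → Matrix B B ℚ) :
    mC (∑ a ∈ F, X a) = ∑ a ∈ F, mC (X a) := by
  ext p q
  simp [mC, Matrix.sum_apply]

theorem AA_mC (Q : Matrix B B ℚ) (s : ℚ) (T : Matrix B B ℚ) (d : ℕ) (a b : B → ℚ) :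
    AA (mC Q) (s : ℂ) (mC T) d (vC a) (vC b) = mC (AA Q s T d a b) := by
  unfold AA
  rw [mC_sum]
  refine Finset.sum_congr rfl fun j _ => ?_
  rw [← mC_pow, mC_mulVec, mC_mulVec, WW_mC]

theorem mC_tp (T : Matrix B B ℚ) (P : Polynomial ℚ) {v : B → ℂ} {θ : ℂ} (hv : mC T *ᵥ v = θ • v) :
    mC (tp T P) *ᵥ v = (Polynomial.aeval θ P) • v := by
  have hpow : ∀ j : ℕ, mC (T ^ j) *ᵥ v = θ ^ j • v := by
    intro j
    induction j with
    | zero => rw [pow_zero, mC_one, one_mulVec, pow_zero, one_smul]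
    | succ j ih => rw [pow_succ, mC_mul, ← mulVec_mulVec, hv, mulVec_smul, ih, smul_smul, pow_succ,
        mul_comm]
  have hadd : ∀ X Y : Matrix B B ℚ, mC (X + Y) = mC X + mC Y := by
    intro X Y
    ext p q
    simp [mC]
  have hsmul : ∀ (c : ℚ) (X : Matrix B B ℚ), mC (c • X) = (c : ℂ) • mC X := by
    intro c X
    ext p q
    simp [mC]
  unfold tp
  induction P using Polynomial.induction_on' with
  | add p q hp hq => rw [map_add, map_add, hadd, add_mulVec, hp, hq, add_smul]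
  | monomial n a =>
    rw [← Polynomial.C_mul_X_pow_eq_monomial, map_mul, map_mul, Polynomial.aeval_C,
      Polynomial.aeval_C, map_pow, map_pow, Polynomial.aeval_X, Polynomial.aeval_X,
      Algebra.algebraMap_eq_smul_one, smul_mul_assoc, one_mul, hsmul, smul_mulVec, hpow, smul_smul]
    rfl

section field
variable {K : Type} [Field K] {Q : Matrix B B K} {s : K} {T : Matrix B B K} {d : ℕ} {θ : K}

/-- the component of a vector in an eigenspace -/
def ee (T : Matrix B B K) (d : ℕ) (δ : B → K) (θ : K) : B → K :=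
  ∑ j ∈ range d, (θ⁻¹) ^ j • (T ^ j *ᵥ δ)

theorem T_ee {δ : B → K} (hT : T ^ d = 1) (hθ : θ ^ d = 1) (h0 : θ ≠ 0) :
    T *ᵥ ee T d δ θ = θ • ee T d δ θ := by
  unfold ee
  conv_rhs => rw [← range_shift (fun j => (θ⁻¹) ^ j • (T ^ j *ᵥ δ)) d (by
    simp only [hT, pow_zero, inv_pow, hθ, inv_one])]
  rw [mulVec_sum, Finset.smul_sum]
  refine Finset.sum_congr rfl fun j _ => ?_
  rw [mulVec_smul, mulVec_mulVec, ← pow_succ', smul_smul, pow_succ' (θ⁻¹), ← mul_assoc,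
    mul_inv_cancel₀ h0, one_mul]

theorem pow_eig {v : B → K} (hv : T *ᵥ v = θ • v) (j : ℕ) : T ^ j *ᵥ v = θ ^ j • v := by
  induction j with
  | zero => rw [pow_zero, one_mulVec, pow_zero, one_smul]
  | succ j ih => rw [pow_succ', ← mulVec_mulVec, ih, mulVec_smul, hv, smul_smul, pow_succ]

theorem AA_eig {v w : B → K} {θ' : K} (hv : T *ᵥ v = θ • v) (hw : T *ᵥ w = θ' • w)
    (hθ : θ * θ' = 1) : AA Q s T d v w = (d : K) • WW Q s v w := by
  unfold AA
  rw [Finset.sum_congr rfl fun j _ => ?_, Finset.sum_const, Finset.card_range,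
    ← Nat.cast_smul_eq_nsmul K]
  rw [pow_eig hv, pow_eig hw, WW_smul_left, WW_smul_right, smul_smul, ← mul_pow, hθ, one_pow,
    one_smul]

theorem bQ_eig {v w : B → K} {θ' : K} (hQ : Tᵀ * Q * T = Q) (hv : T *ᵥ v = θ • v)
    (hw : T *ᵥ w = θ' • w) (hθ : θ * θ' ≠ 1) : bQ Q v w = 0 := by
  have h1 : bQ Q (T *ᵥ v) (T *ᵥ w) = bQ Q v w := by
    unfold bQ
    rw [mulVec_mulVec, ← vecMul_transpose, ← dotProduct_mulVec, mulVec_mulVec, ← mul_assoc, hQ]
  rw [hv, hw, bQ_smul_left, bQ_smul_right, ← mul_assoc] at h1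
  have h2 : (θ * θ' - 1) * bQ Q v w = 0 := by linear_combination h1
  exact (mul_eq_zero.1 h2).resolve_left (sub_ne_zero.2 hθ)

end field

variable {κ : B → ι} {Q T : Matrix B B ℚ} {d : ℕ} {i : ι} {sg : ℚ} {δ : B → ℚ} {ε : ℚ}
  {γ : Matrix B B ℚ} {η : Matrix D D ℚ} {n : ℕ}
  {𝔪 : Submodule ℚ (Matrix B B ℚ × Matrix D D ℚ)}

theorem cmC_iso (h : Tᵀ * Q * T = Q) : (mC T)ᵀ * mC Q * mC T = mC Q := by
  have h1 : (mC T)ᵀ = mC Tᵀ := rfl
  rw [h1, ← mC_mul, ← mC_mul, h]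

theorem cmC_pow (h : T ^ d = 1) : mC T ^ d = 1 := by
  rw [← mC_pow, h, mC_one]

namespace Ctx

variable (h : Ctx κ Q T d i sg δ ε γ η n 𝔪)
include h

theorem cinv {v : B → ℂ} (hv : InBlk κ i v) {θ : ℂ} (hT : mC T *ᵥ v = θ • v) (h0 : v ≠ 0) :
    Polynomial.aeval θ (Ph Q T d δ) ≠ 0 := by
  obtain ⟨g, hg⟩ := h.exists_g
  have h1 : mC (tp T (g * Ph Q T d δ)) *ᵥ v = v := by
    obtain ⟨τ, F, β, φ, hφ⟩ := vec_decomp v
    conv_lhs => rw [hφ]
    conv_rhs => rw [hφ]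
    rw [mulVec_sum]
    refine Finset.sum_congr rfl fun t _ => ?_
    rw [mulVec_smul, mC_mulVec, hg]
    intro b hb
    show φ t (v b) = 0
    rw [hv b hb, map_zero]
  rw [mC_tp T _ hT, map_mul] at h1
  intro h2
  rw [h2, mul_zero, zero_smul] at h1
  exact h0 h1.symm

theorem bQ_ee (θ : ℂ) : bQ (mC Q) (ee (mC T) d (vC δ) θ⁻¹) (vC δ) =
    Polynomial.aeval θ (Ph Q T d δ) := by
  unfold ee Ph
  have hsum : bQ (mC Q) (∑ j ∈ range d, (θ⁻¹⁻¹) ^ j • (mC T ^ j *ᵥ vC δ)) (vC δ) =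
      ∑ j ∈ range d, bQ (mC Q) ((θ⁻¹⁻¹) ^ j • (mC T ^ j *ᵥ vC δ)) (vC δ) := by
    unfold bQ
    rw [sum_dotProduct]
  rw [hsum, map_sum]
  refine Finset.sum_congr rfl fun j _ => ?_
  rw [bQ_smul_left, ← mC_pow, mC_mulVec, bQ_mC', inv_inv, map_mul, Polynomial.aeval_C, map_pow,
    Polynomial.aeval_X, mul_comm]
  rfl

/-- the relations for the operators which kill the form, first step -/
theorem ck1 {f : (Fin k → B) → D → ℚ} (hf : ∀ X ∈ K1 𝔪, act (X, (0 : Matrix D D ℚ)) f = 0)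
    {v : B → ℂ} (hv : InBlk κ i v) (hp : Perp (mC Q) (mC T) (vC δ) v) (j : ℕ) :
    AA (mC Q) (sg : ℂ) (mC T) d (mC T ^ j *ᵥ vC δ) v ∈ kk f := by
  obtain ⟨τ, F, β, φ, hφ⟩ := vec_decomp v
  have h1 : ∀ t, mC (AA Q sg T d (T ^ j *ᵥ δ) (fun b => φ t (v b))) ∈ kk f := by
    intro t
    apply mC_mem_kk
    apply hf
    have h2 : InU κ i Q T d sg δ 𝔪 (fun b => φ t (v b)) := by
      apply h.all_U
      · intro b hb
        show φ t (v b) = 0
        rw [hv b hb, map_zero]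
      · intro j
        rw [← bQ_mC]
        have := hp j
        rw [← mC_pow, mC_mulVec] at this
        rw [this, map_zero]
    have h3 := h2.2.2 (Polynomial.X ^ j)
    have h4 : tp T (Polynomial.X ^ j) = T ^ j := by
      unfold tp
      rw [map_pow, Polynomial.aeval_X]
    rwa [h4] at h3
  have h5 : AA (mC Q) (sg : ℂ) (mC T) d (mC T ^ j *ᵥ vC δ) v =
      ∑ t ∈ F, β t • mC (AA Q sg T d (T ^ j *ᵥ δ) (fun b => φ t (v b))) := by
    have h6 : ∀ (G : Finset τ), AA (mC Q) (sg : ℂ) (mC T) d (mC T ^ j *ᵥ vC δ)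
        (∑ t ∈ G, β t • vC (fun b => φ t (v b))) =
        ∑ t ∈ G, β t • mC (AA Q sg T d (T ^ j *ᵥ δ) (fun b => φ t (v b))) := by
      classical
      intro G
      induction G using Finset.induction_on with
      | empty => rw [Finset.sum_empty, Finset.sum_empty, AA_zero_right]
      | insert a G ha ih =>
        rw [Finset.sum_insert ha, Finset.sum_insert ha, AA_add_right, ih, AA_smul_right,
          ← mC_pow, mC_mulVec, AA_mC]
    conv_lhs => rw [hφ]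
    exact h6 F
  rw [h5]
  exact Submodule.sum_mem _ fun t _ => Submodule.smul_mem _ _ (h1 t)

theorem cblk_ee (θ : ℂ) : InBlk κ i (ee (mC T) d (vC δ) θ) := by
  intro b hb
  unfold ee
  rw [Finset.sum_apply]
  refine Finset.sum_eq_zero fun j _ => ?_
  rw [Pi.smul_apply, ← mC_pow, mC_mulVec]
  show _ • ((T ^ j *ᵥ δ) b : ℂ) = 0
  rw [h.pow_blk j h.hδ b hb]
  simp

theorem ck2 {f : (Fin k → B) → D → ℚ} (hf : ∀ X ∈ K1 𝔪, act (X, (0 : Matrix D D ℚ)) f = 0)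
    {v : B → ℂ} (hv : InBlk κ i v) (hp : Perp (mC Q) (mC T) (vC δ) v) {θ : ℂ} (hθ : θ ^ d = 1)
    (hv' : mC T *ᵥ v = θ⁻¹ • v) : WW (mC Q) (sg : ℂ) (ee (mC T) d (vC δ) θ) v ∈ kk f := by
  have h0 : θ ≠ 0 := by
    rintro rfl
    rw [zero_pow (by have := h.dpos; omega)] at hθ
    exact zero_ne_one hθ
  have h1 : AA (mC Q) (sg : ℂ) (mC T) d (ee (mC T) d (vC δ) θ) v ∈ kk f := by
    have h6 : ∀ (G : Finset ℕ), AA (mC Q) (sg : ℂ) (mC T) d
        (∑ j ∈ G, (θ⁻¹) ^ j • (mC T ^ j *ᵥ vC δ)) v ∈ kk f := by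
      intro G
      induction G using Finset.induction_on with
      | empty => rw [Finset.sum_empty, AA_zero_left]; exact Submodule.zero_mem _
      | insert a G ha ih =>
        rw [Finset.sum_insert ha, AA_add_left, AA_smul_left]
        exact Submodule.add_mem _ (Submodule.smul_mem _ _ (h.ck1 hf hv hp a)) ih
    exact h6 _
  rw [AA_eig (T_ee (cmC_pow h.Td) hθ h0) hv' (mul_inv_cancel₀ h0)] at h1
  rwa [Submodule.smul_mem_iff] at h1
  exact_mod_cast (by have := h.dpos; omega : d ≠ 0)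

theorem csgsg : (sg : ℂ) * (sg : ℂ) = 1 := by
  have := h.sgsg
  exact_mod_cast this

theorem cQs : ∀ a b, κ a = i → mC Q a b = (sg : ℂ) * mC Q b a := by
  intro a b hab
  simp only [mC, Matrix.map_apply]
  rw [h.Qs a b hab]
  push_cast
  rfl

theorem perp_of_eig {v : B → ℂ} {θ : ℂ} (hθ : θ ≠ 0) (hv : mC T *ᵥ v = θ • v)
    (h0 : bQ (mC Q) (vC δ) v = 0) : Perp (mC Q) (mC T) (vC δ) v := by
  intro j
  have h1 : v = (θ⁻¹) ^ j • (mC T ^ j *ᵥ v) := by
    rw [pow_eig hv, smul_smul, ← mul_pow, inv_mul_cancel₀ hθ, one_pow, one_smul]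
  have h2 : ∀ (j : ℕ) (a b : B → ℂ), bQ (mC Q) (mC T ^ j *ᵥ a) (mC T ^ j *ᵥ b) =
      bQ (mC Q) a b := by
    intro j
    induction j with
    | zero => intro a b; rw [pow_zero, one_mulVec, one_mulVec]
    | succ j ih =>
      intro a b
      rw [pow_succ, ← mulVec_mulVec, ← mulVec_mulVec, ih]
      unfold bQ
      rw [mulVec_mulVec, ← vecMul_transpose, ← dotProduct_mulVec, mulVec_mulVec, ← mul_assoc,
        cmC_iso h.iso]
  rw [h1, bQ_smul_right, h2, h0, mul_zero]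

/-- **The relations for eigenvectors.** -/
theorem ck3 {f : (Fin k → B) → D → ℚ} (hf : ∀ X ∈ K1 𝔪, act (X, (0 : Matrix D D ℚ)) f = 0)
    {θ : ℂ} (hθ : θ ^ d = 1) : ∃ G0 : Matrix B B ℂ, ∀ v v' : B → ℂ, InBlk κ i v → InBlk κ i v' →
      mC T *ᵥ v = θ • v → mC T *ᵥ v' = θ⁻¹ • v' →
      WW (mC Q) (sg : ℂ) v v' - bQ (mC Q) v' v • G0 ∈ kk f := by
  have h0 : θ ≠ 0 := by
    rintro rfl
    rw [zero_pow (by have := h.dpos; omega)] at hθ
    exact zero_ne_one hθ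
  have hθ' : (θ⁻¹) ^ d = 1 := by rw [inv_pow, hθ, inv_one]
  have h0' : θ⁻¹ ≠ 0 := inv_ne_zero h0
  set e1 := ee (mC T) d (vC δ) θ with he1
  set e2 := ee (mC T) d (vC δ) θ⁻¹ with he2
  set q := bQ (mC Q) e2 e1 with hq
  have hTe1 : mC T *ᵥ e1 = θ • e1 := T_ee (cmC_pow h.Td) hθ h0
  have hTe2 : mC T *ᵥ e2 = θ⁻¹ • e2 := T_ee (cmC_pow h.Td) hθ' h0'
  have hbe1 : InBlk κ i e1 := h.cblk_ee θ
  have hbe2 : InBlk κ i e2 := h.cblk_ee θ⁻¹
  have hsym : ∀ {v : B → ℂ}, InBlk κ i v → ∀ w, bQ (mC Q) v w = (sg : ℂ) * bQ (mC Q) w v :=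
    fun hv w => bQ_symm (mC Q) h.cQs hv w
  have hbδ : InBlk κ i (vC δ) := by
    intro b hb
    show ((δ b : ℚ) : ℂ) = 0
    rw [h.hδ b hb]
    simp
  refine ⟨q⁻¹ • WW (mC Q) (sg : ℂ) e1 e2, ?_⟩
  intro v v' hv hv' hTv hTv'
  by_cases hv0 : v = 0
  · rw [hv0]
    have e3 : WW (mC Q) (sg : ℂ) 0 v' = 0 := by
      have := WW_smul_left (Q := mC Q) (ε := (sg : ℂ)) (0 : ℂ) (0 : B → ℂ) v'
      rwa [zero_smul, zero_smul] at this
    have e4 : bQ (mC Q) v' 0 = 0 := by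
      unfold bQ
      rw [mulVec_zero, dotProduct_zero]
    rw [e3, e4, zero_smul, sub_zero]
    exact Submodule.zero_mem _
  by_cases hv0' : v' = 0
  · rw [hv0']
    have e3 : WW (mC Q) (sg : ℂ) v 0 = 0 := by
      have := WW_smul_right (Q := mC Q) (ε := (sg : ℂ)) (0 : ℂ) v (0 : B → ℂ)
      rwa [zero_smul, zero_smul] at this
    have e4 : bQ (mC Q) 0 v = 0 := by
      unfold bQ
      rw [zero_dotProduct]
    rw [e3, e4, zero_smul, sub_zero]
    exact Submodule.zero_mem _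
  -- non-degeneracy
  have hr2 : bQ (mC Q) (vC δ) e2 ≠ 0 := by
    rw [hsym hbδ, he2, h.bQ_ee θ]
    refine mul_ne_zero ?_ (h.cinv hv hTv hv0)
    exact_mod_cast h.sg0
  have hr1 : bQ (mC Q) (vC δ) e1 ≠ 0 := by
    rw [hsym hbδ, he1]
    have h1 := h.bQ_ee θ⁻¹
    rw [inv_inv] at h1
    rw [h1]
    refine mul_ne_zero ?_ (h.cinv hv' hTv' hv0')
    exact_mod_cast h.sg0
  have hq0 : q ≠ 0 := by
    have h2 : ∀ (j : ℕ) (a b : B → ℂ), bQ (mC Q) (mC T ^ j *ᵥ a) (mC T ^ j *ᵥ b) =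
        bQ (mC Q) a b := by
      intro j
      induction j with
      | zero => intro a b; rw [pow_zero, one_mulVec, one_mulVec]
      | succ j ih =>
        intro a b
        rw [pow_succ, ← mulVec_mulVec, ← mulVec_mulVec, ih]
        unfold bQ
        rw [mulVec_mulVec, ← vecMul_transpose, ← dotProduct_mulVec, mulVec_mulVec, ← mul_assoc,
          cmC_iso h.iso]
    have h3 : q = (d : ℂ) * bQ (mC Q) (vC δ) e1 := by
      have hsum : bQ (mC Q) e2 e1 =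
          ∑ j ∈ range d, bQ (mC Q) ((θ⁻¹⁻¹) ^ j • (mC T ^ j *ᵥ vC δ)) e1 := by
        rw [he2]
        unfold ee bQ
        rw [sum_dotProduct]
      rw [hq, hsum, Finset.sum_congr rfl fun j _ => ?_, Finset.sum_const, Finset.card_range,
        nsmul_eq_mul]
      rw [bQ_smul_left, inv_inv]
      have h4 : e1 = (θ⁻¹) ^ j • (mC T ^ j *ᵥ e1) := by
        rw [pow_eig hTe1, smul_smul, ← mul_pow, inv_mul_cancel₀ h0, one_pow, one_smul]
      conv_lhs => rw [h4]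
      rw [bQ_smul_right, h2, ← mul_assoc, ← mul_pow, mul_inv_cancel₀ h0, one_pow, one_mul]
    rw [h3]
    refine mul_ne_zero ?_ hr1
    exact_mod_cast (by have := h.dpos; omega : d ≠ 0)
  -- decomposition
  set α := bQ (mC Q) (vC δ) v / bQ (mC Q) (vC δ) e1 with hα
  set β := bQ (mC Q) (vC δ) v' / bQ (mC Q) (vC δ) e2 with hβ
  set w := v + (-α) • e1 with hw
  set w' := v' + (-β) • e2 with hw'
  have hwb : InBlk κ i w := hv.add (hbe1.smul _)
  have hwb' : InBlk κ i w' := hv'.add (hbe2.smul _)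
  have hwT : mC T *ᵥ w = θ • w := by
    rw [hw, mulVec_add, mulVec_smul, hTv, hTe1, smul_add, smul_comm]
  have hwT' : mC T *ᵥ w' = θ⁻¹ • w' := by
    rw [hw', mulVec_add, mulVec_smul, hTv', hTe2, smul_add, smul_comm]
  have hwp : Perp (mC Q) (mC T) (vC δ) w := by
    apply h.perp_of_eig h0 hwT
    rw [hw, bQ_add_right, bQ_smul_right, hα]
    field_simp
    ring
  have hwp' : Perp (mC Q) (mC T) (vC δ) w' := by
    apply h.perp_of_eig h0' hwT'
    rw [hw', bQ_add_right, bQ_smul_right, hβ]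
    field_simp
    ring
  have hperp : ∀ {u : B → ℂ} (θ0 : ℂ), Perp (mC Q) (mC T) (vC δ) u →
      bQ (mC Q) (ee (mC T) d (vC δ) θ0) u = 0 := by
    intro u θ0 hu
    have hsum : bQ (mC Q) (ee (mC T) d (vC δ) θ0) u =
        ∑ j ∈ range d, bQ (mC Q) ((θ0⁻¹) ^ j • (mC T ^ j *ᵥ vC δ)) u := by
      unfold ee bQ
      rw [sum_dotProduct]
    rw [hsum]
    refine Finset.sum_eq_zero fun j _ => ?_
    rw [bQ_smul_left, hu j, mul_zero]
  have hk1 : WW (mC Q) (sg : ℂ) e1 w' ∈ kk f := h.ck2 hf hwb' hwp' hθ hwT'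
  have hk2 : WW (mC Q) (sg : ℂ) e2 w ∈ kk f := h.ck2 hf hwb hwp hθ' (by rw [inv_inv]; exact hwT)
  have hk3 := kk_br hk2 hk1
  rw [bracket_WW (WW_skew (κ := κ) (i := i) h.csgsg h.cQs hbe2 hwb), WW_mulVec, WW_mulVec] at hk3
  have z1 : bQ (mC Q) w e1 = 0 := by rw [hsym hwb, he1, hperp θ hwp, mul_zero]
  have z2 : bQ (mC Q) e2 w' = 0 := hperp θ⁻¹ hwp'
  have z3 : bQ (mC Q) e2 w = 0 := hperp θ⁻¹ hwp
  have z4 : bQ (mC Q) e1 w' = 0 := hperp θ hwp'
  rw [z1, z2, zero_smul, zero_sub, mul_zero, zero_smul, sub_zero, ← hq, ← neg_smul, WW_smul_left,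
    WW_smul_right] at hk3
  -- collect
  have ev : v = w + α • e1 := by rw [hw]; module
  have ev' : v' = w' + β • e2 := by rw [hw']; module
  have z5 : bQ (mC Q) w' e1 = 0 := by rw [hsym hwb', z4, mul_zero]
  have hval : bQ (mC Q) v' v = bQ (mC Q) w' w + β * α * q := by
    rw [ev, ev']
    simp only [bQ_add_left, bQ_add_right, bQ_smul_left, bQ_smul_right, z3, z5, ← hq]
    ring
  have hww : bQ (mC Q) w w' = (sg : ℂ) * bQ (mC Q) w' w := hsym hwb w'
  rw [hww] at hk3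
  have hWwe : WW (mC Q) (sg : ℂ) w e2 ∈ kk f := by
    rw [WW_symm (Q := mC Q) h.csgsg e2 w]
    exact Submodule.neg_mem _ (Submodule.smul_mem _ _ hk2)
  have hk4 : WW (mC Q) (sg : ℂ) w w' - (q⁻¹ * bQ (mC Q) w' w) • WW (mC Q) (sg : ℂ) e1 e2 ∈
      kk f := by
    have h5 := Submodule.smul_mem _ (-(sg : ℂ) * q⁻¹) hk3
    convert h5 using 1
    rw [smul_add, smul_smul, smul_smul, sub_eq_add_neg, ← neg_smul]
    congr 1
    · have : -(sg : ℂ) * q⁻¹ * -((sg : ℂ) * q) = 1 := by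
        have h6 : -(sg : ℂ) * q⁻¹ * -((sg : ℂ) * q) = ((sg : ℂ) * sg) * (q⁻¹ * q) := by ring
        rw [h6, h.csgsg, inv_mul_cancel₀ hq0, one_mul]
      rw [this, one_smul]
    · congr 1
      have h6 : -(sg : ℂ) * q⁻¹ * ((sg : ℂ) * bQ (mC Q) w' w) =
          -(((sg : ℂ) * sg) * (q⁻¹ * bQ (mC Q) w' w)) := by ring
      rw [h6, h.csgsg, one_mul]
  have hfin : WW (mC Q) (sg : ℂ) v v' - bQ (mC Q) v' v • q⁻¹ • WW (mC Q) (sg : ℂ) e1 e2 =
      (WW (mC Q) (sg : ℂ) w w' - (q⁻¹ * bQ (mC Q) w' w) • WW (mC Q) (sg : ℂ) e1 e2) +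
      (β • WW (mC Q) (sg : ℂ) w e2 + α • WW (mC Q) (sg : ℂ) e1 w') := by
    rw [hval, ev, ev']
    simp only [WW_add_left, WW_add_right, WW_smul_left, WW_smul_right, smul_smul]
    have h7 : (bQ (mC Q) w' w + β * α * q) * q⁻¹ = q⁻¹ * bQ (mC Q) w' w + α * β := by
      field_simp
    rw [h7]
    module
  rw [hfin]
  exact Submodule.add_mem _ hk4 (Submodule.add_mem _ (Submodule.smul_mem _ _ hWwe)
    (Submodule.smul_mem _ _ hk1))

end Ctx

end Pool.Agent.H842.CR
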