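import Pool.Agent.H842.CR.Defs

/-!
# Determinantal tensors
-/

open Matrix Finset Function

namespace Pool.Agent.H842.CR

open Pool.Agent.TH125.Nod

/-- The multilinear form `w` with the vector number `x` replaced by its image under the matrix `N`:
`(v_1, …, v_K, v') ↦ w (v_1, …, N v_x, …, v_K, v')`. -/
def inVar {B D : Type} [Fintype B] {K : ℕ} (N : Matrix B B ℚ) (x : Fin K)
    (w : (Fin K → B) → D → ℚ) : (Fin K → B) → D → ℚ :=
  fun J l => ∑ b, N b (J x) * w (update J x b) l

/-- The rational multilinear form `w` on `V ^ K × D` belongs to a tensor product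
`Λ ^ N_1 (V_1) ⊗ ⋯ ⊗ Λ ^ N_r (V_r) ⊗ D` of (dual spaces of) one-dimensional top exterior powers over
cyclotomic fields: each group of variables `{x | g x = a}` has a block `V_i`, a number `o` and the
cyclotomic field `ℚ (ζ_o)`, for which the part `V_(i, o)` of `V_i` where the eigenvalues of `T` are
primitive `o`-th roots of unity is a vector space (`ζ_o` acts by `T`). The form `w` is zero outside
this part (the `o`-th cyclotomic polynomial of `T` kills it, in each variable of the group), it is
alternating and `ℚ (ζ_o)`-multilinear in the variables of the group (it does not matter in which of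
them `T` is applied), and the number of variables is the dimension of `V_(i, o)` over `ℚ (ζ_o)`,
that is, the dimension of each eigenspace. (If `r = 1` and `D = ℚ` these are the Weil classes.) -/
def IsDeterminantal {ι B D : Type} [Fintype B] [DecidableEq B] (κ : B → ι) (T : Matrix B B ℚ)
    {K : ℕ} (w : (Fin K → B) → D → ℚ) : Prop :=
  ∃ (g : Fin K → ℕ) (i : Fin K → ι) (o : Fin K → ℕ),
    (∀ x y, g x = g y → i x = i y ∧ o x = o y ∧ inVar T x w = inVar T y w ∧
      (x ≠ y → ∀ J, w (fun j => J (Equiv.swap x y j)) = - w J)) ∧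
    ∀ x, (∀ J, κ (J x) ≠ i x → w J = 0) ∧
      inVar (Polynomial.aeval T (Polynomial.cyclotomic (o x) ℚ)) x w = 0 ∧
      ∃ z : ℂ, IsPrimitiveRoot z (o x) ∧
        (univ.filter fun y => g y = g x).card = Module.finrank ℂ (eigenpart κ T (i x) z)

/-- The forms `(v, v') ↦ (∏ t, Q_(c t) (v_(e (t, 0)), T ^ (a t) v_(e (t, 1)))) * w (v_e (1), …, v')`:
products of forms `Q_i (v, T ^ a w)` on `m` pairs of variables and of a determinantal Hodge class
`w` in the other `n` variables and in the variable in `D`. For `n = 0` the form `w` is a Hodge class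
on `D`. -/
def productsDet {ι B D : Type} [Fintype B] [DecidableEq B] [Fintype D] [DecidableEq ι] (κ : B → ι)
    (Q T : Matrix B B ℚ) (x : Matrix B B ℂ) (y : Matrix D D ℂ) (k : ℕ) :
    Set ((Fin k → B) → D → ℚ) :=
  {f | ∃ (m n : ℕ) (e : (Fin m × Fin 2) ⊕ Fin n ≃ Fin k) (c : Fin m → ι) (a : Fin m → ℕ)
    (w : (Fin n → B) → D → ℚ), IsDeterminantal κ T w ∧ IsHodge x y w ∧
    f = fun J l => (∏ t, block κ (Q * T ^ a t) (c t) (J (e (.inl (t, 0)))) (J (e (.inl (t, 1))))) *
      w (fun j => J (e (.inr j))) l}

end Pool.Agent.H842.CR
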