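import Pool.Graph.R_pool_sql_team_seeded_ab47071d.TH125.Nod.Defs

/-!
# Variations of Hodge structure with an automorphism and a complex reflection: definitions
-/

open Matrix Finset Function

namespace Pool.Agent.H842.CR

open Pool.Agent.TH125.Nod

/-- `T` is an automorphism of finite order of the polarized variation of Hodge structures with
blocks `κ`, polarization `Q` and Hodge operators `x u`, and `1` and `-1` are not eigenvalues of
`T`. -/
structure IsAut {E : Type} (U : Set E) {ι B : Type} [Fintype B] [DecidableEq B] (κ : B → ι)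
    (Q : Matrix B B ℚ) (x : E → Matrix B B ℂ) (T : Matrix B B ℚ) (d : ℕ) : Prop where
  pos : 0 < d
  order : T ^ d = 1
  block : ∀ a b, κ a ≠ κ b → T a b = 0
  isom : Tᵀ * Q * T = Q
  comm : ∀ u ∈ U, x u * mC T = mC T * x u
  noreal : IsUnit (T ^ 2 - 1).det

/-- There is a monodromy operator `γ` which acts on the block `V_i` by the Picard-Lefschetz
formula of cyclic coverings: there is a vanishing cycle `δ` in `V_i` such that `γ = ε T` on the
space `ℚ[T] δ` generated by the vectors `T ^ j δ` (where `ε = 1` or `ε = - 1`) and `γ = 1` on the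
orthogonal complement of this space (so `γ` is a complex reflection on each eigenspace of `T`, and
it is trivial on the other blocks). The operator `γ` acts on the second variation `y` by an operator
`η` such that `η ^ 2` is unipotent (for instance `η = 1`). For each point `u` there is a point `u'`
(the image of `u` under the covering transformation) such that `γ` and `η` are isomorphisms from
the Hodge structures at `u` to those at `u'`. Moreover a rational subspace of `V_i` which contains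
`δ`, is stable under `T` and is a sub-Hodge structure at every point `u` is equal to `V_i`. -/
def HasReflection {E : Type} (U : Set E) {ι B D : Type} [Fintype B] [DecidableEq B] [Fintype D]
    [DecidableEq D] (κ : B → ι) (Q : Matrix B B ℚ) (x : E → Matrix B B ℂ) (y : E → Matrix D D ℂ)
    (T : Matrix B B ℚ) (i : ι) : Prop :=
  ∃ (δ : B → ℚ) (ε : ℚ) (γ : Matrix B B ℚ) (η : Matrix D D ℚ) (n : ℕ),
    (∀ b, κ b ≠ i → δ b = 0) ∧ (ε = 1 ∨ ε = -1) ∧
    (∀ j : ℕ, γ *ᵥ (T ^ j *ᵥ δ) = ε • (T ^ (j + 1) *ᵥ δ)) ∧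
    (∀ v : B → ℚ, (∀ j : ℕ, (T ^ j *ᵥ δ) ⬝ᵥ (Q *ᵥ v) = 0) → γ *ᵥ v = v) ∧
    (η ^ 2 - 1) ^ n = 0 ∧
    (∀ u ∈ U, ∃ u' ∈ U, x u' * mC γ = mC γ * x u ∧ y u' * mC η = mC η * y u) ∧
    (∀ W : Submodule ℚ (B → ℚ), (∀ w ∈ W, ∀ b, κ b ≠ i → w b = 0) → (∀ w ∈ W, T *ᵥ w ∈ W) →
      (∀ u ∈ U, ∀ w ∈ W, x u *ᵥ vC w ∈ Submodule.span ℂ (vC '' (W : Set (B → ℚ)))) →
      δ ∈ W → ∀ w : B → ℚ, (∀ b, κ b ≠ i → w b = 0) → w ∈ W)

/-- The eigenspace of `T` in `V_i` with eigenvalue `z`. -/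
def eigenpart {ι B : Type} [Fintype B] (κ : B → ι) (T : Matrix B B ℚ) (i : ι) (z : ℂ) :
    Submodule ℂ (B → ℂ) where
  carrier := {v | (∀ b, κ b ≠ i → v b = 0) ∧ mC T *ᵥ v = z • v}
  zero_mem' := ⟨fun _ _ => rfl, by rw [mulVec_zero, smul_zero]⟩
  add_mem' := fun {v w} hv hw => ⟨fun b hb => by rw [Pi.add_apply, hv.1 b hb, hw.1 b hb, add_zero],
    by rw [mulVec_add, hv.2, hw.2, smul_add]⟩
  smul_mem' := fun c {v} hv => ⟨fun b hb => by rw [Pi.smul_apply, hv.1 b hb, smul_zero],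
    by rw [mulVec_smul, hv.2, smul_comm]⟩

/-- The forms `(v, w) ↦ (∏ t, Q_(c t) (v_(e (t, 0)), T ^ (a t) v_(e (t, 1)))) * h w`, where `e` is a
partition of the `k = 2 m` first variables into ordered pairs, `Q_i` is the restriction of `Q` to
the block `V_i`, and `h` is a Hodge class on `D`. -/
def productsT {ι B D : Type} [Fintype B] [DecidableEq B] [Fintype D] [DecidableEq ι] (κ : B → ι)
    (Q T : Matrix B B ℚ) (y : Matrix D D ℂ) (k : ℕ) : Set ((Fin k → B) → D → ℚ) :=
  {f | ∃ (m : ℕ) (e : Fin m × Fin 2 ≃ Fin k) (c : Fin m → ι) (a : Fin m → ℕ) (h : D → ℚ),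
    IsHodgeD y h ∧
    f = fun J l => (∏ t, block κ (Q * T ^ a t) (c t) (J (e (t, 0))) (J (e (t, 1)))) * h l}

/-- No character occurs in the second variation: a nonzero common eigenvector (in the dual space)
of all the matrices `τ (y u)` (`τ` linear over `ℚ`) is killed by them. -/
def NoChar {E : Type} (U : Set E) {D : Type} [Fintype D] (y : E → Matrix D D ℂ) : Prop :=
  ∀ w : D → ℂ, w ≠ 0 →
    (∀ u ∈ U, ∀ τ : ℂ →ₗ[ℚ] ℂ, ∃ c : ℂ, w ᵥ* (y u).map τ = c • w) →
    ∀ u ∈ U, ∀ τ : ℂ →ₗ[ℚ] ℂ, w ᵥ* (y u).map τ = 0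

/-- the root of unity `exp (2 π √-1 / n)` -/
noncomputable def zt (n : ℕ) : ℂ := Complex.exp (2 * Real.pi * Complex.I / n)

/-- The automorphism `T` has order `p i` on `V_i`, without the eigenvalue `1`, and
`∑ (r - q) h^(r, q) = C i * (2 b - p i)`, where `h^(r, q)` are the Hodge numbers of the eigenspace
of `T` in `V_i` with eigenvalue `exp (2 π √-1 b / p i)`, `0 < b < p i`. Here the vectors `v ⟨i, s⟩`
are a basis of `V_i ⊗ ℂ` of eigenvectors of `T` and of the Hodge operator `x0`, with eigenvalues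
`exp (2 π √-1 β i s / p i)` and `r - q = dg i s`. -/
def HasTypes {ι B : Type} [Fintype B] (κ : B → ι) (T : Matrix B B ℚ) (x0 : Matrix B B ℂ)
    (p : ι → ℕ) (C : ι → ℚ) : Prop :=
  ∃ (S : ι → Type) (_ : ∀ i, Fintype (S i)) (β : ∀ i, S i → ZMod (p i)) (dg : ∀ i, S i → ℚ)
    (v : Module.Basis (Σ i, S i) ℂ (B → ℂ)),
    (∀ i s, (∀ b, κ b ≠ i → v ⟨i, s⟩ b = 0) ∧ mC T *ᵥ v ⟨i, s⟩ = (zt (p i) ^ (β i s).val) • v ⟨i, s⟩ ∧
      x0 *ᵥ v ⟨i, s⟩ = (dg i s : ℂ) • v ⟨i, s⟩) ∧ (∀ i s, β i s ≠ 0) ∧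
    ∀ i (b : ZMod (p i)), b ≠ 0 →
      ∑ s ∈ univ.filter (fun s => β i s = b), dg i s = C i * (2 * (b.val : ℚ) - p i)

/-- The Fermat characters of a cyclic covering of degree `p` of the projective space of dimension
`n`, branched along a smooth hypersurface of degree `p * m`: pairs `(b, a)`, where `b` is a nonzero
residue modulo `p` and `a` is a family of `n + 1` nonzero residues modulo `p * m`, such that
`b / p + ∑ a_j / (p * m)` is an integer. -/
def CyclicIndex (p m n : ℕ) : Type :=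
  {a : ZMod p × (Fin (n + 1) → ZMod (p * m)) // a.1 ≠ 0 ∧ (∀ j, a.2 j ≠ 0) ∧
    ((m * a.1.val : ℕ) : ZMod (p * m)) + ∑ j, a.2 j = 0}

/-- The difference `r - q` of the Hodge numbers `(r, q)`, `r + q = n`, of a character: by Griffiths,
`q + 1 = b / p + ∑ a_j / (p * m)`. -/
def CyclicIndex.deg {p m n : ℕ} (a : CyclicIndex p m n) : ℚ :=
  ((n : ℚ) + 2) - 2 * ((m * a.1.1.val + ∑ j, (a.1.2 j).val : ℕ) : ℚ) / ((p * m : ℕ) : ℚ)

/-- The Hodge structures `V_i` with the automorphism `T` and with Hodge operator `x0` have, as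
representations of `T` and of the Hodge operator, the type of the primitive cohomology in degree
`n i` of a cyclic covering of degree `p i` of the projective space of dimension `n i`, branched along
a smooth hypersurface of degree `p i * m i`: there is a basis of eigenvectors indexed by the
characters. -/
def IsCyclicCover {ι B : Type} [Fintype B] (κ : B → ι) (T : Matrix B B ℚ) (x0 : Matrix B B ℂ)
    (p m n : ι → ℕ) : Prop :=
  ∃ v : Module.Basis (Σ i, CyclicIndex (p i) (m i) (n i)) ℂ (B → ℂ), ∀ i a,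
    (∀ b, κ b ≠ i → v ⟨i, a⟩ b = 0) ∧ mC T *ᵥ v ⟨i, a⟩ = (zt (p i) ^ a.1.1.val) • v ⟨i, a⟩ ∧
    x0 *ᵥ v ⟨i, a⟩ = (a.deg : ℂ) • v ⟨i, a⟩

end Pool.Agent.H842.CR
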