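import Pool.Agent.H842.CR.Wt

/-!
# The first fundamental theorem for products of special linear groups
-/

set_option linter.unusedSectionVars false

open Matrix Finset Function

namespace Pool.Agent.H842.CR

open Pool.Agent.TH125.Nod

universe u v

variable {K : Type u} [Field K] {B : Type} [Fintype B] [DecidableEq B] {ι : Type} [DecidableEq ι]
  {M : Type v} [AddCommGroup M] [Module K M]

/-- A form which is alternating in groups of variables; each group has as many variables as the
dimension of its block. -/
structure DT (κ : B → ι) (Φ : ι → Prop) {X : Type} [Fintype X] [DecidableEq X] (c : X → ι)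
    (g : X → ℕ) (w : (X → B) → M) : Prop where
  sup : Sup κ c w
  col : ∀ x y, g x = g y → c x = c y
  alt : ∀ x y, x ≠ y → g x = g y → ∀ L, w (fun j => L (Equiv.swap x y j)) = - w L
  card : ∀ x, (univ.filter fun y => g y = g x).card = (blk κ (c x)).card
  pos : ∀ x, Φ (c x)

open Classical in
/-- products of forms on pairs of variables and of a form in the other variables -/
noncomputable def genW (κ : B → ι) (Q : Matrix B B K) {S : Type} (c : S → ι) {Y X : Type}
    [Fintype Y] (e : (Y × Fin 2) ⊕ X ≃ S) (w : (X → B) → M) : (S → B) → M :=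
  fun J => if ∀ j, κ (J j) = c j then
    (∏ t, Q (J (e (.inl (t, 0)))) (J (e (.inl (t, 1))))) • w (fun x => J (e (.inr x))) else 0

/-- the span of the products -/
noncomputable def GW (κ : B → ι) (σ : ι → ι) (Q : Matrix B B K) (Φ : ι → Prop) {S : Type}
    (c : S → ι) :
    Submodule K ((S → B) → M) :=
  Submodule.span K {f | ∃ (Y X : Type) (_ : Fintype Y) (_ : Fintype X) (_ : DecidableEq X)
    (e : (Y × Fin 2) ⊕ X ≃ S) (g : X → ℕ) (w : (X → B) → M),
    (∀ t, c (e (.inl (t, 1))) = σ (c (e (.inl (t, 0))))) ∧
    DT κ Φ (fun x => c (e (.inr x))) g w ∧ f = genW κ Q c e w}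

variable {Φ : ι → Prop}

section perm
variable {S : Type} [DecidableEq S] {κ : B → ι} {σ : ι → ι} {Q : Matrix B B K} {c : S → ι}

theorem rho_GW {π : Equiv.Perm S} (hπ : ∀ j, c (π j) = c j) {f : (S → B) → M}
    (hf : f ∈ GW κ σ Q Φ c) : rho (K := K) π f ∈ GW κ σ Q Φ c := by
  unfold GW at hf ⊢
  induction hf using Submodule.span_induction with
  | mem x hx =>
    obtain ⟨Y, X, iY, iX, dX, e, g, w, hc, hw, rfl⟩ := hx
    refine Submodule.subset_span ⟨Y, X, iY, iX, dX, e.trans π, g, w, ?_, ?_, ?_⟩
    · intro t
      rw [Equiv.trans_apply, Equiv.trans_apply, hπ, hπ, hc]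
    · have : (fun x => c ((e.trans π) (.inr x))) = fun x => c (e (.inr x)) := by
        funext x
        rw [Equiv.trans_apply, hπ]
      rw [this]
      exact hw
    · funext J
      show genW κ Q c e w (fun j => J (π j)) = _
      unfold genW
      have h : (∀ j, κ (J (π j)) = c j) ↔ ∀ j, κ (J j) = c j := by
        constructor
        · intro h j
          have := h (π.symm j)
          rw [Equiv.apply_symm_apply] at this
          rw [this, ← hπ (π.symm j), Equiv.apply_symm_apply]
        · intro h j
          rw [h (π j), hπ]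
      by_cases hJ : ∀ j, κ (J j) = c j
      · rw [if_pos hJ, if_pos (h.2 hJ)]
        rfl
      · rw [if_neg hJ, if_neg (fun h' => hJ (h.1 h'))]
  | zero => rw [map_zero]; exact Submodule.zero_mem _
  | add x y _ _ hx hy => rw [map_add]; exact Submodule.add_mem _ hx hy
  | smul a x _ hx => rw [map_smul]; exact Submodule.smul_mem _ a hx

open Classical in
/-- multiplication with the form on two variables -/
theorem mul_GW {a b : S} (hab : a ≠ b) (hcab : c b = σ (c a))
    {G : ({x // x ≠ a ∧ x ≠ b} → B) → M}
    (hG : G ∈ GW κ σ Q Φ (fun x : {x // x ≠ a ∧ x ≠ b} => c x.1)) :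
    (fun J : S → B => if ∀ j, κ (J j) = c j then Q (J a) (J b) • G (fun x => J x.1) else 0) ∈
      GW κ σ Q Φ c := by
  unfold GW at hG
  induction hG using Submodule.span_induction with
  | mem G hG =>
    obtain ⟨Y, X, iY, iX, dX, e, g, w, hc, hw, rfl⟩ := hG
    let F : (Option Y × Fin 2) ⊕ X → S := fun p =>
      match p with
      | .inl (none, τ) => if τ = 0 then a else b
      | .inl (some y, τ) => (e (.inl (y, τ))).1
      | .inr x => (e (.inr x)).1
    have hF0 : F (.inl (none, 0)) = a := rfl
    have hF1 : F (.inl (none, 1)) = b := rfl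
    have hFs : ∀ y τ, F (.inl (some y, τ)) = (e (.inl (y, τ))).1 := fun y τ => rfl
    have hFx : ∀ x, F (.inr x) = (e (.inr x)).1 := fun x => rfl
    have hbij : Function.Bijective F := by
      constructor
      · rintro (⟨_ | y, τ⟩ | x) (⟨_ | y', τ'⟩ | x') h
        · fin_cases τ <;> fin_cases τ'
          · rfl
          · exact absurd h hab
          · exact absurd h (Ne.symm hab)
          · rfl
        · rw [hFs] at h
          have := (e (.inl (y', τ'))).2
          fin_cases τ
          · exact absurd h.symm this.1
          · exact absurd h.symm this.2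
        · rw [hFx] at h
          have := (e (.inr x')).2
          fin_cases τ
          · exact absurd h.symm this.1
          · exact absurd h.symm this.2
        · rw [hFs] at h
          have := (e (.inl (y, τ))).2
          fin_cases τ'
          · exact absurd h this.1
          · exact absurd h this.2
        · rw [hFs, hFs] at h
          have h1 := e.injective (Subtype.ext h)
          rw [Sum.inl.injEq, Prod.mk.injEq] at h1
          rw [h1.1, h1.2]
        · rw [hFs, hFx] at h
          have h1 := e.injective (Subtype.ext h)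
          exact absurd h1 Sum.inl_ne_inr
        · rw [hFx] at h
          have := (e (.inr x)).2
          fin_cases τ'
          · exact absurd h this.1
          · exact absurd h this.2
        · rw [hFs, hFx] at h
          have h1 := e.injective (Subtype.ext h)
          exact absurd h1 Sum.inr_ne_inl
        · rw [hFx, hFx] at h
          have h1 := e.injective (Subtype.ext h)
          rw [Sum.inr.injEq] at h1
          rw [h1]
      · intro x
        by_cases h1 : x = a
        · exact ⟨.inl (none, 0), by rw [hF0, h1]⟩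
        by_cases h2 : x = b
        · exact ⟨.inl (none, 1), by rw [hF1, h2]⟩
        obtain ⟨(⟨y, τ⟩ | z), hz⟩ := e.surjective ⟨x, h1, h2⟩
        · exact ⟨.inl (some y, τ), by rw [hFs, hz]⟩
        · exact ⟨.inr z, by rw [hFx, hz]⟩
    refine Submodule.subset_span ⟨Option Y, X, inferInstance, inferInstance, inferInstance,
      Equiv.ofBijective F hbij, g, w, ?_, hw, ?_⟩
    · rintro (_ | y)
      · exact hcab
      · exact hc y
    · funext J
      unfold genW
      by_cases hJ : ∀ j, κ (J j) = c j
      · rw [if_pos hJ, if_pos hJ, if_pos (fun x : {x // x ≠ a ∧ x ≠ b} => hJ x.1), smul_smul,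
          Fintype.prod_option]
        rfl
      · rw [if_neg hJ, if_neg hJ]
  | zero =>
    have : (fun J : S → B => if ∀ j, κ (J j) = c j then Q (J a) (J b) •
        (0 : ({x // x ≠ a ∧ x ≠ b} → B) → M) (fun x => J x.1) else 0) = 0 := by
      funext J
      simp
    rw [this]
    exact Submodule.zero_mem _
  | add x y _ _ hx hy =>
    have : (fun J : S → B => if ∀ j, κ (J j) = c j then Q (J a) (J b) •
        (x + y) (fun x => J x.1) else 0) =
        (fun J : S → B => if ∀ j, κ (J j) = c j then Q (J a) (J b) • x (fun x => J x.1) else 0) +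
        (fun J : S → B => if ∀ j, κ (J j) = c j then Q (J a) (J b) • y (fun x => J x.1)
          else 0) := by
      funext J
      simp only [Pi.add_apply, smul_add]
      split_ifs <;> simp
    rw [this]
    exact Submodule.add_mem _ hx hy
  | smul r x _ hx =>
    have : (fun J : S → B => if ∀ j, κ (J j) = c j then Q (J a) (J b) •
        (r • x) (fun x => J x.1) else 0) =
        r • (fun J : S → B => if ∀ j, κ (J j) = c j then Q (J a) (J b) • x (fun x => J x.1)
          else 0) := by
      funext J
      simp only [Pi.smul_apply]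
      split_ifs
      · rw [smul_comm]
      · simp
    rw [this]
    exact Submodule.smul_mem _ r hx

open Classical in
/-- multiplication with the form on two variables -/
noncomputable def mulQ (κ : B → ι) (Q : Matrix B B K) (c : S → ι) (a b : S)
    (G : ({x // x ≠ a ∧ x ≠ b} → B) → M) : (S → B) → M :=
  fun J => if ∀ j, κ (J j) = c j then Q (J a) (J b) • G (fun x => J x.1) else 0

theorem mulQ_GW {a b : S} (hab : a ≠ b) (hcab : c b = σ (c a))
    {G : ({x // x ≠ a ∧ x ≠ b} → B) → M}
    (hG : G ∈ GW κ σ Q Φ (fun x : {x // x ≠ a ∧ x ≠ b} => c x.1)) :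
    mulQ κ Q c a b G ∈ GW κ σ Q Φ c := mul_GW hab hcab hG

theorem mulQ_pos {a b : S} (G : ({x // x ≠ a ∧ x ≠ b} → B) → M) {J : S → B}
    (hJ : ∀ j, κ (J j) = c j) : mulQ κ Q c a b G J = Q (J a) (J b) • G (fun x => J x.1) :=
  if_pos hJ

theorem mulQ_neg {a b : S} (G : ({x // x ≠ a ∧ x ≠ b} → B) → M) {J : S → B}
    (hJ : ¬ ∀ j, κ (J j) = c j) : mulQ κ Q c a b G J = 0 := if_neg hJ

end perm

section det
variable {S : Type} [Fintype S] [DecidableEq S] {κ : B → ι} {σ : ι → ι} {Q : Matrix B B K}
  {c : S → ι} {i : ι} {A : Finset S}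

open Classical in
/-- the determinant, for an enumeration of a block -/
noncomputable def eps (en : {x // x ∈ A} → B) (L : {x // x ∈ A} → B) : K :=
  ∑ ρ : Equiv.Perm {x // x ∈ A}, if ∀ a, L a = en (ρ a) then ((Equiv.Perm.sign ρ : ℤ) : K) else 0

theorem eps_perm {en : {x // x ∈ A} → B} (hen : Injective en) (ρ : Equiv.Perm {x // x ∈ A}) :
    eps (K := K) en (fun a => en (ρ a)) = ((Equiv.Perm.sign ρ : ℤ) : K) := by
  classical
  unfold eps
  rw [Finset.sum_eq_single ρ]
  · rw [if_pos (fun _ => rfl)]
  · intro ρ' _ h
    rw [if_neg]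
    intro h'
    apply h
    ext1 a
    exact (hen (h' a)).symm
  · intro h
    exact absurd (Finset.mem_univ _) h

theorem eps_zero {en : {x // x ∈ A} → B} {L : {x // x ∈ A} → B}
    (hL : ¬ ∃ ρ : Equiv.Perm {x // x ∈ A}, ∀ a, L a = en (ρ a)) : eps (K := K) en L = 0 := by
  classical
  unfold eps
  refine Finset.sum_eq_zero fun ρ _ => ?_
  rw [if_neg (fun h => hL ⟨ρ, h⟩)]

theorem eps_swap {en : {x // x ∈ A} → B} {x y : {x // x ∈ A}} (hxy : x ≠ y)
    (L : {x // x ∈ A} → B) :
    eps (K := K) en (fun j => L (Equiv.swap x y j)) = - eps (K := K) en L := by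
  classical
  unfold eps
  rw [← Finset.sum_neg_distrib]
  refine Fintype.sum_equiv (Equiv.mulRight (Equiv.swap x y)) _ _ fun ρ => ?_
  rw [Equiv.coe_mulRight, Equiv.Perm.sign_mul, Equiv.Perm.sign_swap hxy]
  have h : (∀ a, L (Equiv.swap x y a) = en (ρ a)) ↔
      ∀ a, L a = en ((ρ * Equiv.swap x y) a) := by
    constructor
    · intro h a
      have := h (Equiv.swap x y a)
      rw [Equiv.swap_apply_self] at this
      exact this
    · intro h a
      have := h (Equiv.swap x y a)
      rw [this, Equiv.Perm.mul_apply, Equiv.swap_apply_self]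
  by_cases h1 : ∀ a, L (Equiv.swap x y a) = en (ρ a)
  · rw [if_pos h1, if_pos (h.1 h1)]
    push_cast
    ring
  · rw [if_neg h1, if_neg (fun h' => h1 (h.2 h')), neg_zero]

open Classical in
/-- multiplication with a determinant -/
theorem det_GW (hΦ : Φ i) (hA : ∀ a ∈ A, c a = i) (hcard : A.card = (blk κ i).card)
    {en : {x // x ∈ A} → B} (hen : ∀ a, κ (en a) = i)
    {G : ({x // ¬ x ∈ A} → B) → M}
    (hG : G ∈ GW κ σ Q Φ (fun x : {x // ¬ x ∈ A} => c x.1)) :
    (fun J : S → B => if ∀ j, κ (J j) = c j then
      eps (K := K) en (fun x => J x.1) • G (fun x => J x.1) else 0) ∈ GW κ σ Q Φ c := by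
  unfold GW at hG
  induction hG using Submodule.span_induction with
  | mem G hG =>
    obtain ⟨Y, X, iY, iX, dX, e, g, w, hc, hw, rfl⟩ := hG
    let E : (Y × Fin 2) ⊕ (X ⊕ {x // x ∈ A}) ≃ S :=
      ((Equiv.sumAssoc (Y × Fin 2) X {x // x ∈ A}).symm.trans
        (Equiv.sumCongr e (Equiv.refl _))).trans
        ((Equiv.sumComm _ _).trans (Equiv.sumCompl (fun x => x ∈ A)))
    have hE1 : ∀ p, E (.inl p) = (e (.inl p)).1 := fun p => rfl
    have hE2 : ∀ x, E (.inr (.inl x)) = (e (.inr x)).1 := fun x => rfl
    have hE3 : ∀ a, E (.inr (.inr a)) = a.1 := fun x => rfl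
    refine Submodule.subset_span ⟨Y, X ⊕ {x // x ∈ A}, inferInstance, inferInstance,
      inferInstance, E, Sum.elim (fun x => g x + 1) (fun _ => 0),
      fun L => eps (K := K) en (fun a => L (.inr a)) • w (fun x => L (.inl x)), ?_, ?_, ?_⟩
    · exact hc
    · refine ⟨?_, ?_, ?_, ?_, ?_⟩
      · intro L hL
        show eps (K := K) en (fun a => L (.inr a)) • w (fun x => L (.inl x)) = 0
        by_cases h1 : ∀ x, κ (L (.inl x)) = c (e (.inr x)).1
        · rw [eps_zero, zero_smul]
          rintro ⟨ρ, hρ⟩
          apply hL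
          rintro (x | a)
          · exact h1 x
          · rw [hρ a, hen]
            show i = c (E (.inr (.inr a)))
            rw [hE3, hA _ a.2]
        · rw [hw.sup _ h1, smul_zero]
      · rintro (x | a) (y | b) h
        · exact hw.col x y (Nat.succ_injective h)
        · exact absurd h (Nat.succ_ne_zero _)
        · exact absurd h.symm (Nat.succ_ne_zero _)
        · show c (E (.inr (.inr a))) = c (E (.inr (.inr b)))
          rw [hE3, hE3, hA _ a.2, hA _ b.2]
      · rintro (x | a) (y | b) hne h L
        · have hne' : x ≠ y := fun h => hne (congrArg _ h)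
          have h1 := hw.alt x y hne' (Nat.succ_injective h) (fun j => L (.inl j))
          rw [← Equiv.Perm.sumCongr_swap_refl]
          show eps (K := K) en (fun a => L (.inr a)) •
            w (fun z => L (.inl (Equiv.swap x y z))) = _
          rw [h1, smul_neg]
        · exact absurd h (Nat.succ_ne_zero _)
        · exact absurd h.symm (Nat.succ_ne_zero _)
        · have hne' : a ≠ b := fun h => hne (congrArg _ h)
          have h1 := eps_swap (K := K) (en := en) hne' (fun j => L (.inr j))
          rw [← Equiv.Perm.sumCongr_refl_swap]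
          show eps (K := K) en (fun j => L (.inr (Equiv.swap a b j))) •
            w (fun z => L (.inl z)) = _
          rw [h1, neg_smul]
      · rintro (x | a)
        · rw [Finset.card_filter, Fintype.sum_sum_type]
          refine (congrArg₂ (· + ·) (?_ : _ = (univ.filter fun y => g y = g x).card)
            (?_ : _ = 0)).trans ?_
          · rw [Finset.card_filter]
            refine Finset.sum_congr rfl fun y _ => ?_
            by_cases h : g y = g x
            · rw [if_pos h]
              exact if_pos (congrArg (· + 1) h)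
            · rw [if_neg h]
              exact if_neg (fun h' => h (Nat.succ_injective h'))
          · refine Finset.sum_eq_zero fun z _ => ?_
            exact if_neg (fun h' => Nat.succ_ne_zero _ h'.symm)
          · exact hw.card x
        · rw [Finset.card_filter, Fintype.sum_sum_type]
          refine (congrArg₂ (· + ·) (?_ : _ = 0) (?_ : _ = A.card)).trans ?_
          · refine Finset.sum_eq_zero fun z _ => ?_
            exact if_neg (fun h' => Nat.succ_ne_zero _ h')
          · refine (Finset.sum_congr rfl fun z _ => if_pos rfl).trans ?_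
            rw [Finset.sum_const, smul_eq_mul, mul_one, Finset.card_univ, Fintype.card_coe]
          · show 0 + A.card = (blk κ (c (E (.inr (.inr a))))).card
            rw [hE3, hA _ a.2, zero_add, hcard]
      · rintro (x | a)
        · exact hw.pos x
        · show Φ (c (E (.inr (.inr a))))
          rw [hE3, hA _ a.2]
          exact hΦ
    · funext J
      unfold genW
      by_cases hJ : ∀ j, κ (J j) = c j
      · rw [if_pos hJ, if_pos hJ, if_pos (fun x : {x // ¬ x ∈ A} => hJ x.1), smul_comm]
        rfl
      · rw [if_neg hJ, if_neg hJ]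
  | zero =>
    have : (fun J : S → B => if ∀ j, κ (J j) = c j then eps (K := K) en (fun x => J x.1) •
        (0 : ({x // ¬ x ∈ A} → B) → M) (fun x => J x.1) else 0) = 0 := by
      funext J
      simp
    rw [this]
    exact Submodule.zero_mem _
  | add x y _ _ hx hy =>
    have : (fun J : S → B => if ∀ j, κ (J j) = c j then eps (K := K) en (fun x => J x.1) •
        (x + y) (fun x => J x.1) else 0) =
        (fun J : S → B => if ∀ j, κ (J j) = c j then
          eps (K := K) en (fun x => J x.1) • x (fun x => J x.1) else 0) +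
        (fun J : S → B => if ∀ j, κ (J j) = c j then
          eps (K := K) en (fun x => J x.1) • y (fun x => J x.1) else 0) := by
      funext J
      simp only [Pi.add_apply, smul_add]
      split_ifs <;> simp
    rw [this]
    exact Submodule.add_mem _ hx hy
  | smul r x _ hx =>
    have : (fun J : S → B => if ∀ j, κ (J j) = c j then eps (K := K) en (fun x => J x.1) •
        (r • x) (fun x => J x.1) else 0) =
        r • (fun J : S → B => if ∀ j, κ (J j) = c j then
          eps (K := K) en (fun x => J x.1) • x (fun x => J x.1) else 0) := by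
      funext J
      simp only [Pi.smul_apply]
      split_ifs
      · rw [smul_comm]
      · simp
    rw [this]
    exact Submodule.smul_mem _ r hx

end det

section alt
variable {S : Type} [Fintype S] [DecidableEq S] {κ : B → ι} {Q : Matrix B B K} {c : S → ι}
  {i : ι} [CharZero K]

/-- antisymmetrization -/
theorem avg (T : Submodule K ((S → B) → M))
    (hT : ∀ a b, c a = i → c b = i → ∀ f ∈ T, sw (K := K) a b f ∈ T)
    {A : Finset S} (hA : ∀ a ∈ A, c a = i) {w : (S → B) → M}
    (halt : ∀ a ∈ A, ∀ b ∈ A, a ≠ b → sw (K := K) a b w + w ∈ T)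
    (PT : Submodule K ((S → B) → M))
    (hPT : ∀ a b, c a = i → c b = i → ∀ f ∈ PT, sw (K := K) a b f ∈ PT) (hw : w ∈ PT) :
    ∃ w' ∈ PT, w - w' ∈ T ∧ ∀ a ∈ A, ∀ b ∈ A, a ≠ b → sw (K := K) a b w' = - w' := by
  classical
  have key : ∀ σ : Equiv.Perm {x // x ∈ A},
      rho (K := K) (Equiv.Perm.ofSubtype σ) w - ((Equiv.Perm.sign σ : ℤ) : K) • w ∈ T := by
    intro σ
    induction σ using Equiv.Perm.swap_induction_on with
    | one => simp [rho_one]
    | swap_mul τ x y hxy hτ =>
      rw [map_mul, rho_mul, Equiv.Perm.sign_mul, Equiv.Perm.sign_swap hxy,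
        Equiv.Perm.ofSubtype_swap_eq]
      have hne : (x : S) ≠ y := fun h => hxy (Subtype.ext h)
      have h1 := hT x y (hA _ x.2) (hA _ y.2) _ hτ
      have h2 := halt x x.2 y y.2 hne
      have h3 := T.smul_mem ((Equiv.Perm.sign τ : ℤ) : K) h2
      have h4 := T.add_mem h1 h3
      convert h4 using 1
      simp only [sw, map_sub, map_smul, smul_add]
      push_cast
      module
  have keyP : ∀ σ : Equiv.Perm {x // x ∈ A},
      rho (K := K) (Equiv.Perm.ofSubtype σ) w ∈ PT := by
    intro σ
    induction σ using Equiv.Perm.swap_induction_on with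
    | one =>
      rw [map_one, rho_one]
      exact hw
    | swap_mul τ x y hxy hτ =>
      rw [map_mul, rho_mul, Equiv.Perm.ofSubtype_swap_eq]
      exact hPT x y (hA _ x.2) (hA _ y.2) _ hτ
  have hsq : ∀ σ : Equiv.Perm {x // x ∈ A},
      ((Equiv.Perm.sign σ : ℤ) : K) * ((Equiv.Perm.sign σ : ℤ) : K) = 1 := by
    intro σ
    rcases Int.units_eq_one_or (Equiv.Perm.sign σ) with h | h <;> rw [h] <;> norm_num
  have hN : ((Fintype.card (Equiv.Perm {x // x ∈ A}) : ℕ) : K) ≠ 0 := by
    rw [Fintype.card_perm]
    exact_mod_cast Nat.factorial_ne_zero _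
  set W := ∑ σ : Equiv.Perm {x // x ∈ A}, ((Equiv.Perm.sign σ : ℤ) : K) •
      rho (K := K) (Equiv.Perm.ofSubtype σ) w with hW
  have hfac : ∑ σ : Equiv.Perm {x // x ∈ A}, (((Equiv.Perm.sign σ : ℤ) : K) •
      (rho (K := K) (Equiv.Perm.ofSubtype σ) w - ((Equiv.Perm.sign σ : ℤ) : K) • w)) ∈ T :=
    T.sum_mem fun σ _ => T.smul_mem _ (key σ)
  simp only [smul_sub, Finset.sum_sub_distrib, smul_smul, hsq, one_smul, Finset.sum_const,
    Finset.card_univ, ← Nat.cast_smul_eq_nsmul K, ← hW] at hfac
  refine ⟨((Fintype.card (Equiv.Perm {x // x ∈ A}) : ℕ) : K)⁻¹ • W,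
    PT.smul_mem _ (PT.sum_mem fun σ _ => PT.smul_mem _ (keyP σ)), ?_, ?_⟩
  · have h1 := T.smul_mem (-((Fintype.card (Equiv.Perm {x // x ∈ A}) : ℕ) : K)⁻¹) hfac
    rw [smul_sub, smul_smul, neg_mul, inv_mul_cancel₀ hN, neg_smul, neg_smul, one_smul] at h1
    have h2 : w - ((Fintype.card (Equiv.Perm {x // x ∈ A}) : ℕ) : K)⁻¹ • W =
        -(((Fintype.card (Equiv.Perm {x // x ∈ A}) : ℕ) : K)⁻¹ • W) - -w := by abel
    rw [h2]
    exact h1
  · intro a ha b hb hab
    have hab' : (⟨a, ha⟩ : {x // x ∈ A}) ≠ ⟨b, hb⟩ := fun h => hab (congrArg Subtype.val h)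
    show rho (K := K) (Equiv.swap a b) _ = _
    rw [map_smul, hW, map_sum, ← smul_neg, ← Finset.sum_neg_distrib]
    congr 1
    refine Fintype.sum_equiv (Equiv.mulLeft (Equiv.swap ⟨a, ha⟩ ⟨b, hb⟩)) _ _ fun σ => ?_
    rw [Equiv.coe_mulLeft, Equiv.Perm.sign_mul, Equiv.Perm.sign_swap hab', map_mul,
      Equiv.Perm.ofSubtype_swap_eq, rho_mul, map_smul]
    push_cast
    module

/-- The induction on the number of alternating variables, with determinants. -/
theorem altD (T : Submodule K ((S → B) → M))
    (hT : ∀ a b, c a = i → c b = i → ∀ f ∈ T, sw (K := K) a b f ∈ T) (n : ℕ)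
    (hn : (univ.filter fun b => κ b = i).card = n) (A : Finset S) (hA : A = univ.filter (c · = i))
    (PT : Submodule K ((S → B) → M))
    (hPT : ∀ a b, c a = i → c b = i → ∀ f ∈ PT, sw (K := K) a b f ∈ PT)
    (hPS : ∀ f ∈ PT, Sup κ c f)
    (base : ∀ A' ⊆ A, A'.card = n → A'.Nonempty → ∀ w ∈ PT,
      (∀ a ∈ A', ∀ b ∈ A', a ≠ b → sw (K := K) a b w = - w) → w ∈ T)
    (lam : ℚ) (hlam : ∀ e : ℕ, 1 ≤ e → e < n → e ≤ A.card →
      (0 : ℚ) < e * (lam - (e - 1)) + (A.card - e : ℚ)) (d : ℕ) :
    ∀ A' ⊆ A, A'.Nonempty → n ≤ A'.card + d → ∀ w ∈ PT,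
      (∀ a ∈ A, (lam : K) • w + ∑ b ∈ A.erase a, sw (K := K) a b w ∈ T) →
      (∀ a ∈ A', ∀ b ∈ A', a ≠ b → sw (K := K) a b w + w ∈ T) → w ∈ T := by
  have hAi : ∀ a ∈ A, c a = i := fun a ha => by
    rw [hA, Finset.mem_filter] at ha
    exact ha.2
  have hq : ∀ a ∈ A, ∀ b ∈ A, ∀ x y : (S → B) → M, T.mkQ x = T.mkQ y →
      T.mkQ (sw (K := K) a b x) = T.mkQ (sw (K := K) a b y) := by
    intro a ha b hb x y hxy
    rw [Submodule.mkQ_apply, Submodule.mkQ_apply, Submodule.Quotient.eq] at hxy ⊢
    have := hT a b (hAi a ha) (hAi b hb) _ hxy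
    rwa [sw, map_sub] at this
  have hq' : ∀ x y : (S → B) → M, x + y ∈ T ↔ T.mkQ x = - T.mkQ y := by
    intro x y
    rw [← map_neg, Submodule.mkQ_apply, Submodule.mkQ_apply, Submodule.Quotient.eq, sub_neg_eq_add]
  have hbig : ∀ A' ⊆ A, A'.Nonempty → n ≤ A'.card → ∀ w ∈ PT,
      (∀ a ∈ A', ∀ b ∈ A', a ≠ b → sw (K := K) a b w + w ∈ T) → w ∈ T := by
    intro A' hA' hne hcard w hw halt
    by_cases hn' : n + 1 ≤ A'.card
    · exact pigeon T hT (fun a ha => hAi a (hA' ha)) (by omega) (hPS w hw) halt
    · obtain ⟨w', hw', hww, halt'⟩ := avg T hT (fun a ha => hAi a (hA' ha)) halt PT hPT hw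
      have h1 := base A' hA' (by omega) hne w' hw' halt'
      have h2 := T.add_mem hww h1
      rwa [sub_add_cancel] at h2
  induction d with
  | zero =>
    intro A' hA' hne hcard w hw _ halt
    exact hbig A' hA' hne (by omega) w hw halt
  | succ d ih =>
    intro A' hA' hne hcard w hw hJ halt
    by_cases hlt : n ≤ A'.card
    · exact hbig A' hA' hne hlt w hw halt
    have hlt' : A'.card < n := not_le.1 hlt
    -- the alternating sum over one more variable
    have hstep : ∀ j ∈ A \ A', w - ∑ a ∈ A', sw (K := K) a j w ∈ T := by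
      intro j hj
      rw [Finset.mem_sdiff] at hj
      have hji := hAi j hj.1
      have hswA : ∀ a ∈ A', ∀ x, Equiv.swap a j x ∈ A ↔ x ∈ A := by
        intro a ha x
        by_cases h1 : x = a
        · rw [h1, Equiv.swap_apply_left]
          exact ⟨fun _ => hA' ha, fun _ => hj.1⟩
        by_cases h2 : x = j
        · rw [h2, Equiv.swap_apply_right]
          exact ⟨fun _ => hj.1, fun _ => hA' ha⟩
        rw [Equiv.swap_apply_of_ne_of_ne h1 h2]
      refine ih (insert j A') ?_ ⟨j, Finset.mem_insert_self _ _⟩ ?_ _ ?_ ?_ ?_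
      · intro x hx
        rw [Finset.mem_insert] at hx
        rcases hx with rfl | hx
        · exact hj.1
        · exact hA' hx
      · rw [Finset.card_insert_of_notMem hj.2]
        omega
      · exact PT.sub_mem hw (PT.sum_mem fun a ha => hPT a j (hAi a (hA' ha)) hji w hw)
      · intro a ha
        have h1 : ∀ l ∈ A', (lam : K) • sw (K := K) l j w +
            ∑ b ∈ A.erase a, sw (K := K) a b (sw (K := K) l j w) ∈ T := by
          intro l hl
          have h2 := jm_rho (K := K) A (Equiv.swap l j) (hswA l hl) a w
          rw [h2, sw, ← map_smul, ← map_add]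
          apply hT l j (hAi l (hA' hl)) hji
          apply hJ
          rw [← hswA l hl, ← Equiv.Perm.mul_apply, mul_inv_cancel]
          exact ha
        have h3 := T.sub_mem (hJ a ha) (T.sum_mem h1)
        convert h3 using 1
        simp only [sw, map_sub, map_sum, Finset.sum_sub_distrib, Finset.sum_add_distrib, smul_sub,
          Finset.smul_sum]
        rw [Finset.sum_comm (s := A.erase a) (t := A')]
        abel
      · -- alternating
        have hsym : ∀ a ∈ A', sw (K := K) a j (w - ∑ l ∈ A', sw (K := K) l j w) +
            (w - ∑ l ∈ A', sw (K := K) l j w) ∈ T := by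
          intro a ha
          rw [hq']
          simp only [map_sub, map_sum]
          rw [← Finset.add_sum_erase A' _ ha, ← Finset.add_sum_erase A' (fun l =>
            T.mkQ (sw (K := K) l j w)) ha]
          have h1 : sw (K := K) a j (sw (K := K) a j w) = w := by
            show rho (K := K) _ (rho (K := K) _ w) = w
            rw [← rho_mul, Equiv.swap_mul_self, rho_one]
          have h2 : ∀ l ∈ A'.erase a, T.mkQ (sw (K := K) a j (sw (K := K) l j w)) =
              - T.mkQ (sw (K := K) l j w) := by
            intro l hl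
            rw [Finset.mem_erase] at hl
            have h3 : sw (K := K) a j (sw (K := K) l j w) =
                sw (K := K) l j (sw (K := K) a l w) := by
              show rho (K := K) _ (rho (K := K) _ w) = rho (K := K) _ (rho (K := K) _ w)
              rw [← rho_mul, ← rho_mul, Equiv.mul_swap_eq_swap_mul (Equiv.swap l j) a l,
                Equiv.swap_apply_of_ne_of_ne (x := a) (Ne.symm hl.1)
                  (fun h : a = j => hj.2 (h ▸ ha)),
                Equiv.swap_apply_left]
            have h4 : T.mkQ (sw (K := K) a l w) = T.mkQ (-w) := by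
              rw [map_neg, ← hq']
              exact halt a ha l hl.2 (Ne.symm hl.1)
            rw [h3, hq l (hA' hl.2) j hj.1 _ _ h4]
            simp only [sw, map_neg]
          simp only [sw] at h1 h2 ⊢
          rw [h1, Finset.sum_congr rfl h2, Finset.sum_neg_distrib]
          abel
        have hin : ∀ a ∈ A', ∀ b ∈ A', a ≠ b →
            sw (K := K) a b (w - ∑ l ∈ A', sw (K := K) l j w) +
            (w - ∑ l ∈ A', sw (K := K) l j w) ∈ T := by
          intro a ha b hb hab
          rw [hq']
          have h0 : T.mkQ (sw (K := K) a b w) = T.mkQ (-w) := by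
            rw [map_neg, ← hq']
            exact halt a ha b hb hab
          have h1 : ∀ l ∈ A', T.mkQ (sw (K := K) a b (sw (K := K) l j w)) =
              - T.mkQ (sw (K := K) (Equiv.swap a b l) j w) := by
            intro l hl
            have h3 : sw (K := K) a b (sw (K := K) l j w) =
                sw (K := K) (Equiv.swap a b l) j (sw (K := K) a b w) := by
              show rho (K := K) _ (rho (K := K) _ w) = rho (K := K) _ (rho (K := K) _ w)
              rw [← rho_mul, ← rho_mul, Equiv.mul_swap_eq_swap_mul,
                Equiv.swap_apply_of_ne_of_ne (x := j) (fun h => hj.2 (h ▸ ha))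
                  (fun h => hj.2 (h ▸ hb))]
            have hl' : Equiv.swap a b l ∈ A' := by
              by_cases e1 : l = a
              · rw [e1, Equiv.swap_apply_left]
                exact hb
              by_cases e2 : l = b
              · rw [e2, Equiv.swap_apply_right]
                exact ha
              rw [Equiv.swap_apply_of_ne_of_ne e1 e2]
              exact hl
            rw [h3, hq _ (hA' hl') j hj.1 _ _ h0]
            simp only [sw, map_neg]
          have h2 : ∑ l ∈ A', T.mkQ (sw (K := K) (Equiv.swap a b l) j w) =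
              ∑ l ∈ A', T.mkQ (sw (K := K) l j w) := by
            refine Finset.sum_bij (fun l _ => Equiv.swap a b l) ?_ ?_ ?_ ?_
            · intro l hl
              show Equiv.swap a b l ∈ A'
              by_cases e1 : l = a
              · rw [e1, Equiv.swap_apply_left]
                exact hb
              by_cases e2 : l = b
              · rw [e2, Equiv.swap_apply_right]
                exact ha
              rw [Equiv.swap_apply_of_ne_of_ne e1 e2]
              exact hl
            · intro l _ l' _ h
              exact (Equiv.swap a b).injective h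
            · intro l hl
              refine ⟨Equiv.swap a b l, ?_, Equiv.swap_apply_self _ _ _⟩
              by_cases e1 : l = a
              · rw [e1, Equiv.swap_apply_left]
                exact hb
              by_cases e2 : l = b
              · rw [e2, Equiv.swap_apply_right]
                exact ha
              rw [Equiv.swap_apply_of_ne_of_ne e1 e2]
              exact hl
            · intro l _
              rfl
          simp only [map_sub, map_sum]
          simp only [sw] at h0 h1 h2 ⊢
          rw [h0, Finset.sum_congr rfl h1, Finset.sum_neg_distrib, h2, map_neg]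
          abel
        intro a ha b hb hab
        rw [Finset.mem_insert] at ha hb
        rcases ha with rfl | ha
        · rcases hb with rfl | hb
          · exact absurd rfl hab
          · have := hsym b hb
            rwa [sw, Equiv.swap_comm] at this
        · rcases hb with rfl | hb
          · exact hsym a ha
          · exact hin a ha b hb hab
    -- the final count
    have hsumT := T.sum_mem (fun a (ha : a ∈ A') => hJ a (hA' ha))
    rw [← Submodule.ker_mkQ T, LinearMap.mem_ker, map_sum] at hsumT
    have h1 : ∀ a ∈ A', T.mkQ ((lam : K) • w + ∑ b ∈ A.erase a, sw (K := K) a b w) =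
        (lam : K) • T.mkQ w - (((A'.card : ℤ) - 1 : ℤ) : K) • T.mkQ w +
          ∑ b ∈ A \ A', T.mkQ (sw (K := K) a b w) := by
      intro a ha
      have hsplit : A.erase a = A'.erase a ∪ (A \ A') := by
        ext x
        simp only [Finset.mem_erase, Finset.mem_union, Finset.mem_sdiff]
        constructor
        · rintro ⟨h1, h2⟩
          by_cases hx : x ∈ A'
          · exact Or.inl ⟨h1, hx⟩
          · exact Or.inr ⟨h2, hx⟩
        · rintro (⟨h1, h2⟩ | ⟨h1, h2⟩)
          · exact ⟨h1, hA' h2⟩
          · exact ⟨fun h => h2 (h ▸ ha), h1⟩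
      have hdis : Disjoint (A'.erase a) (A \ A') := by
        rw [Finset.disjoint_left]
        intro x hx hx'
        rw [Finset.mem_erase] at hx
        rw [Finset.mem_sdiff] at hx'
        exact hx'.2 hx.2
      rw [map_add, map_smul, map_sum, hsplit, Finset.sum_union hdis]
      have h2 : ∀ b ∈ A'.erase a, T.mkQ (sw (K := K) a b w) = - T.mkQ w := by
        intro b hb
        rw [Finset.mem_erase] at hb
        rw [← hq']
        exact halt a ha b hb.2 (Ne.symm hb.1)
      rw [Finset.sum_congr rfl h2, Finset.sum_const, Finset.card_erase_of_mem ha]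
      have hpos : 1 ≤ A'.card := Finset.card_pos.2 hne
      have h3 : (((A'.card : ℤ) - 1 : ℤ) : K) = ((A'.card - 1 : ℕ) : K) := by
        rw [Nat.cast_sub hpos]
        push_cast
        ring
      rw [h3, ← Nat.cast_smul_eq_nsmul K]
      module
    rw [Finset.sum_congr rfl h1, Finset.sum_add_distrib, Finset.sum_const,
      Finset.sum_comm] at hsumT
    have h2 : ∀ j ∈ A \ A', ∑ a ∈ A', T.mkQ (sw (K := K) a j w) = T.mkQ w := by
      intro j hj
      have := hstep j hj
      rw [← Submodule.ker_mkQ T, LinearMap.mem_ker, map_sub, map_sum, sub_eq_zero] at this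
      exact this.symm
    rw [Finset.sum_congr rfl h2, Finset.sum_const, ← Nat.cast_smul_eq_nsmul K,
      ← Nat.cast_smul_eq_nsmul K] at hsumT
    have hcc : (A \ A').card + A'.card = A.card := Finset.card_sdiff_add_card_eq_card hA'
    have hmA : A'.card ≤ A.card := Finset.card_le_card hA'
    have hpos : 1 ≤ A'.card := Finset.card_pos.2 hne
    have h3 : ((((A'.card : ℚ) * (lam - (A'.card - 1)) + (A \ A').card : ℚ)) : K) •
        T.mkQ w = 0 := by
      rw [← hsumT]
      push_cast
      module
    have h4 : (((A'.card : ℚ) * (lam - (A'.card - 1)) + (A \ A').card : ℚ)) ≠ 0 := by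
      have h5 := hlam A'.card hpos hlt' hmA
      have h6 : ((A \ A').card : ℚ) = A.card - A'.card := by
        rw [← hcc]
        push_cast
        ring
      rw [h6]
      exact h5.ne'
    rw [smul_eq_zero, Rat.cast_eq_zero] at h3
    rcases h3 with h3 | h3
    · exact absurd h3 h4
    · rwa [← LinearMap.mem_ker, Submodule.ker_mkQ] at h3

end alt

end Pool.Agent.H842.CR
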