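import Pool.Agent.H842.CR.Det

/-!
# The first fundamental theorem for products of special linear groups (II)
-/

set_option linter.unusedSectionVars false

open Matrix Finset Function

namespace Pool.Agent.H842.CR

open Pool.Agent.TH125.Nod

universe u v

variable {K : Type u} [Field K] {B : Type} [Fintype B] [DecidableEq B] {ι : Type} [DecidableEq ι]
  {M : Type v} [AddCommGroup M] [Module K M]

section factor
variable {S : Type} [Fintype S] [DecidableEq S] {A : Finset S}

/-- an index which is prescribed on a set of variables -/
def glue (en : {x // x ∈ A} → B) (J : {x // ¬ x ∈ A} → B) : S → B :=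
  fun x => if h : x ∈ A then en ⟨x, h⟩ else J ⟨x, h⟩

theorem glue_in (en : {x // x ∈ A} → B) (J : {x // ¬ x ∈ A} → B) (a : {x // x ∈ A}) :
    glue en J a.1 = en a := dif_pos a.2

theorem glue_out (en : {x // x ∈ A} → B) (J : {x // ¬ x ∈ A} → B) (a : {x // ¬ x ∈ A}) :
    glue en J a.1 = J a := dif_neg a.2

theorem update_glue_out (en : {x // x ∈ A} → B) (J : {x // ¬ x ∈ A} → B) (a : {x // ¬ x ∈ A})
    (p : B) : update (glue en J) a.1 p = glue en (update J a p) := by
  funext x
  by_cases hx : x = a.1
  · subst hx
    rw [update_self, glue_out, update_self]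
  · rw [update_of_ne hx]
    unfold glue
    by_cases h : x ∈ A
    · rw [dif_pos h, dif_pos h]
    · rw [dif_neg h, dif_neg h, update_of_ne]
      intro h'
      exact hx (congrArg Subtype.val h')

omit [DecidableEq B] [Fintype B] [DecidableEq ι] in
theorem sum_splitA (A : Finset S) {M : Type*} [AddCommMonoid M] (F : S → M) :
    ∑ x, F x = ∑ x : {x // x ∈ A}, F x.1 + ∑ x : {x // ¬ x ∈ A}, F x.1 := by
  rw [← Fintype.sum_subtype_add_sum_subtype (fun x => x ∈ A) F]
  congr 1
  refine Finset.sum_congr ?_ (fun _ _ => rfl)
  ext x
  simp

variable {κ : B → ι} {σ : ι → ι} {Q R : Matrix B B K} {s : ι → K} {t : ι → ℚ} {c : S → ι}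
  {i : ι} [CharZero K]

theorem rep_zero {w : (S → B) → M}
    (halt : ∀ a ∈ A, ∀ b ∈ A, a ≠ b → sw (K := K) a b w = - w) {J : S → B} {a b : S}
    (ha : a ∈ A) (hb : b ∈ A) (hab : a ≠ b) (hJ : J a = J b) : w J = 0 := by
  have h1 := congrFun (halt a ha b hb hab) J
  have h2 : sw (K := K) a b w J = w J := by
    show w (fun j => J (Equiv.swap a b j)) = w J
    congr 1
    funext j
    by_cases h1 : j = a
    · rw [h1, Equiv.swap_apply_left, hJ]
    by_cases h2 : j = b
    · rw [h2, Equiv.swap_apply_right, hJ]
    rw [Equiv.swap_apply_of_ne_of_ne h1 h2]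
  rw [h2, Pi.neg_apply] at h1
  have h3 : (2 : K) • w J = 0 := by
    rw [two_smul]
    nth_rw 1 [h1]
    exact neg_add_cancel _
  exact (smul_eq_zero.1 h3).resolve_left two_ne_zero

theorem factor {w : (S → B) → M}
    (halt : ∀ a ∈ A, ∀ b ∈ A, a ≠ b → sw (K := K) a b w = - w) (hA : ∀ a ∈ A, c a = i)
    (en : {x // x ∈ A} ≃ {b // b ∈ blk κ i}) {J : S → B} (hJ : ∀ j, κ (J j) = c j) :
    w J = eps (K := K) (fun a => (en a).1) (fun x => J x.1) •
      w (glue (fun a => (en a).1) (fun x => J x.1)) := by
  classical
  by_cases hinj : Injective (fun x : {x // x ∈ A} => J x.1)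
  · let φ : {x // x ∈ A} → {b // b ∈ blk κ i} := fun x =>
      ⟨J x.1, mem_blk.2 (by rw [hJ, hA _ x.2])⟩
    have hφ : Bijective φ := by
      rw [Fintype.bijective_iff_injective_and_card]
      refine ⟨fun x y h => hinj (congrArg Subtype.val h), Fintype.card_congr en⟩
    let ρ : Equiv.Perm {x // x ∈ A} := (Equiv.ofBijective φ hφ).trans en.symm
    have hρ : ∀ x : {x // x ∈ A}, J x.1 = (en (ρ x)).1 := by
      intro x
      show _ = (en (en.symm (φ x))).1
      rw [Equiv.apply_symm_apply]
    have hε : eps (K := K) (fun a => (en a).1) (fun x => J x.1) =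
        ((Equiv.Perm.sign ρ : ℤ) : K) := by
      rw [← eps_perm (K := K) (en := fun a => (en a).1)
        (fun x y h => en.injective (Subtype.ext h)) ρ]
      congr 1
      funext x
      exact hρ x
    have key : ∀ τ : Equiv.Perm {x // x ∈ A},
        rho (K := K) (Equiv.Perm.ofSubtype τ) w = ((Equiv.Perm.sign τ : ℤ) : K) • w := by
      intro τ
      induction τ using Equiv.Perm.swap_induction_on with
      | one => simp [rho_one]
      | swap_mul τ x y hxy hτ =>
        have hne : (x : S) ≠ y := fun h => hxy (Subtype.ext h)
        rw [map_mul, rho_mul, hτ, map_smul, Equiv.Perm.sign_mul, Equiv.Perm.sign_swap hxy,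
          Equiv.Perm.ofSubtype_swap_eq]
        have h1 := halt x x.2 y y.2 hne
        rw [sw] at h1
        rw [h1]
        push_cast
        module
    rw [hε]
    have h1 := congrFun (key ρ) (glue (fun a => (en a).1) (fun x => J x.1))
    rw [Pi.smul_apply] at h1
    rw [← h1]
    show w J = w (fun j => _)
    congr 1
    funext j
    by_cases hj : j ∈ A
    · rw [Equiv.Perm.ofSubtype_apply_of_mem _ hj, glue_in]
      exact hρ ⟨j, hj⟩
    · rw [Equiv.Perm.ofSubtype_apply_of_not_mem _ hj]
      exact (glue_out (fun a => (en a).1) (fun x : {x // ¬ x ∈ A} => J x.1) ⟨j, hj⟩).symm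
  · rw [eps_zero, zero_smul]
    · unfold Injective at hinj
      push Not at hinj
      obtain ⟨x, y, hxy, hne⟩ := hinj
      exact rep_zero halt x.2 y.2 (fun h => hne (Subtype.ext h)) hxy
    · rintro ⟨ρ, hρ⟩
      apply hinj
      intro x y hxy
      have h1 : (en (ρ x)).1 = (en (ρ y)).1 := by
        rw [← hρ x, ← hρ y]
        exact hxy
      exact ρ.injective (en.injective (Subtype.ext h1))

theorem sum_in {w : (S → B) → M} (hw : Sup κ c w)
    (halt : ∀ a ∈ A, ∀ b ∈ A, a ≠ b → sw (K := K) a b w = - w) (hA : ∀ a ∈ A, c a = i)
    (en : {x // x ∈ A} ≃ {b // b ∈ blk κ i}) (J : {x // ¬ x ∈ A} → B) (φ : B → K) (p : B) :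
    ∑ a : {x // x ∈ A}, φ (en a).1 • w (update (glue (fun a => (en a).1) J) a.1 p) =
      (if κ p = i then φ p else 0) • w (glue (fun a => (en a).1) J) := by
  by_cases hp : κ p = i
  · rw [if_pos hp, Finset.sum_eq_single (en.symm ⟨p, mem_blk.2 hp⟩)]
    · rw [Equiv.apply_symm_apply]
      congr 2
      rw [update_eq_self_iff, glue_in, Equiv.apply_symm_apply]
    · intro a _ ha
      have hne : a.1 ≠ (en.symm ⟨p, mem_blk.2 hp⟩).1 := fun h => ha (Subtype.ext h)
      rw [rep_zero halt a.2 (en.symm ⟨p, mem_blk.2 hp⟩).2 hne, smul_zero]
      rw [update_self, update_of_ne (Ne.symm hne), glue_in, Equiv.apply_symm_apply]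
    · intro h
      exact absurd (Finset.mem_univ _) h
  · rw [if_neg hp, zero_smul]
    refine Finset.sum_eq_zero fun a _ => ?_
    rw [hw, smul_zero]
    intro h
    apply hp
    have := h a.1
    rw [update_self, hA _ a.2] at this
    exact this

theorem inv_glue (h : Dat κ σ Q R s t) {w : (S → B) → M} (hw : Sup κ c w)
    (halt : ∀ a ∈ A, ∀ b ∈ A, a ≠ b → sw (K := K) a b w = - w) (hA : ∀ a ∈ A, c a = i)
    (en : {x // x ∈ A} ≃ {b // b ∈ blk κ i}) (hinv : InvT κ σ Q s t w) :
    InvT κ σ Q s (fun p => t p - (if p = i then 1 else 0) + (if p = σ i then 1 else 0))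
      (fun J => w (glue (fun a => (en a).1) J)) := by
  intro u v huv J
  set E : {x // x ∈ A} → B := fun a => (en a).1 with hE
  have h1 := hinv u v huv (glue E J)
  rw [sum_splitA A, Finset.sum_sub_distrib] at h1
  simp only [glue_in, glue_out, update_glue_out] at h1
  have h2 : ∑ a : {x // x ∈ A}, Q v (E a) • w (update (glue E J) a.1 u) =
      (if κ u = i then Q v u else 0) • w (glue E J) := sum_in hw halt hA en J (fun p => Q v p) u
  have h3 : ∑ a : {x // x ∈ A}, (s (κ u) * Q u (E a)) • w (update (glue E J) a.1 v) =
      (if κ v = i then s (κ u) * Q u v else 0) • w (glue E J) :=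
    sum_in hw halt hA en J (fun p => s (κ u) * Q u p) v
  rw [h2, h3] at h1
  have h4 : s (κ u) * Q u v = Q v u := by
    rw [h.Qs u v, ← mul_assoc, h.ss, one_mul]
  have h5 : (κ v = i) ↔ (κ u = σ i) := by
    rw [huv]
    constructor
    · intro h6
      rw [← h6, h.σσ]
    · intro h6
      rw [h6, h.σσ]
  have h6 : ∑ x : {x // ¬ x ∈ A}, (Q v (J x) • w (glue E (update J x u)) -
      (s (κ u) * Q u (J x)) • w (glue E (update J x v))) =
      ((t (κ u) : K) * Q v u) • w (glue E J) - ((if κ u = i then Q v u else 0) •
        w (glue E J) - (if κ v = i then s (κ u) * Q u v else 0) • w (glue E J)) := by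
    rw [← h1]
    abel
  show ∑ x : {x // ¬ x ∈ A}, (Q v (J x) • w (glue E (update J x u)) -
      (s (κ u) * Q u (J x)) • w (glue E (update J x v))) = _ • w (glue E J)
  rw [h6, h4]
  simp only [h5]
  by_cases e1 : κ u = i
  · have e2 : κ u ≠ σ i := by
      rw [e1]
      exact Ne.symm (h.σne i)
    rw [if_pos e1, if_neg e2, if_pos e1, if_neg e2]
    push_cast
    module
  · by_cases e2 : κ u = σ i
    · rw [if_neg e1, if_pos e2, if_neg e1, if_pos e2]
      push_cast
      module
    · rw [if_neg e1, if_neg e2, if_neg e1, if_neg e2]
      push_cast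
      module

theorem InvT_rho {f : (S → B) → M} (hf : InvT κ σ Q s t f) (π : Equiv.Perm S) :
    InvT κ σ Q s t (rho (K := K) π f) := by
  intro u v huv J
  have h1 := hf u v huv (fun j => J (π j))
  show _ = _ • f (fun j => J (π j))
  rw [← h1]
  symm
  refine Fintype.sum_equiv π _ _ fun j => ?_
  have h2 : ∀ p, (fun k => update J (π j) p (π k)) = update (fun j => J (π j)) j p :=
    fun p => Function.update_comp_eq_of_injective J π.injective j p
  show _ = Q v (J (π j)) • f (fun k => update J (π j) u (π k)) -
    (s (κ u) * Q u (J (π j))) • f (fun k => update J (π j) v (π k))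
  rw [h2, h2]

theorem card_split {a b : S} (hab : a ≠ b) (p : ι) :
    ((univ.filter fun x => c x = p).card : ℚ) =
      (if c a = p then 1 else 0) + (if c b = p then 1 else 0) +
      ((univ.filter fun x : {x // x ≠ a ∧ x ≠ b} => c x.1 = p).card : ℚ) := by
  rw [Finset.card_filter, Finset.card_filter]
  push_cast
  exact sum_split (M := ℚ) hab (fun x => if c x = p then (1 : ℚ) else 0)

theorem card_splitA (p : ι) (hA : ∀ a ∈ A, c a = i) :
    ((univ.filter fun x => c x = p).card : ℚ) =
      (if i = p then (A.card : ℚ) else 0) +
      ((univ.filter fun x : {x // ¬ x ∈ A} => c x.1 = p).card : ℚ) := by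
  rw [Finset.card_filter, Finset.card_filter]
  push_cast
  rw [sum_splitA A]
  congr 1
  have : ∀ x : {x // x ∈ A}, (if c x.1 = p then (1 : ℚ) else 0) = if i = p then 1 else 0 := by
    intro x
    rw [hA _ x.2]
  rw [Finset.sum_congr rfl fun x _ => this x, Finset.sum_const, Finset.card_univ,
    Fintype.card_coe, nsmul_eq_mul]
  split_ifs <;> simp

end factor

variable {κ : B → ι} {σ : ι → ι} {Q R : Matrix B B K} {s : ι → K}

/-- **The first fundamental theorem for a product of special linear groups.** -/
theorem fftD [CharZero K] {Φ : ι → Prop} (N : ℕ) :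
    ∀ (S : Type) [Fintype S] [DecidableEq S] (c : S → ι) (t : ι → ℚ)
    (f : (S → B) → M), Fintype.card S = N → Dat κ σ Q R s t →
    (∀ p, t p * ((blk κ p).card : ℚ) = ((univ.filter fun x => c x = p).card : ℚ) -
      ((univ.filter fun x => c x = σ p).card : ℚ)) → (∀ p, 1 ≤ t p → Φ p) →
    Sup κ c f → InvT κ σ Q s t f → f ∈ GW κ σ Q Φ c := by
  classical
  induction N using Nat.strong_induction_on with
  | _ N ih =>
    intro S _ _ c t f hN h hwt hΦ hsup hinv
    rcases isEmpty_or_nonempty S with hS | ⟨⟨a0⟩⟩
    · refine Submodule.subset_span ⟨Empty, Empty, inferInstance, inferInstance, inferInstance,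
        Equiv.equivOfIsEmpty _ _, fun _ => 0, fun _ => f (fun j => (hS.false j).elim),
        fun t => t.elim, ⟨?_, fun x => x.elim, fun x => x.elim, fun x => x.elim, fun x => x.elim⟩, ?_⟩
      · intro J hJ
        exact absurd (fun j : Empty => j.elim) hJ
      · funext J
        unfold genW
        rw [if_pos (fun j => (hS.false j).elim), Finset.univ_eq_empty, Finset.prod_empty, one_smul]
        congr 1
        funext j
        exact (hS.false j).elim
    · set i := c a0 with hi
      set A := univ.filter (c · = i) with hA
      have hT : ∀ a b, c a = i → c b = i → ∀ f ∈ GW (M := M) κ σ Q Φ c,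
          sw (K := K) a b f ∈ GW κ σ Q Φ c := fun a b ha hb f hf => rho_GW (c_swap ha hb) hf
      have hJM : ∀ a ∈ A, ((((blk κ i).card - t i : ℚ)) : K) • f +
          ∑ b ∈ A.erase a, sw (K := K) a b f ∈ GW κ σ Q Φ c := by
        intro a ha
        have hai : c a = i := (Finset.mem_filter.1 ha).2
        have hcon : ∀ b ∈ (univ.filter fun j => c j = σ i),
            con' κ σ R i a b f ∈ GW κ σ Q Φ (fun x : {x // x ≠ a ∧ x ≠ b} => c x.1) := by
          intro b hb
          rw [Finset.mem_filter] at hb
          have hab : a ≠ b := by
            rintro rfl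
            exact h.σne i (by rw [← hb.2, hai])
          refine ih (Fintype.card {x // x ≠ a ∧ x ≠ b}) ?_ _ _ t _ rfl h ?_ hΦ (sup_con' hsup R)
            (inv_con' h hinv hab)
          · rw [← hN]
            exact Fintype.card_subtype_lt (x := a) (fun h => h.1 rfl)
          · intro p
            have h1 := hwt p
            rw [card_split hab p, card_split hab (σ p)] at h1
            rw [h1, hai, hb.2]
            have e1 : (i = p) ↔ (σ i = σ p) := ⟨fun h => by rw [h], fun h' => by
              rw [← h.σσ i, h', h.σσ]⟩
            have e2 : (σ i = p) ↔ (i = σ p) := ⟨fun h' => by rw [← h', h.σσ], fun h' => by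
              rw [h', h.σσ]⟩
            simp only [e1, e2]
            ring
        have hsum : s i • ∑ b ∈ (univ.filter fun j => c j = σ i),
            mulQ κ Q c a b (con' κ σ R i a b f) ∈ GW κ σ Q Φ c := by
          refine Submodule.smul_mem _ _ (Submodule.sum_mem _ fun b hb => ?_)
          have hab : a ≠ b := by
            rintro rfl
            exact h.σne i (by rw [← (Finset.mem_filter.1 hb).2, hai])
          exact mulQ_GW hab (by rw [(Finset.mem_filter.1 hb).2, hai]) (hcon b hb)
        have heq : ((((blk κ i).card - t i : ℚ)) : K) • f +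
            ∑ b ∈ A.erase a, sw (K := K) a b f =
            s i • ∑ b ∈ (univ.filter fun j => c j = σ i),
            mulQ κ Q c a b (con' κ σ R i a b f) := by
          funext J
          rw [Pi.add_apply, Pi.smul_apply, Finset.sum_apply, Pi.smul_apply, Finset.sum_apply]
          by_cases hJ : ∀ j, κ (J j) = c j
          · simp only [mulQ_pos _ hJ]
            exact cas' h hinv hJ hai
          · simp only [mulQ_neg _ hJ, Finset.sum_const_zero, smul_zero]
            rw [hsup J hJ, smul_zero, zero_add]
            refine Finset.sum_eq_zero fun b hb => ?_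
            rw [Finset.mem_erase, hA, Finset.mem_filter] at hb
            exact Sup_rho (K := K) (c_swap hai hb.2.2) hsup J hJ
        rw [heq]
        exact hsum
      have hsub : ({a0} : Finset S) ⊆ A := by
        intro x hx
        rw [Finset.mem_singleton] at hx
        rw [hx, hA]
        simp [hi]
      by_cases ht : t i < 1
      · refine alt_mem' (K := K) (κ := κ) (c := c) (i := i) (GW κ σ Q Φ c) hT (blk κ i).card rfl
          A hA ((blk κ i).card - t i) (by linarith) ((blk κ i).card + 1) {a0} hsub
          ⟨a0, by simp⟩ (by rw [Finset.card_singleton]; omega) f hsup hJM ?_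
        intro a ha b hb hab
        rw [Finset.mem_singleton] at ha hb
        exact absurd (ha.trans hb.symm) hab
      · have ht' : 1 ≤ t i := not_lt.1 ht
        let PT : Submodule K ((S → B) → M) :=
          { carrier := {w | Sup κ c w ∧ InvT κ σ Q s t w}
            zero_mem' := ⟨fun J _ => rfl, fun u v _ J => by simp⟩
            add_mem' := by
              rintro w w' ⟨h1, h2⟩ ⟨h3, h4⟩
              refine ⟨fun J hJ => by rw [Pi.add_apply, h1 J hJ, h3 J hJ, add_zero], ?_⟩
              intro u v huv J
              rw [Pi.add_apply, smul_add, ← h2 u v huv J, ← h4 u v huv J,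
                ← Finset.sum_add_distrib]
              refine Finset.sum_congr rfl fun j _ => ?_
              simp only [Pi.add_apply, smul_add]
              abel
            smul_mem' := by
              rintro r w ⟨h1, h2⟩
              refine ⟨fun J hJ => by rw [Pi.smul_apply, h1 J hJ, smul_zero], ?_⟩
              intro u v huv J
              rw [Pi.smul_apply, smul_comm, ← h2 u v huv J, Finset.smul_sum]
              refine Finset.sum_congr rfl fun j _ => ?_
              simp only [Pi.smul_apply, smul_sub]
              rw [smul_comm r, smul_comm r (s (κ u) * Q u (J j))] }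
        have hAn : ((blk κ i).card : ℚ) * t i ≤ A.card := by
          have h1 := hwt i
          have h2 : (0 : ℚ) ≤ ((univ.filter fun x => c x = σ i).card : ℚ) := Nat.cast_nonneg _
          rw [mul_comm]
          have h3 : ((univ.filter fun x => c x = i).card : ℚ) = A.card := rfl
          linarith
        refine altD (K := K) (κ := κ) (c := c) (i := i) (GW κ σ Q Φ c) hT (blk κ i).card rfl
          A hA PT (fun a b ha hb f hf => ⟨Sup_rho (c_swap ha hb) hf.1, InvT_rho hf.2 _⟩)
          (fun f hf => hf.1) ?_ ((blk κ i).card - t i) ?_ ((blk κ i).card) {a0} hsub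
          ⟨a0, by simp⟩ (by omega) f ⟨hsup, hinv⟩ hJM ?_
        · -- a determinant
          intro A' hA' hcard hne w hw halt
          have hA'i : ∀ a ∈ A', c a = i := fun a ha => (Finset.mem_filter.1 (hA' ha)).2
          let en : {x // x ∈ A'} ≃ {b // b ∈ blk κ i} := Finset.equivOfCardEq hcard
          set E : {x // x ∈ A'} → B := fun a => (en a).1 with hE
          have hGi := inv_glue h hw.1 halt hA'i en hw.2
          have hGs : Sup κ (fun x : {x // ¬ x ∈ A'} => c x.1) (fun J => w (glue E J)) := by
            intro J hJ
            apply hw.1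
            intro h1
            apply hJ
            intro x
            have := h1 x.1
            rwa [glue_out] at this
          have hdat : Dat κ σ Q R s
              (fun p => t p - (if p = i then 1 else 0) + (if p = σ i then 1 else 0)) := by
            refine ⟨h.ss, h.sσ, h.σσ, h.σne, ?_, h.Qb, h.Qs, h.QR⟩
            intro p
            have e1 : (σ p = i) ↔ (p = σ i) := ⟨fun h' => by rw [← h', h.σσ], fun h' => by
              rw [h', h.σσ]⟩
            have e2 : (σ p = σ i) ↔ (p = i) := ⟨fun h' => by rw [← h.σσ p, h', h.σσ],
              fun h' => by rw [h']⟩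
            simp only [e1, e2, h.tσ]
            ring
          have hG : (fun J => w (glue E J)) ∈
              GW κ σ Q Φ (fun x : {x // ¬ x ∈ A'} => c x.1) := by
            refine ih (Fintype.card {x // ¬ x ∈ A'}) ?_ _ _ _ _ rfl hdat ?_ ?_ hGs hGi
            · rw [← hN]
              obtain ⟨x, hx⟩ := hne
              exact Fintype.card_subtype_lt (x := x) (fun h => h hx)
            rotate_left
            · intro p hp
              apply hΦ
              by_cases p1 : p = i
              · have p2 : p ≠ σ i := by
                  rw [p1]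
                  exact Ne.symm (h.σne i)
                rw [if_pos p1, if_neg p2] at hp
                linarith
              · by_cases p2 : p = σ i
                · rw [if_neg p1, if_pos p2] at hp
                  have h3 : t p = - t i := by rw [p2, h.tσ]
                  linarith
                · rw [if_neg p1, if_neg p2] at hp
                  linarith
            · intro p
              have h1 := hwt p
              rw [card_splitA p hA'i, card_splitA (σ p) hA'i, hcard] at h1
              have e1 : (i = p) ↔ (p = i) := eq_comm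
              have e2 : (i = σ p) ↔ (p = σ i) := ⟨fun h' => by rw [h', h.σσ], fun h' => by
                rw [h', h.σσ]⟩
              simp only [e1, e2] at h1
              show (t p - (if p = i then 1 else 0) + (if p = σ i then 1 else 0)) *
                ((blk κ p).card : ℚ) = _
              by_cases p1 : p = i
              · have p2 : p ≠ σ i := by
                  rw [p1]
                  exact Ne.symm (h.σne i)
                rw [if_pos p1, if_neg p2] at h1 ⊢
                rw [p1] at h1 ⊢
                linarith
              · by_cases p2 : p = σ i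
                · have p3 : (blk κ p).card = (blk κ i).card := by
                    rw [p2]
                    exact h.card_eq i
                  rw [if_neg p1, if_pos p2] at h1 ⊢
                  rw [p3] at h1 ⊢
                  linarith
                · rw [if_neg p1, if_neg p2] at h1 ⊢
                  linarith
          have h1 := det_GW (K := K) (M := M) (hΦ i ht') hA'i hcard (en := E)
            (fun a => mem_blk.1 (en a).2) hG
          have h2 : w = (fun J : S → B => if ∀ j, κ (J j) = c j then
              eps (K := K) E (fun x => J x.1) • (fun J => w (glue E J)) (fun x => J x.1)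
              else 0) := by
            funext J
            by_cases hJ : ∀ j, κ (J j) = c j
            · rw [if_pos hJ]
              exact factor halt hA'i en hJ
            · rw [if_neg hJ]
              exact hw.1 J hJ
          rw [h2]
          exact h1
        · intro e he1 hen _
          have e1 : (1 : ℚ) ≤ e := by exact_mod_cast he1
          have e2 : (0 : ℚ) < (blk κ i).card - e := by
            have : (e : ℚ) < (blk κ i).card := by exact_mod_cast hen
            linarith
          have e3 : 0 < ((blk κ i).card - e : ℚ) * (e + t i) :=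
            mul_pos e2 (by linarith)
          nlinarith
        · intro a ha b hb hab
          rw [Finset.mem_singleton] at ha hb
          exact absurd (ha.trans hb.symm) hab

end Pool.Agent.H842.CR
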