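import Pool.Agent.H842.CR.Det2

/-!
# Determinants are eigenvectors of the Lie algebra
-/

set_option linter.unusedSectionVars false

open Matrix Finset Function

namespace Pool.Agent.H842.CR

open Pool.Agent.TH125.Nod

universe u v

variable {K : Type u} [Field K] {B : Type} [Fintype B] [DecidableEq B] {ι : Type} [DecidableEq ι]
  {M : Type v} [AddCommGroup M] [Module K M]
  {κ : B → ι} {σ : ι → ι} {Q R : Matrix B B K} {s : ι → K} {t : ι → ℚ} {Φ : ι → Prop}

section cramer
variable {X : Type} [Fintype X] [DecidableEq X] {c : X → ι} {g : X → ℕ} [CharZero K]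

theorem DT.rep (K : Type u) [Field K] [CharZero K] [Module K M] {w : (X → B) → M}
    (h : DT κ Φ c g w) {J : X → B} {x y : X} (hxy : x ≠ y)
    (hg : g x = g y) (hJ : J x = J y) : w J = 0 := by
  have h1 := h.alt x y hxy hg J
  have h2 : (fun j => J (Equiv.swap x y j)) = J := by
    funext j
    by_cases h1 : j = x
    · rw [h1, Equiv.swap_apply_left, hJ]
    by_cases h2 : j = y
    · rw [h2, Equiv.swap_apply_right, hJ]
    rw [Equiv.swap_apply_of_ne_of_ne h1 h2]
  rw [h2] at h1
  have h3 : (2 : K) • w J = 0 := by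
    rw [two_smul]
    nth_rw 1 [h1]
    exact neg_add_cancel _
  exact (smul_eq_zero.1 h3).resolve_left two_ne_zero

/-- expansion of a determinant -/
theorem DT.cramer {w : (X → B) → M} (h : DT κ Φ c g w) (x0 : X) {J : X → B}
    (hJ : ∀ x, κ (J x) = c x) (φ : B → K) {p : B} (hp : κ p = c x0) :
    ∑ x ∈ univ.filter (fun y => g y = g x0), φ (J x) • w (update J x p) = φ p • w J := by
  classical
  set G := univ.filter (fun y => g y = g x0) with hG
  have hmem : ∀ x, x ∈ G ↔ g x = g x0 := fun x => by
    rw [hG, Finset.mem_filter]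
    exact ⟨fun h => h.2, fun h => ⟨Finset.mem_univ _, h⟩⟩
  by_cases hinj : Set.InjOn J G
  · -- a permutation
    have himg : G.image J = blk κ (c x0) := by
      apply Finset.eq_of_subset_of_card_le
      · intro b hb
        obtain ⟨x, hx, rfl⟩ := Finset.mem_image.1 hb
        rw [mem_blk, hJ, h.col x x0 ((hmem x).1 hx)]
      · rw [Finset.card_image_of_injOn hinj, h.card x0]
    obtain ⟨x1, hx1, hx1'⟩ := Finset.mem_image.1 (himg ▸ mem_blk.2 hp)
    rw [Finset.sum_eq_single_of_mem x1 hx1]
    · rw [hx1']
      congr 2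
      rw [update_eq_self_iff]
      exact hx1'.symm
    · intro x hx hne
      rw [h.rep K (x := x) (y := x1) hne (((hmem x).1 hx).trans ((hmem x1).1 hx1).symm), smul_zero]
      rw [update_self, update_of_ne (Ne.symm hne), hx1']
  · unfold Set.InjOn at hinj
    push Not at hinj
    obtain ⟨x1, hx1, x2, hx2, hJ12, hne⟩ := hinj
    have hx1' := (hmem x1).1 hx1
    have hx2' := (hmem x2).1 hx2
    have hg12 : g x1 = g x2 := hx1'.trans hx2'.symm
    rw [h.rep K hne hg12 hJ12, smul_zero]
    rw [← Finset.add_sum_erase G _ hx1, ← Finset.add_sum_erase (G.erase x1) _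
      (Finset.mem_erase.2 ⟨Ne.symm hne, hx2⟩), Finset.sum_eq_zero, add_zero]
    · have h1 := h.alt x1 x2 hne hg12 (update J x1 p)
      have h2 : (fun j => update J x1 p (Equiv.swap x1 x2 j)) = update J x2 p := by
        funext j
        by_cases e1 : j = x1
        · rw [e1, Equiv.swap_apply_left, update_of_ne (Ne.symm hne), update_of_ne hne, hJ12]
        by_cases e2 : j = x2
        · rw [e2, Equiv.swap_apply_right, update_self, update_self]
        rw [Equiv.swap_apply_of_ne_of_ne e1 e2, update_of_ne e1, update_of_ne e2]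
      rw [h2] at h1
      rw [h1, hJ12, smul_neg, add_neg_cancel]
    · intro x hx
      rw [Finset.mem_erase, Finset.mem_erase] at hx
      rw [h.rep K hne hg12, smul_zero]
      rw [update_of_ne (Ne.symm hx.2.1), update_of_ne (Ne.symm hx.1), hJ12]

/-- the sum over all variables of one block -/
theorem DT.cramer' {w : (X → B) → M} (h : DT κ Φ c g w) {J : X → B}
    (hJ : ∀ x, κ (J x) = c x) (φ : B → K) {p : B} :
    ((blk κ (κ p)).card : K) • ∑ x ∈ univ.filter (fun y => c y = κ p),
      φ (J x) • w (update J x p) =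
      (((univ.filter (fun y => c y = κ p)).card : K) * φ p) • w J := by
  classical
  set C := univ.filter (fun y => c y = κ p) with hC
  have hfib : ∀ γ ∈ C.image g, ∀ F : X → M,
      ∑ x ∈ C.filter (fun x => g x = γ), F x = ∑ x ∈ univ.filter (fun x => g x = γ), F x := by
    intro γ hγ F
    congr 1
    ext x
    simp only [hC, Finset.mem_filter, Finset.mem_univ, true_and, and_iff_right_iff_imp]
    intro hx
    obtain ⟨x', hx', hx''⟩ := Finset.mem_image.1 hγ
    rw [h.col x x' (hx.trans hx''.symm)]
    exact (Finset.mem_filter.1 hx').2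
  have hcard : C.card = (C.image g).card * (blk κ (κ p)).card := by
    have h1 := Finset.card_eq_sum_card_fiberwise (s := C) (t := C.image g) (f := g)
      (fun x hx => Finset.mem_image_of_mem g hx)
    rw [h1, Finset.sum_const_nat (m := (blk κ (κ p)).card)]
    intro γ hγ
    obtain ⟨x', hx', hx''⟩ := Finset.mem_image.1 hγ
    have h2 : C.filter (fun x => g x = γ) = univ.filter (fun x => g x = g x') := by
      ext x
      simp only [hC, Finset.mem_filter, Finset.mem_univ, true_and]
      constructor
      · rintro ⟨-, h3⟩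
        exact h3.trans hx''.symm
      · intro h3
        refine ⟨?_, h3.trans hx''⟩
        rw [h.col x x' h3]
        exact (Finset.mem_filter.1 hx').2
    rw [h2, h.card x', (Finset.mem_filter.1 hx').2]
  have hsum : ∑ x ∈ C, φ (J x) • w (update J x p) = ((C.image g).card : K) • φ p • w J := by
    rw [← Finset.sum_fiberwise_of_maps_to (t := C.image g) (g := g)
      (fun x hx => Finset.mem_image_of_mem g hx)]
    have : ∀ γ ∈ C.image g, ∑ x ∈ C.filter (fun x => g x = γ), φ (J x) • w (update J x p) =
        φ p • w J := by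
      intro γ hγ
      rw [hfib γ hγ]
      obtain ⟨x', hx', hx''⟩ := Finset.mem_image.1 hγ
      rw [← hx'']
      exact h.cramer x' hJ φ (Finset.mem_filter.1 hx').2.symm
    rw [Finset.sum_congr rfl this, Finset.sum_const, Nat.cast_smul_eq_nsmul]
  rw [hsum, hcard]
  push_cast
  module

/-- **Determinants are eigenvectors.** -/
theorem DT.inv {w : (X → B) → M} (hw : DT κ Φ c g w) (h : Dat κ σ Q R s t) :
    InvT κ σ Q s (wt κ σ c) w := by
  classical
  intro u v huv J
  by_cases hJ : ∀ x, κ (J x) = c x
  · -- the two sums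
    have key : ∀ (a b : B), κ a = σ (κ b) → ∀ r : K,
        ((blk κ (κ b)).card : K) • ∑ x, (r * Q a (J x)) • w (update J x b) =
        (((univ.filter (fun y => c y = κ b)).card : K) * (r * Q a b)) • w J := by
      intro a b hab r
      rw [← hw.cramer' hJ (fun q => r * Q a q) (p := b)]
      congr 1
      symm
      apply Finset.sum_subset (Finset.subset_univ _)
      intro x _ hx
      have : Q a (J x) = 0 := h.Qb _ _ (by
        rw [hab, h.σσ, hJ]
        intro h1
        exact hx (Finset.mem_filter.2 ⟨Finset.mem_univ _, h1⟩))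
      rw [this, mul_zero, zero_smul]
    have h1 := key v u huv 1
    have h2 := key u v (by rw [huv, h.σσ]) (s (κ u))
    rw [huv, h.card_eq] at h2
    have h4 : s (κ u) * Q u v = Q v u := by
      rw [h.Qs u v, ← mul_assoc, h.ss, one_mul]
    rw [h4] at h2
    have hN : ((blk κ (κ u)).card : K) ≠ 0 := by
      have : 0 < (blk κ (κ u)).card := Finset.card_pos.2 ⟨u, mem_blk.2 rfl⟩
      exact_mod_cast this.ne'
    apply smul_right_injective M hN
    show ((blk κ (κ u)).card : K) • _ = ((blk κ (κ u)).card : K) • _
    rw [Finset.sum_sub_distrib, smul_sub]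
    have h3 : ∀ x, Q v (J x) • w (update J x u) = (1 * Q v (J x)) • w (update J x u) :=
      fun x => by rw [one_mul]
    rw [Finset.sum_congr rfl fun x _ => h3 x, h1, h2, smul_smul, one_mul, ← sub_smul]
    congr 1
    unfold wt
    push_cast
    field_simp
  · have h0 : w J = 0 := hw.sup J hJ
    rw [h0, smul_zero]
    refine Finset.sum_eq_zero fun x _ => ?_
    have key : ∀ (a b : B), κ a = σ (κ b) → Q a (J x) • w (update J x b) = 0 := by
      intro a b hab
      by_cases hx : κ (J x) = κ b
      · rw [hw.sup, smul_zero]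
        intro h1
        apply hJ
        intro y
        have := h1 y
        by_cases hy : y = x
        · rw [hy] at this ⊢
          rw [update_self] at this
          rw [hx, this]
        · rwa [update_of_ne hy] at this
      · rw [h.Qb a (J x) (by rw [hab, h.σσ]; exact hx), zero_smul]
    rw [key v u huv, mul_smul, key u v (by rw [huv, h.σσ]), smul_zero, sub_zero]

end cramer

/-- the weights of the variables which are not paired -/
theorem wt_rest {S X Y : Type} [Fintype S] [DecidableEq S] [Fintype X] [Fintype Y]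
    {c : S → ι} (hσσ : ∀ i, σ (σ i) = i) (e : (Y × Fin 2) ⊕ X ≃ S)
    (hc : ∀ t, c (e (.inl (t, 1))) = σ (c (e (.inl (t, 0))))) (p : ι) :
    wt κ σ (fun x => c (e (.inr x))) p = wt κ σ c p := by
  classical
  unfold wt
  have key : ∀ q, ((univ.filter fun j => c j = q).card : ℚ) =
      ∑ t : Y, ((if c (e (.inl (t, 0))) = q then (1 : ℚ) else 0) +
        (if c (e (.inl (t, 0))) = σ q then (1 : ℚ) else 0)) +
      ((univ.filter fun x => c (e (.inr x)) = q).card : ℚ) := by
    intro q
    rw [Finset.card_filter, Finset.card_filter]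
    push_cast
    rw [← Equiv.sum_comp e, Fintype.sum_sum_type, Fintype.sum_prod_type]
    congr 1
    refine Finset.sum_congr rfl fun t _ => ?_
    rw [Fin.sum_univ_two, hc t]
    congr 1
    have : (σ (c (e (.inl (t, 0)))) = q) ↔ (c (e (.inl (t, 0))) = σ q) := by
      constructor
      · intro h
        rw [← h, hσσ]
      · intro h
        rw [h, hσσ]
    simp only [this]
  rw [key p, key (σ p)]
  congr 1
  have : ∑ t : Y, ((if c (e (.inl (t, 0))) = σ p then (1 : ℚ) else 0) +
      (if c (e (.inl (t, 0))) = σ (σ p) then (1 : ℚ) else 0)) =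
      ∑ t : Y, ((if c (e (.inl (t, 0))) = p then (1 : ℚ) else 0) +
        (if c (e (.inl (t, 0))) = σ p then (1 : ℚ) else 0)) := by
    refine Finset.sum_congr rfl fun t _ => ?_
    rw [hσσ, add_comm]
  rw [this]
  ring

/-- the span of products, with variables numbered -/
noncomputable def GF (κ : B → ι) (σ : ι → ι) (Q : Matrix B B K) (Φ : ι → Prop) {S : Type}
    (c : S → ι) :
    Submodule K ((S → B) → M) :=
  Submodule.span K {f | ∃ (m n : ℕ) (e : (Fin m × Fin 2) ⊕ Fin n ≃ S) (g : Fin n → ℕ)
    (w : (Fin n → B) → M),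
    (∀ t, c (e (.inl (t, 1))) = σ (c (e (.inl (t, 0))))) ∧
    DT κ Φ (fun x => c (e (.inr x))) g w ∧ f = genW κ Q c e w}

theorem GW_le_GF {S : Type} {c : S → ι} :
    GW (M := M) κ σ Q Φ c ≤ GF κ σ Q Φ c := by
  classical
  unfold GW
  rw [Submodule.span_le]
  rintro f ⟨Y, X, iY, iX, dX, e, g, w, hc, hw, rfl⟩
  let eY := Fintype.equivFin Y
  let eX := Fintype.equivFin X
  let e' : (Fin (Fintype.card Y) × Fin 2) ⊕ Fin (Fintype.card X) ≃ S :=
    (Equiv.sumCongr (Equiv.prodCongr eY.symm (Equiv.refl _)) eX.symm).trans e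
  refine Submodule.subset_span ⟨Fintype.card Y, Fintype.card X, e', fun x => g (eX.symm x),
    fun L => w (fun x => L (eX x)), fun t => hc (eY.symm t), ⟨?_, ?_, ?_, ?_, ?_⟩, ?_⟩
  · intro L hL
    apply hw.sup
    intro h
    apply hL
    intro x
    have := h (eX.symm x)
    rw [Equiv.apply_symm_apply] at this
    exact this
  · intro x y hxy
    exact hw.col _ _ hxy
  · intro x y hne hxy L
    have h1 := hw.alt (eX.symm x) (eX.symm y) (fun h => hne (eX.symm.injective h)) hxy
      (fun z => L (eX z))
    rw [← h1]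
    congr 1
    funext z
    show L (Equiv.swap x y (eX z)) = L (eX (Equiv.swap (eX.symm x) (eX.symm y) z))
    congr 1
    by_cases e1 : z = eX.symm x
    · rw [e1, Equiv.apply_symm_apply, Equiv.swap_apply_left, Equiv.swap_apply_left,
        Equiv.apply_symm_apply]
    by_cases e2 : z = eX.symm y
    · rw [e2, Equiv.apply_symm_apply, Equiv.swap_apply_right, Equiv.swap_apply_right,
        Equiv.apply_symm_apply]
    rw [Equiv.swap_apply_of_ne_of_ne e1 e2, Equiv.swap_apply_of_ne_of_ne]
    · intro h
      apply e1
      rw [← h, Equiv.symm_apply_apply]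
    · intro h
      apply e2
      rw [← h, Equiv.symm_apply_apply]
  · intro x
    have h1 := hw.card (eX.symm x)
    refine Eq.trans ?_ h1
    refine Finset.card_bij (fun y _ => eX.symm y) ?_ ?_ ?_
    · intro y hy
      rw [Finset.mem_filter] at hy ⊢
      exact ⟨Finset.mem_univ _, hy.2⟩
    · intro a _ b _ h
      exact eX.symm.injective h
    · intro b hb
      rw [Finset.mem_filter] at hb
      refine ⟨eX b, ?_, Equiv.symm_apply_apply _ _⟩
      rw [Finset.mem_filter, Equiv.symm_apply_apply]
      exact ⟨Finset.mem_univ _, hb.2⟩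
  · intro x
    exact hw.pos _
  · funext J
    unfold genW
    congr 1
    · congr 1
      · symm
        exact Equiv.prod_comp eY.symm (fun t => Q (J (e (.inl (t, 0)))) (J (e (.inl (t, 1)))))
      · congr 1
        funext x
        show _ = J (e (.inr (eX.symm (eX x))))
        rw [Equiv.symm_apply_apply]

end Pool.Agent.H842.CR
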