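import Pool.Agent.H842.CR.Vhs

/-!
# Traces of the conjugates of the Hodge operators
-/

set_option linter.unusedSectionVars false

open Matrix Finset Function

namespace Pool.Agent.H842.CR

open Pool.Agent.TH125.Nod

theorem lin_mulC (τ : ℂ →ₗ[ℚ] ℂ) (q : ℚ) (z : ℂ) : τ ((q : ℂ) * z) = (q : ℂ) * τ z := by
  have h : (q : ℂ) * z = q • z := by rw [Rat.smul_def]
  have h' : (q : ℂ) * τ z = q • τ z := by rw [Rat.smul_def]
  rw [h, h', map_smul]

theorem lin_mulC' (τ : ℂ →ₗ[ℚ] ℂ) (q : ℚ) (z : ℂ) : τ (z * (q : ℂ)) = τ z * (q : ℂ) := by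
  rw [mul_comm, lin_mulC, mul_comm]

variable {B : Type} [Fintype B] [DecidableEq B] {D : Type} [Fintype D]
  [DecidableEq D] {ι : Type} [DecidableEq ι] {k : ℕ}

/-- conjugates of the relation -/
theorem act_tau {x : Matrix B B ℂ} {y : Matrix D D ℂ} {f : (Fin k → B) → D → ℚ}
    (h : act (x, y) (cx f) = 0) (τ : ℂ →ₗ[ℚ] ℂ) : act (x.map τ, y.map τ) (cx f) = 0 := by
  funext J l
  have h1 := congrFun (congrFun h J) l
  rw [act_apply] at h1 ⊢
  have h2 := congrArg τ h1
  simp only [map_add, map_sum, cx, lin_mulC', Pi.zero_apply, map_zero] at h2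
  exact h2

theorem map_mul_C (τ : ℂ →ₗ[ℚ] ℂ) (x : Matrix B B ℂ) (N : Matrix B B ℚ) :
    (x * mC N).map τ = x.map τ * mC N := by
  ext p q
  simp only [Matrix.map_apply, Matrix.mul_apply, map_sum, mC, lin_mulC']

theorem map_C_mul (τ : ℂ →ₗ[ℚ] ℂ) (x : Matrix B B ℂ) (N : Matrix B B ℚ) :
    (mC N * x).map τ = mC N * x.map τ := by
  ext p q
  simp only [Matrix.map_apply, Matrix.mul_apply, map_sum, mC, lin_mulC]

theorem trace_map (τ : ℂ →ₗ[ℚ] ℂ) (x : Matrix B B ℂ) (N : Matrix B B ℚ) :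
    trace (x.map τ * mC N) = τ (trace (x * mC N)) := by
  rw [← map_mul_C]
  unfold trace
  simp only [Matrix.diag_apply, Matrix.map_apply, map_sum]

section dat
variable {κ : B → ι} {σ : ι → ι} {Q R : Matrix B B ℂ} {s : ι → ℂ} {t : ι → ℚ}

/-- the inverse matrix pairs the same blocks -/
theorem Dat.Rb (h : Dat κ σ Q R s t) (a b : B) (hab : κ b ≠ σ (κ a)) : R a b = 0 := by
  classical
  let R' : Matrix B B ℂ := fun a b => if κ b = σ (κ a) then R a b else 0
  have h1 : Q * R' = 1 := by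
    ext p q
    rw [Matrix.mul_apply]
    by_cases hpq : κ p = κ q
    · rw [← h.QR, Matrix.mul_apply]
      refine Finset.sum_congr rfl fun c _ => ?_
      by_cases hc : κ c = σ (κ p)
      · show _ * (if _ then _ else _) = _
        rw [if_pos (by rw [hc, h.σσ, hpq])]
      · rw [h.Qb p c hc, zero_mul, zero_mul]
    · rw [Matrix.one_apply_ne (fun h => hpq (by rw [h]))]
      refine Finset.sum_eq_zero fun c _ => ?_
      by_cases hc : κ c = σ (κ p)
      · show _ * (if _ then _ else _) = _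
        rw [if_neg (by rw [hc, h.σσ]; exact Ne.symm hpq), mul_zero]
      · rw [h.Qb p c hc, zero_mul]
  have h2 : R = R' := by
    have hRQ : R * Q = 1 := mul_eq_one_comm.1 h.QR
    calc R = R * (Q * R') := by rw [h1, mul_one]
      _ = R' := by rw [← mul_assoc, hRQ, one_mul]
  rw [h2]
  show (if _ then _ else _) = _
  rw [if_neg hab]

/-- a skew operator as a combination of rank two operators -/
theorem skew_expand (h : Dat κ σ Q R s t) {X : Matrix B B ℂ} (hX : Xᵀ * Q + Q * X = 0) :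
    X = (2 : ℂ)⁻¹ • ∑ u, ∑ v, ∑ u', (R u v * X u' u) •
      WW Q (s (κ u')) (Pi.single u' 1) (Pi.single v 1) := by
  have hRQ : R * Q = 1 := mul_eq_one_comm.1 h.QR
  have h1 : ∑ u, ∑ v, ∑ u', (R u v * X u' u) •
      WW Q (s (κ u')) (Pi.single u' 1) (Pi.single v 1) = (2 : ℂ) • X := by
    ext p q
    simp only [Matrix.sum_apply, Matrix.smul_apply, WW, Matrix.sub_apply, EE_single', smul_eq_mul]
    have e1 : ∑ u, ∑ v, ∑ u', R u v * X u' u * (if p = u' then Q v q else 0) = X p q := by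
      have : ∀ u v, ∑ u', R u v * X u' u * (if p = u' then Q v q else 0) =
          X p u * (R u v * Q v q) := by
        intro u v
        simp only [mul_ite, mul_zero]
        rw [Finset.sum_ite_eq univ p (fun u' => R u v * X u' u * Q v q),
          if_pos (Finset.mem_univ _)]
        ring
      simp only [this, ← Finset.mul_sum]
      have h2 : ∀ u, ∑ v, R u v * Q v q = (1 : Matrix B B ℂ) u q := by
        intro u
        rw [← hRQ, Matrix.mul_apply]
      simp only [h2]
      rw [← Matrix.mul_apply, mul_one]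
    have e2 : ∑ u, ∑ v, ∑ u', R u v * X u' u * (s (κ u') * (if p = v then Q u' q else 0)) =
        - X p q := by
      have h3 : ∀ u' q, s (κ u') * Q u' q = Q q u' := by
        intro u' q
        by_cases hq : κ q = σ (κ u')
        · rw [h.Qs q u', hq, h.sσ]
        · rw [h.Qb u' q hq, h.Qb q u' (by
            intro h4
            apply hq
            rw [h4, h.σσ]), mul_zero]
      have h4 : ∀ u, ∑ v, ∑ u', R u v * X u' u * (s (κ u') * (if p = v then Q u' q else 0)) =
          ∑ u', Q q u' * X u' u * R u p := by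
        intro u
        rw [Finset.sum_comm]
        refine Finset.sum_congr rfl fun u' _ => ?_
        simp only [mul_ite, mul_zero]
        rw [Finset.sum_ite_eq univ p (fun v => R u v * X u' u * (s (κ u') * Q u' q)),
          if_pos (Finset.mem_univ _), ← h3 u' q]
        ring
      simp only [h4]
      have h5 : ∑ u, ∑ u', Q q u' * X u' u * R u p = (Q * X * R) q p := by
        rw [Matrix.mul_apply]
        refine Finset.sum_congr rfl fun u _ => ?_
        rw [Matrix.mul_apply, Finset.sum_mul]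
      rw [h5, eq_neg_of_add_eq_zero_right hX, neg_mul, mul_assoc, h.QR, mul_one]
      rfl
    have e3 : ∀ u v u', R u v * X u' u * ((if p = u' then Q v q else 0) -
        s (κ u') * (if p = v then Q u' q else 0)) =
        R u v * X u' u * (if p = u' then Q v q else 0) -
        R u v * X u' u * (s (κ u') * (if p = v then Q u' q else 0)) := by
      intro u v u'
      ring
    simp only [e3, Finset.sum_sub_distrib]
    rw [e1, e2]
    ring
  rw [h1, smul_smul, inv_mul_cancel₀ (two_ne_zero), one_smul]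

/-- the action of a skew operator which preserves the blocks -/
theorem act_skew (h : Dat κ σ Q R s t) {f : (Fin k → B) → D → ℂ} (hf : InvT κ σ Q s t f)
    {X : Matrix B B ℂ} (hX : Xᵀ * Q + Q * X = 0) (hXb : ∀ a b, κ a ≠ κ b → X a b = 0) :
    act (X, (0 : Matrix D D ℂ)) f = ((2 : ℂ)⁻¹ * ∑ u, (t (κ u) : ℂ) * X u u) • f := by
  have hRQ : R * Q = 1 := mul_eq_one_comm.1 h.QR
  let A : Matrix B B ℂ →ₗ[ℂ] ((Fin k → B) → D → ℂ) :=
    { toFun := fun Y => act (Y, (0 : Matrix D D ℂ)) f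
      map_add' := fun Y Z => by
        have := act_add (Y, (0 : Matrix D D ℂ)) (Z, (0 : Matrix D D ℂ)) f
        rw [Prod.mk_add_mk, add_zero] at this
        exact this
      map_smul' := fun c Y => by
        have := act_smul c (Y, (0 : Matrix D D ℂ)) f
        rw [Prod.smul_mk, smul_zero] at this
        exact this }
  have hA : ∀ Y, act (Y, (0 : Matrix D D ℂ)) f = A Y := fun _ => rfl
  rw [hA]
  conv_lhs => rw [skew_expand h hX]
  simp only [map_smul, map_sum]
  rw [mul_smul]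
  congr 1
  have h1 : ∀ u v u', (R u v * X u' u) • A (WW Q (s (κ u')) (Pi.single u' 1) (Pi.single v 1)) =
      (R u v * X u' u * ((t (κ u') : ℂ) * Q v u')) • f := by
    intro u v u'
    by_cases h0 : R u v * X u' u = 0
    · rw [h0, zero_mul, zero_smul, zero_smul]
    · have hR : κ v = σ (κ u) := by
        by_contra hcon
        exact h0 (by rw [h.Rb u v hcon, zero_mul])
      have hX' : κ u' = κ u := by
        by_contra hcon
        exact h0 (by rw [hXb u' u hcon, mul_zero])
      have hAW : A (WW Q (s (κ u')) (Pi.single u' 1) (Pi.single v 1)) =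
          ((t (κ u') : ℂ) * Q v u') • f := by
        funext J
        rw [← hA, act_WW, hf u' v (by rw [hR, hX'])]
        rfl
      rw [hAW, smul_smul]
  simp only [h1]
  simp only [← Finset.sum_smul]
  congr 1
  have h2 : ∀ u, ∑ v, ∑ u', R u v * X u' u * ((t (κ u') : ℂ) * Q v u') =
      (t (κ u) : ℂ) * X u u := by
    intro u
    rw [Finset.sum_comm]
    have h3 : ∀ u', ∑ v, R u v * X u' u * ((t (κ u') : ℂ) * Q v u') =
        if u = u' then (t (κ u) : ℂ) * X u u else 0 := by
      intro u'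
      have h4 : ∑ v, R u v * X u' u * ((t (κ u') : ℂ) * Q v u') =
          X u' u * (t (κ u') : ℂ) * ∑ v, R u v * Q v u' := by
        rw [Finset.mul_sum]
        exact Finset.sum_congr rfl fun v _ => by ring
      rw [h4, ← Matrix.mul_apply, hRQ, Matrix.one_apply]
      split_ifs with h5
      · rw [h5]
        ring
      · rw [mul_zero]
    simp only [h3]
    rw [Finset.sum_ite_eq univ u (fun _ => (t (κ u) : ℂ) * X u u), if_pos (Finset.mem_univ _)]
  simp only [h2]

/-- parts and operators which preserve the blocks -/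
theorem act_prt {X : Matrix B B ℂ} (hXb : ∀ a b, κ a ≠ κ b → X a b = 0) (Y : Matrix D D ℂ)
    {f : (Fin k → B) → D → ℂ} (hf : act (X, Y) f = 0) (c : Fin k → ι) :
    act (X, Y) (prt κ c f) = 0 := by
  funext J l
  rw [act_apply]
  have h0 := congrFun (congrFun hf J) l
  rw [act_apply] at h0
  have key : ∀ j p, X p (J j) * prt κ c f (update J j p) l =
      if ∀ j, κ (J j) = c j then X p (J j) * f (update J j p) l else 0 := by
    intro j p
    by_cases hp : κ p = κ (J j)
    · have hiff : (∀ j', κ (update J j p j') = c j') ↔ ∀ j', κ (J j') = c j' := by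
        have : ∀ j', κ (update J j p j') = κ (J j') := by
          intro j'
          by_cases hj : j' = j
          · subst hj
            rw [update_self, hp]
          · rw [update_of_ne hj]
        simp only [this]
      unfold prt
      by_cases hJ : ∀ j', κ (J j') = c j'
      · rw [if_pos hJ, if_pos (hiff.2 hJ)]
      · rw [if_neg hJ, if_neg (fun h => hJ (hiff.1 h))]
        exact mul_zero _
    · rw [hXb _ _ hp, zero_mul, zero_mul, ite_self]
  have key2 : ∀ m, Y m l * prt κ c f J m =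
      if ∀ j, κ (J j) = c j then Y m l * f J m else 0 := by
    intro m
    unfold prt
    by_cases hJ : ∀ j', κ (J j') = c j'
    · rw [if_pos hJ, if_pos hJ]
    · rw [if_neg hJ, if_neg hJ]
      exact mul_zero _
  simp only [key, key2]
  by_cases hJ : ∀ j', κ (J j') = c j'
  · simp only [if_pos hJ]
    exact h0
  · simp only [if_neg hJ, Finset.sum_const_zero, add_zero]
    rfl

end dat

section
variable {κ : B → ι} {Q T : Matrix B B ℚ} {d : ℕ} {sg : ι → ℚ}
  {𝔪 : Submodule ℚ (Matrix B B ℚ × Matrix D D ℚ)}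
  (h : Glob κ Q T d sg 𝔪) {P : Matrix B B ℂ} {κ' : B → ι × Th} (hE : EB κ T d P κ')
include h hE

/-- the conjugated operator in the eigenbasis preserves the blocks -/
theorem conj_blk {X : Matrix B B ℂ} (hXT : X * mC T = mC T * X)
    (hXb : ∀ a b, κ a ≠ κ b → X a b = 0) (a b : B) (hab : κ' a ≠ κ' b) :
    (P⁻¹ * X * P) a b = 0 := by
  have hPP : P * P⁻¹ = 1 := mul_nonsing_inv _ hE.det
  have hPP' : P⁻¹ * P = 1 := nonsing_inv_mul _ hE.det
  set X' := P⁻¹ * X * P with hX'
  have hXP : X * P = P * X' := by rw [hX', ← mul_assoc, ← mul_assoc, hPP, one_mul]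
  -- the column
  have hcol : X *ᵥ P.col b = P *ᵥ X'.col b := by
    funext q
    have := congrFun (congrFun hXP q) b
    exact this
  have hli : LinearIndependent ℂ (fun b => P.col b) :=
    Matrix.linearIndependent_cols_iff_isUnit.2 ((Matrix.isUnit_iff_isUnit_det _).2 hE.det)
  have hexp : ∀ w : B → ℂ, P *ᵥ w = ∑ c, w c • P.col c := by
    intro w
    funext q
    rw [Finset.sum_apply]
    show ∑ c, P q c * w c = _
    exact Finset.sum_congr rfl fun c _ => by
      show _ = w c * P q c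
      ring
  -- eigenvalues
  have h1 : ∀ c, (((κ' c).2.1 : ℂ) - ((κ' b).2.1 : ℂ)) * X' c b = 0 := by
    have h2 : mC T *ᵥ (X *ᵥ P.col b) = ((κ' b).2.1 : ℂ) • (X *ᵥ P.col b) := by
      rw [mulVec_mulVec, ← hXT, ← mulVec_mulVec, hE.eig, mulVec_smul]
    rw [hcol, hexp, mulVec_sum, Finset.smul_sum, ← sub_eq_zero, ← Finset.sum_sub_distrib] at h2
    have h3 : ∑ c, ((((κ' c).2.1 : ℂ) - ((κ' b).2.1 : ℂ)) * X' c b) • P.col c = 0 := by
      rw [← h2]
      refine Finset.sum_congr rfl fun c _ => ?_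
      rw [mulVec_smul, hE.eig]
      show _ = X' c b • _ - _ • X' c b • _
      module
    exact Fintype.linearIndependent_iff.1 hli _ h3
  -- blocks
  have h4 : ∀ c, (κ' c).1 ≠ (κ' b).1 → X' c b = 0 := by
    have hblk : InBlk κ (κ' b).1 (X *ᵥ P.col b) := (h.colb hE b).mulVec hXb
    have h5 : ∑ c, (if (κ' c).1 = (κ' b).1 then 0 else X' c b) • P.col c = 0 := by
      funext q
      rw [Finset.sum_apply]
      by_cases hq : κ q = (κ' b).1
      · refine Finset.sum_eq_zero fun c _ => ?_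
        split_ifs with hc
        · simp
        · have : P q c = 0 := hE.sup c q (by rw [hq]; exact Ne.symm hc)
          show X' c b * P q c = 0
          rw [this, mul_zero]
      · have h6 := hblk q hq
        rw [hcol, hexp, Finset.sum_apply] at h6
        rw [Pi.zero_apply]
        refine Eq.trans ?_ h6
        refine Finset.sum_congr rfl fun c _ => ?_
        split_ifs with hc
        · have : P q c = 0 := hE.sup c q (by rw [hc]; exact hq)
          show 0 * P q c = X' c b * P q c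
          rw [this, mul_zero, mul_zero]
        · rfl
    have h7 := Fintype.linearIndependent_iff.1 hli _ h5
    intro c hc
    have := h7 c
    rwa [if_neg hc] at this
  by_cases h8 : (κ' a).1 = (κ' b).1
  · rcases mul_eq_zero.1 (h1 a) with h9 | h9
    · exfalso
      apply hab
      exact Prod.ext h8 (Subtype.ext (sub_eq_zero.1 h9))
    · exact h9
  · exact h4 a h8

theorem conj_skew {X : Matrix B B ℂ} (hX : Xᵀ * mC Q + mC Q * X = 0) :
    (P⁻¹ * X * P)ᵀ * (Pᵀ * mC Q * P) + (Pᵀ * mC Q * P) * (P⁻¹ * X * P) = 0 := by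
  have hPP : P * P⁻¹ = 1 := mul_nonsing_inv _ hE.det
  have hPt : (P⁻¹)ᵀ * Pᵀ = 1 := by rw [← transpose_mul, hPP, transpose_one]
  have e1 : (P⁻¹ * X * P)ᵀ * (Pᵀ * mC Q * P) = Pᵀ * (Xᵀ * mC Q) * P := by
    rw [transpose_mul, transpose_mul]
    calc Pᵀ * (Xᵀ * (P⁻¹)ᵀ) * (Pᵀ * mC Q * P) = Pᵀ * Xᵀ * ((P⁻¹)ᵀ * Pᵀ) * mC Q * P := by
          noncomm_ring
      _ = Pᵀ * (Xᵀ * mC Q) * P := by rw [hPt]; noncomm_ring
  have e2 : (Pᵀ * mC Q * P) * (P⁻¹ * X * P) = Pᵀ * (mC Q * X) * P := by
    calc (Pᵀ * mC Q * P) * (P⁻¹ * X * P) = Pᵀ * mC Q * (P * P⁻¹) * X * P := by noncomm_ring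
      _ = Pᵀ * (mC Q * X) * P := by rw [hPP]; noncomm_ring
  rw [e1, e2, ← add_mul, ← mul_add, hX, mul_zero, zero_mul]

/-- the partial traces -/
theorem part_trace (X : Matrix B B ℂ) (p : ι × Th) (hp : (p.2.1 : ℂ) ^ d = 1) :
    ∑ u ∈ blk κ' p, (P⁻¹ * X * P) u u =
      (d : ℂ)⁻¹ * ∑ j ∈ range d, ((p.2.1 : ℂ)⁻¹) ^ j *
        trace (X * (mC T ^ j * diagonal (fun a => if κ a = p.1 then (1 : ℂ) else 0))) := by
  have h1 : ∑ u ∈ blk κ' p, (P⁻¹ * X * P) u u =
      trace (P⁻¹ * X * P * diagonal (fun b => if κ' b = p then (1 : ℂ) else 0)) := by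
    unfold trace blk
    rw [Finset.sum_filter]
    refine Finset.sum_congr rfl fun u _ => ?_
    rw [Matrix.diag_apply, mul_diagonal]
    split_ifs
    · rw [mul_one]
    · rw [mul_zero]
  rw [h1]
  have h2 : trace (P⁻¹ * X * P * diagonal (fun b => if κ' b = p then (1 : ℂ) else 0)) =
      trace (X * (P * diagonal (fun b => if κ' b = p then (1 : ℂ) else 0) * P⁻¹)) := by
    rw [mul_assoc (P⁻¹ * X), mul_assoc P⁻¹, trace_mul_comm, mul_assoc]
  rw [h2, proj h hE p hp, mul_smul_comm, trace_smul, smul_eq_mul, Finset.mul_sum, trace_sum]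
  congr 1
  refine Finset.sum_congr rfl fun j _ => ?_
  rw [mul_smul_comm, trace_smul, smul_eq_mul]

end

/-- **The central relation.** -/
theorem central {E : Type} {U : Set E} {x : E → Matrix B B ℂ} {y : E → Matrix D D ℂ}
    {κ : B → ι} {Q T : Matrix B B ℚ} {d : ℕ} {sg : ι → ℚ}
    (h : Glob κ Q T d sg (mm U x y)) {P : Matrix B B ℂ} {κ' : B → ι × Th} (hE : EB κ T d P κ')
    (hxT : ∀ u ∈ U, x u * mC T = mC T * x u)
    (hxb : ∀ u ∈ U, ∀ a b, κ a ≠ κ b → x u a b = 0)
    (hxs : ∀ u ∈ U, (x u)ᵀ * mC Q + mC Q * x u = 0) (hD : NoChar U y)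
    {f : (Fin k → B) → D → ℚ} (hf : ∀ u ∈ U, act (x u, y u) (cx f) = 0)
    {c : Fin k → ι × Th} (hc : prt κ' c (pul P 1 (cx f)) ≠ 0) {u : E} (hu : u ∈ U)
    (τ : ℂ →ₗ[ℚ] ℂ) :
    ∑ p ∈ univ.image κ', (wt κ' sig c p : ℂ) * ((d : ℂ)⁻¹ * ∑ j ∈ range d,
      ((p.2.1 : ℂ)⁻¹) ^ j * τ (trace (x u * mC (T ^ j *
        diagonal (fun a => if κ a = p.1 then (1 : ℚ) else 0))))) = 0 := by
  classical
  have hkill : ∀ a ∈ mm U x y, act a f = 0 := fun a ha => act_mm hf ha
  have hdat := h.dat hE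
  have hdat' : Dat κ' sig (Pᵀ * mC Q * P) (Pᵀ * mC Q * P)⁻¹
    (fun p => ((sg p.1 : ℚ) : ℂ)) (wt κ' sig c) := ⟨hdat.ss, hdat.sσ, hdat.σσ, hdat.σne,
      wt_σ hdat c, hdat.Qb, hdat.Qs, hdat.QR⟩
  have hinv := invT_prt hdat (h.rel hE hkill) c
  have hPP : P * P⁻¹ = 1 := mul_nonsing_inv _ hE.det
  -- the operators at all points
  have key : ∀ u ∈ U, ∀ τ : ℂ →ₗ[ℚ] ℂ,
      act (P⁻¹ * (x u).map τ * P, (y u).map τ) (prt κ' c (pul P 1 (cx f))) = 0 := by
    intro u hu τ
    have h1 := act_tau (hf u hu) τ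
    have hXT : (x u).map τ * mC T = mC T * (x u).map τ := by
      rw [← map_mul_C, hxT u hu, map_C_mul]
    have hXb : ∀ a b, κ a ≠ κ b → (x u).map τ a b = 0 := by
      intro a b hab
      rw [Matrix.map_apply, hxb u hu a b hab, map_zero]
    have hXP : (x u).map τ * P = P * (P⁻¹ * (x u).map τ * P) := by
      rw [← mul_assoc, ← mul_assoc, hPP, one_mul]
    have h2 : act (P⁻¹ * (x u).map τ * P, (y u).map τ) (pul P 1 (cx f)) = 0 := by
      rw [← pul_act hXP (by rw [mul_one, one_mul] : (y u).map τ * 1 = 1 * (y u).map τ), h1]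
      exact pul_zero P 1
    exact act_prt (conj_blk h hE hXT hXb) _ h2 c
  have hsk : ∀ u ∈ U, ∀ τ : ℂ →ₗ[ℚ] ℂ,
      act (P⁻¹ * (x u).map τ * P, (0 : Matrix D D ℂ)) (prt κ' c (pul P 1 (cx f))) =
      ((2 : ℂ)⁻¹ * ∑ b, (wt κ' sig c (κ' b) : ℂ) * (P⁻¹ * (x u).map τ * P) b b) •
        prt κ' c (pul P 1 (cx f)) := by
    intro u hu τ
    have hXT : (x u).map τ * mC T = mC T * (x u).map τ := by
      rw [← map_mul_C, hxT u hu, map_C_mul]
    have hXb : ∀ a b, κ a ≠ κ b → (x u).map τ a b = 0 := by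
      intro a b hab
      rw [Matrix.map_apply, hxb u hu a b hab, map_zero]
    have hXs : ((x u).map τ)ᵀ * mC Q + mC Q * (x u).map τ = 0 := by
      have h3 : ((x u)ᵀ * mC Q + mC Q * x u).map τ = (0 : Matrix B B ℂ).map τ := by
        rw [hxs u hu]
      rw [Matrix.map_add _ (map_add τ), map_mul_C, map_C_mul] at h3
      rw [← Matrix.transpose_map, h3]
      ext p q
      simp
    exact act_skew hdat' hinv (conj_skew h hE hXs) (conj_blk h hE hXT hXb)
  -- a value of the form
  obtain ⟨J, hJ⟩ := Function.ne_iff.1 hc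
  set w : D → ℂ := prt κ' c (pul P 1 (cx f)) J with hw
  have hw0 : w ≠ 0 := hJ
  have hval : ∀ u ∈ U, ∀ τ : ℂ →ₗ[ℚ] ℂ, w ᵥ* (y u).map τ =
      (-((2 : ℂ)⁻¹ * ∑ b, (wt κ' sig c (κ' b) : ℂ) * (P⁻¹ * (x u).map τ * P) b b)) • w := by
    intro u hu τ
    have h1 := key u hu τ
    have h2 : (P⁻¹ * (x u).map τ * P, (y u).map τ) =
        (P⁻¹ * (x u).map τ * P, (0 : Matrix D D ℂ)) + ((0 : Matrix B B ℂ), (y u).map τ) := by
      rw [Prod.mk_add_mk, add_zero, zero_add]
    rw [h2, act_add, hsk u hu τ] at h1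
    funext l
    have h3 := congrFun (congrFun h1 J) l
    have h4 : act ((0 : Matrix B B ℂ), (y u).map τ) (prt κ' c (pul P 1 (cx f))) J l =
        (w ᵥ* (y u).map τ) l := by
      rw [act_apply]
      simp only [Matrix.zero_apply, zero_mul, Finset.sum_const_zero, zero_add]
      show _ = ∑ m, w m * _
      exact Finset.sum_congr rfl fun m _ => mul_comm _ _
    have h5 : ((2 : ℂ)⁻¹ * ∑ b, (wt κ' sig c (κ' b) : ℂ) * (P⁻¹ * (x u).map τ * P) b b) * w l +
        (w ᵥ* (y u).map τ) l = 0 := by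
      rw [← h4]
      exact h3
    rw [Pi.smul_apply, smul_eq_mul]
    linear_combination h5
  have hzero := hD w hw0 (fun u hu τ => ⟨_, hval u hu τ⟩) u hu τ
  rw [hval u hu τ] at hzero
  have h6 : ∑ b, (wt κ' sig c (κ' b) : ℂ) * (P⁻¹ * (x u).map τ * P) b b = 0 := by
    rcases smul_eq_zero.1 hzero with h7 | h7
    · rw [neg_eq_zero] at h7
      rcases mul_eq_zero.1 h7 with h8 | h8
      · exact absurd h8 (inv_ne_zero two_ne_zero)
      · exact h8
    · exact absurd h7 hw0
  refine Eq.trans ?_ h6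
  -- grouping
  have h7 : ∑ b, (wt κ' sig c (κ' b) : ℂ) * (P⁻¹ * (x u).map τ * P) b b =
      ∑ p ∈ univ.image κ', ∑ b ∈ univ.filter (fun b => κ' b = p),
        (wt κ' sig c (κ' b) : ℂ) * (P⁻¹ * (x u).map τ * P) b b :=
    (Finset.sum_fiberwise_of_maps_to (fun b _ => Finset.mem_image_of_mem _ (Finset.mem_univ b))
      _).symm
  rw [h7]
  refine Finset.sum_congr rfl fun p hp => ?_
  obtain ⟨b0, -, hb0⟩ := Finset.mem_image.1 hp
  have hone : (p.2.1 : ℂ) ^ d = 1 := by
    rw [← hb0]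
    exact hE.one b0
  have h8 : ∑ b ∈ univ.filter (fun b => κ' b = p),
      (wt κ' sig c (κ' b) : ℂ) * (P⁻¹ * (x u).map τ * P) b b =
      (wt κ' sig c p : ℂ) * ∑ b ∈ blk κ' p, (P⁻¹ * (x u).map τ * P) b b := by
    rw [Finset.mul_sum]
    refine Finset.sum_congr rfl fun b hb => ?_
    rw [(Finset.mem_filter.1 hb).2]
  rw [h8, part_trace h hE _ p hone]
  congr 2
  refine Finset.sum_congr rfl fun j _ => ?_
  congr 1
  have h9 : mC T ^ j * diagonal (fun a => if κ a = p.1 then (1 : ℂ) else 0) =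
      mC (T ^ j * diagonal (fun a => if κ a = p.1 then (1 : ℚ) else 0)) := by
    rw [mC_mul, mC_pow]
    congr 1
    unfold mC
    rw [Matrix.diagonal_map (by simp)]
    congr 1
    funext a
    split_ifs <;> simp
  rw [h9, trace_map]

end Pool.Agent.H842.CR
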