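import Pool.Agent.H842.CR.Det3
import Pool.Agent.H842.CR.DDefs
import Pool.Agent.H842.CR.Tr

/-!
# Determinants over the rational numbers
-/

set_option linter.unusedSectionVars false

open Matrix Finset Function

namespace Pool.Agent.H842.CR

open Pool.Agent.TH125.Nod

variable {B : Type} [Fintype B] [DecidableEq B] {D : Type} [Fintype D]
  [DecidableEq D] {ι : Type} [DecidableEq ι] {k n : ℕ}

/-- evaluation of a derivative on eigenvectors -/
theorem ev_act {X : Matrix B B ℂ} {Y : Matrix D D ℂ} (F : (Fin k → B) → D → ℂ) {v : Fin k → B → ℂ}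
    {w : D → ℂ} {a : Fin k → ℂ} {b : ℂ} (hv : ∀ j, X *ᵥ v j = a j • v j) (hw : Y *ᵥ w = b • w) :
    ∑ J : Fin k → B, ∑ l, act (X, Y) F J l * (∏ j, v j (J j)) * w l =
      (∑ j, a j + b) * ∑ J : Fin k → B, ∑ l, F J l * (∏ j, v j (J j)) * w l := by
  have h1 : ∀ j, ∑ J : Fin k → B, ∑ l, (∑ p, X p (J j) * F (update J j p) l) *
      (∏ i, v i (J i)) * w l = a j * ∑ J : Fin k → B, ∑ l, F J l * (∏ j, v j (J j)) * w l := by
    intro j
    have h2 : ∀ J : Fin k → B, ∑ l, (∑ p, X p (J j) * F (update J j p) l) *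
        (∏ i, v i (J i)) * w l = ∑ p, ∑ l, X p (J j) * F (update J j p) l *
        (v j (J j) * ∏ i ∈ univ.erase j, v i (J i)) * w l := by
      intro J
      rw [Finset.sum_comm]
      refine Finset.sum_congr rfl fun l _ => ?_
      rw [Finset.sum_mul, Finset.sum_mul, ← Finset.mul_prod_erase univ _ (Finset.mem_univ j)]
    simp only [h2]
    rw [sum_upd j, Finset.mul_sum]
    refine Finset.sum_congr rfl fun J _ => ?_
    simp only [update_self, update_idem, update_eq_self]
    have h3 : ∀ q, ∏ i ∈ univ.erase j, v i (update J j q i) = ∏ i ∈ univ.erase j, v i (J i) := by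
      intro q
      refine Finset.prod_congr rfl fun i hi => ?_
      rw [update_of_ne (Finset.ne_of_mem_erase hi)]
    simp only [h3]
    rw [Finset.sum_comm, Finset.mul_sum]
    refine Finset.sum_congr rfl fun l _ => ?_
    have h4 : ∑ q, X (J j) q * v j q = a j * v j (J j) := congrFun (hv j) (J j)
    have h5 : ∑ q, X (J j) q * F J l * (v j q * ∏ i ∈ univ.erase j, v i (J i)) * w l =
        (∑ q, X (J j) q * v j q) * (F J l * (∏ i ∈ univ.erase j, v i (J i)) * w l) := by
      rw [Finset.sum_mul]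
      exact Finset.sum_congr rfl fun q _ => by ring
    rw [h5, h4, ← Finset.mul_prod_erase univ _ (Finset.mem_univ j)]
    ring
  have h6 : ∑ J : Fin k → B, ∑ l, (∑ m, Y m l * F J m) * (∏ j, v j (J j)) * w l =
      b * ∑ J : Fin k → B, ∑ l, F J l * (∏ j, v j (J j)) * w l := by
    rw [Finset.mul_sum]
    refine Finset.sum_congr rfl fun J _ => ?_
    rw [Finset.mul_sum]
    have h7 : ∀ m, b * (F J m * (∏ j, v j (J j)) * w m) =
        ∑ l, Y m l * F J m * (∏ j, v j (J j)) * w l := by
      intro m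
      have h8 : ∑ l, Y m l * w l = b * w m := congrFun hw m
      calc b * (F J m * (∏ j, v j (J j)) * w m) = F J m * (∏ j, v j (J j)) * (b * w m) := by ring
        _ = ∑ l, Y m l * F J m * (∏ j, v j (J j)) * w l := by
          rw [← h8, Finset.mul_sum]
          exact Finset.sum_congr rfl fun l _ => by ring
    simp only [h7]
    rw [Finset.sum_comm]
    refine Finset.sum_congr rfl fun l _ => ?_
    rw [Finset.sum_mul, Finset.sum_mul]
  simp only [act_apply, add_mul, Finset.sum_add_distrib]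
  rw [h6]
  congr 1
  refine Eq.trans ?_ (Finset.sum_mul _ _ _).symm
  refine Eq.trans ?_ (Finset.sum_congr rfl fun j _ => h1 j)
  refine Eq.trans ?_ Finset.sum_comm
  refine Finset.sum_congr rfl fun J _ => ?_
  refine Eq.trans ?_ Finset.sum_comm
  refine Finset.sum_congr rfl fun l _ => ?_
  rw [Finset.sum_mul, Finset.sum_mul]

theorem act_mC2 (X : Matrix B B ℚ) (Y : Matrix D D ℚ) (f : (Fin k → B) → D → ℚ) :
    act (mC X, mC Y) (cx f) = cx (act (X, Y) f) := by
  funext J l
  rw [act_apply]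
  show _ = ((act (X, Y) f J l : ℚ) : ℂ)
  rw [act_apply]
  simp only [mC, cx, Matrix.map_apply]
  push_cast
  rfl

/-- forms killed by the Lie algebra are Hodge classes -/
theorem hodge_of_kill {E : Type} {U : Set E} {x : E → Matrix B B ℂ} {y : E → Matrix D D ℂ}
    {u : E} (hu : u ∈ U) {w : (Fin k → B) → D → ℚ} (hk : ∀ a ∈ mm U x y, act a w = 0) :
    IsHodge (x u) (y u) w := by
  intro a b v v' hv hv' hab
  obtain ⟨τ, F, β, φ, hx, hy⟩ := exists_decomp (x u) (y u)
  have h1 : act (x u, y u) (cx w) = 0 := by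
    have h2 : (x u, y u) = ∑ t ∈ F, β t • (mC ((x u).map (φ t)), mC ((y u).map (φ t))) := by
      apply Prod.ext
      · rw [Prod.fst_sum]
        exact hx
      · rw [Prod.snd_sum]
        exact hy
    let A : (Matrix B B ℂ × Matrix D D ℂ) →ₗ[ℂ] ((Fin k → B) → D → ℂ) :=
      { toFun := fun z => act z (cx w)
        map_add' := fun z z' => act_add z z' _
        map_smul' := fun r z => act_smul r z _ }
    show A (x u, y u) = 0
    rw [h2, map_sum]
    refine Finset.sum_eq_zero fun t _ => ?_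
    rw [map_smul]
    show β t • act (mC ((x u).map (φ t)), mC ((y u).map (φ t))) (cx w) = 0
    rw [act_mC2, hk _ (gen_mem hu (φ t))]
    have : cx (0 : (Fin k → B) → D → ℚ) = 0 := by
      funext J l
      simp [cx]
    rw [this, smul_zero]
  have h3 := ev_act (cx w) hv hv'
  rw [h1] at h3
  have h4 : (∑ j, (a j : ℂ) + (b : ℂ)) ≠ 0 := by
    exact_mod_cast hab
  have h5 : ∑ J : Fin k → B, ∑ l, (0 : (Fin k → B) → D → ℂ) J l * (∏ j, v j (J j)) * v' l = 0 := by
    simp
  rw [h5] at h3
  rcases mul_eq_zero.1 h3.symm with h6 | h6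
  · exact absurd h6 h4
  · exact h6

section eb
variable {κ : B → ι} {T : Matrix B B ℚ} {d : ℕ} {P : Matrix B B ℂ} {κ' : B → ι × Th}
  (hE : EB κ T d P κ')
include hE

theorem EB.inv_sup (p a : B) (h : κ a ≠ (κ' p).1) : P⁻¹ p a = 0 := by
  have hPP : P * P⁻¹ = 1 := mul_nonsing_inv _ hE.det
  have hPP' : P⁻¹ * P = 1 := nonsing_inv_mul _ hE.det
  set i := (κ' p).1 with hi
  have h1 : diagonal (fun a => if κ a = i then (1 : ℂ) else 0) * P =
      P * diagonal (fun b => if (κ' b).1 = i then (1 : ℂ) else 0) := by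
    ext a b
    rw [diagonal_mul, mul_diagonal]
    by_cases hab : κ a = (κ' b).1
    · rw [hab]
      ring
    · rw [hE.sup b a hab]
      ring
  have h2 : P⁻¹ * diagonal (fun a => if κ a = i then (1 : ℂ) else 0) =
      diagonal (fun b => if (κ' b).1 = i then (1 : ℂ) else 0) * P⁻¹ := by
    calc P⁻¹ * diagonal (fun a => if κ a = i then (1 : ℂ) else 0) =
        P⁻¹ * (diagonal (fun a => if κ a = i then (1 : ℂ) else 0) * P) * P⁻¹ := by
          rw [mul_assoc, mul_assoc, hPP, mul_one]
      _ = diagonal (fun b => if (κ' b).1 = i then (1 : ℂ) else 0) * P⁻¹ := by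
          rw [h1, ← mul_assoc, hPP', one_mul]
  have h3 := congrFun (congrFun h2 p) a
  rw [mul_diagonal, diagonal_mul, if_neg h, if_pos rfl, mul_zero, one_mul] at h3
  exact h3.symm

theorem EB.diag_tp (Φ : Polynomial ℚ) :
    diagonal (fun b => Polynomial.aeval ((κ' b).2.1 : ℂ) Φ) * P⁻¹ = P⁻¹ * mC (tp T Φ) := by
  have hPP : P * P⁻¹ = 1 := mul_nonsing_inv _ hE.det
  have hPP' : P⁻¹ * P = 1 := nonsing_inv_mul _ hE.det
  have h1 : mC (tp T Φ) * P = P * diagonal (fun b => Polynomial.aeval ((κ' b).2.1 : ℂ) Φ) := by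
    ext a b
    have h2 := congrFun (mC_tp T Φ (hE.eig b)) a
    rw [mul_diagonal, mul_comm (P a b)]
    exact h2
  calc diagonal (fun b => Polynomial.aeval ((κ' b).2.1 : ℂ) Φ) * P⁻¹ =
      P⁻¹ * (P * diagonal (fun b => Polynomial.aeval ((κ' b).2.1 : ℂ) Φ)) * P⁻¹ := by
        rw [← mul_assoc, hPP', one_mul]
    _ = P⁻¹ * mC (tp T Φ) := by rw [← h1, mul_assoc, mul_assoc, hPP, mul_one]

/-- the operators `Φ (T)` on the variables of a form in the eigenbasis -/
theorem EB.slot_tp (Φ : Polynomial ℚ) {c : Fin n → ι × Th} {w : (Fin n → B) → D → ℂ}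
    (hw : Sup κ' c w) (x : Fin n) :
    slot x (mC (tp T Φ)) (pul P⁻¹ 1 w) =
      Polynomial.aeval ((c x).2.1 : ℂ) Φ • pul P⁻¹ (1 : Matrix D D ℂ) w := by
  rw [← pul_slot (hE.diag_tp Φ) x w, ← pul_smul]
  congr 1
  funext J l
  show ∑ p, diagonal (fun b => Polynomial.aeval ((κ' b).2.1 : ℂ) Φ) p (J x) *
    w (update J x p) l = Polynomial.aeval ((c x).2.1 : ℂ) Φ * w J l
  rw [Finset.sum_eq_single (J x)]
  · rw [diagonal_apply_eq, update_eq_self]
    by_cases hJ : ∀ j, κ' (J j) = c j
    · rw [hJ x]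
    · rw [hw J hJ]
      show _ * (0 : ℂ) = _ * (0 : ℂ)
      rw [mul_zero, mul_zero]
  · intro p _ hp
    rw [diagonal_apply_ne _ hp, zero_mul]
  · intro h
    exact absurd (Finset.mem_univ _) h

/-- the dimension of an eigenspace -/
theorem EB.finrank (p : ι × Th) :
    Module.finrank ℂ (eigenpart κ T p.1 p.2.1) = (blk κ' p).card := by
  apply le_antisymm (finrank_le hE p)
  have hli : LinearIndependent ℂ (fun b => P.col b) := by
    have := Matrix.linearIndependent_cols_iff_isUnit.2
      ((Matrix.isUnit_iff_isUnit_det _).2 hE.det)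
    exact this
  have hli' : LinearIndependent ℂ (fun b : {b // b ∈ blk κ' p} =>
      (⟨P.col b.1, by
        have hb := mem_blk.1 b.2
        refine ⟨fun a ha => hE.sup b.1 a (by rw [hb]; exact ha), ?_⟩
        have := hE.eig b.1
        rwa [hb] at this⟩ : eigenpart κ T p.1 p.2.1)) := by
    apply LinearIndependent.of_comp (eigenpart κ T p.1 p.2.1).subtype
    exact hli.comp (fun b : {b // b ∈ blk κ' p} => b.1) Subtype.val_injective
  have h1 := hli'.fintype_card_le_finrank
  rwa [Fintype.card_coe] at h1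

end eb

end Pool.Agent.H842.CR
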