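import Pool.Agent.H842.CR.Det4

/-!
# Tensors killed by the Lie algebra
-/

set_option linter.unusedSectionVars false

open Matrix Finset Function

namespace Pool.Agent.H842.CR

open Pool.Agent.TH125.Nod

variable {B : Type} [Fintype B] [DecidableEq B] {D : Type} [Fintype D]
  [DecidableEq D] {ι : Type} [DecidableEq ι] {k n : ℕ}

/-- the conditions on the groups -/
def DatG (κ' : B → ι × Th) (Ψ : (ι × Th → ℚ) → Prop) (g : Fin n → ℕ) (c : Fin n → ι × Th) : Prop :=
  (∀ x y, g x = g y → c x = c y) ∧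
    (∀ x, (univ.filter fun y => g y = g x).card = (blk κ' (c x)).card) ∧
    (∀ x, 1 ≤ wt κ' sig c (c x)) ∧ Ψ (wt κ' sig c)

/-- complex determinantal tensors killed by the Lie algebra -/
structure CDet (κ : B → ι) (T : Matrix B B ℚ) (𝔪 : Submodule ℚ (Matrix B B ℚ × Matrix D D ℚ))
    (g : Fin n → ℕ) (c : Fin n → ι × Th) (ω : (Fin n → B) → D → ℂ) : Prop where
  bal : ∀ x y, g x = g y → slot x (mC T) ω = slot y (mC T) ω
  alt : ∀ x y, x ≠ y → g x = g y → ∀ J, ω (fun j => J (Equiv.swap x y j)) = - ω J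
  blk : ∀ x J, κ (J x) ≠ (c x).1 → ω J = 0
  ord : ∀ x, slot x (mC (Polynomial.aeval T (Polynomial.cyclotomic
    (orderOf ((c x).2.1 : ℂ)) ℚ))) ω = 0
  kill : ∀ a ∈ 𝔪, act (mC a.1, mC a.2) ω = 0
  mul : ∀ (e : Fin n → ℕ) (J : Fin n → B) (l : D),
    ∑ I : Fin n → B, ω I l * ∏ x, mC (T ^ e x) (I x) (J x) =
      (∏ x, ((c x).2.1 : ℂ) ^ e x) * ω J l

/-- rational determinantal tensors killed by the Lie algebra -/
structure QDet (κ : B → ι) (T : Matrix B B ℚ) (𝔪 : Submodule ℚ (Matrix B B ℚ × Matrix D D ℚ))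
    (g : Fin n → ℕ) (c : Fin n → ι × Th) (ω : (Fin n → B) → D → ℚ) : Prop where
  bal : ∀ x y, g x = g y → slot x T ω = slot y T ω
  alt : ∀ x y, x ≠ y → g x = g y → ∀ J, ω (fun j => J (Equiv.swap x y j)) = - ω J
  blk : ∀ x J, κ (J x) ≠ (c x).1 → ω J = 0
  ord : ∀ x, slot x (Polynomial.aeval T (Polynomial.cyclotomic
    (orderOf ((c x).2.1 : ℂ)) ℚ)) ω = 0
  kill : ∀ a ∈ 𝔪, act a ω = 0
  typ : ∀ (e : Fin n → ℕ) (R : Polynomial ℚ),
    Polynomial.aeval (∏ x, ((c x).2.1 : ℂ) ^ e x) R = 0 →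
    ∀ (v : Fin n → B → ℂ) (θ : Fin n → ℂ) (l : D), (∀ x, mC T *ᵥ v x = θ x • v x) →
      ∑ J : Fin n → B, (ω J l : ℂ) * ∏ x, v x (J x) ≠ 0 →
      Polynomial.aeval (∏ x, θ x ^ e x) R = 0

/-- the value of the tensor at the images of eigenvectors -/
theorem ev_pow {T : Matrix B B ℂ} {v : Fin n → B → ℂ} {θ : Fin n → ℂ}
    (hv : ∀ x, T *ᵥ v x = θ x • v x) (e : Fin n → ℕ) (F : (Fin n → B) → ℂ) :
    ∑ J : Fin n → B, (∑ I : Fin n → B, F I * ∏ x, (T ^ e x) (I x) (J x)) * ∏ x, v x (J x) =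
      (∏ x, θ x ^ e x) * ∑ J : Fin n → B, F J * ∏ x, v x (J x) := by
  have h1 : ∀ I : Fin n → B, ∑ J : Fin n → B, (∏ x, (T ^ e x) (I x) (J x)) * ∏ x, v x (J x) =
      (∏ x, θ x ^ e x) * ∏ x, v x (I x) := by
    intro I
    have h2 : ∀ J : Fin n → B, (∏ x, (T ^ e x) (I x) (J x)) * ∏ x, v x (J x) =
        ∏ x, ((T ^ e x) (I x) (J x) * v x (J x)) := fun J => (Finset.prod_mul_distrib).symm
    simp only [h2]
    have h3 := Finset.prod_univ_sum (fun _ : Fin n => (univ : Finset B))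
      (fun x b => (T ^ e x) (I x) b * v x b)
    rw [Fintype.piFinset_univ] at h3
    rw [← h3, ← Finset.prod_mul_distrib]
    refine Finset.prod_congr rfl fun x _ => ?_
    have h4 := congrFun (pow_eig (hv x) (e x)) (I x)
    rw [Pi.smul_apply, smul_eq_mul] at h4
    exact h4
  simp only [Finset.sum_mul]
  rw [Finset.sum_comm, Finset.mul_sum]
  refine Finset.sum_congr rfl fun I _ => ?_
  have h5 : ∀ J : Fin n → B, F I * (∏ x, (T ^ e x) (I x) (J x)) * ∏ x, v x (J x) =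
      F I * ((∏ x, (T ^ e x) (I x) (J x)) * ∏ x, v x (J x)) := fun J => mul_assoc _ _ _
  simp only [h5]
  rw [← Finset.mul_sum, h1]
  ring

theorem slot_tau (τ : ℂ →ₗ[ℚ] ℚ) (x : Fin n) (N : Matrix B B ℚ) (ω : (Fin n → B) → D → ℂ)
    (J : Fin n → B) (l : D) :
    slot x N (fun J l => τ (ω J l)) J l = τ (slot x (mC N) ω J l) := by
  show ∑ p, N p (J x) * τ (ω (update J x p) l) = τ (∑ p, mC N p (J x) * ω (update J x p) l)
  rw [map_sum]
  refine Finset.sum_congr rfl fun p _ => ?_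
  rw [mC, Matrix.map_apply, lin_mul]

theorem act_taur (τ : ℂ →ₗ[ℚ] ℚ) (a : Matrix B B ℚ × Matrix D D ℚ) (ω : (Fin n → B) → D → ℂ)
    (J : Fin n → B) (l : D) :
    act a (fun J l => τ (ω J l)) J l = τ (act (mC a.1, mC a.2) ω J l) := by
  rw [act_apply, act_apply, map_add, map_sum, map_sum]
  congr 1
  · refine Finset.sum_congr rfl fun j _ => ?_
    rw [map_sum]
    refine Finset.sum_congr rfl fun p _ => ?_
    exact (lin_mul τ (a.1 p (J j)) _).symm
  · refine Finset.sum_congr rfl fun p _ => ?_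
    exact (lin_mul τ (a.2 p l) _).symm

theorem CDet.tau {κ : B → ι} {T : Matrix B B ℚ} {𝔪 : Submodule ℚ (Matrix B B ℚ × Matrix D D ℚ)}
    {g : Fin n → ℕ} {c : Fin n → ι × Th} {ω : (Fin n → B) → D → ℂ}
    (h : CDet κ T 𝔪 g c ω) (τ : ℂ →ₗ[ℚ] ℚ) :
    QDet κ T 𝔪 g c (fun J l => τ (ω J l)) where
  bal x y hxy := by
    funext J l
    rw [slot_tau, slot_tau, h.bal x y hxy]
  alt x y hne hxy J := by
    funext l
    show τ (ω (fun j => J (Equiv.swap x y j)) l) = - τ (ω J l)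
    rw [h.alt x y hne hxy J, ← map_neg]
    rfl
  blk x J hJ := by
    funext l
    show τ (ω J l) = 0
    rw [h.blk x J hJ]
    exact map_zero τ
  ord x := by
    funext J l
    rw [slot_tau, h.ord x]
    exact map_zero τ
  kill a ha := by
    funext J l
    rw [act_taur, h.kill a ha]
    exact map_zero τ
  typ e R hR v θ l hv hne := by
    classical
    set z : ℂ := ∏ x, ((c x).2.1 : ℂ) ^ e x with hz
    set S : ℂ := ∑ J : Fin n → B, ((τ (ω J l) : ℚ) : ℂ) * ∏ x, v x (J x) with hS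
    -- powers
    have key : ∀ j : ℕ, (∏ x, θ x ^ e x) ^ j * S =
        ∑ J : Fin n → B, ((τ (z ^ j * ω J l) : ℚ) : ℂ) * ∏ x, v x (J x) := by
      intro j
      have h1 := ev_pow hv (fun x => e x * j) (fun J => ((τ (ω J l) : ℚ) : ℂ))
      have h2 : ∏ x, θ x ^ (e x * j) = (∏ x, θ x ^ e x) ^ j := by
        rw [← Finset.prod_pow]
        exact Finset.prod_congr rfl fun x _ => pow_mul _ _ _
      rw [h2] at h1
      rw [hS, ← h1]
      refine Finset.sum_congr rfl fun J _ => ?_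
      congr 1
      have h3 := h.mul (fun x => e x * j) J l
      have h4 : ∏ x, ((c x).2.1 : ℂ) ^ (e x * j) = z ^ j := by
        rw [hz, ← Finset.prod_pow]
        exact Finset.prod_congr rfl fun x _ => pow_mul _ _ _
      rw [h4] at h3
      rw [← h3, map_sum]
      push_cast
      refine Finset.sum_congr rfl fun I _ => ?_
      have h5 : ∏ x, mC (T ^ (e x * j)) (I x) (J x) =
          ((∏ x, (T ^ (e x * j)) (I x) (J x) : ℚ) : ℂ) := by
        push_cast
        rfl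
      have h6 : ∏ x, (mC T ^ (e x * j)) (I x) (J x) =
          ((∏ x, (T ^ (e x * j)) (I x) (J x) : ℚ) : ℂ) := by
        push_cast
        refine Finset.prod_congr rfl fun x _ => ?_
        rw [← mC_pow]
        rfl
      rw [h5, h6, mul_comm (ω I l), lin_mul]
      push_cast
      ring
    have h1 : Polynomial.aeval (∏ x, θ x ^ e x) R * S = 0 := by
      rw [Polynomial.aeval_eq_sum_range, Finset.sum_mul]
      have h2 : ∀ j ∈ range (R.natDegree + 1), R.coeff j • (∏ x, θ x ^ e x) ^ j * S =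
          ∑ J : Fin n → B, ((τ (R.coeff j • z ^ j * ω J l) : ℚ) : ℂ) * ∏ x, v x (J x) := by
        intro j _
        rw [smul_mul_assoc, key j, Finset.smul_sum]
        refine Finset.sum_congr rfl fun J _ => ?_
        rw [smul_mul_assoc, map_smul, Rat.smul_def, smul_eq_mul]
        push_cast
        ring
      rw [Finset.sum_congr rfl h2, Finset.sum_comm]
      refine Finset.sum_eq_zero fun J _ => ?_
      rw [← Finset.sum_mul, ← Rat.cast_sum, ← map_sum, ← Finset.sum_mul,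
        ← Polynomial.aeval_eq_sum_range, hR, zero_mul, map_zero]
      simp
    exact (mul_eq_zero.1 h1).resolve_right hne

/-- the product of forms `Q_i (v, T ^ a w)` -/
def pr (κ : B → ι) (Q T : Matrix B B ℚ) {m n : ℕ} (e : (Fin m × Fin 2) ⊕ Fin n ≃ Fin k)
    (c : Fin m → ι) (a : Fin m → ℕ) (J : Fin k → B) : ℚ :=
  ∏ t, block κ (Q * T ^ a t) (c t) (J (e (.inl (t, 0)))) (J (e (.inl (t, 1))))

/-- the complex span -/
def TC (κ : B → ι) (Q T : Matrix B B ℚ) (𝔪 : Submodule ℚ (Matrix B B ℚ × Matrix D D ℚ))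
    (κ' : B → ι × Th) (Ψ : (ι × Th → ℚ) → Prop) (k : ℕ) :
    Submodule ℂ ((Fin k → B) → D → ℂ) :=
  Submodule.span ℂ {F | ∃ (m n : ℕ) (e : (Fin m × Fin 2) ⊕ Fin n ≃ Fin k) (c : Fin m → ι)
    (a : Fin m → ℕ) (g : Fin n → ℕ) (c' : Fin n → ι × Th) (ω : (Fin n → B) → D → ℂ),
    DatG κ' Ψ g c' ∧ CDet κ T 𝔪 g c' ω ∧
    F = fun J l => ((pr κ Q T e c a J : ℚ) : ℂ) * ω (fun j => J (e (.inr j))) l}

/-- the rational span -/
def TQ (κ : B → ι) (Q T : Matrix B B ℚ) (𝔪 : Submodule ℚ (Matrix B B ℚ × Matrix D D ℚ))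
    (κ' : B → ι × Th) (Ψ : (ι × Th → ℚ) → Prop) (k : ℕ) :
    Submodule ℚ ((Fin k → B) → D → ℚ) :=
  Submodule.span ℚ {F | ∃ (m n : ℕ) (e : (Fin m × Fin 2) ⊕ Fin n ≃ Fin k) (c : Fin m → ι)
    (a : Fin m → ℕ) (g : Fin n → ℕ) (c' : Fin n → ι × Th) (ω : (Fin n → B) → D → ℚ),
    DatG κ' Ψ g c' ∧ QDet κ T 𝔪 g c' ω ∧
    F = fun J l => pr κ Q T e c a J * ω (fun j => J (e (.inr j))) l}

theorem descT {κ : B → ι} {Q T : Matrix B B ℚ} {𝔪 : Submodule ℚ (Matrix B B ℚ × Matrix D D ℚ)}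
    {κ' : B → ι × Th} {Ψ : (ι × Th → ℚ) → Prop} {f : (Fin k → B) → D → ℚ}
    (hf : cx f ∈ TC κ Q T 𝔪 κ' Ψ k) : f ∈ TQ κ Q T 𝔪 κ' Ψ k := by
  have key : ∀ G ∈ TC κ Q T 𝔪 κ' Ψ k, ∀ τ : ℂ →ₗ[ℚ] ℚ,
      (fun J l => τ (G J l)) ∈ TQ κ Q T 𝔪 κ' Ψ k := by
    intro G hG
    unfold TC at hG
    induction hG using Submodule.span_induction with
    | mem G hG =>
      obtain ⟨m, n, e, c, a, g, c', ω, hd, hω, rfl⟩ := hG
      intro τ
      refine Submodule.subset_span ⟨m, n, e, c, a, g, c', _, hd, hω.tau τ, ?_⟩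
      funext J l
      rw [lin_mul]
    | zero =>
      intro τ
      have : (fun J l => τ ((0 : (Fin k → B) → D → ℂ) J l)) = 0 := by
        funext J l
        simp
      rw [this]
      exact Submodule.zero_mem _
    | add G G' _ _ h h' =>
      intro τ
      have : (fun J l => τ ((G + G') J l)) = (fun J l => τ (G J l)) + fun J l => τ (G' J l) := by
        funext J l
        simp
      rw [this]
      exact Submodule.add_mem _ (h τ) (h' τ)
    | smul c G _ h =>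
      intro τ
      exact h (τ ∘ₗ (LinearMap.mulLeft ℚ c))
  obtain ⟨τ, hτ⟩ : ∃ τ : ℂ →ₗ[ℚ] ℚ, τ 1 = 1 := by
    obtain ⟨g, hg⟩ := LinearMap.exists_leftInverse_of_injective
      (LinearMap.toSpanSingleton ℚ ℂ 1) (by
        rw [LinearMap.ker_toSpanSingleton]
        exact one_ne_zero)
    refine ⟨g, ?_⟩
    have := LinearMap.congr_fun hg 1
    simpa using this
  have h1 := key _ hf τ
  have h2 : (fun J l => τ (cx f J l)) = f := by
    funext J l
    show τ ((f J l : ℚ) : ℂ) = f J l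
    have h3 := lin_mul τ (f J l) 1
    rw [mul_one, hτ, mul_one] at h3
    exact h3
  rwa [h2] at h1

/-- the tensors of the rational span are combinations of the products of the theorem -/
theorem TQ_le {E : Type} {U : Set E} {x : E → Matrix B B ℂ} {y : E → Matrix D D ℂ}
    {u : E} (hu : u ∈ U) {κ : B → ι} {Q T : Matrix B B ℚ} {d : ℕ} {P : Matrix B B ℂ}
    {κ' : B → ι × Th} (hE : EB κ T d P κ') {Ψ : (ι × Th → ℚ) → Prop} :
    TQ κ Q T (mm U x y) κ' Ψ k ≤ Submodule.span ℚ (productsDet κ Q T (x u) (y u) k) := by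
  unfold TQ
  rw [Submodule.span_le]
  rintro F ⟨m, n, e, c, a, g, c', ω, hd, hω, rfl⟩
  refine Submodule.subset_span ⟨m, n, e, c, a, ω, ⟨g, fun x => (c' x).1,
    fun x => orderOf ((c' x).2.1 : ℂ), ?_, ?_⟩, hodge_of_kill hu hω.kill, rfl⟩
  · intro p q hpq
    have := hd.1 p q hpq
    refine ⟨congrArg Prod.fst this, congrArg (fun p : ι × Th => orderOf (p.2.1 : ℂ)) this,
      hω.bal p q hpq, fun hne J => hω.alt p q hne hpq J⟩
  · intro p
    refine ⟨hω.blk p, hω.ord p, ((c' p).2.1 : ℂ), IsPrimitiveRoot.orderOf _, ?_⟩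
    rw [hd.2.1 p]
    exact (hE.finrank (c' p)).symm

section eb
variable {κ : B → ι} {Q T : Matrix B B ℚ} {d : ℕ} {sg : ι → ℚ}
  {𝔪 : Submodule ℚ (Matrix B B ℚ × Matrix D D ℚ)}
  (h : Glob κ Q T d sg 𝔪) {P : Matrix B B ℂ} {κ' : B → ι × Th} (hE : EB κ T d P κ')

include hE in
theorem EB.cdet (hd : 0 < d) {Φ : ι × Th → Prop} {c : Fin n → ι × Th} {g : Fin n → ℕ}
    {w : (Fin n → B) → D → ℂ}
    (hw : DT κ' Φ c g w) (hk : ∀ a ∈ 𝔪, act (P⁻¹ * mC a.1 * P, mC a.2) w = 0) :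
    CDet κ T 𝔪 g c (pul P⁻¹ (1 : Matrix D D ℂ) w) := by
  classical
  have hPP : P * P⁻¹ = 1 := mul_nonsing_inv _ hE.det
  have hT : ∀ x : Fin n, slot x (mC T) (pul P⁻¹ (1 : Matrix D D ℂ) w) =
      ((c x).2.1 : ℂ) • pul P⁻¹ (1 : Matrix D D ℂ) w := by
    intro x
    have h1 := hE.slot_tp Polynomial.X hw.sup x
    rw [tp_X, Polynomial.aeval_X] at h1
    exact h1
  have hne : ∀ x, ∃ b, κ' b = c x := by
    intro x
    have h1 : 0 < (blk κ' (c x)).card := by
      rw [← hw.card x]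
      exact Finset.card_pos.2 ⟨x, Finset.mem_filter.2 ⟨Finset.mem_univ _, rfl⟩⟩
    obtain ⟨b, hb⟩ := Finset.card_pos.1 h1
    exact ⟨b, mem_blk.1 hb⟩
  refine ⟨?_, ?_, ?_, ?_, ?_, ?_⟩
  · intro x y hxy
    rw [hT, hT, hw.col x y hxy]
  · intro x y hne' hxy J
    funext l
    show ∑ I : Fin n → B, ∑ m, w I m * (∏ j, P⁻¹ (I j) (J (Equiv.swap x y j))) *
      (1 : Matrix D D ℂ) m l = - ∑ I : Fin n → B, ∑ m, w I m * (∏ j, P⁻¹ (I j) (J j)) *
      (1 : Matrix D D ℂ) m l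
    rw [← Finset.sum_neg_distrib]
    refine Fintype.sum_equiv (Equiv.arrowCongr (Equiv.swap x y) (Equiv.refl B)) _ _ fun I => ?_
    have e1 : (Equiv.arrowCongr (Equiv.swap x y) (Equiv.refl B)) I =
        fun j => I (Equiv.swap x y j) := by
      funext j
      simp [Equiv.arrowCongr]
    rw [e1, ← Finset.sum_neg_distrib]
    refine Finset.sum_congr rfl fun m _ => ?_
    have e2 := congrFun (hw.alt x y hne' hxy I) m
    have e3 : ∏ j, P⁻¹ (I (Equiv.swap x y j)) (J j) =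
        ∏ j, P⁻¹ (I j) (J (Equiv.swap x y j)) := by
      rw [← Equiv.prod_comp (Equiv.swap x y)]
      refine Finset.prod_congr rfl fun j _ => ?_
      rw [Equiv.swap_apply_self]
    rw [e3, e2]
    simp only [Pi.neg_apply]
    ring
  · intro x J hJ
    funext l
    show ∑ I : Fin n → B, ∑ m, w I m * (∏ j, P⁻¹ (I j) (J j)) * (1 : Matrix D D ℂ) m l = 0
    refine Finset.sum_eq_zero fun I _ => Finset.sum_eq_zero fun m _ => ?_
    by_cases hI : ∀ j, κ' (I j) = c j
    · rw [Finset.prod_eq_zero (Finset.mem_univ x) (hE.inv_sup (I x) (J x) (by rw [hI x]; exact hJ))]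
      ring
    · rw [hw.sup I hI]
      simp
  · intro x
    have h1 := hE.slot_tp (Polynomial.cyclotomic (orderOf ((c x).2.1 : ℂ)) ℚ) hw.sup x
    refine h1.trans ?_
    have h2 : Polynomial.aeval ((c x).2.1 : ℂ)
        (Polynomial.cyclotomic (orderOf ((c x).2.1 : ℂ)) ℚ) = 0 := by
      obtain ⟨b, hb⟩ := hne x
      have hone : ((c x).2.1 : ℂ) ^ d = 1 := by
        rw [← hb]
        exact hE.one b
      have hpos : 0 < orderOf ((c x).2.1 : ℂ) :=
        orderOf_pos_iff.2 (isOfFinOrder_iff_pow_eq_one.2 ⟨d, hd, hone⟩)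
      have h3 := (IsPrimitiveRoot.orderOf ((c x).2.1 : ℂ)).isRoot_cyclotomic hpos
      rw [Polynomial.IsRoot.def, ← Polynomial.map_cyclotomic _ (algebraMap ℚ ℂ),
        Polynomial.eval_map_algebraMap] at h3
      exact h3
    rw [h2, zero_smul]
  · intro a ha
    have hX : P⁻¹ * mC a.1 * P * P⁻¹ = P⁻¹ * mC a.1 := by rw [mul_assoc, hPP, mul_one]
    rw [← pul_act hX (by rw [mul_one, one_mul] : mC a.2 * 1 = 1 * mC a.2), hk a ha]
    exact pul_zero _ _
  · intro e J l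
    have h0 : ∀ (J' : Fin n → B), pul P⁻¹ (1 : Matrix D D ℂ) w J' l =
        ∑ I : Fin n → B, w I l * ∏ j, P⁻¹ (I j) (J' j) := by
      intro J'
      unfold pul
      refine Finset.sum_congr rfl fun I _ => ?_
      rw [Finset.sum_eq_single l]
      · rw [one_apply_eq, mul_one]
      · intro m _ hm
        rw [one_apply_ne hm, mul_zero]
      · intro hl
        exact absurd (Finset.mem_univ _) hl
    have hPT : ∀ (b : B) (r : ℕ) (q : B), ∑ p, P⁻¹ b p * mC (T ^ r) p q =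
        ((κ' b).2.1 : ℂ) ^ r * P⁻¹ b q := by
      intro b r q
      have h1 : mC (T ^ r) * P = P * diagonal (fun b => ((κ' b).2.1 : ℂ) ^ r) := by
        ext p b'
        rw [mul_diagonal, mC_pow]
        have := congrFun (pow_eig (hE.eig b') r) p
        rw [Pi.smul_apply, smul_eq_mul, mul_comm] at this
        exact this
      have h2 : P⁻¹ * mC (T ^ r) = diagonal (fun b => ((κ' b).2.1 : ℂ) ^ r) * P⁻¹ := by
        calc P⁻¹ * mC (T ^ r) = P⁻¹ * (mC (T ^ r) * P) * P⁻¹ := by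
              rw [mul_assoc, mul_assoc, hPP, mul_one]
          _ = _ := by
              rw [h1, ← mul_assoc P⁻¹ P, nonsing_inv_mul _ hE.det, one_mul]
      have h3 := congrFun (congrFun h2 b) q
      rw [diagonal_mul] at h3
      exact h3
    rw [h0, Finset.mul_sum]
    have h1 : ∀ I : Fin n → B, pul P⁻¹ (1 : Matrix D D ℂ) w I l *
        ∏ x, mC (T ^ e x) (I x) (J x) =
        ∑ I' : Fin n → B, w I' l * ∏ x, (P⁻¹ (I' x) (I x) * mC (T ^ e x) (I x) (J x)) := by
      intro I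
      rw [h0, Finset.sum_mul]
      refine Finset.sum_congr rfl fun I' _ => ?_
      rw [Finset.prod_mul_distrib]
      ring
    simp only [h1]
    rw [Finset.sum_comm]
    refine Finset.sum_congr rfl fun I' _ => ?_
    rw [← Finset.mul_sum]
    have h3 := Finset.prod_univ_sum (fun _ : Fin n => (univ : Finset B))
      (fun x p => P⁻¹ (I' x) p * mC (T ^ e x) p (J x))
    rw [Fintype.piFinset_univ] at h3
    rw [← h3]
    simp only [hPT]
    rw [Finset.prod_mul_distrib]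
    by_cases hI : ∀ j, κ' (I' j) = c j
    · simp only [hI]
      ring
    · have : w I' l = 0 := by
        rw [hw.sup I' hI]
        rfl
      rw [this]
      ring

/-- the pull-back of a product -/
theorem pul_genW {Q' : Matrix B B ℂ} {c : Fin k → ι × Th} {m n : ℕ}
    (e : (Fin m × Fin 2) ⊕ Fin n ≃ Fin k) {w : (Fin n → B) → D → ℂ}
    (hw : Sup κ' (fun x => c (e (.inr x))) w) (J : Fin k → B) (l : D) :
    pul P⁻¹ 1 (genW κ' Q' c e w) J l =
      (∏ t, mat κ' P Q' (c (e (.inl (t, 0)))) (c (e (.inl (t, 1)))) (J (e (.inl (t, 0))))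
        (J (e (.inl (t, 1))))) * pul P⁻¹ (1 : Matrix D D ℂ) w (fun j => J (e (.inr j))) l := by
  classical
  have h0 : ∀ (N : ℕ) (F : (Fin N → B) → D → ℂ) (J' : Fin N → B), pul P⁻¹ 1 F J' l =
      ∑ I : Fin N → B, F I l * ∏ j, P⁻¹ (I j) (J' j) := by
    intro N F J'
    unfold pul
    refine Finset.sum_congr rfl fun I _ => ?_
    rw [Finset.sum_eq_single l]
    · rw [one_apply_eq, mul_one]
    · intro m _ hm
      rw [one_apply_ne hm, mul_zero]
    · intro hl
      exact absurd (Finset.mem_univ _) hl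
  rw [h0, h0]
  let φ : Fin m → B → B → ℂ := fun t p q =>
    if κ' p = c (e (.inl (t, 0))) ∧ κ' q = c (e (.inl (t, 1))) then
      P⁻¹ p (J (e (.inl (t, 0)))) * Q' p q * P⁻¹ q (J (e (.inl (t, 1)))) else 0
  have h2 : ∀ I : Fin k → B, genW κ' Q' c e w I l * ∏ j, P⁻¹ (I j) (J j) =
      (∏ t, φ t (I (e (.inl (t, 0)))) (I (e (.inl (t, 1))))) *
        (w (fun j => I (e (.inr j))) l * ∏ j, P⁻¹ (I (e (.inr j))) (J (e (.inr j)))) := by
    intro I
    have h3 : ∏ j, P⁻¹ (I j) (J j) = (∏ t : Fin m, (P⁻¹ (I (e (.inl (t, 0)))) (J (e (.inl (t, 0)))) *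
        P⁻¹ (I (e (.inl (t, 1)))) (J (e (.inl (t, 1)))))) *
        ∏ j, P⁻¹ (I (e (.inr j))) (J (e (.inr j))) := by
      rw [← Equiv.prod_comp e, Fintype.prod_sum_type, Fintype.prod_prod_type]
      congr 1
      exact Finset.prod_congr rfl fun t _ => by rw [Fin.prod_univ_two]
    unfold genW
    by_cases hI : ∀ j, κ' (I j) = c j
    · rw [if_pos hI, h3]
      show (∏ t, Q' (I (e (.inl (t, 0)))) (I (e (.inl (t, 1))))) * w _ l * _ = _
      have h4 : ∏ t, φ t (I (e (.inl (t, 0)))) (I (e (.inl (t, 1)))) =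
          (∏ t, Q' (I (e (.inl (t, 0)))) (I (e (.inl (t, 1))))) *
          ∏ t : Fin m, (P⁻¹ (I (e (.inl (t, 0)))) (J (e (.inl (t, 0)))) *
            P⁻¹ (I (e (.inl (t, 1)))) (J (e (.inl (t, 1))))) := by
        rw [← Finset.prod_mul_distrib]
        refine Finset.prod_congr rfl fun t _ => ?_
        show (if _ then _ else _) = _
        rw [if_pos ⟨hI _, hI _⟩]
        ring
      rw [h4]
      ring
    · rw [if_neg hI]
      push Not at hI
      obtain ⟨j, hj⟩ := hI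
      obtain ⟨(⟨t, τ⟩ | x), rfl⟩ := e.surjective j
      · rw [Finset.prod_eq_zero (Finset.mem_univ t), zero_mul]
        · simp
        · show (if _ then _ else _) = _
          rw [if_neg]
          rintro ⟨h4, h5⟩
          fin_cases τ
          · exact hj h4
          · exact hj h5
      · have h5 : w (fun j => I (e (.inr j))) = 0 := hw _ (fun h => hj (h x))
        rw [h5]
        simp
  simp only [h2]
  -- reindexing
  have h3 : ∑ I : Fin k → B, (∏ t, φ t (I (e (.inl (t, 0)))) (I (e (.inl (t, 1))))) *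
        (w (fun j => I (e (.inr j))) l * ∏ j, P⁻¹ (I (e (.inr j))) (J (e (.inr j)))) =
      ∑ I : (Fin m → Fin 2 → B) × (Fin n → B), (∏ t, φ t (I.1 t 0) (I.1 t 1)) *
        (w I.2 l * ∏ j, P⁻¹ (I.2 j) (J (e (.inr j)))) := by
    let E : (Fin k → B) ≃ (Fin m → Fin 2 → B) × (Fin n → B) :=
      (Equiv.arrowCongr e.symm (Equiv.refl B)).trans ((Equiv.sumArrowEquivProdArrow _ _ _).trans
        (Equiv.prodCongr (Equiv.curry (Fin m) (Fin 2) B) (Equiv.refl _)))
    refine Fintype.sum_equiv E _ _ fun I => ?_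
    rfl
  rw [h3, Fintype.sum_prod_type]
  simp only [← Finset.mul_sum]
  rw [← Finset.sum_mul]
  congr 1
  have h4 := Finset.prod_univ_sum (fun _ : Fin m => (univ : Finset (Fin 2 → B)))
    (fun t (g : Fin 2 → B) => φ t (g 0) (g 1))
  rw [Fintype.piFinset_univ] at h4
  rw [← h4]
  refine Finset.prod_congr rfl fun t _ => ?_
  rw [sum_fin2 (φ t)]
  unfold mat
  show ∑ p : B, ∑ q : B, (if κ' p = c (e (.inl (t, 0))) ∧ κ' q = c (e (.inl (t, 1))) then
      P⁻¹ p (J (e (.inl (t, 0)))) * Q' p q * P⁻¹ q (J (e (.inl (t, 1)))) else 0) = _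
  unfold blk
  rw [Finset.sum_filter]
  refine Finset.sum_congr rfl fun p _ => ?_
  by_cases hp : κ' p = c (e (.inl (t, 0)))
  · rw [if_pos hp, Finset.sum_filter]
    refine Finset.sum_congr rfl fun q _ => ?_
    by_cases hq : κ' q = c (e (.inl (t, 1)))
    · rw [if_pos ⟨hp, hq⟩, if_pos hq]
    · rw [if_neg (fun h => hq h.2), if_neg hq]
  · rw [if_neg hp]
    refine Finset.sum_eq_zero fun q _ => ?_
    rw [if_neg (fun h => hp h.1)]

include h hE

theorem genW_TC {Φ : ι × Th → Prop} {Ψ : (ι × Th → ℚ) → Prop} {c : Fin k → ι × Th} {m n : ℕ}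
    (e : (Fin m × Fin 2) ⊕ Fin n ≃ Fin k)
    {g : Fin n → ℕ} {w : (Fin n → B) → D → ℂ} (hw : DT κ' Φ (fun x => c (e (.inr x))) g w)
    (hg : DatG κ' Ψ g (fun x => c (e (.inr x))))
    (hk : ∀ a ∈ 𝔪, act (P⁻¹ * mC a.1 * P, mC a.2) w = 0) :
    pul P⁻¹ 1 (genW κ' (Pᵀ * mC Q * P) c e w) ∈ TC κ Q T 𝔪 κ' Ψ k := by
  classical
  have hco := fun t : Fin m => mat_eq h hE (c (e (.inl (t, 0)))) (c (e (.inl (t, 1))))
  choose co hco using hco
  have hω := hE.cdet (𝔪 := 𝔪) h.dpos hw hk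
  have h1 : pul P⁻¹ 1 (genW κ' (Pᵀ * mC Q * P) c e w) =
      ∑ y : Fin m → Fin d, (∏ t, co t (y t)) • fun J l =>
        ((pr κ Q T e (fun t => (c (e (.inl (t, 0)))).1) (fun t => (d - 1) * (y t : ℕ)) J : ℚ) : ℂ) *
          pul P⁻¹ (1 : Matrix D D ℂ) w (fun j => J (e (.inr j))) l := by
    funext J l
    rw [pul_genW e hw.sup, Finset.sum_apply, Finset.sum_apply]
    have h2 : ∏ t, mat κ' P (Pᵀ * mC Q * P) (c (e (.inl (t, 0)))) (c (e (.inl (t, 1))))
        (J (e (.inl (t, 0)))) (J (e (.inl (t, 1)))) = ∑ y : Fin m → Fin d, ∏ t, (co t (y t) *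
        ((block κ (Q * T ^ ((d - 1) * (y t : ℕ))) (c (e (.inl (t, 0)))).1 (J (e (.inl (t, 0))))
          (J (e (.inl (t, 1)))) : ℚ) : ℂ)) := by
      simp only [hco]
      rw [Finset.prod_univ_sum, Fintype.piFinset_univ]
    rw [h2, Finset.sum_mul]
    refine Finset.sum_congr rfl fun y _ => ?_
    rw [Finset.prod_mul_distrib]
    show _ = (∏ t, co t (y t)) * _
    unfold pr
    push_cast
    ring
  rw [h1]
  exact Submodule.sum_mem _ fun y _ => Submodule.smul_mem _ _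
    (Submodule.subset_span ⟨m, n, e, _, _, g, _, _, hg, hω, rfl⟩)

/-- **Tensors killed by the Lie algebra.** -/
theorem mem_TQ {f : (Fin k → B) → D → ℚ} (hf : ∀ a ∈ 𝔪, act a f = 0)
    {Ψ : (ι × Th → ℚ) → Prop}
    (hΨ : ∀ c : Fin k → ι × Th, prt κ' c (pul P 1 (cx f)) ≠ 0 → Ψ (wt κ' sig c)) :
    f ∈ TQ κ Q T 𝔪 κ' Ψ k := by
  classical
  apply descT
  have hPP : P * P⁻¹ = 1 := mul_nonsing_inv _ hE.det
  have h1 : cx f = pul P⁻¹ 1 (pul P 1 (cx f)) := by
    rw [pul_pul, hPP, mul_one, pul_one]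
  have hpadd : ∀ F G : (Fin k → B) → D → ℂ,
      pul P⁻¹ (1 : Matrix D D ℂ) (F + G) = pul P⁻¹ 1 F + pul P⁻¹ 1 G := by
    intro F G
    funext J l
    simp [pul, add_mul, Finset.sum_add_distrib]
  let pl : ((Fin k → B) → D → ℂ) →ₗ[ℂ] ((Fin k → B) → D → ℂ) :=
    { toFun := pul P⁻¹ 1
      map_add' := hpadd
      map_smul' := fun r F => pul_smul _ _ r F }
  have hpl : ∀ F, pul P⁻¹ 1 F = pl F := fun _ => rfl
  rw [h1, sum_prt (κ := κ') (pul P 1 (cx f)), hpl, map_sum]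
  refine Submodule.sum_mem _ fun c _ => ?_
  rw [← hpl]
  have hdat := h.dat hE
  set t := wt κ' sig c with ht
  have hdat' : Dat κ' sig (Pᵀ * mC Q * P) (Pᵀ * mC Q * P)⁻¹
    (fun p => ((sg p.1 : ℚ) : ℂ)) t := ⟨hdat.ss, hdat.sσ, hdat.σσ, hdat.σne,
      wt_σ hdat c, hdat.Qb, hdat.Qs, hdat.QR⟩
  have hinv := invT_prt hdat (h.rel hE hf) c
  rw [← ht] at hinv
  have hsup := sup_prt (κ := κ') c (pul P 1 (cx f))
  set F := prt κ' c (pul P 1 (cx f)) with hF
  by_cases hF0 : F = 0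
  · rw [hF0, hpl, map_zero]
    exact Submodule.zero_mem _
  have hblk : ∀ p, (blk κ' p).card = 0 → (univ.filter fun j => c j = p).card = 0 := by
    intro p hp
    obtain ⟨J, hJ⟩ := Function.ne_iff.1 hF0
    have hJc : ∀ j, κ' (J j) = c j := by
      by_contra hJc
      exact hJ (hsup J hJc)
    rw [Finset.card_eq_zero, Finset.filter_eq_empty_iff]
    intro j _ hj
    rw [Finset.card_eq_zero] at hp
    have h3 : J j ∈ blk κ' p := mem_blk.2 ((hJc j).trans hj)
    rw [hp] at h3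
    exact absurd h3 (Finset.notMem_empty _)
  -- the operators of the Lie algebra
  have hXT : ∀ a ∈ 𝔪, mC a.1 * mC T = mC T * mC a.1 := fun a ha => by
    rw [← mC_mul, h.comm a ha, mC_mul]
  have hXb : ∀ a ∈ 𝔪, ∀ p q, κ p ≠ κ q → mC a.1 p q = 0 := fun a ha p q hpq => by
    rw [mC, Matrix.map_apply, h.lie.blk a ha p q hpq]
    exact Rat.cast_zero
  have hXs : ∀ a ∈ 𝔪, (mC a.1)ᵀ * mC Q + mC Q * mC a.1 = 0 := fun a ha => by
    have h3 := congrArg mC (h.lie.skew a ha)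
    have e1 : mC (a.1ᵀ * Q + Q * a.1) = (mC a.1)ᵀ * mC Q + mC Q * mC a.1 := by
      have : mC (a.1ᵀ * Q + Q * a.1) = mC (a.1ᵀ * Q) + mC (Q * a.1) := by
        ext p q
        simp [mC]
      rw [this, mC_mul, mC_mul]
      rfl
    rw [e1] at h3
    rw [h3]
    ext p q
    simp [mC]
  set χ : Matrix B B ℚ × Matrix D D ℚ → (ι × Th → ℚ) → ℂ := fun a t =>
    (2 : ℂ)⁻¹ * ∑ b, (t (κ' b) : ℂ) * (P⁻¹ * mC a.1 * P) b b with hχ
  have hskew : ∀ a ∈ 𝔪, ∀ {n : ℕ} {t : ι × Th → ℚ} {G : (Fin n → B) → D → ℂ},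
      Dat κ' sig (Pᵀ * mC Q * P) (Pᵀ * mC Q * P)⁻¹ (fun p => ((sg p.1 : ℚ) : ℂ)) t →
      InvT κ' sig (Pᵀ * mC Q * P) (fun p => ((sg p.1 : ℚ) : ℂ)) t G →
      act (P⁻¹ * mC a.1 * P, (0 : Matrix D D ℂ)) G = χ a t • G := by
    intro a ha n t G hdt hG
    exact act_skew hdt hG (conj_skew h hE (hXs a ha)) (conj_blk h hE (hXT a ha) (hXb a ha))
  have hsplit : ∀ (a : Matrix B B ℚ × Matrix D D ℚ) {n : ℕ} (G : (Fin n → B) → D → ℂ),
      act (P⁻¹ * mC a.1 * P, mC a.2) G = act (P⁻¹ * mC a.1 * P, (0 : Matrix D D ℂ)) G +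
        fun J => G J ᵥ* mC a.2 := by
    intro a n G
    have h2 : (P⁻¹ * mC a.1 * P, mC a.2) =
        (P⁻¹ * mC a.1 * P, (0 : Matrix D D ℂ)) + ((0 : Matrix B B ℂ), mC a.2) := by
      rw [Prod.mk_add_mk, add_zero, zero_add]
    rw [h2, act_add]
    congr 1
    funext J l
    rw [act_apply]
    simp only [Matrix.zero_apply, zero_mul, Finset.sum_const_zero, zero_add]
    show _ = ∑ m, G J m * _
    exact Finset.sum_congr rfl fun m _ => mul_comm _ _
  let MX : Submodule ℂ (D → ℂ) :=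
    { carrier := {v | ∀ a ∈ 𝔪, v ᵥ* mC a.2 = -χ a t • v}
      zero_mem' := fun a _ => by rw [zero_vecMul, smul_zero]
      add_mem' := fun {v w} hv hw a ha => by rw [add_vecMul, hv a ha, hw a ha, smul_add]
      smul_mem' := fun r {v} hv a ha => by rw [smul_vecMul, hv a ha, smul_comm] }
  have hval : ∀ J, F J ∈ MX := by
    intro J a ha
    have h2 : act (P⁻¹ * mC a.1 * P, mC a.2) F = 0 := by
      refine act_prt (conj_blk h hE (hXT a ha) (hXb a ha)) _ ?_ c
      have hXP : mC a.1 * P = P * (P⁻¹ * mC a.1 * P) := by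
        rw [← mul_assoc, ← mul_assoc, hPP, one_mul]
      rw [← pul_act hXP (by rw [mul_one, one_mul] : mC a.2 * 1 = 1 * mC a.2), act_mC2, hf a ha]
      have : cx (0 : (Fin k → B) → D → ℚ) = 0 := by
        funext J l
        simp [cx]
      rw [this]
      exact pul_zero P 1
    rw [hsplit, hskew a ha hdat' hinv] at h2
    have h3 := congrFun h2 J
    rw [Pi.add_apply, Pi.smul_apply, Pi.zero_apply] at h3
    rw [neg_smul]
    exact eq_neg_of_add_eq_zero_right h3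
  let F' : (Fin k → B) → MX := fun J => ⟨F J, hval J⟩
  have hsup' : Sup κ' c F' := by
    intro J hJ
    apply Subtype.ext
    exact hsup J hJ
  have hinv' : InvT κ' sig (Pᵀ * mC Q * P) (fun p => ((sg p.1 : ℚ) : ℂ)) t F' := by
    intro u v huv J
    apply Subtype.ext
    have := hinv u v huv J
    rw [Submodule.coe_sum]
    exact this
  have hmem := GW_le_GF (fftD (K := ℂ) (κ := κ') (σ := sig) (Q := Pᵀ * mC Q * P)
    (R := (Pᵀ * mC Q * P)⁻¹) (s := fun p => ((sg p.1 : ℚ) : ℂ)) (Φ := fun p => 1 ≤ t p)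
    _ (Fin k) c t F' rfl hdat' (by
      intro p
      rw [ht]
      unfold wt
      by_cases hb : ((blk κ' p).card : ℚ) = 0
      · rw [hb, mul_zero]
        have h3 : (blk κ' p).card = 0 := by exact_mod_cast hb
        have h4 : (blk κ' (sig p)).card = 0 := by rw [hdat.card_eq, h3]
        rw [hblk p h3, hblk (sig p) h4, sub_self]
      · field_simp) (fun _ h => h) hsup' hinv')
  have hback : ∀ G ∈ GF (K := ℂ) (M := MX) κ' sig (Pᵀ * mC Q * P) (fun p => 1 ≤ t p) c,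
      pul P⁻¹ 1 (fun J => (G J : D → ℂ)) ∈ TC κ Q T 𝔪 κ' Ψ k := by
    intro G hG
    unfold GF at hG
    induction hG using Submodule.span_induction with
    | mem G hG =>
      obtain ⟨m, n, e, g, w, hc, hw, rfl⟩ := hG
      have hw' : DT κ' (fun p => 1 ≤ t p) (fun x => c (e (.inr x))) g
          (fun J => (w J : D → ℂ)) := by
        refine ⟨?_, hw.col, ?_, hw.card, hw.pos⟩
        · intro J hJ
          exact congrArg Subtype.val (hw.sup J hJ)
        · intro x y hne hxy L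
          exact congrArg Subtype.val (hw.alt x y hne hxy L)
      have h2 : (fun J => ((genW κ' (Pᵀ * mC Q * P) c e w J : MX) : D → ℂ)) =
          genW κ' (Pᵀ * mC Q * P) c e (fun J => (w J : D → ℂ)) := by
        funext J
        unfold genW
        split_ifs
        · rfl
        · rfl
      rw [h2]
      have ht3 : wt κ' sig (fun x => c (e (.inr x))) = t := by
        funext p
        exact wt_rest hdat.σσ e hc p
      refine genW_TC h hE e hw' ⟨hw.col, hw.card, ?_, ?_⟩ ?_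
      · intro x
        rw [ht3]
        exact hw.pos x
      · rw [ht3]
        exact hΨ c hF0
      intro a ha
      have hdw : Dat κ' sig (Pᵀ * mC Q * P) (Pᵀ * mC Q * P)⁻¹
          (fun p => ((sg p.1 : ℚ) : ℂ)) (wt κ' sig (fun x => c (e (.inr x)))) :=
        ⟨hdat.ss, hdat.sσ, hdat.σσ, hdat.σne, wt_σ hdat _, hdat.Qb, hdat.Qs, hdat.QR⟩
      rw [hsplit, hskew a ha hdw (hw'.inv hdat)]
      have h3 : wt κ' sig (fun x => c (e (.inr x))) = t := by
        funext p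
        exact wt_rest hdat.σσ e hc p
      rw [h3]
      funext J
      rw [Pi.add_apply, Pi.smul_apply, (w J).2 a ha, Pi.zero_apply]
      rw [neg_smul, add_neg_cancel]
    | zero =>
      have : (fun J => (((0 : (Fin k → B) → MX) J : MX) : D → ℂ)) = 0 := by
        funext J
        rfl
      rw [this, hpl, map_zero]
      exact Submodule.zero_mem _
    | add G G' _ _ h1 h2 =>
      have : (fun J => (((G + G') J : MX) : D → ℂ)) =
          (fun J => (G J : D → ℂ)) + fun J => (G' J : D → ℂ) := by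
        funext J
        rfl
      rw [this, hpl, map_add]
      exact Submodule.add_mem _ h1 h2
    | smul r G _ h1 =>
      have : (fun J => (((r • G) J : MX) : D → ℂ)) = r • fun J => (G J : D → ℂ) := by
        funext J
        rfl
      rw [this, hpl, map_smul]
      exact Submodule.smul_mem _ _ h1
  exact hback F' hmem

end eb

end Pool.Agent.H842.CR
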