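import Pool.Agent.H842.CR.Wt

/-!
# The form in the eigenbasis
-/

set_option linter.unusedSectionVars false

open Matrix Finset Function

namespace Pool.Agent.H842.CR

open Pool.Agent.TH125.Nod

variable {B : Type} [Fintype B] [DecidableEq B] {D : Type} [Fintype D]
  [DecidableEq D] {ι : Type} [DecidableEq ι] {k : ℕ}

/-- The situation of an automorphism `T` and a Lie algebra with a complex reflection for each
block. -/
structure Glob (κ : B → ι) (Q T : Matrix B B ℚ) (d : ℕ) (sg : ι → ℚ)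
    (𝔪 : Submodule ℚ (Matrix B B ℚ × Matrix D D ℚ)) : Prop where
  lie : IsLie κ Q 𝔪
  comm : ∀ a ∈ 𝔪, a.1 * T = T * a.1
  dpos : 0 < d
  Td : T ^ d = 1
  iso : Tᵀ * Q * T = Q
  blkT : ∀ a b, κ a ≠ κ b → T a b = 0
  unit : IsUnit (T ^ 2 - 1).det
  sgsg : ∀ i, sg i * sg i = 1
  Qb : ∀ a b, κ a ≠ κ b → Q a b = 0
  Qs : ∀ a b, Q a b = sg (κ a) * Q b a
  Qdet : IsUnit Q.det
  loc : ∀ i, ∃ (δ : B → ℚ) (ε : ℚ) (γ : Matrix B B ℚ) (η : Matrix D D ℚ) (n : ℕ),
    Ctx κ Q T d i (sg i) δ ε γ η n 𝔪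

/-- non-real non-zero numbers -/
def Th : Type := {z : ℂ // z ≠ 0 ∧ z ^ 2 ≠ 1}

noncomputable instance : DecidableEq Th := Classical.decEq _

/-- the inverse -/
noncomputable def Th.inv (z : Th) : Th := ⟨z.1⁻¹, inv_ne_zero z.2.1, fun h => z.2.2 (by
  rw [inv_pow, inv_eq_one] at h
  exact h)⟩

theorem Th.inv_inv (z : Th) : z.inv.inv = z := Subtype.ext (_root_.inv_inv z.1)

theorem Th.inv_ne (z : Th) : z.inv ≠ z := by
  intro h
  have h1 : z.1⁻¹ = z.1 := congrArg Subtype.val h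
  apply z.2.2
  rw [pow_two]
  nth_rw 1 [← h1]
  exact inv_mul_cancel₀ z.2.1

/-- the involution of the blocks -/
noncomputable def sig (p : ι × Th) : ι × Th := (p.1, p.2.inv)

/-- a basis of eigenvectors -/
structure EB (κ : B → ι) (T : Matrix B B ℚ) (d : ℕ) (P : Matrix B B ℂ) (κ' : B → ι × Th) :
    Prop where
  det : IsUnit P.det
  sup : ∀ b a, κ a ≠ (κ' b).1 → P a b = 0
  eig : ∀ b, mC T *ᵥ P.col b = ((κ' b).2.1 : ℂ) • P.col b
  one : ∀ b, ((κ' b).2.1 : ℂ) ^ d = 1

variable {κ : B → ι} {Q T : Matrix B B ℚ} {d : ℕ} {sg : ι → ℚ}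
  {𝔪 : Submodule ℚ (Matrix B B ℚ × Matrix D D ℚ)}

theorem col_ne {P : Matrix B B ℂ} (hP : IsUnit P.det) (b : B) : P.col b ≠ 0 := by
  intro h
  have h1 : (P⁻¹ * P) b b = 0 := by
    rw [Matrix.mul_apply]
    refine Finset.sum_eq_zero fun q _ => ?_
    have h2 := congrFun h q
    change P q b = 0 at h2
    rw [h2, mul_zero]
  rw [nonsing_inv_mul _ hP, one_apply_eq] at h1
  exact one_ne_zero h1

theorem Glob.exists_EB (h : Glob κ Q T d sg 𝔪) : ∃ P κ', EB κ T d P κ' := by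
  have hTd : mC T ^ d = 1 := by rw [← mC_pow, h.Td, mC_one]
  obtain ⟨P, κ₁, θ, hP, hsup, heig⟩ := exists_eigenbasis (κ := κ) h.dpos hTd (by
    intro a b hab
    simp [mC, h.blkT a b hab])
  have hpow : ∀ b, θ b ^ d = 1 := by
    intro b
    have h1 := pow_eig (heig b) d
    rw [hTd, one_mulVec] at h1
    have h2 : (1 - θ b ^ d) • P.col b = 0 := by rw [sub_smul, one_smul, ← h1, sub_self]
    rcases smul_eq_zero.1 h2 with h3 | h3
    · exact (sub_eq_zero.1 h3).symm
    · exact absurd h3 (col_ne hP b)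
  have h0 : ∀ b, θ b ≠ 0 := by
    intro b h1
    have h2 := hpow b
    rw [h1, zero_pow (by have := h.dpos; omega)] at h2
    exact zero_ne_one h2
  have h2 : ∀ b, θ b ^ 2 ≠ 1 := by
    intro b h1
    have h3 := pow_eig (heig b) 2
    rw [h1, one_smul] at h3
    have h4 : mC (T ^ 2 - 1) *ᵥ P.col b = 0 := by
      have : mC (T ^ 2 - 1) = mC T ^ 2 - 1 := by
        have e : mC (T ^ 2 - 1) = mC (T ^ 2) - mC 1 := by
          ext p q
          simp only [mC, Matrix.map_apply, Matrix.sub_apply]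
          push_cast
          rfl
        rw [e, mC_pow, mC_one]
      rw [this, sub_mulVec, one_mulVec, h3, sub_self]
    have h5 := congrArg (fun w => mC (T ^ 2 - 1)⁻¹ *ᵥ w) h4
    simp only [mulVec_mulVec, mulVec_zero] at h5
    rw [← mC_mul, nonsing_inv_mul _ h.unit, mC_one, one_mulVec] at h5
    exact col_ne hP b h5
  exact ⟨P, fun b => (κ₁ b, ⟨θ b, h0 b, h2 b⟩), hP, hsup, heig, hpow⟩

theorem EE_col (P Q : Matrix B B ℂ) (u v : B) :
    EE Q (P.col u) (P.col v) * P = P * EE (Pᵀ * Q * P) (Pi.single u 1) (Pi.single v 1) := by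
  unfold EE
  rw [vecMulVec_mul, mul_vecMulVec, mulVec_single_one]
  congr 1
  rw [single_one_vecMul]
  funext q
  rw [vecMul_vecMul]
  show ∑ a, P a v * (Q * P) a q = (Pᵀ * Q * P) v q
  rw [mul_assoc, Matrix.mul_apply]
  rfl

theorem WW_col (P Q : Matrix B B ℂ) (s : ℂ) (u v : B) :
    WW Q s (P.col u) (P.col v) * P =
      P * WW (Pᵀ * Q * P) s (Pi.single u 1) (Pi.single v 1) := by
  unfold WW
  rw [sub_mul, mul_sub, smul_mul_assoc, mul_smul_comm, EE_col, EE_col]

theorem bQ_col (P Q : Matrix B B ℂ) (u v : B) :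
    bQ Q (P.col u) (P.col v) = (Pᵀ * Q * P) u v := by
  unfold bQ
  rw [mul_assoc, Matrix.mul_apply]
  rfl

theorem EE_single' (Q : Matrix B B ℂ) (u v p m : B) :
    EE Q (Pi.single u 1) (Pi.single v 1) p m = if p = u then Q v m else 0 := by
  unfold EE
  rw [vecMulVec_apply, single_one_vecMul]
  by_cases h : p = u
  · subst h
    rw [Pi.single_eq_same, if_pos rfl, one_mul]
    rfl
  · rw [Pi.single_eq_of_ne h, if_neg h, zero_mul]

/-- the action of the operators in coordinates -/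
theorem act_WW (Q : Matrix B B ℂ) (s : ℂ) (u v : B) (F : (Fin k → B) → D → ℂ) (J : Fin k → B) :
    act (WW Q s (Pi.single u 1) (Pi.single v 1), (0 : Matrix D D ℂ)) F J =
      ∑ j, (Q v (J j) • F (update J j u) - (s * Q u (J j)) • F (update J j v)) := by
  funext l
  rw [act_apply]
  simp only [Matrix.zero_apply, zero_mul, Finset.sum_const_zero, add_zero]
  rw [Finset.sum_apply]
  refine Finset.sum_congr rfl fun j _ => ?_
  simp only [WW, Matrix.sub_apply, Matrix.smul_apply, EE_single', smul_eq_mul, sub_mul,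
    Finset.sum_sub_distrib, ite_mul, zero_mul, mul_ite, mul_zero, Finset.sum_ite_eq',
    Finset.mem_univ, if_true, Pi.sub_apply, Pi.smul_apply]

theorem pul_smul (P : Matrix B B ℂ) (N : Matrix D D ℂ) (c : ℂ) (f : (Fin k → B) → D → ℂ) :
    pul P N (c • f) = c • pul P N f := by
  funext J l
  show ∑ I : Fin k → B, ∑ m, (c * f I m) * (∏ j, P (I j) (J j)) * N m l =
    c * ∑ I : Fin k → B, ∑ m, f I m * (∏ j, P (I j) (J j)) * N m l
  simp only [Finset.mul_sum, mul_assoc]

section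
variable (h : Glob κ Q T d sg 𝔪) {P : Matrix B B ℂ} {κ' : B → ι × Th} (hE : EB κ T d P κ')
include h hE

theorem Glob.colb (b : B) : InBlk κ (κ' b).1 (P.col b) := fun a ha => hE.sup b a ha

/-- the form in the eigenbasis -/
theorem Glob.dat : Dat κ' sig (Pᵀ * mC Q * P) (Pᵀ * mC Q * P)⁻¹
    (fun p => ((sg p.1 : ℚ) : ℂ)) (fun _ => 0) where
  ss := fun p => by
    have := h.sgsg p.1
    exact_mod_cast this
  sσ := fun p => rfl
  σσ := fun p => by
    unfold sig
    rw [Th.inv_inv]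
  σne := fun p hp => Th.inv_ne p.2 (congrArg Prod.snd hp)
  tσ := fun _ => by simp
  Qb := by
    intro a b hab
    rw [← bQ_col]
    by_cases h1 : (κ' a).1 = (κ' b).1
    · apply bQ_eig (cmC_iso h.iso) (hE.eig a) (hE.eig b)
      intro h2
      apply hab
      apply Prod.ext
      · exact h1.symm
      · apply Subtype.ext
        show (κ' b).2.1 = (κ' a).2.1⁻¹
        rw [eq_inv_of_mul_eq_one_right h2]
    · unfold bQ
      refine Finset.sum_eq_zero fun p _ => ?_
      show P p a * ∑ q, mC Q p q * P q b = 0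
      by_cases hp : κ p = (κ' a).1
      · rw [Finset.sum_eq_zero, mul_zero]
        intro q _
        by_cases hq : κ q = (κ' b).1
        · have : Q p q = 0 := h.Qb p q (by rw [hp, hq]; exact h1)
          simp [mC, this]
        · rw [hE.sup b q hq, mul_zero]
      · rw [hE.sup a p hp, zero_mul]
  Qs := by
    intro a b
    rw [← bQ_col, ← bQ_col]
    refine bQ_symm (κ := κ) (i := (κ' a).1) (mC Q) ?_ (h.colb hE a) _
    intro p q hp
    simp only [mC, Matrix.map_apply]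
    rw [h.Qs p q, hp]
    push_cast
    rfl
  QR := by
    apply mul_nonsing_inv
    rw [det_mul, det_mul, det_transpose]
    refine (hE.det.mul ?_).mul hE.det
    have : (mC Q).det = ((Q.det : ℚ) : ℂ) := by
      unfold mC
      exact (RingHom.map_det (Rat.castHom ℂ) Q).symm
    rw [this]
    exact h.Qdet.map (Rat.castHom ℂ)

/-- the relations in the eigenbasis -/
theorem Glob.rel {f : (Fin k → B) → D → ℚ} (hf : ∀ a ∈ 𝔪, act a f = 0) (p : ι × Th) :
    ∃ G : (Fin k → B) → D → ℂ, ∀ u v, κ' u = p → κ' v = sig p → ∀ J : Fin k → B,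
      ∑ j, ((Pᵀ * mC Q * P) v (J j) • pul P 1 (cx f) (update J j u) -
        (((sg p.1 : ℚ) : ℂ) * (Pᵀ * mC Q * P) u (J j)) • pul P 1 (cx f) (update J j v)) =
        (Pᵀ * mC Q * P) v u • G J := by
  by_cases hp : ∃ u, κ' u = p
  · obtain ⟨u0, hu0⟩ := hp
    have hone : (p.2.1 : ℂ) ^ d = 1 := by
      rw [← hu0]
      exact hE.one u0
    obtain ⟨δ, ε, γ, η, n, hC⟩ := h.loc p.1
    have hf1 : ∀ X ∈ K1 𝔪, act (X, (0 : Matrix D D ℚ)) f = 0 := fun X hX => hf _ (mem_K1.1 hX)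
    obtain ⟨G0, hG0⟩ := hC.ck3 hf1 hone
    refine ⟨pul P 1 (act (G0, (0 : Matrix D D ℂ)) (cx f)), ?_⟩
    intro u v hu hv J
    have h1 := hG0 (P.col u) (P.col v) (by have := h.colb hE u; rwa [hu] at this)
      (by have := h.colb hE v; rwa [hv] at this)
      (by have := hE.eig u; rwa [hu] at this)
      (by have := hE.eig v; rwa [hv] at this)
    have h2 : act (WW (mC Q) ((sg p.1 : ℚ) : ℂ) (P.col u) (P.col v), (0 : Matrix D D ℂ)) (cx f) =
        bQ (mC Q) (P.col v) (P.col u) • act (G0, (0 : Matrix D D ℂ)) (cx f) := by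
      have h3 : act (WW (mC Q) ((sg p.1 : ℚ) : ℂ) (P.col u) (P.col v) -
        bQ (mC Q) (P.col v) (P.col u) • G0, (0 : Matrix D D ℂ)) (cx f) = 0 := h1
      have h4 : (WW (mC Q) ((sg p.1 : ℚ) : ℂ) (P.col u) (P.col v), (0 : Matrix D D ℂ)) =
          (WW (mC Q) ((sg p.1 : ℚ) : ℂ) (P.col u) (P.col v) -
          bQ (mC Q) (P.col v) (P.col u) • G0, (0 : Matrix D D ℂ)) +
          bQ (mC Q) (P.col v) (P.col u) • (G0, (0 : Matrix D D ℂ)) := by
        rw [Prod.smul_mk, Prod.mk_add_mk, smul_zero, add_zero, sub_add_cancel]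
      rw [h4, act_add, h3, zero_add, act_smul]
    have h5 := congrArg (pul P (1 : Matrix D D ℂ)) h2
    rw [pul_act (WW_col P (mC Q) _ u v) (by rw [zero_mul, mul_zero] : (0 : Matrix D D ℂ) * 1 =
      1 * (0 : Matrix D D ℂ)), pul_smul, bQ_col] at h5
    rw [← act_WW, h5]
    rfl
  · exact ⟨0, fun u v hu => absurd ⟨u, hu⟩ hp⟩

/-- every part with small weights is a combination of products -/
theorem Glob.part_mem {f : (Fin k → B) → D → ℚ} (hf : ∀ a ∈ 𝔪, act a f = 0)
    (c : Fin k → ι × Th) (hc : ∀ p, wt κ' sig c p < 1) :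
    prt κ' c (pul P 1 (cx f)) ∈ Gen (M := D → ℂ) κ' (Pᵀ * mC Q * P) c :=
  prt_mem (h.dat hE) (h.rel hE hf) c hc

end

end Pool.Agent.H842.CR
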