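import Pool.Agent.H842.CR.Lie
import Pool.Graph.R_pool_sql_team_seeded_ab47071d.TH125.Nod.Ref

/-!
# Eigenvectors of the automorphism
-/

set_option linter.unusedSectionVars false

open Matrix Finset

namespace Pool.Agent.H842.CR

open Pool.Agent.TH125.Nod

variable {B : Type} [Fintype B] [DecidableEq B] {D : Type} [Fintype D]
  [DecidableEq D] {ι : Type} [DecidableEq ι]

/-- commuting endomorphisms of finite order have a spanning set of common eigenvectors -/
theorem diag_span {W : Type} [AddCommGroup W] [Module ℂ W] [FiniteDimensional ℂ W] {α : Type}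
    (f : α → Module.End ℂ W) (hc : ∀ i j, Commute (f i) (f j))
    (hf : ∀ i, ∃ n : ℕ, 1 ≤ n ∧ f i ^ n = 1) :
    Submodule.span ℂ {v | ∀ i, ∃ χ : ℂ, f i v = χ • v} = ⊤ := by
  classical
  have hss : ∀ i, (f i).IsSemisimple := by
    intro i
    obtain ⟨n, hn1, hn⟩ := hf i
    refine Module.End.isSemisimple_of_squarefree_aeval_eq_zero (p := Polynomial.X ^ n - 1) ?_ ?_
    · refine Polynomial.Separable.squarefree ?_
      rw [Polynomial.X_pow_sub_one_separable_iff]
      have : n ≠ 0 := by omega
      exact_mod_cast this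
    · rw [map_sub, map_pow, Polynomial.aeval_X, map_one, hn, sub_self]
  have h1 := Module.End.iSup_iInf_maxGenEigenspace_eq_top_of_iSup_maxGenEigenspace_eq_top_of_commute f
    (fun i j _ => hc i j) (fun i => Module.End.iSup_maxGenEigenspace_eq_top (f i))
  rw [eq_top_iff, ← h1]
  refine iSup_le fun χ => ?_
  intro v hv
  refine Submodule.subset_span fun i => ⟨χ i, ?_⟩
  rw [Submodule.mem_iInf] at hv
  have h2 := hv i
  rw [(hss i).isFinitelySemisimple.maxGenEigenspace_eq_eigenspace] at h2
  exact Module.End.mem_eigenspace_iff.1 h2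

/-- a basis of eigenvectors in the blocks -/
theorem exists_eigenbasis {κ : B → ι} {T : Matrix B B ℂ} {d : ℕ} (hd : 0 < d) (hT : T ^ d = 1)
    (hb : ∀ a b, κ a ≠ κ b → T a b = 0) :
    ∃ (P : Matrix B B ℂ) (κ₁ : B → ι) (θ : B → ℂ), IsUnit P.det ∧
      (∀ b a, κ a ≠ κ₁ b → P a b = 0) ∧ ∀ b, T *ᵥ P.col b = θ b • P.col b := by
  classical
  -- the operators
  let rf : ι → Matrix B B ℂ := fun i => diagonal fun b => if κ b = i then -1 else 1
  let F : Option ι → Module.End ℂ (B → ℂ) := fun o => match o with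
    | none => Matrix.toLin' T
    | some i => Matrix.toLin' (rf i)
  have hrr : ∀ i j, rf i * rf j = rf j * rf i := by
    intro i j
    simp only [rf, diagonal_mul_diagonal]
    congr 1
    funext b
    ring
  have hrT : ∀ i, rf i * T = T * rf i := by
    intro i
    ext a b
    simp only [rf, diagonal_mul, mul_diagonal]
    by_cases hab : κ a = κ b
    · rw [hab]
      ring
    · rw [hb a b hab]
      ring
  have hc : ∀ i j, Commute (F i) (F j) := by
    intro i j
    rcases i with _ | i <;> rcases j with _ | j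
    · exact Commute.refl _
    · show Matrix.toLin' T ∘ₗ Matrix.toLin' (rf j) = Matrix.toLin' (rf j) ∘ₗ Matrix.toLin' T
      rw [← Matrix.toLin'_mul, ← Matrix.toLin'_mul, hrT]
    · show Matrix.toLin' (rf i) ∘ₗ Matrix.toLin' T = Matrix.toLin' T ∘ₗ Matrix.toLin' (rf i)
      rw [← Matrix.toLin'_mul, ← Matrix.toLin'_mul, hrT]
    · show Matrix.toLin' (rf i) ∘ₗ Matrix.toLin' (rf j) = Matrix.toLin' (rf j) ∘ₗ Matrix.toLin' (rf i)
      rw [← Matrix.toLin'_mul, ← Matrix.toLin'_mul, hrr]
  have hf : ∀ i, ∃ n : ℕ, 1 ≤ n ∧ F i ^ n = 1 := by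
    intro i
    rcases i with _ | i
    · refine ⟨d, hd, ?_⟩
      show Matrix.toLin' T ^ d = 1
      rw [← Matrix.toLin'_pow, hT, Matrix.toLin'_one]
      rfl
    · refine ⟨2, by norm_num, ?_⟩
      show Matrix.toLin' (rf i) ^ 2 = 1
      rw [← Matrix.toLin'_pow]
      have : rf i ^ 2 = 1 := by
        rw [pow_two]
        simp only [rf, diagonal_mul_diagonal]
        rw [← diagonal_one]
        congr 1
        funext b
        split_ifs <;> norm_num
      rw [this, Matrix.toLin'_one]
      rfl
  have hspan := diag_span F hc hf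
  obtain ⟨b, hbs, hbspan, hbli⟩ := exists_linearIndependent ℂ {v | ∀ i, ∃ χ : ℂ, F i v = χ • v}
  rw [hspan] at hbspan
  let bb : Module.Basis b ℂ (B → ℂ) := Module.Basis.mk hbli (by
    rw [Subtype.range_coe, hbspan])
  let b₀ := Pi.basisFun ℂ B
  let e := bb.indexEquiv b₀
  let b' := bb.reindex e
  have hb' : ∀ a, (b' a : B → ℂ) ∈ {v | ∀ i, ∃ χ : ℂ, F i v = χ • v} := by
    intro a
    have h1 : b' a = ((e.symm a : b) : B → ℂ) := by
      show (bb.reindex e) a = _
      rw [Module.Basis.reindex_apply]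
      exact Module.Basis.mk_apply _ _ _
    rw [h1]
    exact hbs (e.symm a).2
  choose χ hχ using hb'
  have hne : ∀ a, ∃ p, b' a p ≠ 0 := by
    intro a
    by_contra hcon
    push Not at hcon
    exact b'.ne_zero a (funext hcon)
  choose p hp using hne
  refine ⟨(Matrix.of fun a => b' a)ᵀ, fun a => κ (p a), fun a => χ a none, ?_, ?_, ?_⟩
  · rw [det_transpose, ← Matrix.isUnit_iff_isUnit_det,
      ← Matrix.linearIndependent_rows_iff_isUnit]
    exact b'.linearIndependent
  · intro a q hq
    show b' a q = 0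
    have h1 := hχ a (some (κ (p a)))
    have h2 : rf (κ (p a)) *ᵥ b' a = χ a (some (κ (p a))) • b' a := h1
    have h3 := congrFun h2 (p a)
    have h4 := congrFun h2 q
    simp only [rf, mulVec_diagonal, if_true, if_neg hq, Pi.smul_apply, smul_eq_mul] at h3 h4
    have h5 : χ a (some (κ (p a))) = -1 := (mul_right_cancel₀ (hp a) h3).symm
    rw [h5] at h4
    have h6 : (2 : ℂ) * b' a q = 0 := by linear_combination h4
    exact (mul_eq_zero.1 h6).resolve_left two_ne_zero
  · intro a
    have h1 := hχ a none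
    exact h1

end Pool.Agent.H842.CR
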