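import Pool.Graph.R_seed8.TH125.Nod.Fft2

/-!
# The first fundamental theorem for products of general linear groups
-/

set_option linter.unusedSectionVars false

open Finset Function

namespace Pool.Agent.H842.CR

open Pool.Agent.TH125.Nod

universe u v

variable {K : Type u} [Field K] {B : Type} [Fintype B] [DecidableEq B] {ι : Type} [DecidableEq ι]
  {M : Type v} [AddCommGroup M] [Module K M]

section alt
variable {S : Type} [Fintype S] [DecidableEq S] {κ : B → ι} {Q : Matrix B B K} {c : S → ι}
  {i : ι} [CharZero K]

/-- The induction on the number of alternating variables. -/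
theorem alt_mem' (T : Submodule K ((S → B) → M))
    (hT : ∀ a b, c a = i → c b = i → ∀ f ∈ T, sw (K := K) a b f ∈ T) (n : ℕ)
    (hn : (univ.filter fun b => κ b = i).card = n) (A : Finset S) (hA : A = univ.filter (c · = i))
    (lam : ℚ) (hlam : (n : ℚ) - 1 < lam) (d : ℕ) :
    ∀ A' ⊆ A, A'.Nonempty → n + 1 ≤ A'.card + d → ∀ w : (S → B) → M, Sup κ c w →
      (∀ a ∈ A, (lam : K) • w + ∑ b ∈ A.erase a, sw (K := K) a b w ∈ T) →
      (∀ a ∈ A', ∀ b ∈ A', a ≠ b → sw (K := K) a b w + w ∈ T) → w ∈ T := by
  have hAi : ∀ a ∈ A, c a = i := fun a ha => by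
    rw [hA, Finset.mem_filter] at ha
    exact ha.2
  have hq : ∀ a ∈ A, ∀ b ∈ A, ∀ x y : (S → B) → M, T.mkQ x = T.mkQ y →
      T.mkQ (sw (K := K) a b x) = T.mkQ (sw (K := K) a b y) := by
    intro a ha b hb x y hxy
    rw [Submodule.mkQ_apply, Submodule.mkQ_apply, Submodule.Quotient.eq] at hxy ⊢
    have := hT a b (hAi a ha) (hAi b hb) _ hxy
    rwa [sw, map_sub] at this
  have hq' : ∀ x y : (S → B) → M, x + y ∈ T ↔ T.mkQ x = - T.mkQ y := by
    intro x y
    rw [← map_neg, Submodule.mkQ_apply, Submodule.mkQ_apply, Submodule.Quotient.eq, sub_neg_eq_add]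
  induction d with
  | zero =>
    intro A' hA' _ hcard w hw _ halt
    exact pigeon T hT (fun a ha => hAi a (hA' ha)) (by omega) hw halt
  | succ d ih =>
    intro A' hA' hne hcard w hw hJ halt
    by_cases hlt : n + 1 ≤ A'.card
    · exact pigeon T hT (fun a ha => hAi a (hA' ha)) (by omega) hw halt
    have hlt' : A'.card < n + 1 := not_le.1 hlt
    -- the alternating sum over one more variable
    have hstep : ∀ j ∈ A \ A', w - ∑ a ∈ A', sw (K := K) a j w ∈ T := by
      intro j hj
      rw [Finset.mem_sdiff] at hj
      have hji := hAi j hj.1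
      have hswA : ∀ a ∈ A', ∀ x, Equiv.swap a j x ∈ A ↔ x ∈ A := by
        intro a ha x
        by_cases h1 : x = a
        · rw [h1, Equiv.swap_apply_left]
          exact ⟨fun _ => hA' ha, fun _ => hj.1⟩
        by_cases h2 : x = j
        · rw [h2, Equiv.swap_apply_right]
          exact ⟨fun _ => hj.1, fun _ => hA' ha⟩
        rw [Equiv.swap_apply_of_ne_of_ne h1 h2]
      refine ih (insert j A') ?_ ⟨j, Finset.mem_insert_self _ _⟩ ?_ _ ?_ ?_ ?_
      · intro x hx
        rw [Finset.mem_insert] at hx
        rcases hx with rfl | hx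
        · exact hj.1
        · exact hA' hx
      · rw [Finset.card_insert_of_notMem hj.2]
        omega
      · intro J hJ'
        rw [Pi.sub_apply, Finset.sum_apply, hw J hJ', Finset.sum_eq_zero, sub_zero]
        intro a ha
        exact Sup_rho (K := K) (c_swap (hAi a (hA' ha)) hji) hw J hJ'
      · intro a ha
        have h1 : ∀ l ∈ A', (lam : K) • sw (K := K) l j w +
            ∑ b ∈ A.erase a, sw (K := K) a b (sw (K := K) l j w) ∈ T := by
          intro l hl
          have h2 := jm_rho (K := K) A (Equiv.swap l j) (hswA l hl) a w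
          rw [h2, sw, ← map_smul, ← map_add]
          apply hT l j (hAi l (hA' hl)) hji
          apply hJ
          rw [← hswA l hl, ← Equiv.Perm.mul_apply, mul_inv_cancel]
          exact ha
        have h3 := T.sub_mem (hJ a ha) (T.sum_mem h1)
        convert h3 using 1
        simp only [sw, map_sub, map_sum, Finset.sum_sub_distrib, Finset.sum_add_distrib, smul_sub,
          Finset.smul_sum]
        rw [Finset.sum_comm (s := A.erase a) (t := A')]
        abel
      · -- alternating
        have hsym : ∀ a ∈ A', sw (K := K) a j (w - ∑ l ∈ A', sw (K := K) l j w) +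
            (w - ∑ l ∈ A', sw (K := K) l j w) ∈ T := by
          intro a ha
          rw [hq']
          simp only [map_sub, map_sum]
          rw [← Finset.add_sum_erase A' _ ha, ← Finset.add_sum_erase A' (fun l =>
            T.mkQ (sw (K := K) l j w)) ha]
          have h1 : sw (K := K) a j (sw (K := K) a j w) = w := by
            show rho (K := K) _ (rho (K := K) _ w) = w
            rw [← rho_mul, Equiv.swap_mul_self, rho_one]
          have h2 : ∀ l ∈ A'.erase a, T.mkQ (sw (K := K) a j (sw (K := K) l j w)) =
              - T.mkQ (sw (K := K) l j w) := by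
            intro l hl
            rw [Finset.mem_erase] at hl
            have h3 : sw (K := K) a j (sw (K := K) l j w) =
                sw (K := K) l j (sw (K := K) a l w) := by
              show rho (K := K) _ (rho (K := K) _ w) = rho (K := K) _ (rho (K := K) _ w)
              rw [← rho_mul, ← rho_mul, Equiv.mul_swap_eq_swap_mul (Equiv.swap l j) a l,
                Equiv.swap_apply_of_ne_of_ne (x := a) (Ne.symm hl.1)
                  (fun h : a = j => hj.2 (h ▸ ha)),
                Equiv.swap_apply_left]
            have h4 : T.mkQ (sw (K := K) a l w) = T.mkQ (-w) := by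
              rw [map_neg, ← hq']
              exact halt a ha l hl.2 (Ne.symm hl.1)
            rw [h3, hq l (hA' hl.2) j hj.1 _ _ h4]
            simp only [sw, map_neg]
          simp only [sw] at h1 h2 ⊢
          rw [h1, Finset.sum_congr rfl h2, Finset.sum_neg_distrib]
          abel
        have hin : ∀ a ∈ A', ∀ b ∈ A', a ≠ b →
            sw (K := K) a b (w - ∑ l ∈ A', sw (K := K) l j w) +
            (w - ∑ l ∈ A', sw (K := K) l j w) ∈ T := by
          intro a ha b hb hab
          rw [hq']
          have h0 : T.mkQ (sw (K := K) a b w) = T.mkQ (-w) := by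
            rw [map_neg, ← hq']
            exact halt a ha b hb hab
          have h1 : ∀ l ∈ A', T.mkQ (sw (K := K) a b (sw (K := K) l j w)) =
              - T.mkQ (sw (K := K) (Equiv.swap a b l) j w) := by
            intro l hl
            have h3 : sw (K := K) a b (sw (K := K) l j w) =
                sw (K := K) (Equiv.swap a b l) j (sw (K := K) a b w) := by
              show rho (K := K) _ (rho (K := K) _ w) = rho (K := K) _ (rho (K := K) _ w)
              rw [← rho_mul, ← rho_mul, Equiv.mul_swap_eq_swap_mul,
                Equiv.swap_apply_of_ne_of_ne (x := j) (fun h => hj.2 (h ▸ ha))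
                  (fun h => hj.2 (h ▸ hb))]
            have hl' : Equiv.swap a b l ∈ A' := by
              by_cases e1 : l = a
              · rw [e1, Equiv.swap_apply_left]
                exact hb
              by_cases e2 : l = b
              · rw [e2, Equiv.swap_apply_right]
                exact ha
              rw [Equiv.swap_apply_of_ne_of_ne e1 e2]
              exact hl
            rw [h3, hq _ (hA' hl') j hj.1 _ _ h0]
            simp only [sw, map_neg]
          have h2 : ∑ l ∈ A', T.mkQ (sw (K := K) (Equiv.swap a b l) j w) =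
              ∑ l ∈ A', T.mkQ (sw (K := K) l j w) := by
            refine Finset.sum_bij (fun l _ => Equiv.swap a b l) ?_ ?_ ?_ ?_
            · intro l hl
              show Equiv.swap a b l ∈ A'
              by_cases e1 : l = a
              · rw [e1, Equiv.swap_apply_left]
                exact hb
              by_cases e2 : l = b
              · rw [e2, Equiv.swap_apply_right]
                exact ha
              rw [Equiv.swap_apply_of_ne_of_ne e1 e2]
              exact hl
            · intro l _ l' _ h
              exact (Equiv.swap a b).injective h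
            · intro l hl
              refine ⟨Equiv.swap a b l, ?_, Equiv.swap_apply_self _ _ _⟩
              by_cases e1 : l = a
              · rw [e1, Equiv.swap_apply_left]
                exact hb
              by_cases e2 : l = b
              · rw [e2, Equiv.swap_apply_right]
                exact ha
              rw [Equiv.swap_apply_of_ne_of_ne e1 e2]
              exact hl
            · intro l _
              rfl
          simp only [map_sub, map_sum]
          simp only [sw] at h0 h1 h2 ⊢
          rw [h0, Finset.sum_congr rfl h1, Finset.sum_neg_distrib, h2, map_neg]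
          abel
        intro a ha b hb hab
        rw [Finset.mem_insert] at ha hb
        rcases ha with rfl | ha
        · rcases hb with rfl | hb
          · exact absurd rfl hab
          · have := hsym b hb
            rwa [sw, Equiv.swap_comm] at this
        · rcases hb with rfl | hb
          · exact hsym a ha
          · exact hin a ha b hb hab
    -- the final count
    have hsumT := T.sum_mem (fun a (ha : a ∈ A') => hJ a (hA' ha))
    rw [← Submodule.ker_mkQ T, LinearMap.mem_ker, map_sum] at hsumT
    have h1 : ∀ a ∈ A', T.mkQ ((lam : K) • w + ∑ b ∈ A.erase a, sw (K := K) a b w) =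
        (lam : K) • T.mkQ w - (((A'.card : ℤ) - 1 : ℤ) : K) • T.mkQ w +
          ∑ b ∈ A \ A', T.mkQ (sw (K := K) a b w) := by
      intro a ha
      have hsplit : A.erase a = A'.erase a ∪ (A \ A') := by
        ext x
        simp only [Finset.mem_erase, Finset.mem_union, Finset.mem_sdiff]
        constructor
        · rintro ⟨h1, h2⟩
          by_cases hx : x ∈ A'
          · exact Or.inl ⟨h1, hx⟩
          · exact Or.inr ⟨h2, hx⟩
        · rintro (⟨h1, h2⟩ | ⟨h1, h2⟩)
          · exact ⟨h1, hA' h2⟩
          · exact ⟨fun h => h2 (h ▸ ha), h1⟩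
      have hdis : Disjoint (A'.erase a) (A \ A') := by
        rw [Finset.disjoint_left]
        intro x hx hx'
        rw [Finset.mem_erase] at hx
        rw [Finset.mem_sdiff] at hx'
        exact hx'.2 hx.2
      rw [map_add, map_smul, map_sum, hsplit, Finset.sum_union hdis]
      have h2 : ∀ b ∈ A'.erase a, T.mkQ (sw (K := K) a b w) = - T.mkQ w := by
        intro b hb
        rw [Finset.mem_erase] at hb
        rw [← hq']
        exact halt a ha b hb.2 (Ne.symm hb.1)
      rw [Finset.sum_congr rfl h2, Finset.sum_const, Finset.card_erase_of_mem ha]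
      have hpos : 1 ≤ A'.card := Finset.card_pos.2 hne
      have h3 : (((A'.card : ℤ) - 1 : ℤ) : K) = ((A'.card - 1 : ℕ) : K) := by
        rw [Nat.cast_sub hpos]
        push_cast
        ring
      rw [h3, ← Nat.cast_smul_eq_nsmul K]
      module
    rw [Finset.sum_congr rfl h1, Finset.sum_add_distrib, Finset.sum_const,
      Finset.sum_comm] at hsumT
    have h2 : ∀ j ∈ A \ A', ∑ a ∈ A', T.mkQ (sw (K := K) a j w) = T.mkQ w := by
      intro j hj
      have := hstep j hj
      rw [← Submodule.ker_mkQ T, LinearMap.mem_ker, map_sub, map_sum, sub_eq_zero] at this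
      exact this.symm
    rw [Finset.sum_congr rfl h2, Finset.sum_const, ← Nat.cast_smul_eq_nsmul K,
      ← Nat.cast_smul_eq_nsmul K] at hsumT
    have hcc : (A \ A').card + A'.card = A.card := Finset.card_sdiff_add_card_eq_card hA'
    have hmA : A'.card ≤ A.card := Finset.card_le_card hA'
    have hpos : 1 ≤ A'.card := Finset.card_pos.2 hne
    have h3 : ((((A'.card : ℚ) * (lam - (A'.card - 1)) + (A \ A').card : ℚ)) : K) •
        T.mkQ w = 0 := by
      rw [← hsumT]
      push_cast
      module
    have h4 : (((A'.card : ℚ) * (lam - (A'.card - 1)) + (A \ A').card : ℚ)) ≠ 0 := by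
      have h5 : 0 < lam - (A'.card - 1) := by
        have h7 : (A'.card : ℚ) ≤ n := by exact_mod_cast Nat.lt_succ_iff.1 hlt'
        linarith
      have h6 : 0 < (A'.card : ℚ) := by exact_mod_cast hpos
      positivity
    rw [smul_eq_zero, Rat.cast_eq_zero] at h3
    rcases h3 with h3 | h3
    · exact absurd h3 h4
    · rwa [← LinearMap.mem_ker, Submodule.ker_mkQ] at h3

end alt


/-- contraction of two variables with the inverse matrix -/
def con' {S : Type} [DecidableEq S] (κ : B → ι) (σ : ι → ι) (R : Matrix B B K) (i : ι) (a b : S)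
    (f : (S → B) → M) : ({x // x ≠ a ∧ x ≠ b} → B) → M :=
  fun J => ∑ p ∈ blk κ i, ∑ q ∈ blk κ (σ i), R p q • f (ext2 a b p q J)

/-- The form `f` is an eigenvector of the central elements of the Lie algebras of the blocks and is
killed by the elements of trace zero. -/
def InvT (κ : B → ι) (σ : ι → ι) (Q : Matrix B B K) (s : ι → K) (t : ι → ℚ) {S : Type} [Fintype S]
    [DecidableEq S] (f : (S → B) → M) : Prop :=
  ∀ u v, κ v = σ (κ u) → ∀ J : S → B,
    ∑ j, (Q v (J j) • f (update J j u) - (s (κ u) * Q u (J j)) • f (update J j v)) =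
      ((t (κ u) : K) * Q v u) • f J

variable {κ : B → ι} {σ : ι → ι} {Q R : Matrix B B K} {s : ι → K} {t : ι → ℚ}

/-- the hypotheses on the form -/
structure Dat (κ : B → ι) (σ : ι → ι) (Q R : Matrix B B K) (s : ι → K) (t : ι → ℚ) : Prop where
  ss : ∀ i, s i * s i = 1
  sσ : ∀ i, s (σ i) = s i
  σσ : ∀ i, σ (σ i) = i
  σne : ∀ i, σ i ≠ i
  tσ : ∀ i, t (σ i) = - t i
  Qb : ∀ a b, κ b ≠ σ (κ a) → Q a b = 0
  Qs : ∀ a b, Q a b = s (κ a) * Q b a
  QR : Q * R = 1

theorem Dat.sum_QR (h : Dat κ σ Q R s t) {i : ι} {v : B} (hv : κ v = σ i) (u : B) :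
    ∑ p ∈ blk κ i, Q v p * R p u = if v = u then 1 else 0 := by
  have h1 := congrFun (congrFun h.QR v) u
  rw [Matrix.mul_apply, Matrix.one_apply] at h1
  rw [← h1]
  apply Finset.sum_subset (Finset.subset_univ _)
  intro x _ hx
  rw [mem_blk] at hx
  rw [h.Qb v x (by rw [hv, h.σσ]; exact hx), zero_mul]

theorem Dat.sum_RQ (h : Dat κ σ Q R s t) {i : ι} {m : B} (hm : κ m = i) (p : B) :
    ∑ u ∈ blk κ (σ i), R p u * Q u m = if p = m then 1 else 0 := by
  have hRQ : R * Q = 1 := mul_eq_one_comm.1 h.QR
  have h1 := congrFun (congrFun hRQ p) m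
  rw [Matrix.mul_apply, Matrix.one_apply] at h1
  rw [← h1]
  apply Finset.sum_subset (Finset.subset_univ _)
  intro x _ hx
  rw [mem_blk] at hx
  rw [h.Qb x m (by
    intro h2
    apply hx
    rw [← hm, h2, h.σσ]), mul_zero]

section
variable {S : Type} [Fintype S] [DecidableEq S] {c : S → ι}

/-- the Casimir identity -/
theorem cas' [CharZero K] (h : Dat κ σ Q R s t) {f : (S → B) → M} (hf : InvT κ σ Q s t f) {J : S → B}
    (hJ : ∀ j, κ (J j) = c j) {i : ι} {a : S} (ha : c a = i) :
    (((((blk κ i).card : ℚ) - t i : ℚ)) : K) • f J +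
      ∑ b ∈ (univ.filter fun j => c j = i).erase a, f (fun j => J (Equiv.swap a b j)) =
    s i • ∑ b ∈ (univ.filter fun j => c j = σ i),
      Q (J a) (J b) • con' κ σ R i a b f (fun x => J x.1) := by
  set ε : K := s i with hε
  have hεε : ε * ε = 1 := h.ss i
  have hJa : κ (J a) = i := by rw [hJ, ha]
  -- the contribution of each variable
  let G : S → M := fun j => ∑ p ∈ blk κ i, ∑ u ∈ blk κ (σ i), R p u •
    (Q (J a) (update J a p j) • f (update (update J a p) j u) -
      (ε * Q u (update J a p j)) • f (update (update J a p) j (J a)))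
  have hG : ∑ j, G j = (ε * ((t (σ i) : ℚ) : K)) • f J := by
    show ∑ j, ∑ p ∈ blk κ i, ∑ u ∈ blk κ (σ i), _ = _
    rw [Finset.sum_comm]
    have h1 : ∀ p ∈ blk κ i, ∑ j, ∑ u ∈ blk κ (σ i), R p u •
        (Q (J a) (update J a p j) • f (update (update J a p) j u) -
          (ε * Q u (update J a p j)) • f (update (update J a p) j (J a))) =
        (if p = J a then (ε * ((t (σ i) : ℚ) : K)) else 0) • f (update J a p) := by
      intro p hp
      rw [Finset.sum_comm]
      have h2 : ∀ u ∈ blk κ (σ i), ∑ j, R p u •
          (Q (J a) (update J a p j) • f (update (update J a p) j u) -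
            (ε * Q u (update J a p j)) • f (update (update J a p) j (J a))) =
          (R p u * Q u (J a) * (ε * ((t (σ i) : ℚ) : K))) • f (update J a p) := by
        intro u hu
        rw [mem_blk] at hu
        rw [← Finset.smul_sum]
        have h3 := hf u (J a) (by rw [hu, hJa, h.σσ]) (update J a p)
        rw [hu, h.sσ, ← hε] at h3
        rw [h3, smul_smul, h.Qs (J a) u, hJa, ← hε]
        congr 1
        ring
      rw [Finset.sum_congr rfl h2, ← Finset.sum_smul, ← Finset.sum_mul, h.sum_RQ hJa]
      congr 1
      split_ifs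
      · rw [one_mul]
      · rw [zero_mul]
    rw [Finset.sum_congr rfl h1]
    simp only [ite_smul, zero_smul]
    rw [Finset.sum_ite_eq' (blk κ i) (J a) (fun p => (ε * ((t (σ i) : ℚ) : K)) • f (update J a p)),
      if_pos (mem_blk.2 hJa), update_eq_self]
  have hGa : G a = - ((ε * ((blk κ i).card : K)) • f J) := by
    show ∑ p ∈ blk κ i, ∑ u ∈ blk κ (σ i), _ = _
    simp only [update_self, update_idem, update_eq_self]
    have h0 : ∀ p ∈ blk κ i, ∑ u ∈ blk κ (σ i), R p u • (Q (J a) p • f (update J a u) -
        (ε * Q u p) • f J) = -(ε • f J) := by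
      intro p hp
      rw [mem_blk] at hp
      have h1 : Q (J a) p = 0 := h.Qb _ _ (by rw [hp, hJa]; exact Ne.symm (h.σne i))
      simp only [h1, zero_smul, zero_sub, smul_neg, smul_smul, Finset.sum_neg_distrib,
        ← Finset.sum_smul]
      congr 2
      have h2 := h.sum_RQ hp p
      rw [if_pos rfl] at h2
      calc ∑ u ∈ blk κ (σ i), R p u * (ε * Q u p) = ε * ∑ u ∈ blk κ (σ i), R p u * Q u p := by
            rw [Finset.mul_sum]
            exact Finset.sum_congr rfl fun u _ => by ring
        _ = ε := by rw [h2, mul_one]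
    rw [Finset.sum_congr rfl h0, Finset.sum_const, ← Nat.cast_smul_eq_nsmul K, smul_neg, smul_smul,
      mul_comm]
  have hG0 : ∀ j, j ≠ a → c j ≠ i → c j ≠ σ i → G j = 0 := by
    intro j hja hji hjs
    refine Finset.sum_eq_zero fun p _ => Finset.sum_eq_zero fun u hu => ?_
    rw [mem_blk] at hu
    rw [update_of_ne hja, h.Qb (J a) (J j) (by rw [hJa, hJ]; exact hjs),
      h.Qb u (J j) (by rw [hu, hJ, h.σσ]; exact hji)]
    simp
  have hup : ∀ j, j ≠ a → ∀ p u, update (update J a p) j u = ext2 a j p u (fun x => J x.1) := by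
    intro j hja p u
    funext x
    by_cases h1 : x = j
    · subst h1
      rw [update_self, ext2_b (Ne.symm hja)]
    rw [update_of_ne h1]
    by_cases h2 : x = a
    · subst h2
      rw [update_self, ext2_a]
    rw [update_of_ne h2]
    unfold ext2
    rw [dif_pos ⟨h2, h1⟩]
  have hG1 : ∀ j, j ≠ a → c j = i → G j = -(ε • f (fun k => J (Equiv.swap a j k))) := by
    intro j hja hji
    have hJj : κ (J j) = i := by rw [hJ, hji]
    have h0 : Q (J a) (J j) = 0 := h.Qb _ _ (by rw [hJj, hJa]; exact Ne.symm (h.σne i))
    show ∑ p ∈ blk κ i, ∑ u ∈ blk κ (σ i), _ = _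
    simp only [update_of_ne hja, h0, zero_smul, zero_sub, smul_neg, Finset.sum_neg_distrib,
      smul_smul]
    congr 1
    have h1 : ∀ p ∈ blk κ i, ∑ u ∈ blk κ (σ i), (R p u * (ε * Q u (J j))) •
        f (update (update J a p) j (J a)) =
        (if p = J j then ε else 0) • f (update (update J a p) j (J a)) := by
      intro p _
      rw [← Finset.sum_smul]
      congr 1
      have := h.sum_RQ hJj p
      calc ∑ u ∈ blk κ (σ i), R p u * (ε * Q u (J j)) =
            ε * ∑ u ∈ blk κ (σ i), R p u * Q u (J j) := by
            rw [Finset.mul_sum]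
            exact Finset.sum_congr rfl fun u _ => by ring
        _ = _ := by rw [this]; split_ifs <;> simp
    rw [Finset.sum_congr rfl h1]
    simp only [ite_smul, zero_smul]
    rw [Finset.sum_ite_eq' (blk κ i) (J j) (fun p => ε • f (update (update J a p) j (J a))),
      if_pos (mem_blk.2 hJj)]
    congr 2
    funext x
    by_cases h1 : x = j
    · subst h1
      rw [update_self, Equiv.swap_apply_right]
    rw [update_of_ne h1]
    by_cases h2 : x = a
    · subst h2
      rw [update_self, Equiv.swap_apply_left]
    rw [update_of_ne h2, Equiv.swap_apply_of_ne_of_ne h2 h1]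
  have hG2 : ∀ j, j ≠ a → c j = σ i → G j =
      Q (J a) (J j) • con' κ σ R i a j f (fun x => J x.1) := by
    intro j hja hji
    have hJj : κ (J j) = σ i := by rw [hJ, hji]
    show ∑ p ∈ blk κ i, ∑ u ∈ blk κ (σ i), _ = _
    unfold con'
    rw [Finset.smul_sum]
    refine Finset.sum_congr rfl fun p _ => ?_
    rw [Finset.smul_sum]
    refine Finset.sum_congr rfl fun u hu => ?_
    rw [mem_blk] at hu
    have h0 : Q u (J j) = 0 := h.Qb _ _ (by rw [hJj, hu]; exact Ne.symm (h.σne (σ i)))
    rw [update_of_ne hja, h0, mul_zero, zero_smul, sub_zero, hup j hja, smul_smul, smul_smul,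
      mul_comm]
  have hsum : ∑ j, G j = G a + (∑ j ∈ (univ.filter fun j => c j = i).erase a, G j +
      ∑ j ∈ univ.filter fun j => c j = σ i, G j) := by
    rw [← Finset.add_sum_erase univ G (Finset.mem_univ a)]
    congr 1
    rw [← Finset.sum_union]
    · symm
      apply Finset.sum_subset
      · intro x hx
        rw [Finset.mem_union, Finset.mem_erase, Finset.mem_filter, Finset.mem_filter] at hx
        rw [Finset.mem_erase]
        refine ⟨?_, Finset.mem_univ _⟩
        rcases hx with hx | hx
        · exact hx.1
        · rintro rfl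
          exact h.σne i (by rw [← hx.2, ha])
      · intro x hx hx'
        rw [Finset.mem_erase] at hx
        apply hG0 x hx.1
        · intro h1
          exact hx' (Finset.mem_union_left _ (Finset.mem_erase.2
            ⟨hx.1, Finset.mem_filter.2 ⟨Finset.mem_univ _, h1⟩⟩))
        · intro h1
          exact hx' (Finset.mem_union_right _ (Finset.mem_filter.2 ⟨Finset.mem_univ _, h1⟩))
    · rw [Finset.disjoint_left]
      intro x hx hx'
      rw [Finset.mem_erase, Finset.mem_filter] at hx
      rw [Finset.mem_filter] at hx'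
      exact h.σne i (by rw [← hx'.2, hx.2.2])
  rw [hG, hGa] at hsum
  have h2 : ∑ j ∈ (univ.filter fun j => c j = i).erase a, G j =
      - (ε • ∑ j ∈ (univ.filter fun j => c j = i).erase a, f (fun k => J (Equiv.swap a j k))) := by
    rw [Finset.smul_sum, ← Finset.sum_neg_distrib]
    refine Finset.sum_congr rfl fun j hj => ?_
    rw [Finset.mem_erase, Finset.mem_filter] at hj
    exact hG1 j hj.1 hj.2.2
  have h3 : ∑ j ∈ univ.filter (fun j => c j = σ i), G j =
      ∑ j ∈ univ.filter (fun j => c j = σ i),
        Q (J a) (J j) • con' κ σ R i a j f (fun x => J x.1) := by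
    refine Finset.sum_congr rfl fun j hj => ?_
    rw [Finset.mem_filter] at hj
    refine hG2 j ?_ hj.2
    rintro rfl
    exact h.σne i (by rw [← hj.2, ha])
  rw [h2, h3] at hsum
  set X := ∑ j ∈ univ.filter (fun j => c j = σ i),
        Q (J a) (J j) • con' κ σ R i a j f (fun x => J x.1) with hX
  set Y := ∑ j ∈ (univ.filter fun j => c j = i).erase a, f (fun k => J (Equiv.swap a j k)) with hY
  have h4 : X = (ε * ((t (σ i) : ℚ) : K)) • f J + (ε * ((blk κ i).card : K)) • f J + ε • Y := by
    rw [hsum]
    abel
  rw [h4, h.tσ]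
  simp only [smul_add, smul_smul]
  push_cast
  rw [← mul_assoc, ← mul_assoc, hεε, one_mul, one_mul, one_smul]
  module

/-- contractions of invariant forms are invariant -/
theorem inv_con' (h : Dat κ σ Q R s t) {f : (S → B) → M} (hf : InvT κ σ Q s t f) {i : ι} {a b : S}
    (hab : a ≠ b) : InvT κ σ Q s t (con' κ σ R i a b f) := by
  intro u v huv J
  set ε : K := s (κ u) with hε
  have key : ∀ p q, ∑ x : {x // x ≠ a ∧ x ≠ b}, (Q v (J x) • f (ext2 a b p q (update J x u)) -
      (ε * Q u (J x)) • f (ext2 a b p q (update J x v))) =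
      ((t (κ u) : K) * Q v u) • f (ext2 a b p q J) +
      (-(Q v p • f (ext2 a b u q J) - (ε * Q u p) • f (ext2 a b v q J)) -
      (Q v q • f (ext2 a b p u J) - (ε * Q u q) • f (ext2 a b p v J))) := by
    intro p q
    have h1 := hf u v huv (ext2 a b p q J)
    rw [sum_split hab] at h1
    simp only [ext2_a, ext2_b hab, ext2_val, update_ext2_a, update_ext2_b hab,
      update_ext2_val] at h1
    rw [← h1]
    abel
  have hlhs : ∑ j, (Q v (J j) • con' κ σ R i a b f (update J j u) -
      (ε * Q u (J j)) • con' κ σ R i a b f (update J j v)) =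
      ∑ p ∈ blk κ i, ∑ q ∈ blk κ (σ i), R p q • (((t (κ u) : K) * Q v u) • f (ext2 a b p q J) +
        (-(Q v p • f (ext2 a b u q J) - (ε * Q u p) • f (ext2 a b v q J)) -
      (Q v q • f (ext2 a b p u J) - (ε * Q u q) • f (ext2 a b p v J)))) := by
    simp only [← key]
    unfold con'
    simp only [Finset.smul_sum, smul_smul, smul_sub]
    simp only [← Finset.sum_sub_distrib]
    rw [Finset.sum_comm]
    refine Finset.sum_congr rfl fun p _ => ?_
    rw [Finset.sum_comm]
    refine Finset.sum_congr rfl fun q _ => ?_
    refine Finset.sum_congr rfl fun j _ => ?_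
    rw [mul_comm (Q v (J j)), mul_comm (ε * Q u (J j))]
  show ∑ j, (Q v (J j) • con' κ σ R i a b f (update J j u) -
      (ε * Q u (J j)) • con' κ σ R i a b f (update J j v)) = _
  rw [hlhs]
  have hεε : ε * ε = 1 := h.ss (κ u)
  have hvs : ∀ q, Q v q = ε * Q q v := by
    intro q
    rw [h.Qs v q, hε, huv, h.sσ]
  have hus : ∀ q, Q u q = ε * Q q u := by
    intro q
    rw [h.Qs u q]
  simp only [smul_add, Finset.sum_add_distrib]
  have hmain : ∑ p ∈ blk κ i, ∑ q ∈ blk κ (σ i), R p q •
      (((t (κ u) : K) * Q v u) • f (ext2 a b p q J)) =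
      ((t (κ u) : K) * Q v u) • con' κ σ R i a b f J := by
    unfold con'
    simp only [Finset.smul_sum]
    refine Finset.sum_congr rfl fun p _ => Finset.sum_congr rfl fun q _ => ?_
    rw [smul_comm]
  rw [hmain]
  have hzero : ∑ p ∈ blk κ i, ∑ q ∈ blk κ (σ i), R p q •
        (-(Q v p • f (ext2 a b u q J) - (ε * Q u p) • f (ext2 a b v q J)) -
      (Q v q • f (ext2 a b p u J) - (ε * Q u q) • f (ext2 a b p v J))) = 0 := by
    by_cases hi : κ v = i
    · -- `v` in the block `i`, `u` in the block `σ i`
      have hu : κ u = σ i := by rw [← hi, huv, h.σσ]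
      have z1 : ∀ p ∈ blk κ i, Q v p = 0 := fun p hp => h.Qb _ _ (by
        rw [mem_blk] at hp
        rw [hp, hi]
        exact Ne.symm (h.σne i))
      have z2 : ∀ q ∈ blk κ (σ i), Q u q = 0 := fun q hq => h.Qb _ _ (by
        rw [mem_blk] at hq
        rw [hq, hu]
        exact Ne.symm (h.σne _))
      have e2 : ∑ p ∈ blk κ i, ∑ q ∈ blk κ (σ i), (R p q * (ε * Q u p)) • f (ext2 a b v q J) =
          ε • f (ext2 a b v u J) := by
        rw [Finset.sum_comm]
        have h1 : ∀ q ∈ blk κ (σ i), ∑ p ∈ blk κ i, (R p q * (ε * Q u p)) • f (ext2 a b v q J) =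
            (if u = q then ε else 0) • f (ext2 a b v q J) := by
          intro q _
          rw [← Finset.sum_smul]
          congr 1
          calc ∑ p ∈ blk κ i, R p q * (ε * Q u p) = ε * ∑ p ∈ blk κ i, Q u p * R p q := by
                rw [Finset.mul_sum]
                exact Finset.sum_congr rfl fun p _ => by ring
            _ = _ := by rw [h.sum_QR hu q]; split_ifs <;> simp
        rw [Finset.sum_congr rfl h1]
        simp only [ite_smul, zero_smul]
        rw [Finset.sum_ite_eq, if_pos (mem_blk.2 hu)]
      have e3 : ∑ p ∈ blk κ i, ∑ q ∈ blk κ (σ i), (R p q * Q v q) • f (ext2 a b p u J) =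
          ε • f (ext2 a b v u J) := by
        have h1 : ∀ p ∈ blk κ i, ∑ q ∈ blk κ (σ i), (R p q * Q v q) • f (ext2 a b p u J) =
            (if p = v then ε else 0) • f (ext2 a b p u J) := by
          intro p _
          rw [← Finset.sum_smul]
          congr 1
          calc ∑ q ∈ blk κ (σ i), R p q * Q v q = ε * ∑ q ∈ blk κ (σ i), R p q * Q q v := by
                rw [Finset.mul_sum]
                exact Finset.sum_congr rfl fun q _ => by rw [hvs q]; ring
            _ = _ := by rw [h.sum_RQ hi p]; split_ifs <;> simp
        rw [Finset.sum_congr rfl h1]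
        simp only [ite_smul, zero_smul]
        rw [Finset.sum_ite_eq', if_pos (mem_blk.2 hi)]
      have e0 : ∀ p ∈ blk κ i, ∀ q ∈ blk κ (σ i), R p q •
          (-(Q v p • f (ext2 a b u q J) - (ε * Q u p) • f (ext2 a b v q J)) -
          (Q v q • f (ext2 a b p u J) - (ε * Q u q) • f (ext2 a b p v J))) =
          (R p q * (ε * Q u p)) • f (ext2 a b v q J) - (R p q * Q v q) • f (ext2 a b p u J) := by
        intro p hp q hq
        rw [z1 p hp, z2 q hq]
        module
      rw [Finset.sum_congr rfl fun p hp => Finset.sum_congr rfl fun q hq => e0 p hp q hq]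
      simp only [Finset.sum_sub_distrib]
      rw [e2, e3, sub_self]
    · by_cases hi' : κ v = σ i
      · have hu : κ u = i := by rw [← h.σσ (κ u), ← huv, hi', h.σσ]
        have z1 : ∀ p ∈ blk κ i, Q u p = 0 := fun p hp => h.Qb _ _ (by
          rw [mem_blk] at hp
          rw [hp, hu]
          exact Ne.symm (h.σne i))
        have z2 : ∀ q ∈ blk κ (σ i), Q v q = 0 := fun q hq => h.Qb _ _ (by
          rw [mem_blk] at hq
          rw [hq, hi']
          exact Ne.symm (h.σne _))
        have e1 : ∑ p ∈ blk κ i, ∑ q ∈ blk κ (σ i), (R p q * Q v p) • f (ext2 a b u q J) =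
            f (ext2 a b u v J) := by
          rw [Finset.sum_comm]
          have h1 : ∀ q ∈ blk κ (σ i), ∑ p ∈ blk κ i, (R p q * Q v p) • f (ext2 a b u q J) =
              (if v = q then (1 : K) else 0) • f (ext2 a b u q J) := by
            intro q _
            rw [← Finset.sum_smul, ← h.sum_QR hi' q]
            congr 1
            exact Finset.sum_congr rfl fun p _ => mul_comm _ _
          rw [Finset.sum_congr rfl h1]
          simp only [ite_smul, one_smul, zero_smul]
          rw [Finset.sum_ite_eq, if_pos (mem_blk.2 hi')]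
        have e4 : ∑ p ∈ blk κ i, ∑ q ∈ blk κ (σ i), (R p q * (ε * Q u q)) • f (ext2 a b p v J) =
            f (ext2 a b u v J) := by
          have h1 : ∀ p ∈ blk κ i, ∑ q ∈ blk κ (σ i), (R p q * (ε * Q u q)) • f (ext2 a b p v J) =
              (if p = u then (1 : K) else 0) • f (ext2 a b p v J) := by
            intro p _
            rw [← Finset.sum_smul, ← h.sum_RQ hu p]
            congr 1
            refine Finset.sum_congr rfl fun q _ => ?_
            rw [hus q, ← mul_assoc ε, hεε, one_mul]
          rw [Finset.sum_congr rfl h1]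
          simp only [ite_smul, one_smul, zero_smul]
          rw [Finset.sum_ite_eq', if_pos (mem_blk.2 hu)]
        have e0 : ∀ p ∈ blk κ i, ∀ q ∈ blk κ (σ i), R p q •
            (-(Q v p • f (ext2 a b u q J) - (ε * Q u p) • f (ext2 a b v q J)) -
            (Q v q • f (ext2 a b p u J) - (ε * Q u q) • f (ext2 a b p v J))) =
            (R p q * (ε * Q u q)) • f (ext2 a b p v J) - (R p q * Q v p) • f (ext2 a b u q J) := by
          intro p hp q hq
          rw [z1 p hp, z2 q hq]
          module
        rw [Finset.sum_congr rfl fun p hp => Finset.sum_congr rfl fun q hq => e0 p hp q hq]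
        simp only [Finset.sum_sub_distrib]
        rw [e1, e4, sub_self]
      · refine Finset.sum_eq_zero fun p hp => Finset.sum_eq_zero fun q hq => ?_
        rw [mem_blk] at hp hq
        have hv1 : σ (κ v) ≠ i := by
          intro h1
          apply hi'
          rw [← h1, h.σσ]
        have hv2 : σ (κ v) ≠ σ i := by
          intro h1
          apply hi
          rw [← h.σσ (κ v), h1, h.σσ]
        have hu1 : σ (κ u) ≠ i := by
          rw [← huv]
          exact hi
        have hu2 : σ (κ u) ≠ σ i := by
          rw [← huv]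
          exact hi'
        rw [h.Qb v p (by rw [hp]; exact Ne.symm hv1), h.Qb u p (by rw [hp]; exact Ne.symm hu1),
          h.Qb v q (by rw [hq]; exact Ne.symm hv2), h.Qb u q (by rw [hq]; exact Ne.symm hu2)]
        simp
  have hneg : (∑ p ∈ blk κ i, ∑ q ∈ blk κ (σ i), R p q •
        (-(Q v p • f (ext2 a b u q J) - (ε * Q u p) • f (ext2 a b v q J)) -
      (Q v q • f (ext2 a b p u J) - (ε * Q u q) • f (ext2 a b p v J)))) = 0 := hzero
  rw [hneg, add_zero]

theorem sup_con' {f : (S → B) → M} (hf : Sup κ c f) {i : ι} {a b : S} (R : Matrix B B K) :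
    Sup κ (fun x : {x // x ≠ a ∧ x ≠ b} => c x.1) (con' κ σ R i a b f) := by
  intro J hJ
  unfold con'
  refine Finset.sum_eq_zero fun p _ => Finset.sum_eq_zero fun q _ => ?_
  rw [hf, smul_zero]
  intro h
  apply hJ
  intro x
  have := h x.1
  rwa [ext2_val] at this

end

/-- **The first fundamental theorem** for a product of general linear groups, and for special
linear groups if the weights are small. -/
theorem fft' [CharZero K] (h : Dat κ σ Q R s t) (ht : ∀ i, t i < 1) (N : ℕ) :
    ∀ (S : Type) [Fintype S] [DecidableEq S] (c : S → ι)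
    (f : (S → B) → M), Fintype.card S = N → Sup κ c f → InvT κ σ Q s t f → f ∈ Gen κ Q c := by
  classical
  induction N using Nat.strong_induction_on with
  | _ N ih =>
    intro S _ _ c f hN hsup hinv
    rcases isEmpty_or_nonempty S with hS | ⟨⟨a0⟩⟩
    · refine Submodule.subset_span ⟨0, Equiv.equivOfIsEmpty _ _, f (fun j => (hS.false j).elim), ?_⟩
      funext J
      unfold gen
      rw [if_pos (fun j => (hS.false j).elim), Finset.univ_eq_empty, Finset.prod_empty, one_smul]
      congr 1
      funext j
      exact (hS.false j).elim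
    · set i := c a0 with hi
      refine alt_mem' (K := K) (κ := κ) (c := c) (i := i) (Gen κ Q c)
        (fun a b ha hb f hf => rho_Gen (c_swap ha hb) hf) (blk κ i).card rfl
        (univ.filter (c · = i)) rfl ((blk κ i).card - t i) ?_ ((blk κ i).card + 1) {a0} ?_
        ⟨a0, by simp⟩ ?_ f hsup ?_ ?_
      · have := ht i
        linarith
      · intro x hx
        rw [Finset.mem_singleton] at hx
        rw [hx]
        simp [hi]
      · rw [Finset.card_singleton]
        omega
      · intro a ha
        have hai : c a = i := (Finset.mem_filter.1 ha).2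
        have hcon : ∀ b ∈ (univ.filter fun j => c j = σ i),
            con' κ σ R i a b f ∈ Gen κ Q (fun x : {x // x ≠ a ∧ x ≠ b} => c x.1) := by
          intro b hb
          rw [Finset.mem_filter] at hb
          have hab : a ≠ b := by
            rintro rfl
            exact h.σne i (by rw [← hb.2, hai])
          refine ih (Fintype.card {x // x ≠ a ∧ x ≠ b}) ?_ _ _ _ rfl (sup_con' hsup R)
            (inv_con' h hinv hab)
          rw [← hN]
          exact Fintype.card_subtype_lt (x := a) (fun h => h.1 rfl)
        have hsum : s i • ∑ b ∈ (univ.filter fun j => c j = σ i),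
            (fun J : S → B => if ∀ j, κ (J j) = c j then
              Q (J a) (J b) • con' κ σ R i a b f (fun x => J x.1) else 0) ∈ Gen κ Q c := by
          refine Submodule.smul_mem _ _ (Submodule.sum_mem _ fun b hb => ?_)
          have hab : a ≠ b := by
            rintro rfl
            exact h.σne i (by rw [← (Finset.mem_filter.1 hb).2, hai])
          exact mul_Gen κ Q c hab (hcon b hb)
        convert hsum using 1
        funext J
        rw [Pi.add_apply, Pi.smul_apply, Finset.sum_apply, Pi.smul_apply, Finset.sum_apply]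
        by_cases hJ : ∀ j, κ (J j) = c j
        · simp only [if_pos hJ]
          exact cas' h hinv hJ hai
        · simp only [if_neg hJ, Finset.sum_const_zero, smul_zero]
          rw [hsup J hJ, smul_zero, zero_add]
          refine Finset.sum_eq_zero fun b hb => ?_
          rw [Finset.mem_erase, Finset.mem_filter] at hb
          exact Sup_rho (K := K) (c_swap hai hb.2.2) hsup J hJ
      · intro a ha b hb hab
        rw [Finset.mem_singleton] at ha hb
        exact absurd (ha.trans hb.symm) hab

end Pool.Agent.H842.CR
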