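import Pool.Agent.H842.CR.All
import Pool.Graph.R_pool_sql_team_seeded_b0a926ef.R914.UN.Tp

/-!
# Flat classes and algebraic classes
-/

set_option linter.unusedSectionVars false

open Matrix Finset Function

open scoped ComplexOrder MatrixOrder

namespace Pool.Agent.H842.CR

open Pool.Agent.TH125.Nod
open Pool.Agent.R914.UN renaming tp → tw, tp_apply → tw_apply, tp_one → tw_one, tp_mul → tw_mul,
  tp_conjTranspose → tw_conjTranspose

variable {B D : Type} [Fintype B] [DecidableEq B] [Fintype D] [DecidableEq D] {k : ℕ}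
  {ι : Type} [DecidableEq ι] {κ : B → ι} {Q T : Matrix B B ℚ} {s : ι → ℤ}

/-- Hodge classes are killed by the Hodge operators. -/
theorem act_of_hodge {E : Type} [NormedAddCommGroup E] [NormedSpace ℂ E] {U : Set E}
    {x : E → Matrix B B ℂ} {y : E → Matrix D D ℂ} (hV : IsVHS U x) (hD : IsVHS U y) {u : E}
    (hu : u ∈ U) {f : (Fin k → B) → D → ℚ} (hf : IsHodge (x u) (y u) f) :
    act (x u, y u) (cx f) = 0 := by
  obtain ⟨g, d, -, hfr⟩ := hV.frame
  obtain ⟨g', d', -, hfr'⟩ := hD.frame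
  obtain ⟨P, -, -, hPu, hxP, -⟩ := hfr u hu
  obtain ⟨R, -, -, hRu, hyR, -⟩ := hfr' u hu
  exact act_zero_of_psi hPu hRu hxP hyR (psi_of_hodge hxP hyR hf)

/-- products are killed by the Hodge operator -/
theorem P0T_act {E : Type} {U : Set E} {x : E → Matrix B B ℂ} {y : E → Matrix D D ℂ}
    {u : E} (hu : u ∈ U) (hL : IsLie κ Q (mm U x y)) (hT : ∀ a ∈ mm U x y, a.1 * T = T * a.1)
    {p : (Fin k → B) → ℚ} (hp : p ∈ P0T κ Q T k) (J : Fin k → B) :
    ∑ j, ∑ q, x u q (J j) * (p (update J j q) : ℂ) = 0 := by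
  obtain ⟨τ, F, β, φ, hx, -⟩ := exists_decomp (x u) (y u)
  have h2 : ∀ q b, x u q b = ∑ t ∈ F, β t * ((φ t (x u q b) : ℚ) : ℂ) := by
    intro q b
    have := congrFun (congrFun hx q) b
    rw [Matrix.sum_apply] at this
    exact this
  calc ∑ j, ∑ q, x u q (J j) * (p (update J j q) : ℂ) =
        ∑ j, ∑ q, ∑ t ∈ F, β t * (((φ t (x u q (J j)) * p (update J j q) : ℚ)) : ℂ) := by
          refine Finset.sum_congr rfl fun j _ => Finset.sum_congr rfl fun q _ => ?_
          rw [h2 q (J j), Finset.sum_mul]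
          refine Finset.sum_congr rfl fun t _ => ?_
          rw [← h2 q (J j)]
          push_cast
          ring
    _ = ∑ t ∈ F, β t * ((∑ j, ∑ q, φ t (x u q (J j)) * p (update J j q) : ℚ) : ℂ) := by
          have h3 : ∀ j, ∑ q, ∑ t ∈ F, β t * (((φ t (x u q (J j)) * p (update J j q) : ℚ)) : ℂ) =
              ∑ t ∈ F, ∑ q, β t * (((φ t (x u q (J j)) * p (update J j q) : ℚ)) : ℂ) :=
            fun j => Finset.sum_comm
          simp only [h3]
          rw [Finset.sum_comm]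
          refine Finset.sum_congr rfl fun t _ => ?_
          push_cast
          rw [Finset.mul_sum]
          exact Finset.sum_congr rfl fun j _ => by rw [Finset.mul_sum]
    _ = 0 := by
          refine Finset.sum_eq_zero fun t _ => ?_
          have ha := gen_mem (x := x) (y := y) hu (φ t)
          have h3 := P0T_inv (hL.skew _ ha) (hT _ ha) (hL.blk _ ha) hp J
          have h4 : ∑ j, ∑ q, φ t (x u q (J j)) * p (update J j q) = 0 := h3
          rw [h4, Rat.cast_zero, mul_zero]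

/-- the support in an eigenbasis -/
theorem psi_supp {X P : Matrix B B ℂ} {d : B → ℤ} (hX : X * P = P * diagonal (fun i => (d i : ℂ)))
    {p : (Fin k → B) → ℂ} (h : ∀ J, ∑ j, ∑ q, X q (J j) * p (update J j q) = 0) (K : Fin k → B) :
    (∑ j, (d (K j) : ℂ)) * (tw (Fin k) Pᵀ *ᵥ p) K = 0 := by
  let f : (Fin k → B) → Unit → ℂ := fun J _ => p J
  have h1 : act (X, (0 : Matrix Unit Unit ℂ)) f = 0 := by
    funext J l
    rw [act_apply]
    have h2 : ∑ m, (0 : Matrix Unit Unit ℂ) m l * f J m = 0 :=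
      Finset.sum_eq_zero fun m _ => by rw [Matrix.zero_apply, zero_mul]
    rw [h2, add_zero]
    exact h J
  have hY : (0 : Matrix Unit Unit ℂ) * 1 = 1 * diagonal (fun _ => ((0 : ℤ) : ℂ)) := by
    ext i j
    simp
  have h2 := pul_act hX hY f
  rw [h1] at h2
  have h3 : pul P (1 : Matrix Unit Unit ℂ) (0 : (Fin k → B) → Unit → ℂ) = 0 := pul_zero _ _
  rw [h3] at h2
  have h4 := congrFun (congrFun h2.symm K) ()
  rw [act_apply, Pi.zero_apply, Pi.zero_apply] at h4
  have h5 : pul P (1 : Matrix Unit Unit ℂ) f K () = (tw (Fin k) Pᵀ *ᵥ p) K := by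
    show ∑ I : Fin k → B, ∑ m, f I m * (∏ j, P (I j) (K j)) * (1 : Matrix Unit Unit ℂ) m () =
      ∑ I, tw (Fin k) Pᵀ K I * p I
    refine Finset.sum_congr rfl fun I _ => ?_
    rw [Fintype.sum_unique, tw_apply]
    simp only [transpose_apply]
    have : (1 : Matrix Unit Unit ℂ) default () = 1 := Matrix.one_apply_eq _
    rw [this, mul_one, mul_comm]
  have h6 : ∀ j, ∑ q, diagonal (fun i => (d i : ℂ)) q (K j) *
      pul P (1 : Matrix Unit Unit ℂ) f (update K j q) () =
      (d (K j) : ℂ) * (tw (Fin k) Pᵀ *ᵥ p) K := by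
    intro j
    rw [Finset.sum_eq_single (K j)]
    · rw [diagonal_apply_eq, update_eq_self, h5]
    · intro q _ hq
      rw [diagonal_apply_ne _ hq, zero_mul]
    · intro h
      exact absurd (Finset.mem_univ _) h
  have h7 : ∑ m, diagonal (fun _ : Unit => ((0 : ℤ) : ℂ)) m () *
      pul P (1 : Matrix Unit Unit ℂ) f K m = 0 :=
    Finset.sum_eq_zero fun m _ => by simp
  rw [h7, add_zero, Finset.sum_congr rfl fun j _ => h6 j, ← Finset.sum_mul] at h4
  exact h4

/-- positivity of the form on products -/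
theorem gram_ne {E : Type} [NormedAddCommGroup E] [NormedSpace ℂ E] {U : Set E}
    {x : E → Matrix B B ℂ} {y : E → Matrix D D ℂ} {u : E} (hu : u ∈ U) (hV : IsVHS U x)
    (hP : IsPolarized U κ s Q x) (hL : IsLie κ Q (mm U x y))
    (hT : ∀ a ∈ mm U x y, a.1 * T = T * a.1) {p : (Fin k → B) → ℚ} (hp : p ∈ P0T κ Q T k)
    (h0 : p ≠ 0) : ∑ I, ∑ J, p I * (∏ j, Q⁻¹ (I j) (J j)) * p J ≠ 0 := by
  obtain ⟨P, d, hPu, hxP, hG⟩ := exists_gram hV hP hu
  set S := Pᵀ * mC Q * P.map (starRingEnd ℂ) with hS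
  set Dg := diagonal (fun i => Complex.I ^ (d i)) with hDg
  set pc : (Fin k → B) → ℂ := fun J => (p J : ℂ) with hpc
  set ψ := tw (Fin k) Pᵀ *ᵥ pc with hψ
  have hsupp := psi_supp (p := pc) hxP (fun J => P0T_act (y := y) hu hL hT hp J)
  have hQ := det_unit hV hP hu
  have hQC : IsUnit (mC Q).det := by
    have h3 : (mC Q).det = ((Q.det : ℚ) : ℂ) := by
      unfold mC
      exact (RingHom.map_det (Rat.castHom ℂ) Q).symm
    rw [h3]
    exact hQ.map (Rat.castHom ℂ)
  have hPbar : IsUnit (P.map (starRingEnd ℂ)).det := by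
    have h3 : (P.map (starRingEnd ℂ)).det = (starRingEnd ℂ) P.det :=
      (RingHom.map_det (starRingEnd ℂ) P).symm
    rw [h3]
    exact hPu.map (starRingEnd ℂ)
  have hPT : IsUnit Pᵀ.det := by rwa [det_transpose]
  have hSu : IsUnit S.det := by
    rw [hS, det_mul, det_mul]
    exact (hPT.mul hQC).mul hPbar
  have hDD : Dg * diagonal (fun i => Complex.I ^ (-(d i))) = 1 := by
    rw [hDg, diagonal_mul_diagonal, ← diagonal_one]
    congr 1
    funext i
    rw [← zpow_add₀ Complex.I_ne_zero, add_neg_cancel, zpow_zero]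
  -- the inverse of the Gram matrix
  have hQinv : (mC Q)⁻¹ = P.map (starRingEnd ℂ) * S⁻¹ * Pᵀ := by
    rw [hS, Matrix.mul_inv_rev, Matrix.mul_inv_rev]
    calc (mC Q)⁻¹ = (P.map (starRingEnd ℂ) * (P.map (starRingEnd ℂ))⁻¹) * (mC Q)⁻¹ *
          ((Pᵀ)⁻¹ * Pᵀ) := by
          rw [mul_nonsing_inv _ hPbar, nonsing_inv_mul _ hPT, one_mul, mul_one]
      _ = _ := by simp only [Matrix.mul_assoc]
  set G := Sᵀ * Dg with hGdef
  have hGT : Gᵀ = Dg * S := by
    rw [hGdef, transpose_mul, transpose_transpose, hDg, diagonal_transpose]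
  have hGTp : (Gᵀ)⁻¹.PosDef := hG.transpose.inv
  have hSinv : S⁻¹ = (Gᵀ)⁻¹ * Dg := by
    rw [hGT, Matrix.mul_inv_rev Dg S, Matrix.mul_assoc S⁻¹, nonsing_inv_mul, mul_one]
    rw [hDg, det_diagonal]
    exact (Finset.prod_ne_zero_iff.2 fun i _ => zpow_ne_zero _ Complex.I_ne_zero).isUnit
  have hDψ : tw (Fin k) Dg *ᵥ ψ = ψ := by
    have h1 : tw (Fin k) Dg = diagonal (fun K : Fin k → B => ∏ j, Complex.I ^ (d (K j))) := by
      ext I J
      rw [tw_apply]
      by_cases h : I = J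
      · subst h
        rw [diagonal_apply_eq]
        exact Finset.prod_congr rfl fun j _ => diagonal_apply_eq _ _
      · rw [diagonal_apply_ne _ h]
        obtain ⟨i, hi⟩ := Function.ne_iff.1 h
        exact Finset.prod_eq_zero (Finset.mem_univ i) (diagonal_apply_ne _ hi)
    funext K
    rw [h1, mulVec_diagonal]
    rcases mul_eq_zero.1 (hsupp K) with h2 | h2
    · have h3 : ∑ j, d (K j) = 0 := by exact_mod_cast h2
      have h4 : ∏ j, Complex.I ^ (d (K j)) = Complex.I ^ (∑ j, d (K j)) := by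
        have : ∀ F : Finset (Fin k), ∏ j ∈ F, Complex.I ^ (d (K j)) =
            Complex.I ^ (∑ j ∈ F, d (K j)) := by
          intro F
          induction F using Finset.induction_on with
          | empty => simp
          | insert a F ha ih =>
            rw [Finset.prod_insert ha, Finset.sum_insert ha, zpow_add₀ Complex.I_ne_zero, ih]
        exact this univ
      rw [h4, h3, zpow_zero, one_mul]
    · rw [show ψ K = 0 from h2, mul_zero]
  obtain ⟨R, hR⟩ := CStarAlgebra.nonneg_iff_eq_star_mul_self.mp hGTp.posSemidef.nonneg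
  have hR' : (Gᵀ)⁻¹ = Rᴴ * R := hR
  have hRu : IsUnit R.det := by
    have h1 : IsUnit ((Gᵀ)⁻¹).det := (Matrix.isUnit_iff_isUnit_det _).1 hGTp.isUnit
    rw [hR', det_mul] at h1
    exact isUnit_of_mul_isUnit_right h1
  have hstar : star ψ = tw (Fin k) (P.map (starRingEnd ℂ))ᵀ *ᵥ pc := by
    funext K
    show star (∑ I, tw (Fin k) Pᵀ K I * pc I) =
      ∑ I, tw (Fin k) (P.map (starRingEnd ℂ))ᵀ K I * pc I
    rw [star_sum]
    refine Finset.sum_congr rfl fun I _ => ?_
    rw [star_mul', tw_apply, tw_apply, star_prod]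
    congr 1
    show star ((p I : ℚ) : ℂ) = ((p I : ℚ) : ℂ)
    rw [Complex.star_def]
    exact map_ratCast (starRingEnd ℂ) (p I)
  have hval : ((∑ I, ∑ J, p I * (∏ j, Q⁻¹ (I j) (J j)) * p J : ℚ) : ℂ) =
      star (tw (Fin k) R *ᵥ ψ) ⬝ᵥ (tw (Fin k) R *ᵥ ψ) := by
    have hmC : mC Q⁻¹ = (mC Q)⁻¹ := by
      have h1 : mC Q * mC Q⁻¹ = 1 := by
        have h2 : mC Q * mC Q⁻¹ = mC (Q * Q⁻¹) := by
          unfold mC
          exact (Matrix.map_mul (f := Rat.castHom ℂ) (L := Q) (M := Q⁻¹)).symm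
        rw [h2, mul_nonsing_inv _ hQ]
        unfold mC
        exact Matrix.map_one _ Rat.cast_zero Rat.cast_one
      exact (Matrix.inv_eq_right_inv h1).symm
    have e1 : ((∑ I, ∑ J, p I * (∏ j, Q⁻¹ (I j) (J j)) * p J : ℚ) : ℂ) =
        pc ⬝ᵥ (tw (Fin k) (mC Q)⁻¹ *ᵥ pc) := by
      rw [← hmC]
      push_cast
      rw [dotProduct]
      refine Finset.sum_congr rfl fun I _ => ?_
      rw [mulVec, dotProduct, Finset.mul_sum]
      refine Finset.sum_congr rfl fun J _ => ?_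
      rw [tw_apply, mul_assoc]
      rfl
    have e2 : pc ⬝ᵥ (tw (Fin k) (mC Q)⁻¹ *ᵥ pc) =
        (tw (Fin k) (P.map (starRingEnd ℂ))ᵀ *ᵥ pc) ⬝ᵥ (tw (Fin k) S⁻¹ *ᵥ ψ) := by
      have ht : ∀ M : Matrix B B ℂ, tw (Fin k) Mᵀ = (tw (Fin k) M)ᵀ := fun M => rfl
      rw [hQinv, tw_mul, tw_mul, ht (P.map (starRingEnd ℂ)), mulVec_transpose,
        ← dotProduct_mulVec, hψ, mulVec_mulVec, mulVec_mulVec]
    rw [e1, e2, ← hstar, hSinv, tw_mul, ← mulVec_mulVec, hDψ, hR', tw_mul, tw_conjTranspose,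
      ← mulVec_mulVec, star_mulVec (tw (Fin k) R) ψ, ← dotProduct_mulVec]
  intro h
  rw [h, Rat.cast_zero] at hval
  have h1 : tw (Fin k) R *ᵥ ψ = 0 := dotProduct_star_self_eq_zero.1 hval.symm
  have h2 : ψ = 0 := by
    have h3 := congrArg (fun v => tw (Fin k) R⁻¹ *ᵥ v) h1
    simp only [mulVec_mulVec, ← tw_mul, nonsing_inv_mul _ hRu, tw_one, one_mulVec,
      mulVec_zero] at h3
    exact h3
  have h4 : pc = 0 := by
    have h3 := congrArg (fun v => tw (Fin k) (Pᵀ)⁻¹ *ᵥ v) h2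
    rw [hψ] at h3
    simp only [mulVec_mulVec, ← tw_mul, nonsing_inv_mul _ hPT, tw_one, one_mulVec,
      mulVec_zero] at h3
    exact h3
  apply h0
  funext J
  have h5 : ((p J : ℚ) : ℂ) = 0 := congrFun h4 J
  exact_mod_cast h5

end Pool.Agent.H842.CR
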