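import Pool.Graph.R_pool_sql_team_seeded_ab47071d.TH125.Nod.Core

/-!
# Lie algebras normalized by a complex reflection
-/

set_option linter.unusedSectionVars false

open Matrix Finset

namespace Pool.Agent.H842.CR

open Pool.Agent.TH125.Nod

variable {B : Type} [Fintype B] [DecidableEq B] {D : Type} [Fintype D]
  [DecidableEq D] {ι : Type} [DecidableEq ι]

section field
variable {K : Type} [Field K]

/-- the average of the operators `WW` over the group generated by `T` -/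
def AA (Q : Matrix B B K) (s : K) (T : Matrix B B K) (d : ℕ) (v w : B → K) : Matrix B B K :=
  ∑ j ∈ range d, WW Q s (T ^ j *ᵥ v) (T ^ j *ᵥ w)

variable {Q : Matrix B B K} {s : K} {T : Matrix B B K} {d : ℕ}

theorem AA_add_left (v v' w : B → K) :
    AA Q s T d (v + v') w = AA Q s T d v w + AA Q s T d v' w := by
  unfold AA
  rw [← Finset.sum_add_distrib]
  exact Finset.sum_congr rfl fun j _ => by rw [mulVec_add, WW_add_left]

theorem AA_add_right (v w w' : B → K) :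
    AA Q s T d v (w + w') = AA Q s T d v w + AA Q s T d v w' := by
  unfold AA
  rw [← Finset.sum_add_distrib]
  exact Finset.sum_congr rfl fun j _ => by rw [mulVec_add, WW_add_right]

theorem AA_smul_left (c : K) (v w : B → K) : AA Q s T d (c • v) w = c • AA Q s T d v w := by
  unfold AA
  rw [Finset.smul_sum]
  exact Finset.sum_congr rfl fun j _ => by rw [mulVec_smul, WW_smul_left]

theorem AA_smul_right (c : K) (v w : B → K) : AA Q s T d v (c • w) = c • AA Q s T d v w := by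
  unfold AA
  rw [Finset.smul_sum]
  exact Finset.sum_congr rfl fun j _ => by rw [mulVec_smul, WW_smul_right]

theorem AA_zero_left (w : B → K) : AA Q s T d 0 w = 0 := by
  have := AA_smul_left (Q := Q) (s := s) (T := T) (d := d) 0 (0 : B → K) w
  rwa [zero_smul, zero_smul] at this

theorem AA_zero_right (v : B → K) : AA Q s T d v 0 = 0 := by
  have := AA_smul_right (Q := Q) (s := s) (T := T) (d := d) 0 v (0 : B → K)
  rwa [zero_smul, zero_smul] at this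

theorem AA_sub_left (v v' w : B → K) :
    AA Q s T d (v - v') w = AA Q s T d v w - AA Q s T d v' w := by
  rw [sub_eq_add_neg, AA_add_left, ← neg_one_smul K v', AA_smul_left, neg_one_smul,
    ← sub_eq_add_neg]

theorem range_shift {M : Type} [AddCommGroup M] (f : ℕ → M) (n : ℕ) (h : f n = f 0) :
    ∑ j ∈ range n, f (j + 1) = ∑ j ∈ range n, f j := by
  have h1 := Finset.sum_range_succ f n
  rw [Finset.sum_range_succ' f n, h] at h1
  exact add_right_cancel h1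

theorem AA_T (hT : T ^ d = 1) (v w : B → K) :
    AA Q s T d (T *ᵥ v) (T *ᵥ w) = AA Q s T d v w := by
  unfold AA
  rw [← range_shift (fun j => WW Q s (T ^ j *ᵥ v) (T ^ j *ᵥ w)) d (by simp only [hT, pow_zero])]
  refine Finset.sum_congr rfl fun j _ => ?_
  rw [mulVec_mulVec, mulVec_mulVec, ← pow_succ]

theorem AA_mulVec (v w x : B → K) : AA Q s T d v w *ᵥ x =
    ∑ j ∈ range d, (bQ Q (T ^ j *ᵥ w) x • (T ^ j *ᵥ v) -
      (s * bQ Q (T ^ j *ᵥ v) x) • (T ^ j *ᵥ w)) := by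
  unfold AA
  rw [Matrix.sum_mulVec]
  exact Finset.sum_congr rfl fun j _ => WW_mulVec _ _ _

/-- bracket with a skew operator commuting with `T` -/
theorem bracket_AA {X : Matrix B B K} (hX : Xᵀ * Q + Q * X = 0) (hXT : X * T = T * X)
    (a b : B → K) :
    X * AA Q s T d a b - AA Q s T d a b * X = AA Q s T d (X *ᵥ a) b + AA Q s T d a (X *ᵥ b) := by
  unfold AA
  rw [Finset.mul_sum, Finset.sum_mul, ← Finset.sum_sub_distrib, ← Finset.sum_add_distrib]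
  refine Finset.sum_congr rfl fun j _ => ?_
  have h : ∀ j, X * T ^ j = T ^ j * X := fun j => (Commute.pow_right (show Commute X T from hXT) j)
  rw [bracket_WW hX, mulVec_mulVec, mulVec_mulVec, mulVec_mulVec, mulVec_mulVec, h]

theorem conj_EE {γ γ' : Matrix B B K} (hγ : γᵀ * Q * γ = Q) (hγγ : γ * γ' = 1) (a b : B → K) :
    γ * EE Q a b * γ' = EE Q (γ *ᵥ a) (γ *ᵥ b) := by
  rw [mul_EE]
  unfold EE
  rw [vecMulVec_mul]
  congr 1
  rw [vecMul_vecMul, ← vecMul_transpose, vecMul_vecMul]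
  congr 1
  calc Q * γ' = γᵀ * Q * γ * γ' := by rw [hγ]
    _ = γᵀ * Q * (γ * γ') := by noncomm_ring
    _ = γᵀ * Q := by rw [hγγ, mul_one]

theorem conj_AA {γ γ' : Matrix B B K} (hγ : γᵀ * Q * γ = Q) (hγγ : γ * γ' = 1)
    (hγT : γ * T = T * γ) (a b : B → K) :
    γ * AA Q s T d a b * γ' = AA Q s T d (γ *ᵥ a) (γ *ᵥ b) := by
  unfold AA
  rw [Finset.mul_sum, Finset.sum_mul]
  refine Finset.sum_congr rfl fun j _ => ?_
  have h : ∀ j, γ * T ^ j = T ^ j * γ := fun j =>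
    (Commute.pow_right (show Commute γ T from hγT) j)
  unfold WW
  rw [mul_sub, sub_mul, mul_smul_comm, smul_mul_assoc, conj_EE hγ hγγ, conj_EE hγ hγγ,
    mulVec_mulVec, mulVec_mulVec, mulVec_mulVec, mulVec_mulVec, h]

/-- polynomials in `T` -/
noncomputable def tp (T : Matrix B B K) (P : Polynomial K) : Matrix B B K := Polynomial.aeval T P

theorem tp_mul (P P' : Polynomial K) : tp T (P * P') = tp T P * tp T P' := map_mul _ _ _

theorem tp_X : tp T Polynomial.X = T := Polynomial.aeval_X T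

theorem tp_comm {X : Matrix B B K} (hXT : X * T = T * X) (P : Polynomial K) :
    X * tp T P = tp T P * X := by
  unfold tp
  induction P using Polynomial.induction_on' with
  | add p q hp hq => rw [map_add, mul_add, add_mul, hp, hq]
  | monomial n a =>
    rw [← Polynomial.C_mul_X_pow_eq_monomial, map_mul, Polynomial.aeval_C, map_pow,
      Polynomial.aeval_X, Algebra.algebraMap_eq_smul_one, smul_mul_assoc, one_mul, mul_smul_comm,
      smul_mul_assoc, (Commute.pow_right (show Commute X T from hXT) n).eq]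

end field

/-- The situation of a Lie algebra `𝔪` commuting with the automorphism `T` and normalized by a
complex reflection `γ`. -/
structure Ctx (κ : B → ι) (Q : Matrix B B ℚ) (T : Matrix B B ℚ) (d : ℕ) (i : ι) (sg : ℚ)
    (δ : B → ℚ) (ε : ℚ) (γ : Matrix B B ℚ) (η : Matrix D D ℚ) (n : ℕ)
    (𝔪 : Submodule ℚ (Matrix B B ℚ × Matrix D D ℚ)) : Prop where
  lie : IsLie κ Q 𝔪
  comm : ∀ a ∈ 𝔪, a.1 * T = T * a.1
  dpos : 0 < d
  Td : T ^ d = 1
  iso : Tᵀ * Q * T = Q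
  blkT : ∀ a b, κ a ≠ κ b → T a b = 0
  unit : IsUnit (T ^ 2 - 1).det
  sgsg : sg * sg = 1
  Qs : ∀ a b, κ a = i → Q a b = sg * Q b a
  Qdet : IsUnit Q.det
  hδ : InBlk κ i δ
  hε : ε * ε = 1
  γ1 : ∀ j : ℕ, γ *ᵥ (T ^ j *ᵥ δ) = ε • (T ^ (j + 1) *ᵥ δ)
  γ2 : ∀ v, (∀ j : ℕ, bQ Q (T ^ j *ᵥ δ) v = 0) → γ *ᵥ v = v
  mon : ∀ γ' η', γ * γ' = 1 → η * η' = 1 → ∀ a ∈ 𝔪, (γ * a.1 * γ', η * a.2 * η') ∈ 𝔪
  nil : (η ^ 2 - 1) ^ n = 0
  gen : ∀ W : Submodule ℚ (B → ℚ), (∀ w ∈ W, InBlk κ i w) → (∀ w ∈ W, T *ᵥ w ∈ W) →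
    (∀ a ∈ 𝔪, ∀ w ∈ W, a.1 *ᵥ w ∈ W) → δ ∈ W → ∀ w, InBlk κ i w → w ∈ W

variable {κ : B → ι} {Q T : Matrix B B ℚ} {d : ℕ} {i : ι} {sg : ℚ} {δ : B → ℚ} {ε : ℚ}
  {γ : Matrix B B ℚ} {η : Matrix D D ℚ} {n : ℕ}
  {𝔪 : Submodule ℚ (Matrix B B ℚ × Matrix D D ℚ)}

/-- the vector is orthogonal to the `T`-orbit of `δ` -/
def Perp {K : Type} [Field K] (Q T : Matrix B B K) (δ v : B → K) : Prop :=
  ∀ j : ℕ, bQ Q (T ^ j *ᵥ δ) v = 0

theorem bQ_zero_left (v : B → ℚ) : bQ Q 0 v = 0 := by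
  unfold bQ
  rw [zero_dotProduct]

theorem bQ_zero_right (v : B → ℚ) : bQ Q v 0 = 0 := by
  unfold bQ
  rw [mulVec_zero, dotProduct_zero]

theorem bQ_sub_right (a b b' : B → ℚ) : bQ Q a (b - b') = bQ Q a b - bQ Q a b' := by
  unfold bQ
  rw [mulVec_sub, dotProduct_sub]

theorem bQ_sum_left {α : Type} (F : Finset α) (f : α → B → ℚ) (v : B → ℚ) :
    bQ Q (∑ a ∈ F, f a) v = ∑ a ∈ F, bQ Q (f a) v := by
  unfold bQ
  rw [sum_dotProduct]

theorem bQ_iso {X : Matrix B B ℚ} (hX : Xᵀ * Q * X = Q) (a b : B → ℚ) :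
    bQ Q (X *ᵥ a) (X *ᵥ b) = bQ Q a b := by
  unfold bQ
  rw [mulVec_mulVec, ← vecMul_transpose, ← dotProduct_mulVec, mulVec_mulVec, ← mul_assoc, hX]

namespace Ctx

variable (h : Ctx κ Q T d i sg δ ε γ η n 𝔪)
include h

theorem bQT (a b : B → ℚ) : bQ Q (T *ᵥ a) (T *ᵥ b) = bQ Q a b := bQ_iso h.iso a b

theorem sym {v : B → ℚ} (hv : InBlk κ i v) (w : B → ℚ) : bQ Q v w = sg * bQ Q w v :=
  bQ_symm Q h.Qs hv w

theorem pow_blk (j : ℕ) {v : B → ℚ} (hv : InBlk κ i v) : InBlk κ i (T ^ j *ᵥ v) := by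
  induction j with
  | zero => rwa [pow_zero, one_mulVec]
  | succ j ih =>
    rw [pow_succ', ← mulVec_mulVec]
    exact ih.mulVec h.blkT

theorem tp_blk (P : Polynomial ℚ) {v : B → ℚ} (hv : InBlk κ i v) : InBlk κ i (tp T P *ᵥ v) := by
  unfold tp
  induction P using Polynomial.induction_on' with
  | add p q hp hq =>
    rw [map_add, add_mulVec]
    exact hp.add hq
  | monomial n a =>
    rw [← Polynomial.C_mul_X_pow_eq_monomial, map_mul, Polynomial.aeval_C, map_pow,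
      Polynomial.aeval_X, Algebra.algebraMap_eq_smul_one, smul_mul_assoc, one_mul, smul_mulVec]
    exact (h.pow_blk n hv).smul a

theorem perp_T {v : B → ℚ} (hv : Perp Q T δ v) : Perp Q T δ (T *ᵥ v) := by
  intro j
  have h1 : bQ Q (T ^ j *ᵥ δ) (T *ᵥ v) = bQ Q (T ^ (j + (d - 1)) *ᵥ δ) v := by
    rw [← h.bQT (T ^ (j + (d - 1)) *ᵥ δ) v, mulVec_mulVec, ← pow_succ']
    have : j + (d - 1) + 1 = j + d := by have := h.dpos; omega
    rw [this, pow_add, h.Td, mul_one]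
  rw [h1]
  exact hv _

theorem perp_add {v w : B → ℚ} (hv : Perp Q T δ v) (hw : Perp Q T δ w) : Perp Q T δ (v + w) := by
  intro j
  rw [bQ_add_right, hv j, hw j, add_zero]

theorem perp_smul (c : ℚ) {v : B → ℚ} (hv : Perp Q T δ v) : Perp Q T δ (c • v) := by
  intro j
  rw [bQ_smul_right, hv j, mul_zero]

theorem perp_tp {v : B → ℚ} (hv : Perp Q T δ v) (P : Polynomial ℚ) :
    Perp Q T δ (tp T P *ᵥ v) := by
  have hpow : ∀ j : ℕ, Perp Q T δ (T ^ j *ᵥ v) := by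
    intro j
    induction j with
    | zero => rwa [pow_zero, one_mulVec]
    | succ j ih =>
      rw [pow_succ', ← mulVec_mulVec]
      exact h.perp_T ih
  unfold tp
  induction P using Polynomial.induction_on' with
  | add p q hp hq =>
    rw [map_add, add_mulVec]
    exact h.perp_add hp hq
  | monomial n a =>
    rw [← Polynomial.C_mul_X_pow_eq_monomial, map_mul, Polynomial.aeval_C, map_pow,
      Polynomial.aeval_X, Algebra.algebraMap_eq_smul_one, smul_mul_assoc, one_mul, smul_mulVec]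
    exact h.perp_smul a (hpow n)

theorem perp_left {v : B → ℚ} (hv : Perp Q T δ v) (P : Polynomial ℚ) :
    bQ Q (tp T P *ᵥ δ) v = 0 := by
  unfold tp
  induction P using Polynomial.induction_on' with
  | add p q hp hq => rw [map_add, add_mulVec, bQ_add_left, hp, hq, add_zero]
  | monomial n a =>
    rw [← Polynomial.C_mul_X_pow_eq_monomial, map_mul, Polynomial.aeval_C, map_pow,
      Polynomial.aeval_X, Algebra.algebraMap_eq_smul_one, smul_mul_assoc, one_mul, smul_mulVec,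
      bQ_smul_left, hv n, mul_zero]

theorem γ_S (P : Polynomial ℚ) : γ *ᵥ (tp T P *ᵥ δ) = ε • (T *ᵥ (tp T P *ᵥ δ)) := by
  unfold tp
  induction P using Polynomial.induction_on' with
  | add p q hp hq => rw [map_add, add_mulVec, mulVec_add, mulVec_add, hp, hq, smul_add]
  | monomial n a =>
    rw [← Polynomial.C_mul_X_pow_eq_monomial, map_mul, Polynomial.aeval_C, map_pow,
      Polynomial.aeval_X, Algebra.algebraMap_eq_smul_one, smul_mul_assoc, one_mul, smul_mulVec,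
      mulVec_smul, mulVec_smul, h.γ1, pow_succ', ← mulVec_mulVec, smul_comm]

theorem T2_inj {v : B → ℚ} (hv : T *ᵥ (T *ᵥ v) = v) : v = 0 := by
  have h1 : (T ^ 2 - 1) *ᵥ v = 0 := by
    rw [sub_mulVec, one_mulVec, pow_two, ← mulVec_mulVec, hv, sub_self]
  have h2 := congrArg (fun w => (T ^ 2 - 1)⁻¹ *ᵥ w) h1
  simp only [mulVec_mulVec, mulVec_zero] at h2
  rwa [nonsing_inv_mul _ h.unit, one_mulVec] at h2

theorem S_perp {P : Polynomial ℚ} (hP : Perp Q T δ (tp T P *ᵥ δ)) : tp T P *ᵥ δ = 0 := by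
  have h1 := h.γ_S P
  rw [h.γ2 _ hP] at h1
  apply h.T2_inj
  have h2 : T *ᵥ (tp T P *ᵥ δ) = ε • (tp T P *ᵥ δ) := by
    rw [h1, smul_smul, h.hε, one_smul, ← h1]
  rw [h2, mulVec_smul, h2, smul_smul, h.hε, one_smul]

/-- the map `z ↦ ∑ Q (T ^ j δ, z) T ^ j δ` -/
def pr (Q T : Matrix B B ℚ) (d : ℕ) (δ z : B → ℚ) : B → ℚ :=
  ∑ j ∈ range d, bQ Q (T ^ j *ᵥ δ) z • (T ^ j *ᵥ δ)

omit h in
theorem pr_mem (z : B → ℚ) : ∃ P, pr Q T d δ z = tp T P *ᵥ δ := by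
  refine ⟨∑ j ∈ range d, Polynomial.C (bQ Q (T ^ j *ᵥ δ) z) * Polynomial.X ^ j, ?_⟩
  unfold pr tp
  rw [map_sum, Matrix.sum_mulVec]
  refine Finset.sum_congr rfl fun j _ => ?_
  rw [map_mul, Polynomial.aeval_C, map_pow, Polynomial.aeval_X, Algebra.algebraMap_eq_smul_one,
    smul_mul_assoc, one_mul, smul_mulVec]

theorem perp_of_pr {z : B → ℚ} (hz : pr Q T d δ z = 0) : Perp Q T δ z := by
  have h1 : ∑ j ∈ range d, bQ Q (T ^ j *ᵥ δ) z * bQ Q (T ^ j *ᵥ δ) z = 0 := by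
    have h2 : bQ Q (pr Q T d δ z) z = 0 := by rw [hz, bQ_zero_left]
    unfold pr at h2
    rw [bQ_sum_left] at h2
    rw [← h2]
    exact Finset.sum_congr rfl fun j _ => by rw [bQ_smul_left]
  have h3 : ∀ j < d, bQ Q (T ^ j *ᵥ δ) z = 0 := by
    intro j hj
    have h4 := (Finset.sum_eq_zero_iff_of_nonneg (fun j _ => mul_self_nonneg _)).1 h1 j
      (Finset.mem_range.2 hj)
    exact mul_self_eq_zero.1 h4
  intro j
  have h5 : T ^ j = T ^ (j % d) := by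
    conv_lhs => rw [← Nat.div_add_mod j d, pow_add, pow_mul, h.Td, one_pow, one_mul]
  rw [h5]
  exact h3 _ (Nat.mod_lt _ h.dpos)

omit h in
theorem pr_add (z z' : B → ℚ) : pr Q T d δ (z + z') = pr Q T d δ z + pr Q T d δ z' := by
  unfold pr
  rw [← Finset.sum_add_distrib]
  exact Finset.sum_congr rfl fun j _ => by rw [bQ_add_right, add_smul]

omit h in
theorem pr_smul (c : ℚ) (z : B → ℚ) : pr Q T d δ (c • z) = c • pr Q T d δ z := by
  unfold pr
  rw [Finset.smul_sum]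
  exact Finset.sum_congr rfl fun j _ => by rw [bQ_smul_right, smul_smul]

/-- the span of the orbit -/
noncomputable def SS (T : Matrix B B ℚ) (δ : B → ℚ) : Submodule ℚ (B → ℚ) :=
  LinearMap.range ({ toFun := fun P => tp T P *ᵥ δ
                     map_add' := fun P P' => by unfold tp; rw [map_add, add_mulVec]
                     map_smul' := fun c P => by
                      unfold tp; rw [map_smul, smul_mulVec, RingHom.id_apply] } :
    Polynomial ℚ →ₗ[ℚ] (B → ℚ))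

omit h in
theorem mem_SS {v : B → ℚ} : v ∈ SS T δ ↔ ∃ P, tp T P *ᵥ δ = v := Iff.rfl

omit h in
theorem tp_mem (P : Polynomial ℚ) : tp T P *ᵥ δ ∈ SS T δ := ⟨P, rfl⟩

/-- the map `pr` on the span of the orbit is bijective -/
theorem pr_surj {v : B → ℚ} (hv : v ∈ SS T δ) : ∃ w ∈ SS T δ, pr Q T d δ w = v := by
  let φ : SS T δ →ₗ[ℚ] SS T δ :=
    { toFun := fun z => ⟨pr Q T d δ z, by
        obtain ⟨P, hP⟩ := pr_mem (Q := Q) (T := T) (d := d) (δ := δ) (z : B → ℚ)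
        rw [hP]
        exact tp_mem P⟩
      map_add' := fun z z' => Subtype.ext (pr_add _ _)
      map_smul' := fun c z => Subtype.ext (pr_smul _ _) }
  have hinj : Function.Injective φ := by
    rw [injective_iff_map_eq_zero]
    rintro ⟨z, P, hP⟩ hz
    have hz' : pr Q T d δ z = 0 := congrArg Subtype.val hz
    have h1 := h.perp_of_pr hz'
    apply Subtype.ext
    show z = 0
    rw [← hP] at h1 ⊢
    exact h.S_perp h1
  obtain ⟨w, hw⟩ := (LinearMap.injective_iff_surjective.1 hinj) ⟨v, hv⟩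
  exact ⟨w, w.2, congrArg Subtype.val hw⟩

/-- orthogonal decomposition -/
theorem decomp (z : B → ℚ) : ∃ P, Perp Q T δ (z - tp T P *ᵥ δ) := by
  obtain ⟨P0, hP0⟩ := pr_mem (Q := Q) (T := T) (d := d) (δ := δ) z
  obtain ⟨w, ⟨P, rfl⟩, hw⟩ := h.pr_surj (tp_mem P0)
  refine ⟨P, h.perp_of_pr ?_⟩
  change pr Q T d δ (tp T P *ᵥ δ) = _ at hw
  rw [sub_eq_add_neg, ← neg_one_smul ℚ, pr_add, pr_smul, hw, hP0]
  simp

theorem γ_iso : γᵀ * Q * γ = Q := by
  have key : ∀ z z' : B → ℚ, bQ Q (γ *ᵥ z) (γ *ᵥ z') = bQ Q z z' := by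
    intro z z'
    obtain ⟨P, hP⟩ := h.decomp z
    obtain ⟨P', hP'⟩ := h.decomp z'
    set p := z - tp T P *ᵥ δ with hp
    set p' := z' - tp T P' *ᵥ δ with hp'
    have e : z = tp T P *ᵥ δ + p := by rw [hp]; abel
    have e' : z' = tp T P' *ᵥ δ + p' := by rw [hp']; abel
    have hT : ∀ P, T *ᵥ (tp T P *ᵥ δ) = tp T (Polynomial.X * P) *ᵥ δ := by
      intro P
      rw [tp_mul, tp_X, mulVec_mulVec]
    have h1 : ∀ P, bQ Q p (tp T P *ᵥ δ) = 0 := by
      intro P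
      have h2 := h.sym (h.tp_blk P h.hδ) p
      rw [h.perp_left hP] at h2
      have h3 : sg ≠ 0 := by
        intro h0
        have := h.sgsg
        rw [h0, mul_zero] at this
        exact zero_ne_one this
      exact (mul_eq_zero.1 h2.symm).resolve_left h3
    rw [e, e', mulVec_add, mulVec_add, h.γ_S, h.γ_S, h.γ2 p hP, h.γ2 p' hP']
    have h4 : bQ Q (tp T (Polynomial.X * P) *ᵥ δ) (tp T (Polynomial.X * P') *ᵥ δ) =
        bQ Q (tp T P *ᵥ δ) (tp T P' *ᵥ δ) := by rw [← hT, ← hT, h.bQT]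
    simp only [bQ_add_left, bQ_add_right, bQ_smul_left, bQ_smul_right, h1, hT,
      h.perp_left hP', mul_zero, h4]
    linear_combination (bQ Q (tp T P *ᵥ δ) (tp T P' *ᵥ δ)) * h.hε
  ext p q
  have h1 := key (Pi.single p 1) (Pi.single q 1)
  unfold bQ at h1
  rw [← vecMul_transpose, ← dotProduct_mulVec, mulVec_mulVec, mulVec_mulVec] at h1
  simpa [mul_assoc] using h1

theorem γ_T : γ * T = T * γ := by
  have key : ∀ z : B → ℚ, (γ * T) *ᵥ z = (T * γ) *ᵥ z := by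
    intro z
    obtain ⟨P, hP⟩ := h.decomp z
    set p := z - tp T P *ᵥ δ with hp
    have e : z = tp T P *ᵥ δ + p := by rw [hp]; abel
    rw [e, ← mulVec_mulVec, ← mulVec_mulVec]
    simp only [mulVec_add]
    rw [h.γ2 _ (h.perp_T hP), h.γ2 _ hP]
    have hT : T *ᵥ (tp T P *ᵥ δ) = tp T (Polynomial.X * P) *ᵥ δ := by
      rw [tp_mul, tp_X, mulVec_mulVec]
    rw [h.γ_S, hT, h.γ_S, mulVec_smul]
  ext p q
  have h1 := congrFun (key (Pi.single q 1)) p
  simpa using h1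

/-- the inverse of the reflection -/
theorem γ_inv : γ * (Q⁻¹ * γᵀ * Q) = 1 := by
  have h1 : (Q⁻¹ * γᵀ * Q) * γ = 1 := by
    calc (Q⁻¹ * γᵀ * Q) * γ = Q⁻¹ * (γᵀ * Q * γ) := by noncomm_ring
      _ = 1 := by rw [h.γ_iso, nonsing_inv_mul _ h.Qdet]
  exact mul_eq_one_comm.1 h1

theorem η_inv : ∃ η', η * η' = 1 := by
  have h1 : IsNilpotent (η ^ 2 - 1) := ⟨n, h.nil⟩
  have h2 : IsUnit (η ^ 2) := by
    have := h1.isUnit_one_add
    rwa [add_sub_cancel] at this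
  rw [isUnit_pow_iff (by norm_num)] at h2
  obtain ⟨u, rfl⟩ := h2
  exact ⟨_, u.mul_inv⟩

end Ctx


namespace Ctx

variable (h : Ctx κ Q T d i sg δ ε γ η n 𝔪)
include h

theorem sg0 : sg ≠ 0 := by
  intro h0
  have := h.sgsg
  rw [h0, mul_zero] at this
  exact zero_ne_one this

theorem ε0 : ε ≠ 0 := by
  intro h0
  have := h.hε
  rw [h0, mul_zero] at this
  exact zero_ne_one this

theorem perp_pow {v : B → ℚ} (hv : Perp Q T δ v) (j : ℕ) : Perp Q T δ (T ^ j *ᵥ v) := by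
  induction j with
  | zero => rwa [pow_zero, one_mulVec]
  | succ j ih =>
    rw [pow_succ', ← mulVec_mulVec]
    exact h.perp_T ih

theorem perp_right {v : B → ℚ} (hv : InBlk κ i v) (hp : Perp Q T δ v) (j : ℕ) :
    bQ Q (T ^ j *ᵥ v) δ = 0 := by
  rw [h.sym (h.pow_blk j hv)]
  have := h.perp_pow hp j 0
  rw [pow_zero, one_mulVec] at this
  rw [this, mul_zero]

omit h in
/-- the polynomial of the hermitian square of `δ` -/
noncomputable def Ph (Q T : Matrix B B ℚ) (d : ℕ) (δ : B → ℚ) : Polynomial ℚ :=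
  ∑ j ∈ range d, Polynomial.C (bQ Q (T ^ j *ᵥ δ) δ) * Polynomial.X ^ j

omit h in
theorem tp_Ph (v : B → ℚ) : tp T (Ph Q T d δ) *ᵥ v =
    ∑ j ∈ range d, bQ Q (T ^ j *ᵥ δ) δ • (T ^ j *ᵥ v) := by
  unfold Ph tp
  rw [map_sum, Matrix.sum_mulVec]
  refine Finset.sum_congr rfl fun j _ => ?_
  rw [map_mul, Polynomial.aeval_C, map_pow, Polynomial.aeval_X, Algebra.algebraMap_eq_smul_one,
    smul_mul_assoc, one_mul, smul_mulVec]

theorem pr_T (z : B → ℚ) : pr Q T d δ (T *ᵥ z) = T *ᵥ pr Q T d δ z := by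
  unfold pr
  rw [mulVec_sum, ← range_shift (fun j => bQ Q (T ^ j *ᵥ δ) (T *ᵥ z) • (T ^ j *ᵥ δ)) d
    (by simp only [h.Td, pow_zero])]
  refine Finset.sum_congr rfl fun j _ => ?_
  rw [mulVec_smul, pow_succ', ← mulVec_mulVec, h.bQT]

theorem pr_tp (P : Polynomial ℚ) (z : B → ℚ) :
    pr Q T d δ (tp T P *ᵥ z) = tp T P *ᵥ pr Q T d δ z := by
  have hpow : ∀ j : ℕ, pr Q T d δ (T ^ j *ᵥ z) = T ^ j *ᵥ pr Q T d δ z := by
    intro j
    induction j with
    | zero => rw [pow_zero, one_mulVec, one_mulVec]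
    | succ j ih => rw [pow_succ', ← mulVec_mulVec, h.pr_T, ih, mulVec_mulVec]
  unfold tp
  induction P using Polynomial.induction_on' with
  | add p q hp hq => rw [map_add, add_mulVec, pr_add, hp, hq, add_mulVec]
  | monomial n a =>
    rw [← Polynomial.C_mul_X_pow_eq_monomial, map_mul, Polynomial.aeval_C, map_pow,
      Polynomial.aeval_X, Algebra.algebraMap_eq_smul_one, smul_mul_assoc, one_mul, smul_mulVec,
      pr_smul, hpow, smul_mulVec]

theorem exists_g : ∃ g : Polynomial ℚ, ∀ w, InBlk κ i w → tp T (g * Ph Q T d δ) *ᵥ w = w := by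
  obtain ⟨w, ⟨P, rfl⟩, hw⟩ := h.pr_surj (v := δ) ⟨1, by
    show tp T 1 *ᵥ δ = δ
    unfold tp
    rw [map_one, one_mulVec]⟩
  change pr Q T d δ (tp T P *ᵥ δ) = _ at hw
  rw [h.pr_tp] at hw
  have h1 : pr Q T d δ δ = tp T (Ph Q T d δ) *ᵥ δ := by rw [tp_Ph]; rfl
  rw [h1, mulVec_mulVec, ← tp_mul] at hw
  refine ⟨P, fun w hwi => ?_⟩
  let W : Submodule ℚ (B → ℚ) :=
    { carrier := {w | InBlk κ i w ∧ tp T (P * Ph Q T d δ) *ᵥ w = w}
      zero_mem' := ⟨fun _ _ => rfl, mulVec_zero _⟩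
      add_mem' := fun {a b} ha hb => ⟨ha.1.add hb.1, by rw [mulVec_add, ha.2, hb.2]⟩
      smul_mem' := fun c {a} ha => ⟨ha.1.smul c, by rw [mulVec_smul, ha.2]⟩ }
  have hW : w ∈ W := by
    refine h.gen W (fun w hw => hw.1) ?_ ?_ ⟨h.hδ, hw⟩ w hwi
    · intro w hw
      refine ⟨hw.1.mulVec h.blkT, ?_⟩
      rw [mulVec_mulVec, ← tp_comm (rfl : T * T = T * T), ← mulVec_mulVec, hw.2]
    · intro a ha w hw
      refine ⟨hw.1.mulVec (h.lie.blk a ha), ?_⟩
      rw [mulVec_mulVec, ← tp_comm (h.comm a ha), ← mulVec_mulVec, hw.2]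
  exact hW.2

/-- one step -/
theorem step {P : Polynomial ℚ} {w : B → ℚ} (hw : Perp Q T δ w) {a' : Matrix B B ℚ}
    (ha' : a' * γ = γ * a') {Y : Matrix D D ℚ} {η' : Matrix D D ℚ} (hη : η * η' = 1)
    (hm : (AA Q sg T d (tp T P *ᵥ δ) w + a', Y) ∈ 𝔪) :
    (AA Q sg T d (tp T ((Polynomial.X ^ 2 - 1) * P) *ᵥ δ) w, η ^ 2 * Y * η' ^ 2 - Y) ∈ 𝔪 := by
  have h1 := h.mon _ _ h.γ_inv hη _ (h.mon _ _ h.γ_inv hη _ hm)
  have h2 := Submodule.sub_mem _ h1 hm
  convert h2 using 1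
  apply Prod.ext
  · show _ = γ * (γ * (AA Q sg T d (tp T P *ᵥ δ) w + a') * (Q⁻¹ * γᵀ * Q)) * (Q⁻¹ * γᵀ * Q) -
      (AA Q sg T d (tp T P *ᵥ δ) w + a')
    set γ' := Q⁻¹ * γᵀ * Q with hγ'
    have e1 : ∀ v v' : B → ℚ, γ * AA Q sg T d v v' * γ' = AA Q sg T d (γ *ᵥ v) (γ *ᵥ v') :=
      fun v v' => conj_AA h.γ_iso h.γ_inv h.γ_T v v'
    have e2 : γ * a' * γ' = a' := by rw [← ha', mul_assoc, h.γ_inv, mul_one]
    rw [mul_add, add_mul, mul_add, add_mul, e1, e1, e2, e2, h.γ_S, h.γ2 w hw, h.γ2 w hw,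
      mulVec_smul]
    have e3 : T *ᵥ (tp T P *ᵥ δ) = tp T (Polynomial.X * P) *ᵥ δ := by
      rw [tp_mul, tp_X, mulVec_mulVec]
    rw [e3, h.γ_S, smul_smul, h.hε, one_smul]
    have e4 : T *ᵥ (tp T (Polynomial.X * P) *ᵥ δ) = tp T (Polynomial.X ^ 2 * P) *ᵥ δ := by
      rw [mulVec_mulVec]
      nth_rw 1 [← tp_X (T := T)]
      rw [← tp_mul, ← mul_assoc, pow_two]
    rw [e4]
    have e5 : tp T ((Polynomial.X ^ 2 - 1) * P) *ᵥ δ =
        tp T (Polynomial.X ^ 2 * P) *ᵥ δ - tp T P *ᵥ δ := by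
      rw [sub_mul, one_mul]
      unfold tp
      rw [map_sub, sub_mulVec]
    rw [e5, AA_sub_left]
    module
  · show _ = η * (η * Y * η') * η' - Y
    rw [pow_two, pow_two]
    noncomm_ring

theorem nil_op {η' : Matrix D D ℚ} (hη : η * η' = 1) :
    ∃ N : ℕ, ∀ f : ℕ → Matrix D D ℚ, (∀ k, f (k + 1) = η ^ 2 * f k * η' ^ 2 - f k) → f N = 0 := by
  have hη' : η' * η = 1 := mul_eq_one_comm.1 hη
  have h22 : η ^ 2 * η' ^ 2 = 1 := by
    rw [pow_two, pow_two]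
    calc η * η * (η' * η') = η * (η * η') * η' := by noncomm_ring
      _ = 1 := by rw [hη, mul_one, hη]
  have h22' : η' ^ 2 * η ^ 2 = 1 := mul_eq_one_comm.1 h22
  let L : Module.End ℚ (Matrix D D ℚ) := LinearMap.mulLeft ℚ (η ^ 2 - 1)
  let R : Module.End ℚ (Matrix D D ℚ) := LinearMap.mulRight ℚ (η' ^ 2)
  let R1 : Module.End ℚ (Matrix D D ℚ) := LinearMap.mulRight ℚ (η' ^ 2 - 1)
  have hL : IsNilpotent L := ⟨n, by
    rw [LinearMap.pow_mulLeft, h.nil]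
    exact LinearMap.mulLeft_zero_eq_zero _ _⟩
  have hR1 : IsNilpotent R1 := ⟨n, by
    rw [LinearMap.pow_mulRight]
    have e1 : η' ^ 2 - 1 = -(η' ^ 2 * (η ^ 2 - 1)) := by
      rw [mul_sub, h22', mul_one]
      abel
    have e2 : Commute (η' ^ 2) (η ^ 2 - 1) := by
      show η' ^ 2 * (η ^ 2 - 1) = (η ^ 2 - 1) * η' ^ 2
      rw [mul_sub, sub_mul, h22, h22', mul_one, one_mul]
    rw [e1, neg_pow, e2.mul_pow, h.nil, mul_zero, mul_zero]
    exact LinearMap.mulRight_zero_eq_zero _ _⟩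
  have hc1 : Commute L R := LinearMap.commute_mulLeft_right _ _
  have hc2 : Commute L R1 := LinearMap.commute_mulLeft_right _ _
  have hc3 : Commute R R1 := by
    show R * R1 = R1 * R
    refine LinearMap.ext fun Y => ?_
    show (Y * (η' ^ 2 - 1)) * η' ^ 2 = (Y * η' ^ 2) * (η' ^ 2 - 1)
    noncomm_ring
  have hnil : IsNilpotent (L * R + R1) := by
    refine Commute.isNilpotent_add ?_ (hc1.isNilpotent_mul_right hL) hR1
    exact (hc2.mul_left hc3)
  obtain ⟨N, hN⟩ := hnil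
  refine ⟨N, fun f hf => ?_⟩
  have h1 : ∀ k, f k = ((L * R + R1) ^ k) (f 0) := by
    intro k
    induction k with
    | zero => rfl
    | succ k ih =>
      rw [pow_succ', Module.End.mul_apply, ← ih, hf]
      show _ = (η ^ 2 - 1) * (f k * η' ^ 2) + f k * (η' ^ 2 - 1)
      noncomm_ring
  rw [h1, hN]
  rfl

/-- `X ^ 2 - 1` is invertible on the span of the orbit -/
theorem S_div (N : ℕ) : ∃ P', tp T ((Polynomial.X ^ 2 - 1) ^ N * P') *ᵥ δ = δ := by
  induction N with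
  | zero => exact ⟨1, by unfold tp; rw [pow_zero, one_mul, map_one, one_mulVec]⟩
  | succ N ih =>
    obtain ⟨P', hP'⟩ := ih
    let φ : SS T δ →ₗ[ℚ] SS T δ :=
      { toFun := fun z => ⟨(T ^ 2 - 1) *ᵥ (z : B → ℚ), by
          obtain ⟨z, P, rfl⟩ := z
          refine ⟨(Polynomial.X ^ 2 - 1) * P, ?_⟩
          show tp T ((Polynomial.X ^ 2 - 1) * P) *ᵥ δ = (T ^ 2 - 1) *ᵥ (tp T P *ᵥ δ)
          rw [tp_mul, mulVec_mulVec]
          congr 2
          unfold tp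
          simp⟩
        map_add' := fun z z' => Subtype.ext (mulVec_add _ _ _)
        map_smul' := fun c z => Subtype.ext (mulVec_smul _ _ _) }
    have hinj : Function.Injective φ := by
      rw [injective_iff_map_eq_zero]
      intro z hz
      have hz' : (T ^ 2 - 1) *ᵥ (z : B → ℚ) = 0 := congrArg Subtype.val hz
      apply Subtype.ext
      apply h.T2_inj
      rw [sub_mulVec, one_mulVec, sub_eq_zero, pow_two, ← mulVec_mulVec] at hz'
      exact hz'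
    obtain ⟨⟨w, P, rfl⟩, hw⟩ := (LinearMap.injective_iff_surjective.1 hinj) ⟨_, tp_mem P'⟩
    have hw' : (T ^ 2 - 1) *ᵥ (tp T P *ᵥ δ) = tp T P' *ᵥ δ := congrArg Subtype.val hw
    refine ⟨P, ?_⟩
    have e : tp T ((Polynomial.X ^ 2 - 1) ^ (N + 1) * P) =
        tp T ((Polynomial.X ^ 2 - 1) ^ N) * ((T ^ 2 - 1) * tp T P) := by
      rw [pow_succ, mul_assoc, tp_mul, tp_mul]
      congr 2
      unfold tp
      simp
    rw [e, ← mulVec_mulVec, ← mulVec_mulVec, hw', mulVec_mulVec, ← tp_mul, hP']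

/-- **Isolation of rank one operators.** -/
theorem isolate {P0 : Polynomial ℚ} {w : B → ℚ} (hw : Perp Q T δ w)
    {a' : Matrix B B ℚ} (ha' : a' * γ = γ * a') {Y : Matrix D D ℚ}
    (hm : (AA Q sg T d (tp T P0 *ᵥ δ) w + a', Y) ∈ 𝔪) (P : Polynomial ℚ) :
    AA Q sg T d (tp T (P * P0) *ᵥ δ) w ∈ K1 𝔪 := by
  obtain ⟨η', hη⟩ := h.η_inv
  obtain ⟨N, hN⟩ := h.nil_op hη
  -- iteration
  have h1 : ∀ k : ℕ, ∃ Yk : Matrix D D ℚ, Yk = (Nat.rec Y (fun _ Z => η ^ 2 * Z * η' ^ 2 - Z) (k + 1) :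
      Matrix D D ℚ) ∧
      (AA Q sg T d (tp T ((Polynomial.X ^ 2 - 1) ^ (k + 1) * P0) *ᵥ δ) w, Yk) ∈ 𝔪 := by
    intro k
    induction k with
    | zero => exact ⟨_, rfl, by rw [zero_add, pow_one]; exact h.step hw ha' hη hm⟩
    | succ k ih =>
      obtain ⟨Yk, hYk, hk⟩ := ih
      refine ⟨_, rfl, ?_⟩
      have h2 := h.step (P := (Polynomial.X ^ 2 - 1) ^ (k + 1) * P0) (a' := 0) hw (by
        rw [zero_mul, mul_zero]) hη (by rw [add_zero]; exact hk)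
      rw [← mul_assoc, ← pow_succ'] at h2
      rw [hYk] at h2
      exact h2
  obtain ⟨YN, hYN, hN1⟩ := h1 N
  have h0 : YN = 0 := by
    have h3 := hN (fun k => (Nat.rec Y (fun _ Z => η ^ 2 * Z * η' ^ 2 - Z) (k + 1) :
      Matrix D D ℚ)) (fun k => rfl)
    rw [hYN]
    exact h3
  rw [h0] at hN1
  have hK : AA Q sg T d (tp T ((Polynomial.X ^ 2 - 1) ^ (N + 1) * P0) *ᵥ δ) w ∈ K1 𝔪 := hN1
  -- multiplication with `X`
  have hX : ∀ P : Polynomial ℚ, AA Q sg T d (tp T P *ᵥ δ) w ∈ K1 𝔪 →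
      AA Q sg T d (tp T (Polynomial.X * P) *ᵥ δ) w ∈ K1 𝔪 := by
    intro P hP
    have h2 := h.mon _ _ h.γ_inv hη _ (mem_K1.1 hP)
    have h3 : γ * AA Q sg T d (tp T P *ᵥ δ) w * (Q⁻¹ * γᵀ * Q) ∈ K1 𝔪 := by
      rw [mem_K1]
      simpa using h2
    rw [conj_AA h.γ_iso h.γ_inv h.γ_T, h.γ_S, h.γ2 w hw, AA_smul_left,
      Submodule.smul_mem_iff _ h.ε0] at h3
    rwa [tp_mul, tp_X, ← mulVec_mulVec]
  have hall : ∀ P' : Polynomial ℚ, AA Q sg T d
      (tp T (P' * ((Polynomial.X ^ 2 - 1) ^ (N + 1) * P0)) *ᵥ δ) w ∈ K1 𝔪 := by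
    intro P'
    induction P' using Polynomial.induction_on' with
    | add p q hp hq =>
      have e : tp T ((p + q) * ((Polynomial.X ^ 2 - 1) ^ (N + 1) * P0)) *ᵥ δ =
          tp T (p * ((Polynomial.X ^ 2 - 1) ^ (N + 1) * P0)) *ᵥ δ +
          tp T (q * ((Polynomial.X ^ 2 - 1) ^ (N + 1) * P0)) *ᵥ δ := by
        rw [add_mul]
        unfold tp
        rw [map_add, add_mulVec]
      rw [e, AA_add_left]
      exact Submodule.add_mem _ hp hq
    | monomial n a =>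
      have hmon : ∀ n : ℕ, AA Q sg T d (tp T (Polynomial.X ^ n *
          ((Polynomial.X ^ 2 - 1) ^ (N + 1) * P0)) *ᵥ δ) w ∈ K1 𝔪 := by
        intro n
        induction n with
        | zero => rwa [pow_zero, one_mul]
        | succ n ih =>
          rw [pow_succ', mul_assoc]
          exact hX _ ih
      have e : tp T (Polynomial.monomial n a * ((Polynomial.X ^ 2 - 1) ^ (N + 1) * P0)) *ᵥ δ =
          a • (tp T (Polynomial.X ^ n * ((Polynomial.X ^ 2 - 1) ^ (N + 1) * P0)) *ᵥ δ) := by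
        rw [← Polynomial.C_mul_X_pow_eq_monomial, mul_assoc]
        unfold tp
        rw [map_mul, Polynomial.aeval_C, Algebra.algebraMap_eq_smul_one, smul_mul_assoc, one_mul,
          smul_mulVec]
      rw [e, AA_smul_left]
      exact Submodule.smul_mem _ _ (hmon n)
  obtain ⟨P', hP'⟩ := h.S_div (N + 1)
  have h4 := hall (P * P')
  have e : tp T (P * P' * ((Polynomial.X ^ 2 - 1) ^ (N + 1) * P0)) *ᵥ δ =
      tp T (P * P0) *ᵥ δ := by
    have e1 : P * P' * ((Polynomial.X ^ 2 - 1) ^ (N + 1) * P0) =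
        (P * P0) * ((Polynomial.X ^ 2 - 1) ^ (N + 1) * P') := by ring
    rw [e1, tp_mul, ← mulVec_mulVec, hP']
  rwa [e] at h4

end Ctx


namespace Ctx

variable (h : Ctx κ Q T d i sg δ ε γ η n 𝔪)
include h

theorem AA_skew {v w : B → ℚ} (hv : InBlk κ i v) (hw : InBlk κ i w) :
    (AA Q sg T d v w)ᵀ * Q + Q * AA Q sg T d v w = 0 := by
  unfold AA
  rw [transpose_sum, Finset.sum_mul, Finset.mul_sum, ← Finset.sum_add_distrib]
  exact Finset.sum_eq_zero fun j _ => WW_skew h.sgsg h.Qs (h.pow_blk j hv) (h.pow_blk j hw)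

theorem AA_comm {v w : B → ℚ} : AA Q sg T d v w * T = T * AA Q sg T d v w := by
  have hT : T * T ^ (d - 1) = 1 := by
    rw [← pow_succ', Nat.sub_add_cancel h.dpos, h.Td]
  have h1 := conj_AA (s := sg) (d := d) h.iso hT (rfl : T * T = T * T) v w
  rw [AA_T h.Td] at h1
  have hT' : T ^ (d - 1) * T = 1 := mul_eq_one_comm.1 hT
  calc AA Q sg T d v w * T = T * AA Q sg T d v w * (T ^ (d - 1) * T) := by
        rw [← mul_assoc, h1]
    _ = T * AA Q sg T d v w := by rw [hT', mul_one]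

/-- value at `δ` -/
theorem AA_δ {w : B → ℚ} (hw : InBlk κ i w) (hp : Perp Q T δ w) :
    AA Q sg T d δ w *ᵥ δ = -(sg • (tp T (Ph Q T d δ) *ᵥ w)) := by
  rw [AA_mulVec, tp_Ph, Finset.smul_sum, ← Finset.sum_neg_distrib]
  refine Finset.sum_congr rfl fun j _ => ?_
  rw [h.perp_right hw hp, zero_smul, zero_sub, smul_smul]

theorem AA_tp_right (P : Polynomial ℚ) (v w : B → ℚ) :
    ∃ P', ∀ v, AA Q sg T d v (tp T P *ᵥ w) = AA Q sg T d (tp T P' *ᵥ v) w := by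
  have hT : T * T ^ (d - 1) = 1 := by
    rw [← pow_succ', Nat.sub_add_cancel h.dpos, h.Td]
  have hpow : ∀ (n : ℕ) v, AA Q sg T d v (T ^ n *ᵥ w) =
      AA Q sg T d (tp T ((Polynomial.X ^ (d - 1)) ^ n) *ᵥ v) w := by
    intro n
    induction n with
    | zero =>
      intro v
      unfold tp
      rw [pow_zero, one_mulVec, pow_zero, map_one, one_mulVec]
    | succ n ih =>
      intro v
      rw [pow_succ', ← mulVec_mulVec]
      have h1 : v = T *ᵥ (T ^ (d - 1) *ᵥ v) := by rw [mulVec_mulVec, hT, one_mulVec]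
      conv_lhs => rw [h1]
      rw [AA_T h.Td, ih, pow_succ, tp_mul, mulVec_mulVec]
      congr 3
      unfold tp
      simp
  induction P using Polynomial.induction_on' with
  | add p q hp hq =>
    obtain ⟨P1, h1⟩ := hp
    obtain ⟨P2, h2⟩ := hq
    refine ⟨P1 + P2, fun v => ?_⟩
    have e1 : tp T (p + q) *ᵥ w = tp T p *ᵥ w + tp T q *ᵥ w := by
      unfold tp
      rw [map_add, add_mulVec]
    have e2 : tp T (P1 + P2) *ᵥ v = tp T P1 *ᵥ v + tp T P2 *ᵥ v := by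
      unfold tp
      rw [map_add, add_mulVec]
    rw [e1, e2, AA_add_right, AA_add_left, h1, h2]
  | monomial n a =>
    refine ⟨Polynomial.C a * (Polynomial.X ^ (d - 1)) ^ n, fun v => ?_⟩
    have e1 : tp T (Polynomial.monomial n a) *ᵥ w = a • (T ^ n *ᵥ w) := by
      unfold tp
      rw [← Polynomial.C_mul_X_pow_eq_monomial, map_mul, Polynomial.aeval_C, map_pow,
        Polynomial.aeval_X, Algebra.algebraMap_eq_smul_one, smul_mul_assoc, one_mul, smul_mulVec]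
    have e2 : tp T (Polynomial.C a * (Polynomial.X ^ (d - 1)) ^ n) *ᵥ v =
        a • (tp T ((Polynomial.X ^ (d - 1)) ^ n) *ᵥ v) := by
      unfold tp
      rw [map_mul, Polynomial.aeval_C, Algebra.algebraMap_eq_smul_one, smul_mul_assoc, one_mul,
        smul_mulVec]
    rw [e1, e2, AA_smul_right, AA_smul_left, hpow]

/-- two vectors in the orbit: the operator is fixed by the reflection -/
theorem fix_SS (P P' : Polynomial ℚ) : AA Q sg T d (tp T P *ᵥ δ) (tp T P' *ᵥ δ) * γ =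
    γ * AA Q sg T d (tp T P *ᵥ δ) (tp T P' *ᵥ δ) := by
  have h1 := conj_AA (s := sg) (d := d) h.γ_iso h.γ_inv h.γ_T (tp T P *ᵥ δ) (tp T P' *ᵥ δ)
  rw [h.γ_S, h.γ_S, AA_smul_left, AA_smul_right, AA_T h.Td, smul_smul, h.hε, one_smul] at h1
  have h2 : (Q⁻¹ * γᵀ * Q) * γ = 1 := mul_eq_one_comm.1 h.γ_inv
  calc AA Q sg T d (tp T P *ᵥ δ) (tp T P' *ᵥ δ) * γ =
        γ * AA Q sg T d (tp T P *ᵥ δ) (tp T P' *ᵥ δ) * ((Q⁻¹ * γᵀ * Q) * γ) := by
        rw [← mul_assoc, h1]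
    _ = _ := by rw [h2, mul_one]

/-- an operator commuting with `T`, skew and mapping `δ` into the span of its orbit commutes with
the reflection -/
theorem comm_γ {a : Matrix B B ℚ} (hs : aᵀ * Q + Q * a = 0) (hT : a * T = T * a)
    {P : Polynomial ℚ} (hδ : a *ᵥ δ = tp T P *ᵥ δ) : a * γ = γ * a := by
  have hS : ∀ P', a *ᵥ (tp T P' *ᵥ δ) = tp T (P' * P) *ᵥ δ := by
    intro P'
    rw [mulVec_mulVec, tp_comm hT, ← mulVec_mulVec, hδ, mulVec_mulVec, tp_mul]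
  have key : ∀ z : B → ℚ, (a * γ) *ᵥ z = (γ * a) *ᵥ z := by
    intro z
    obtain ⟨P', hP'⟩ := h.decomp z
    set p := z - tp T P' *ᵥ δ with hp
    have e : z = tp T P' *ᵥ δ + p := by rw [hp]; abel
    have hpa : Perp Q T δ (a *ᵥ p) := by
      intro j
      have h1 := bQ_skew Q hs (T ^ j *ᵥ δ) p
      have h2 : a *ᵥ (T ^ j *ᵥ δ) = tp T (Polynomial.X ^ j * P) *ᵥ δ := by
        rw [← hS]
        congr 2
        unfold tp
        simp
      rw [h2, h.perp_left hP'] at h1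
      linarith
    rw [e, ← mulVec_mulVec, ← mulVec_mulVec]
    simp only [mulVec_add]
    rw [h.γ2 _ hP', h.γ2 _ hpa, h.γ_S, mulVec_smul, hS, h.γ_S]
    have hX : ∀ P', T *ᵥ (tp T P' *ᵥ δ) = tp T (Polynomial.X * P') *ᵥ δ := by
      intro P'
      rw [tp_mul, tp_X, mulVec_mulVec]
    rw [hX, hX, hS, mul_assoc]
  ext p q
  have h1 := congrFun (key (Pi.single q 1)) p
  simpa using h1

omit h in
/-- the vectors `w` with `AA (P δ) w` in the Lie algebra -/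
def InU (κ : B → ι) (i : ι) (Q T : Matrix B B ℚ) (d : ℕ) (sg : ℚ) (δ : B → ℚ)
    (𝔪 : Submodule ℚ (Matrix B B ℚ × Matrix D D ℚ)) (w : B → ℚ) : Prop :=
  InBlk κ i w ∧ Perp Q T δ w ∧ ∀ P, AA Q sg T d (tp T P *ᵥ δ) w ∈ K1 𝔪

theorem U_add {w w' : B → ℚ} (hw : InU κ i Q T d sg δ 𝔪 w) (hw' : InU κ i Q T d sg δ 𝔪 w') :
    InU κ i Q T d sg δ 𝔪 (w + w') :=
  ⟨hw.1.add hw'.1, h.perp_add hw.2.1 hw'.2.1, fun P => by
    rw [AA_add_right]
    exact Submodule.add_mem _ (hw.2.2 P) (hw'.2.2 P)⟩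

theorem U_smul (c : ℚ) {w : B → ℚ} (hw : InU κ i Q T d sg δ 𝔪 w) :
    InU κ i Q T d sg δ 𝔪 (c • w) :=
  ⟨hw.1.smul c, h.perp_smul c hw.2.1, fun P => by
    rw [AA_smul_right]
    exact Submodule.smul_mem _ c (hw.2.2 P)⟩

theorem U_tp (P' : Polynomial ℚ) {w : B → ℚ} (hw : InU κ i Q T d sg δ 𝔪 w) :
    InU κ i Q T d sg δ 𝔪 (tp T P' *ᵥ w) :=
  ⟨h.tp_blk P' hw.1, h.perp_tp hw.2.1 P', fun P => by
    obtain ⟨P1, hP1⟩ := h.AA_tp_right P' δ w
    rw [hP1, mulVec_mulVec, ← tp_mul]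
    exact hw.2.2 _⟩

/-- the values of the Lie algebra at `δ` -/
theorem m_δ {a : Matrix B B ℚ × Matrix D D ℚ} (ha : a ∈ 𝔪) :
    ∃ P w, InU κ i Q T d sg δ 𝔪 w ∧
      a.1 *ᵥ δ = tp T P *ᵥ δ + tp T (Ph Q T d δ) *ᵥ w := by
  obtain ⟨g, hg⟩ := h.exists_g
  obtain ⟨P, hP⟩ := h.decomp (a.1 *ᵥ δ)
  have hblk : InBlk κ i (a.1 *ᵥ δ - tp T P *ᵥ δ) := by
    rw [sub_eq_add_neg, ← neg_one_smul ℚ]
    exact (h.hδ.mulVec (h.lie.blk a ha)).add ((h.tp_blk P h.hδ).smul _)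
  set z := a.1 *ᵥ δ - tp T P *ᵥ δ with hz
  set w := (-sg) • (tp T g *ᵥ z) with hw
  have hwi : InBlk κ i w := (h.tp_blk g hblk).smul _
  have hwp : Perp Q T δ w := h.perp_smul _ (h.perp_tp hP g)
  have hPw : tp T (Ph Q T d δ) *ᵥ w = (-sg) • z := by
    rw [hw, mulVec_smul, mulVec_mulVec, ← tp_mul, mul_comm (Ph Q T d δ), hg z hblk]
  have hval : AA Q sg T d δ w *ᵥ δ = z := by
    rw [h.AA_δ hwi hwp, hPw, smul_smul, mul_neg, h.sgsg, neg_one_smul, neg_neg]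
  have hδ1 : tp T 1 *ᵥ δ = δ := by
    unfold tp
    rw [map_one, one_mulVec]
  set a' := a.1 - AA Q sg T d δ w with ha'
  have haδ : a' *ᵥ δ = tp T P *ᵥ δ := by
    rw [ha', sub_mulVec, hval, hz]
    abel
  have hcomm : a' * γ = γ * a' := by
    refine h.comm_γ ?_ ?_ haδ
    · have h1 := h.lie.skew a ha
      have h2 := h.AA_skew h.hδ hwi
      rw [ha', transpose_sub, sub_mul, mul_sub]
      calc (a.1)ᵀ * Q - (AA Q sg T d δ w)ᵀ * Q + (Q * a.1 - Q * AA Q sg T d δ w) =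
            ((a.1)ᵀ * Q + Q * a.1) - ((AA Q sg T d δ w)ᵀ * Q + Q * AA Q sg T d δ w) := by abel
        _ = 0 := by rw [h1, h2, sub_zero]
    · rw [ha', sub_mul, mul_sub, h.comm a ha, h.AA_comm]
  have hm : (AA Q sg T d (tp T 1 *ᵥ δ) w + a', a.2) ∈ 𝔪 := by
    rw [hδ1, ha', add_sub_cancel]
    exact ha
  have hU : InU κ i Q T d sg δ 𝔪 w := ⟨hwi, hwp, fun P' => by
    have := h.isolate hwp hcomm hm P'
    rwa [mul_one] at this⟩
  refine ⟨P, (-sg) • w, h.U_smul _ hU, ?_⟩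
  rw [mulVec_smul, hPw, smul_smul, neg_mul_neg, h.sgsg, one_smul, hz]
  abel

/-- products of two vectors of `U` -/
theorem U_pair {w w' : B → ℚ} (hw : InU κ i Q T d sg δ 𝔪 w) (hw' : InU κ i Q T d sg δ 𝔪 w') :
    ∃ P, AA Q sg T d (tp T (Ph Q T d δ) *ᵥ w) w' - AA Q sg T d δ (tp T P *ᵥ δ) ∈ K1 𝔪 := by
  have hδ1 : tp T 1 *ᵥ δ = δ := by
    unfold tp
    rw [map_one, one_mulVec]
  have h1 := hw.2.2 1
  have h2 := hw'.2.2 1
  rw [hδ1] at h1 h2
  have h3 := K1_br' h.lie h1 h2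
  rw [bracket_AA (h.AA_skew h.hδ hw.1) h.AA_comm, h.AA_δ hw.1 hw.2.1, AA_mulVec δ w w'] at h3
  have h4 : ∑ j ∈ range d, (bQ Q (T ^ j *ᵥ w) w' • (T ^ j *ᵥ δ) -
      (sg * bQ Q (T ^ j *ᵥ δ) w') • (T ^ j *ᵥ w)) =
      tp T (∑ j ∈ range d, Polynomial.C (bQ Q (T ^ j *ᵥ w) w') * Polynomial.X ^ j) *ᵥ δ := by
    unfold tp
    rw [map_sum, Matrix.sum_mulVec]
    refine Finset.sum_congr rfl fun j _ => ?_
    rw [hw'.2.1 j, mul_zero, zero_smul, sub_zero, map_mul, Polynomial.aeval_C, map_pow,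
      Polynomial.aeval_X, Algebra.algebraMap_eq_smul_one, smul_mul_assoc, one_mul, smul_mulVec]
  rw [h4, ← neg_smul, AA_smul_left] at h3
  set P0 := ∑ j ∈ range d, Polynomial.C (bQ Q (T ^ j *ᵥ w) w') * Polynomial.X ^ j with hP0
  refine ⟨Polynomial.C sg * P0, ?_⟩
  have h5 : tp T (Polynomial.C sg * P0) *ᵥ δ = sg • (tp T P0 *ᵥ δ) := by
    unfold tp
    rw [map_mul, Polynomial.aeval_C, Algebra.algebraMap_eq_smul_one, smul_mul_assoc, one_mul,
      smul_mulVec]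
  rw [h5, AA_smul_right]
  have h6 := Submodule.smul_mem _ (-sg) h3
  rw [smul_add, smul_smul, neg_mul_neg, h.sgsg, one_smul, neg_smul, ← sub_eq_add_neg] at h6
  exact h6

/-- **All vectors of the block orthogonal to the orbit of `δ` occur.** -/
theorem all_U {w : B → ℚ} (hw : InBlk κ i w) (hp : Perp Q T δ w) : InU κ i Q T d sg δ 𝔪 w := by
  have hX : ∀ P', T *ᵥ (tp T P' *ᵥ δ) = tp T (Polynomial.X * P') *ᵥ δ := by
    intro P'
    rw [tp_mul, tp_X, mulVec_mulVec]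
  have hadd : ∀ P P' v, tp T (P + P') *ᵥ v = tp T P *ᵥ v + tp T P' *ᵥ v := by
    intro P P' v
    unfold tp
    rw [map_add, add_mulVec]
  have hsm : ∀ (c : ℚ) P v, tp T (Polynomial.C c * P) *ᵥ v = c • (tp T P *ᵥ v) := by
    intro c P v
    unfold tp
    rw [map_mul, Polynomial.aeval_C, Algebra.algebraMap_eq_smul_one, smul_mul_assoc, one_mul,
      smul_mulVec]
  let W : Submodule ℚ (B → ℚ) :=
    { carrier := {w | ∃ P w', InU κ i Q T d sg δ 𝔪 w' ∧ w = tp T P *ᵥ δ + w'}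
      zero_mem' := ⟨0, 0, ⟨fun _ _ => rfl, fun j => bQ_zero_right _, fun P => by
        rw [AA_zero_right]
        exact Submodule.zero_mem _⟩, by unfold tp; rw [map_zero, zero_mulVec, add_zero]⟩
      add_mem' := by
        rintro a b ⟨P, w, hw, rfl⟩ ⟨P', w', hw', rfl⟩
        refine ⟨P + P', w + w', h.U_add hw hw', ?_⟩
        rw [hadd]
        abel
      smul_mem' := by
        rintro c a ⟨P, w, hw, rfl⟩
        refine ⟨Polynomial.C c * P, c • w, h.U_smul c hw, ?_⟩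
        rw [smul_add, hsm] }
  have hW1 : ∀ w ∈ W, InBlk κ i w := by
    rintro w ⟨P, w', hw', rfl⟩
    exact (h.tp_blk P h.hδ).add hw'.1
  have hWtp : ∀ P0, ∀ w ∈ W, tp T P0 *ᵥ w ∈ W := by
    rintro P0 w ⟨P, w', hw', rfl⟩
    refine ⟨P0 * P, tp T P0 *ᵥ w', h.U_tp P0 hw', ?_⟩
    rw [mulVec_add, mulVec_mulVec, tp_mul]
  have hWT : ∀ w ∈ W, T *ᵥ w ∈ W := by
    intro w hw
    have := hWtp Polynomial.X w hw
    rwa [tp_X] at this
  have hWm : ∀ a ∈ 𝔪, ∀ w ∈ W, a.1 *ᵥ w ∈ W := by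
    rintro a ha w ⟨P, w', hw', rfl⟩
    obtain ⟨Pa, wa, hwa, haδ⟩ := h.m_δ ha
    have hδW : a.1 *ᵥ δ ∈ W := ⟨Pa, _, h.U_tp _ hwa, haδ⟩
    rw [mulVec_add]
    refine Submodule.add_mem _ ?_ ?_
    · rw [mulVec_mulVec, tp_comm (h.comm a ha), ← mulVec_mulVec]
      exact hWtp P _ hδW
    · -- the operator on `U`
      obtain ⟨P1, hP1⟩ := h.decomp (a.1 *ᵥ w')
      have hblk : InBlk κ i (a.1 *ᵥ w' - tp T P1 *ᵥ δ) := by
        rw [sub_eq_add_neg, ← neg_one_smul ℚ]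
        exact (hw'.1.mulVec (h.lie.blk a ha)).add ((h.tp_blk P1 h.hδ).smul _)
      refine ⟨P1, a.1 *ᵥ w' - tp T P1 *ᵥ δ, ⟨hblk, hP1, fun P => ?_⟩, by abel⟩
      set z := a.1 *ᵥ w' - tp T P1 *ᵥ δ with hz
      have ez : a.1 *ᵥ w' = tp T P1 *ᵥ δ + z := by rw [hz]; abel
      -- bracket
      have h1 := K1_br h.lie ha (hw'.2.2 P)
      rw [bracket_AA (h.lie.skew a ha) (h.comm a ha)] at h1
      have e1 : a.1 *ᵥ (tp T P *ᵥ δ) = tp T (P * Pa) *ᵥ δ +
          tp T (Ph Q T d δ) *ᵥ (tp T P *ᵥ wa) := by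
        rw [mulVec_mulVec, tp_comm (h.comm a ha), ← mulVec_mulVec, haδ, mulVec_add,
          mulVec_mulVec, mulVec_mulVec, mulVec_mulVec, ← tp_mul, ← tp_mul, ← tp_mul,
          mul_comm P (Ph Q T d δ)]
      rw [e1, ez, AA_add_left, AA_add_right] at h1
      obtain ⟨P2, hP2⟩ := h.U_pair (h.U_tp P hwa) hw'
      have h2 := hw'.2.2 (P * Pa)
      have h3 : AA Q sg T d (tp T P *ᵥ δ) z + (AA Q sg T d (tp T P *ᵥ δ) (tp T P1 *ᵥ δ) +
          AA Q sg T d (tp T 1 *ᵥ δ) (tp T P2 *ᵥ δ)) ∈ K1 𝔪 := by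
        have h4 := Submodule.sub_mem _ (Submodule.sub_mem _ h1 h2) hP2
        have hδ1 : tp T 1 *ᵥ δ = δ := by
          unfold tp
          rw [map_one, one_mulVec]
        rw [hδ1]
        convert h4 using 1
        abel
      have h5 : ((AA Q sg T d (tp T P *ᵥ δ) (tp T P1 *ᵥ δ) +
          AA Q sg T d (tp T 1 *ᵥ δ) (tp T P2 *ᵥ δ)) * γ) =
          γ * (AA Q sg T d (tp T P *ᵥ δ) (tp T P1 *ᵥ δ) +
          AA Q sg T d (tp T 1 *ᵥ δ) (tp T P2 *ᵥ δ)) := by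
        rw [add_mul, mul_add, h.fix_SS, h.fix_SS]
      have h6 := h.isolate hP1 h5 (mem_K1.1 h3) 1
      rwa [one_mul] at h6
  have hδW : δ ∈ W := ⟨1, 0, ⟨fun _ _ => rfl, fun j => bQ_zero_right _, fun P => by
        rw [AA_zero_right]
        exact Submodule.zero_mem _⟩, by unfold tp; rw [map_one, one_mulVec, add_zero]⟩
  obtain ⟨P, w', hw', e⟩ := h.gen W hW1 hWT hWm hδW w hw
  have h7 : Perp Q T δ (tp T P *ᵥ δ) := by
    have e2 : tp T P *ᵥ δ = w + (-1 : ℚ) • w' := by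
      rw [e, neg_one_smul]
      abel
    rw [e2]
    exact h.perp_add hp (h.perp_smul _ hw'.2.1)
  rw [e, h.S_perp h7, zero_add]
  exact hw'

end Ctx

end Pool.Agent.H842.CR
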