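import Pool.Agent.H842.CR.DDefs

/-!
# Numerical types of determinantal classes
-/

open Matrix Finset Function

namespace Pool.Agent.H842.CR

open Pool.Agent.TH125.Nod

open Classical in
/-- `S i b = ∑ (r - q) h^(r, q)` where the `h^(r, q)` are the Hodge numbers of the eigenspace of `T`
in `V_i` with eigenvalue `exp (2 π √-1 b / d)`, for the Hodge structure with Hodge operator `x0`:
the vectors `v a` are a basis of `V ⊗ ℂ` of eigenvectors of `T` and of `x0`, `v a` is in
`V_(i a) ⊗ ℂ` and has the eigenvalues `exp (2 π √-1 β a / d)` and `r - q = dg a`. -/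
def HasHodgeSums {ι B : Type} [Fintype B] (κ : B → ι) (T : Matrix B B ℚ) (x0 : Matrix B B ℂ)
    (d : ℕ) (S : ι → ZMod d → ℚ) : Prop :=
  ∃ (I : Type) (_ : Fintype I) (v : Module.Basis I ℂ (B → ℂ)) (i : I → ι) (β : I → ZMod d)
    (dg : I → ℚ),
    (∀ a, (∀ b, κ b ≠ i a → v a b = 0) ∧ mC T *ᵥ v a = (zt d ^ (β a).val) • v a ∧
      x0 *ᵥ v a = (dg a : ℂ) • v a) ∧
    ∀ j b, ∑ a ∈ univ.filter (fun a => i a = j ∧ β a = b), dg a = S j b

/-- The rational multilinear form `w` on `V ^ K` is a combination, with complex coefficients, of the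
tensor products of one-dimensional determinants `det V_(i 1, t b 1) ⊗ ⋯ ⊗ det V_(i r, t b r)` for
the units `t` modulo `d`, where `V_(i, b)` is the eigenspace of `T` in `V_i ⊗ ℂ` with eigenvalue
`exp (2 π √-1 b / d)`; moreover there are no opposite factors `V_(i, b)`, `V_(i, - b)` (which are
dual to each other), and the numbers `S i b = ∑ (r - q) h^(r, q)` of the eigenspaces satisfy
`S (i 1) (t b 1) + ⋯ + S (i r) (t b r) = 0` for all units `t` modulo `d`, so that these tensor
products are of type `(0, 0)`. In detail: the variables are divided into `r` groups; `w` is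
alternating in the variables of each group, the number of variables in the group `a` is the
dimension of `V_(i a, b a)`, and `w` is zero at eigenvectors of `T` unless there is a unit `t` such
that they are in `V_(i a, t b a)` for the variables of the group `a`, for all `a`. -/
def IsNumerical {ι B : Type} [Fintype B] [DecidableEq B] (κ : B → ι) (T : Matrix B B ℚ) (d : ℕ)
    (S : ι → ZMod d → ℚ) {K : ℕ} (w : (Fin K → B) → ℚ) : Prop :=
  ∃ (r : ℕ) (g : Fin K → Fin r) (i : Fin r → ι) (b : Fin r → ZMod d),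
    (∀ x y, x ≠ y → g x = g y → ∀ J, w (fun j => J (Equiv.swap x y j)) = - w J) ∧
    (∀ a, 0 < (univ.filter fun x => g x = a).card ∧ (univ.filter fun x => g x = a).card =
      Module.finrank ℂ (eigenpart κ T (i a) (zt d ^ (b a).val))) ∧
    (∀ x J, κ (J x) ≠ i (g x) → w J = 0) ∧
    (∀ (v : Fin K → B → ℂ) (θ : Fin K → ℂ), (∀ x, mC T *ᵥ v x = θ x • v x) →
      ∑ J : Fin K → B, (w J : ℂ) * ∏ x, v x (J x) ≠ 0 →
      ∃ t : (ZMod d)ˣ, ∀ x, θ x = zt d ^ ((t : ZMod d) * b (g x)).val) ∧
    (∀ a a', i a = i a' → b a + b a' ≠ 0) ∧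
    ∀ t : (ZMod d)ˣ, ∑ a, S (i a) ((t : ZMod d) * b a) = 0

/-- The forms `(v, v') ↦ (∏ t, Q_(c t) (v_(e (t, 0)), T ^ (a t) v_(e (t, 1)))) * w (v_e (1), …) *
h (v')`: products of forms `Q_i (v, T ^ a w)` on `m` pairs of variables, of a Hodge class `w` in the
other `n` variables which is a combination of determinants of numerical type, and of a Hodge class
`h` on `D`. -/
def productsNum {ι B D : Type} [Fintype B] [DecidableEq B] [Fintype D] [DecidableEq ι] (κ : B → ι)
    (Q T : Matrix B B ℚ) (d : ℕ) (S : ι → ZMod d → ℚ) (x : Matrix B B ℂ) (y : Matrix D D ℂ)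
    (k : ℕ) : Set ((Fin k → B) → D → ℚ) :=
  {f | ∃ (m n : ℕ) (e : (Fin m × Fin 2) ⊕ Fin n ≃ Fin k) (c : Fin m → ι) (a : Fin m → ℕ)
    (w : (Fin n → B) → ℚ) (h : D → ℚ), IsNumerical κ T d S w ∧
    IsHodge x (0 : Matrix Unit Unit ℂ) (fun J _ => w J) ∧ IsHodgeD y h ∧
    f = fun J l => (∏ t, block κ (Q * T ^ a t) (c t) (J (e (.inl (t, 0)))) (J (e (.inl (t, 1))))) *
      w (fun j => J (e (.inr j))) * h l}

end Pool.Agent.H842.CR
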