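import Pool.Agent.H842.CR.Det5
import Pool.Agent.H842.CR.All
import Pool.Agent.H842.CR.NDefs

/-!
# Numerical types
-/

set_option linter.unusedSectionVars false

open Matrix Finset Function

namespace Pool.Agent.H842.CR

open Pool.Agent.TH125.Nod

variable {n : ℕ}

/-- tuples of roots of unity with the same relations are conjugate -/
theorem exists_unit {d : ℕ} [NeZero d] {b : Fin n → ZMod d} {θ : Fin n → ℂ}
    (h : ∀ (e : Fin n → ℕ) (R : Polynomial ℚ),
      Polynomial.aeval (∏ x, (zt d ^ (b x).val) ^ e x) R = 0 →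
      Polynomial.aeval (∏ x, θ x ^ e x) R = 0) :
    ∃ t : (ZMod d)ˣ, ∀ x, θ x = zt d ^ ((t : ZMod d) * b x).val := by
  classical
  have hd0 : d ≠ 0 := NeZero.ne d
  have hζ := zt_prim d hd0
  -- the values on exponents
  let s : (Fin n → ℕ) → ZMod d := fun e => ∑ x, (e x : ZMod d) * b x
  have hz : ∀ e : Fin n → ℕ, ∏ x, (zt d ^ (b x).val) ^ e x = zt d ^ (s e).val := by
    intro e
    simp only [← pow_mul]
    rw [Finset.prod_pow_eq_pow_sum]
    apply zt_mod hd0
    rw [← ZMod.natCast_eq_natCast_iff]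
    push_cast
    rw [ZMod.natCast_zmod_val]
    refine Finset.sum_congr rfl fun x _ => ?_
    rw [ZMod.natCast_zmod_val, mul_comm]
  have hone : ∀ e : Fin n → ℕ, s e = 0 → ∏ x, θ x ^ e x = 1 := by
    intro e he
    have h1 := h e (Polynomial.X - 1) (by
      rw [hz, he, ZMod.val_zero, pow_zero]
      simp)
    rw [map_sub, Polynomial.aeval_X, map_one, sub_eq_zero] at h1
    exact h1
  have hadd : ∀ e e' : Fin n → ℕ, ∏ x, θ x ^ (e x + e' x) = (∏ x, θ x ^ e x) * ∏ x, θ x ^ e' x := by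
    intro e e'
    rw [← Finset.prod_mul_distrib]
    exact Finset.prod_congr rfl fun x _ => pow_add _ _ _
  have hmul : ∀ (j : ℕ) (e : Fin n → ℕ), ∏ x, θ x ^ (j * e x) = (∏ x, θ x ^ e x) ^ j := by
    intro j e
    rw [← Finset.prod_pow]
    exact Finset.prod_congr rfl fun x _ => by rw [mul_comm, pow_mul]
  have hsadd : ∀ e e' : Fin n → ℕ, s (fun x => e x + e' x) = s e + s e' := by
    intro e e'
    show ∑ x, ((e x + e' x : ℕ) : ZMod d) * b x = _
    rw [← Finset.sum_add_distrib]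
    exact Finset.sum_congr rfl fun x _ => by push_cast; ring
  have hsmul : ∀ (j : ℕ) (e : Fin n → ℕ), s (fun x => j * e x) = (j : ZMod d) * s e := by
    intro j e
    show ∑ x, ((j * e x : ℕ) : ZMod d) * b x = _
    rw [Finset.mul_sum]
    exact Finset.sum_congr rfl fun x _ => by push_cast; ring
  have heq : ∀ e e' : Fin n → ℕ, s e = s e' → ∏ x, θ x ^ e x = ∏ x, θ x ^ e' x := by
    intro e e' hee
    have h1 : ∏ x, θ x ^ (e x + (d - 1) * e' x) = 1 := by
      apply hone
      rw [hsadd e (fun x => (d - 1) * e' x), hsmul, hee]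
      have : ((d - 1 : ℕ) : ZMod d) = -1 := by
        rw [Nat.cast_sub (Nat.one_le_iff_ne_zero.2 hd0)]
        simp
      rw [this]
      ring
    have h2 : ∏ x, θ x ^ (d * e' x) = 1 := by
      apply hone
      rw [hsmul]
      simp
    rw [hadd e (fun x => (d - 1) * e' x), hmul] at h1
    rw [hmul] at h2
    set w := ∏ x, θ x ^ e' x
    have h3 : w * w ^ (d - 1) = 1 := by
      rw [← pow_succ', Nat.sub_add_cancel (Nat.one_le_iff_ne_zero.2 hd0), h2]
    have h4 : w ^ (d - 1) ≠ 0 := fun h0 => by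
      rw [h0, mul_zero] at h3
      exact zero_ne_one h3
    exact mul_right_cancel₀ h4 (h1.trans h3.symm)
  -- a generator
  let H : AddSubgroup (ZMod d) :=
    { carrier := Set.range s
      zero_mem' := ⟨fun _ => 0, by simp [s]⟩
      add_mem' := by
        rintro _ _ ⟨e, rfl⟩ ⟨e', rfl⟩
        exact ⟨_, hsadd e e'⟩
      neg_mem' := by
        rintro _ ⟨e, rfl⟩
        refine ⟨fun x => (d - 1) * e x, ?_⟩
        rw [hsmul]
        have : ((d - 1 : ℕ) : ZMod d) = -1 := by
          rw [Nat.cast_sub (Nat.one_le_iff_ne_zero.2 hd0)]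
          simp
        rw [this]
        ring }
  obtain ⟨⟨g, e0, hg⟩, hgen⟩ := (inferInstance : IsAddCyclic H).exists_generator
  have hgen' : ∀ e : Fin n → ℕ, ∃ j : ℕ, s e = (j : ZMod d) * g := by
    intro e
    obtain ⟨j, hj⟩ := AddSubgroup.mem_zmultiples_iff.1 (hgen ⟨s e, e, rfl⟩)
    have hj' : j • g = s e := congrArg Subtype.val hj
    refine ⟨(j : ZMod d).val, ?_⟩
    rw [ZMod.natCast_zmod_val, ← hj', zsmul_eq_mul]
  -- the generator
  set z := zt d ^ g.val with hzdef
  set w := ∏ x, θ x ^ e0 x with hw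
  have hzd : z ^ d = 1 := by
    rw [hzdef, ← pow_mul, mul_comm, pow_mul, hζ.pow_eq_one, one_pow]
  have hpos : 0 < orderOf z := orderOf_pos_iff.2 (isOfFinOrder_iff_pow_eq_one.2
    ⟨d, Nat.pos_of_ne_zero hd0, hzd⟩)
  have hdvd : orderOf z ∣ d := orderOf_dvd_of_pow_eq_one hzd
  have hwp : IsPrimitiveRoot w (orderOf z) := by
    have h1 := h e0 (Polynomial.cyclotomic (orderOf z) ℚ) (by
      rw [hz, hg]
      have h3 := (IsPrimitiveRoot.orderOf z).isRoot_cyclotomic hpos
      rw [Polynomial.IsRoot.def, ← Polynomial.map_cyclotomic _ (algebraMap ℚ ℂ),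
        Polynomial.eval_map_algebraMap] at h3
      exact h3)
    rw [← Polynomial.eval_map_algebraMap, Polynomial.map_cyclotomic] at h1
    have : NeZero (orderOf z : ℂ) := ⟨by exact_mod_cast hpos.ne'⟩
    exact Polynomial.isRoot_cyclotomic_iff.1 h1
  have : NeZero (orderOf z) := ⟨hpos.ne'⟩
  obtain ⟨u, -, hu, huw⟩ := (IsPrimitiveRoot.isPrimitiveRoot_iff
    (IsPrimitiveRoot.orderOf z)).1 hwp
  obtain ⟨t, ht⟩ := ZMod.unitsMap_surjective hdvd (ZMod.unitOfCoprime u hu)
  refine ⟨t, fun x => ?_⟩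
  obtain ⟨j, hj⟩ := hgen' (Pi.single x 1)
  have hsx : s (Pi.single x 1) = b x := by
    show ∑ y, ((Pi.single x (1 : ℕ) : Fin n → ℕ) y : ZMod d) * b y = b x
    rw [Finset.sum_eq_single x]
    · rw [Pi.single_eq_same]
      simp
    · intro y _ hy
      rw [Pi.single_eq_of_ne hy]
      simp
    · intro h
      exact absurd (Finset.mem_univ _) h
  rw [hsx] at hj
  have h1 : θ x = w ^ j := by
    rw [hw, ← hmul, ← heq (Pi.single x 1) (fun y => j * e0 y) (by
      rw [hsmul, hg, hsx, hj])]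
    rw [Finset.prod_eq_single x]
    · rw [Pi.single_eq_same, pow_one]
    · intro y _ hy
      rw [Pi.single_eq_of_ne hy, pow_zero]
    · intro h
      exact absurd (Finset.mem_univ _) h
  rw [h1, ← huw, hj]
  -- compare the exponents
  have h2 : z ^ u = z ^ (t : ZMod d).val := by
    have h3 := congrArg Units.val ht
    rw [ZMod.unitsMap_val, ZMod.coe_unitOfCoprime, ZMod.cast_eq_val,
      ZMod.natCast_eq_natCast_iff] at h3
    rw [← pow_mod_orderOf z u, ← pow_mod_orderOf z (t : ZMod d).val]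
    congr 1
    exact h3.symm
  rw [h2, hzdef, ← pow_mul, ← pow_mul]
  apply zt_mod hd0
  rw [← ZMod.natCast_eq_natCast_iff]
  push_cast
  rw [ZMod.natCast_zmod_val, ZMod.natCast_zmod_val, ZMod.natCast_zmod_val]
  ring

end Pool.Agent.H842.CR
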