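import Pool.Agent.H842.CR.Num

/-!
# Numerical types (II)
-/

set_option linter.unusedSectionVars false

open Matrix Finset Function

namespace Pool.Agent.H842.CR

open Pool.Agent.TH125.Nod

variable {B : Type} [Fintype B] [DecidableEq B] {D : Type} [Fintype D]
  [DecidableEq D] {ι : Type} [DecidableEq ι] {k n : ℕ}

section skew
variable {κ : B → ι} {σ : ι → ι} {Q R : Matrix B B ℂ} {s : ι → ℂ} {t : ι → ℚ}

/-- the traces of a skew operator on dual blocks are opposite -/
theorem skew_trace (h : Dat κ σ Q R s t) {X : Matrix B B ℂ} (hX : Xᵀ * Q + Q * X = 0) (p : ι) :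
    ∑ u ∈ blk κ p, X u u = - ∑ u ∈ blk κ (σ p), X u u := by
  classical
  have hRQ : R * Q = 1 := mul_eq_one_comm.1 h.QR
  have h1 : X = - (R * Xᵀ * Q) := by
    have h2 : Xᵀ * Q = - (Q * X) := eq_neg_of_add_eq_zero_left hX
    rw [mul_assoc, h2, mul_neg, neg_neg, ← mul_assoc, hRQ, one_mul]
  have h2 : ∀ u, X u u = - ∑ v, ∑ w, X w v * (Q w u * R u v) := by
    intro u
    conv_lhs => rw [h1]
    rw [Matrix.neg_apply, Matrix.mul_apply]
    congr 1
    simp only [Matrix.mul_apply, Finset.sum_mul, Matrix.transpose_apply]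
    rw [Finset.sum_comm]
    refine Finset.sum_congr rfl fun v _ => Finset.sum_congr rfl fun w _ => ?_
    ring
  rw [Finset.sum_congr rfl fun u _ => h2 u, Finset.sum_neg_distrib]
  congr 1
  rw [Finset.sum_comm]
  have h3 : ∀ v, ∑ u ∈ blk κ p, ∑ w, X w v * (Q w u * R u v) =
      if v ∈ blk κ (σ p) then X v v else 0 := by
    intro v
    rw [Finset.sum_comm]
    have h4 : ∀ w, ∑ u ∈ blk κ p, X w v * (Q w u * R u v) =
        if w = v then (if v ∈ blk κ (σ p) then X v v else 0) else 0 := by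
      intro w
      rw [← Finset.mul_sum]
      by_cases hw : κ w = σ p
      · rw [h.sum_QR hw v]
        by_cases hwv : w = v
        · subst hwv
          rw [if_pos rfl, if_pos rfl, if_pos (mem_blk.2 hw), mul_one]
        · rw [if_neg hwv, if_neg hwv, mul_zero]
      · rw [Finset.sum_eq_zero, mul_zero]
        · by_cases hwv : w = v
          · subst hwv
            rw [if_pos rfl, if_neg (fun h' => hw (mem_blk.1 h'))]
          · rw [if_neg hwv]
        · intro u hu
          rw [h.Qb w u (by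
            rw [mem_blk.1 hu]
            intro h5
            exact hw (by rw [h5, h.σσ])), zero_mul]
    rw [Finset.sum_congr rfl fun w _ => h4 w, Finset.sum_ite_eq' univ v
      (fun _ => if v ∈ blk κ (σ p) then X v v else 0), if_pos (Finset.mem_univ _)]
  rw [Finset.sum_congr rfl fun v _ => h3 v, Finset.sum_ite_mem, Finset.univ_inter]

/-- weighted traces -/
theorem wt_trace (h : Dat κ σ Q R s t) {X : Matrix B B ℂ} (hX : Xᵀ * Q + Q * X = 0)
    (c : Fin n → ι) :
    ∑ b, (wt κ σ c (κ b) : ℂ) * X b b =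
      2 * ∑ x, (∑ u ∈ blk κ (c x), X u u) / ((blk κ (c x)).card : ℂ) := by
  classical
  have h1 : ∀ b, (wt κ σ c (κ b) : ℂ) * X b b =
      ∑ x, ((if κ b = c x then X b b / ((blk κ (c x)).card : ℂ) else 0) -
        (if κ b = σ (c x) then X b b / ((blk κ (c x)).card : ℂ) else 0)) := by
    intro b
    unfold wt
    rw [Finset.card_filter, Finset.card_filter]
    push_cast
    rw [← Finset.sum_sub_distrib, Finset.sum_div, Finset.sum_mul]
    refine Finset.sum_congr rfl fun x _ => ?_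
    by_cases e1 : κ b = c x
    · have e2 : ¬ κ b = σ (c x) := by
        rw [e1]
        exact Ne.symm (h.σne _)
      have e3 : ¬ c x = σ (κ b) := by
        rw [e1]
        exact Ne.symm (h.σne _)
      rw [if_pos e1.symm, if_neg e3, if_pos e1, if_neg e2, ← e1]
      ring
    · by_cases e2 : κ b = σ (c x)
      · have e3 : c x = σ (κ b) := by rw [e2, h.σσ]
        rw [if_neg (Ne.symm e1), if_pos e3, if_neg e1, if_pos e2, e2, h.card_eq]
        ring
      · have e3 : ¬ c x = σ (κ b) := fun h' => e2 (by rw [h', h.σσ])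
        rw [if_neg (Ne.symm e1), if_neg e3, if_neg e1, if_neg e2]
        ring
  rw [Finset.sum_congr rfl fun b _ => h1 b, Finset.sum_comm, Finset.mul_sum]
  refine Finset.sum_congr rfl fun x _ => ?_
  rw [Finset.sum_sub_distrib, ← Finset.sum_filter, ← Finset.sum_filter, ← Finset.sum_div,
    ← Finset.sum_div]
  have h2 : ∑ b ∈ univ.filter (fun b => κ b = σ (c x)), X b b =
      - ∑ b ∈ univ.filter (fun b => κ b = c x), X b b := by
    have := skew_trace h hX (σ (c x))
    rw [h.σσ] at this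
    exact this
  rw [h2]
  show _ = 2 * ((∑ b ∈ univ.filter (fun b => κ b = c x), X b b) / _)
  ring

end skew

/-- the traces of the Hodge operator -/
theorem trace_sums {κ : B → ι} {T : Matrix B B ℚ} {x0 : Matrix B B ℂ} {d : ℕ} [NeZero d]
    {S : ι → ZMod d → ℚ} (hS : HasHodgeSums κ T x0 d S) (i : ι) (j : ℕ) :
    trace (x0 * mC (T ^ j * diagonal (fun a => if κ a = i then (1 : ℚ) else 0))) =
      ∑ b : ZMod d, (zt d) ^ (j * b.val) * (S i b : ℂ) := by
  classical
  obtain ⟨I, hI, v, ι', β, dg, hv, hsum⟩ := hS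
  have h1 : ∀ s : I,
      (x0 * mC (T ^ j * diagonal (fun a => if κ a = i then (1 : ℚ) else 0))) *ᵥ v s =
      (if ι' s = i then (zt d ^ (β s).val) ^ j * (dg s : ℂ) else 0) • v s := by
    intro s
    obtain ⟨h1, h2, h3⟩ := hv s
    have h4 : mC (diagonal (fun a => if κ a = i then (1 : ℚ) else 0)) *ᵥ v s =
        (if ι' s = i then (1 : ℂ) else 0) • v s := by
      funext q
      have h5 : mC (diagonal (fun a => if κ a = i then (1 : ℚ) else 0)) =
          diagonal (fun a => if κ a = i then (1 : ℂ) else 0) := by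
        unfold mC
        rw [Matrix.diagonal_map (by simp)]
        congr 1
        funext a
        split_ifs <;> simp
      rw [h5, mulVec_diagonal, Pi.smul_apply, smul_eq_mul]
      by_cases hq : κ q = ι' s
      · rw [hq]
      · rw [h1 q hq, mul_zero, mul_zero]
    rw [mC_mul, mC_pow, ← mulVec_mulVec, ← mulVec_mulVec, h4, mulVec_smul, mulVec_smul,
      pow_eig h2, mulVec_smul, h3, smul_smul, smul_smul]
    congr 1
    split_ifs
    · rw [one_mul]
    · rw [zero_mul, zero_mul]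
  rw [trace_basis v _ h1, ← Finset.sum_fiberwise univ β]
  refine Finset.sum_congr rfl fun b _ => ?_
  rw [← hsum i b]
  push_cast
  rw [Finset.mul_sum]
  symm
  refine (Finset.sum_congr (?_ : _ = (univ.filter (fun a => β a = b)).filter
    (fun a => ι' a = i)) (fun _ _ => rfl)).trans ?_
  · ext a
    simp only [Finset.mem_filter, Finset.mem_univ, true_and]
    exact and_comm
  rw [Finset.sum_filter (fun a => ι' a = i)]
  symm
  refine Finset.sum_congr rfl fun s hs => ?_
  rw [(Finset.mem_filter.1 hs).2, ← pow_mul, mul_comm b.val]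

section
variable {κ : B → ι} {Q T : Matrix B B ℚ} {d : ℕ} {sg : ι → ℚ}
  {𝔪 : Submodule ℚ (Matrix B B ℚ × Matrix D D ℚ)}
  (h : Glob κ Q T d sg 𝔪) {P : Matrix B B ℂ} {κ' : B → ι × Th} (hE : EB κ T d P κ')
include h hE

/-- the trace of a conjugate of the Hodge operator on an eigenspace -/
theorem block_trace [NeZero d] {x0 : Matrix B B ℂ} {S : ι → ZMod d → ℚ}
    (hS : HasHodgeSums κ T x0 d S) {τ : ℂ →ₗ[ℚ] ℂ} {t : (ZMod d)ˣ}
    (hτ : ∀ j : ℕ, τ (zt d ^ j) = zt d ^ ((t : ZMod d).val * j)) {p : ι × Th} {b : ZMod d}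
    (hp : (p.2.1 : ℂ) = zt d ^ b.val) :
    ∑ u ∈ blk κ' p, (P⁻¹ * x0.map τ * P) u u = (S p.1 ((t⁻¹ : (ZMod d)ˣ) * b) : ℂ) := by
  classical
  have hd0 : d ≠ 0 := NeZero.ne d
  have hd0' : (d : ℂ) ≠ 0 := by exact_mod_cast hd0
  have hζ := zt_prim d hd0
  have hpow : ∀ a : ℕ, (zt d ^ a) ^ d = 1 := fun a => by
    rw [← pow_mul, mul_comm, pow_mul, hζ.pow_eq_one, one_pow]
  have hone : (p.2.1 : ℂ) ^ d = 1 := by rw [hp]; exact hpow _
  rw [part_trace h hE _ p hone]
  have h1 : ∀ j, trace (x0.map τ * (mC T ^ j * diagonal (fun a => if κ a = p.1 then (1 : ℂ)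
      else 0))) = ∑ b' : ZMod d, (zt d ^ ((t : ZMod d) * b').val) ^ j * (S p.1 b' : ℂ) := by
    intro j
    have h9 : mC T ^ j * diagonal (fun a => if κ a = p.1 then (1 : ℂ) else 0) =
        mC (T ^ j * diagonal (fun a => if κ a = p.1 then (1 : ℚ) else 0)) := by
      rw [mC_mul, mC_pow]
      congr 1
      unfold mC
      rw [Matrix.diagonal_map (by simp)]
      congr 1
      funext a
      split_ifs <;> simp
    rw [h9, trace_map, trace_sums hS, map_sum]
    refine Finset.sum_congr rfl fun b' _ => ?_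
    rw [lin_mulC', hτ]
    congr 1
    rw [← pow_mul]
    apply zt_mod hd0
    rw [← ZMod.natCast_eq_natCast_iff]
    push_cast
    rw [ZMod.natCast_zmod_val, ZMod.natCast_zmod_val, ZMod.natCast_zmod_val]
    ring
  simp only [h1, Finset.mul_sum]
  rw [Finset.sum_comm]
  have h2 : ∀ b' : ZMod d, ∑ j ∈ range d, (d : ℂ)⁻¹ * (((p.2.1 : ℂ)⁻¹) ^ j *
      ((zt d ^ ((t : ZMod d) * b').val) ^ j * (S p.1 b' : ℂ))) =
      if b' = (t⁻¹ : (ZMod d)ˣ) * b then (S p.1 b' : ℂ) else 0 := by
    intro b'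
    have h4 : ∑ j ∈ range d, (d : ℂ)⁻¹ * (((p.2.1 : ℂ)⁻¹) ^ j *
        ((zt d ^ ((t : ZMod d) * b').val) ^ j * (S p.1 b' : ℂ))) =
        (d : ℂ)⁻¹ * (∑ j ∈ range d, ((p.2.1 : ℂ)⁻¹ * zt d ^ ((t : ZMod d) * b').val) ^ j) *
          (S p.1 b' : ℂ) := by
      rw [Finset.mul_sum, Finset.sum_mul]
      refine Finset.sum_congr rfl fun j _ => ?_
      rw [mul_pow]
      ring
    rw [h4, geom h hE (by rw [mul_pow, inv_pow, hone, hpow, inv_one, mul_one])]
    have h5 : ((p.2.1 : ℂ)⁻¹ * zt d ^ ((t : ZMod d) * b').val = 1) ↔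
        b' = (t⁻¹ : (ZMod d)ˣ) * b := by
      rw [inv_mul_eq_one₀ p.2.2.1, hp]
      constructor
      · intro h6
        have h7 := hζ.pow_inj (ZMod.val_lt _) (ZMod.val_lt _) h6
        have h8 := ZMod.val_injective d h7
        rw [h8, Units.inv_mul_cancel_left]
      · intro h6
        rw [h6, Units.mul_inv_cancel_left]
    by_cases h6 : b' = (t⁻¹ : (ZMod d)ˣ) * b
    · rw [if_pos (h5.2 h6), if_pos h6, inv_mul_cancel₀ hd0', one_mul]
    · rw [if_neg (fun h' => h6 (h5.1 h')), if_neg h6, mul_zero, zero_mul]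
  rw [Finset.sum_congr rfl fun b' _ => h2 b', Finset.sum_ite_eq' univ _
    (fun b' => (S p.1 b' : ℂ)), if_pos (Finset.mem_univ _)]

end

end Pool.Agent.H842.CR
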