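import Pool.Agent.H842.CR.Num2

/-!
# Numerical types (III)
-/

set_option linter.unusedSectionVars false

open Matrix Finset Function

namespace Pool.Agent.H842.CR

open Pool.Agent.TH125.Nod

variable {B : Type} [Fintype B] [DecidableEq B] {D : Type} [Fintype D]
  [DecidableEq D] {ι : Type} [DecidableEq ι] {k n : ℕ}

/-- The central relation, and the vanishing of the action on a part. -/
theorem central0 {E : Type} {U : Set E} {x : E → Matrix B B ℂ} {y : E → Matrix D D ℂ}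
    {κ : B → ι} {Q T : Matrix B B ℚ} {d : ℕ} {sg : ι → ℚ}
    (h : Glob κ Q T d sg (mm U x y)) {P : Matrix B B ℂ} {κ' : B → ι × Th} (hE : EB κ T d P κ')
    (hxT : ∀ u ∈ U, x u * mC T = mC T * x u)
    (hxb : ∀ u ∈ U, ∀ a b, κ a ≠ κ b → x u a b = 0)
    (hxs : ∀ u ∈ U, (x u)ᵀ * mC Q + mC Q * x u = 0) (hD : NoChar U y)
    {f : (Fin k → B) → D → ℚ} (hf : ∀ u ∈ U, act (x u, y u) (cx f) = 0)
    {c : Fin k → ι × Th} (hc : prt κ' c (pul P 1 (cx f)) ≠ 0) {u : E} (hu : u ∈ U)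
    (τ : ℂ →ₗ[ℚ] ℂ) :
    ∑ b, (wt κ' sig c (κ' b) : ℂ) * (P⁻¹ * (x u).map τ * P) b b = 0 ∧
      act (P⁻¹ * (x u).map τ * P, (0 : Matrix D D ℂ)) (prt κ' c (pul P 1 (cx f))) = 0 := by
  classical
  have hkill : ∀ a ∈ mm U x y, act a f = 0 := fun a ha => act_mm hf ha
  have hdat := h.dat hE
  have hdat' : Dat κ' sig (Pᵀ * mC Q * P) (Pᵀ * mC Q * P)⁻¹
    (fun p => ((sg p.1 : ℚ) : ℂ)) (wt κ' sig c) := ⟨hdat.ss, hdat.sσ, hdat.σσ, hdat.σne,
      wt_σ hdat c, hdat.Qb, hdat.Qs, hdat.QR⟩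
  have hinv := invT_prt hdat (h.rel hE hkill) c
  have hPP : P * P⁻¹ = 1 := mul_nonsing_inv _ hE.det
  -- the operators at all points
  have key : ∀ u ∈ U, ∀ τ : ℂ →ₗ[ℚ] ℂ,
      act (P⁻¹ * (x u).map τ * P, (y u).map τ) (prt κ' c (pul P 1 (cx f))) = 0 := by
    intro u hu τ
    have h1 := act_tau (hf u hu) τ
    have hXT : (x u).map τ * mC T = mC T * (x u).map τ := by
      rw [← map_mul_C, hxT u hu, map_C_mul]
    have hXb : ∀ a b, κ a ≠ κ b → (x u).map τ a b = 0 := by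
      intro a b hab
      rw [Matrix.map_apply, hxb u hu a b hab, map_zero]
    have hXP : (x u).map τ * P = P * (P⁻¹ * (x u).map τ * P) := by
      rw [← mul_assoc, ← mul_assoc, hPP, one_mul]
    have h2 : act (P⁻¹ * (x u).map τ * P, (y u).map τ) (pul P 1 (cx f)) = 0 := by
      rw [← pul_act hXP (by rw [mul_one, one_mul] : (y u).map τ * 1 = 1 * (y u).map τ), h1]
      exact pul_zero P 1
    exact act_prt (conj_blk h hE hXT hXb) _ h2 c
  have hsk : ∀ u ∈ U, ∀ τ : ℂ →ₗ[ℚ] ℂ,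
      act (P⁻¹ * (x u).map τ * P, (0 : Matrix D D ℂ)) (prt κ' c (pul P 1 (cx f))) =
      ((2 : ℂ)⁻¹ * ∑ b, (wt κ' sig c (κ' b) : ℂ) * (P⁻¹ * (x u).map τ * P) b b) •
        prt κ' c (pul P 1 (cx f)) := by
    intro u hu τ
    have hXT : (x u).map τ * mC T = mC T * (x u).map τ := by
      rw [← map_mul_C, hxT u hu, map_C_mul]
    have hXb : ∀ a b, κ a ≠ κ b → (x u).map τ a b = 0 := by
      intro a b hab
      rw [Matrix.map_apply, hxb u hu a b hab, map_zero]
    have hXs : ((x u).map τ)ᵀ * mC Q + mC Q * (x u).map τ = 0 := by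
      have h3 : ((x u)ᵀ * mC Q + mC Q * x u).map τ = (0 : Matrix B B ℂ).map τ := by
        rw [hxs u hu]
      rw [Matrix.map_add _ (map_add τ), map_mul_C, map_C_mul] at h3
      rw [← Matrix.transpose_map, h3]
      ext p q
      simp
    exact act_skew hdat' hinv (conj_skew h hE hXs) (conj_blk h hE hXT hXb)
  -- a value of the form
  obtain ⟨J, hJ⟩ := Function.ne_iff.1 hc
  set w : D → ℂ := prt κ' c (pul P 1 (cx f)) J with hw
  have hw0 : w ≠ 0 := hJ
  have hval : ∀ u ∈ U, ∀ τ : ℂ →ₗ[ℚ] ℂ, w ᵥ* (y u).map τ =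
      (-((2 : ℂ)⁻¹ * ∑ b, (wt κ' sig c (κ' b) : ℂ) * (P⁻¹ * (x u).map τ * P) b b)) • w := by
    intro u hu τ
    have h1 := key u hu τ
    have h2 : (P⁻¹ * (x u).map τ * P, (y u).map τ) =
        (P⁻¹ * (x u).map τ * P, (0 : Matrix D D ℂ)) + ((0 : Matrix B B ℂ), (y u).map τ) := by
      rw [Prod.mk_add_mk, add_zero, zero_add]
    rw [h2, act_add, hsk u hu τ] at h1
    funext l
    have h3 := congrFun (congrFun h1 J) l
    have h4 : act ((0 : Matrix B B ℂ), (y u).map τ) (prt κ' c (pul P 1 (cx f))) J l =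
        (w ᵥ* (y u).map τ) l := by
      rw [act_apply]
      simp only [Matrix.zero_apply, zero_mul, Finset.sum_const_zero, zero_add]
      show _ = ∑ m, w m * _
      exact Finset.sum_congr rfl fun m _ => mul_comm _ _
    have h5 : ((2 : ℂ)⁻¹ * ∑ b, (wt κ' sig c (κ' b) : ℂ) * (P⁻¹ * (x u).map τ * P) b b) * w l +
        (w ᵥ* (y u).map τ) l = 0 := by
      rw [← h4]
      exact h3
    rw [Pi.smul_apply, smul_eq_mul]
    linear_combination h5
  have hzero := hD w hw0 (fun u hu τ => ⟨_, hval u hu τ⟩) u hu τ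
  rw [hval u hu τ] at hzero
  have h6 : ∑ b, (wt κ' sig c (κ' b) : ℂ) * (P⁻¹ * (x u).map τ * P) b b = 0 := by
    rcases smul_eq_zero.1 hzero with h7 | h7
    · rw [neg_eq_zero] at h7
      rcases mul_eq_zero.1 h7 with h8 | h8
      · exact absurd h8 (inv_ne_zero two_ne_zero)
      · exact h8
    · exact absurd h7 hw0
  exact ⟨h6, by rw [hsk u hu τ, h6, mul_zero, zero_smul]⟩

/-- the zero variation -/
def y0 {E : Type} : E → Matrix Unit Unit ℂ := fun _ => 0

theorem noChar_y0 {E : Type} {U : Set E} : NoChar U (y0 (E := E)) := by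
  intro w _ _ u _ τ
  have : (y0 (E := E) u).map τ = 0 := by
    ext a b
    simp [y0]
  rw [this, vecMul_zero]

theorem mm_fst {E : Type} {U : Set E} {x : E → Matrix B B ℂ} {y : E → Matrix D D ℂ}
    {a : Matrix B B ℚ × Matrix D D ℚ} (ha : a ∈ mm U x y) :
    (a.1, (0 : Matrix Unit Unit ℚ)) ∈ mm U x (y0 (E := E)) := by
  let S : Submodule ℚ (Matrix B B ℚ × Matrix D D ℚ) :=
    { carrier := {a | (a.1, (0 : Matrix Unit Unit ℚ)) ∈ mm U x (y0 (E := E))}
      zero_mem' := Submodule.zero_mem (mm U x (y0 (E := E)))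
      add_mem' := fun {a b} ha hb => by
        have := Submodule.add_mem (mm U x (y0 (E := E))) ha hb
        rw [Prod.mk_add_mk, add_zero] at this
        exact this
      smul_mem' := fun c {a} ha => by
        have := Submodule.smul_mem (mm U x (y0 (E := E))) c ha
        rw [Prod.smul_mk, smul_zero] at this
        exact this }
  have h1 : mm U x y ≤ S := by
    unfold mm
    refine sInf_le ⟨?_, ?_⟩
    · intro φ u hu
      have h2 := gen_mem (x := x) (y := y0 (E := E)) hu φ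
      have h3 : (y0 (E := E) u).map φ = 0 := by
        ext a b
        simp [y0]
      rw [h3] at h2
      exact h2
    · intro a ha b hb
      have h2 := br_mem (show (a.1, (0 : Matrix Unit Unit ℚ)) ∈ mm U x (y0 (E := E)) from ha)
        (show (b.1, (0 : Matrix Unit Unit ℚ)) ∈ mm U x (y0 (E := E)) from hb)
      simp only [mul_zero, sub_zero] at h2
      exact h2
  exact h1 ha

/-- the reflections with trivial second variation -/
theorem HasReflection.fst {E : Type} {U : Set E} {κ : B → ι} {Q : Matrix B B ℚ}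
    {x : E → Matrix B B ℂ} {y : E → Matrix D D ℂ} {T : Matrix B B ℚ} {i : ι}
    (h : HasReflection U κ Q x y T i) : HasReflection U κ Q x (y0 (E := E)) T i := by
  obtain ⟨δ, ε, γ, η, m, hδ, hε, hγ1, hγ2, hη, hmon, hgen⟩ := h
  refine ⟨δ, ε, γ, 1, 1, hδ, hε, hγ1, hγ2, by simp, ?_, hgen⟩
  intro u hu
  obtain ⟨u', hu', h1, -⟩ := hmon u hu
  exact ⟨u', hu', h1, by simp [y0]⟩

/-- If the second variation has no characters then the operators on the first one kill the
class. -/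
theorem act_fst {E : Type} {U : Set E} {x : E → Matrix B B ℂ} {y : E → Matrix D D ℂ}
    {κ : B → ι} {Q T : Matrix B B ℚ} {d : ℕ} {sg : ι → ℚ}
    (h : Glob κ Q T d sg (mm U x y)) {P : Matrix B B ℂ} {κ' : B → ι × Th} (hE : EB κ T d P κ')
    (hxT : ∀ u ∈ U, x u * mC T = mC T * x u)
    (hxb : ∀ u ∈ U, ∀ a b, κ a ≠ κ b → x u a b = 0)
    (hxs : ∀ u ∈ U, (x u)ᵀ * mC Q + mC Q * x u = 0) (hD : NoChar U y)
    {f : (Fin k → B) → D → ℚ} (hf : ∀ u ∈ U, act (x u, y u) (cx f) = 0) {u : E} (hu : u ∈ U) :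
    act (x u, (0 : Matrix D D ℂ)) (cx f) = 0 := by
  have hPP : P * P⁻¹ = 1 := mul_nonsing_inv _ hE.det
  have hpadd : ∀ F G : (Fin k → B) → D → ℂ,
      pul P⁻¹ (1 : Matrix D D ℂ) (F + G) = pul P⁻¹ 1 F + pul P⁻¹ 1 G := by
    intro F G
    funext J l
    simp [pul, add_mul, Finset.sum_add_distrib]
  let A : ((Fin k → B) → D → ℂ) →ₗ[ℂ] ((Fin k → B) → D → ℂ) :=
    { toFun := fun F => act (x u, (0 : Matrix D D ℂ)) (pul P⁻¹ 1 F)
      map_add' := fun F G => by
        rw [hpadd]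
        funext J l
        simp only [act_apply, Pi.add_apply, mul_add, Finset.sum_add_distrib]
        ring
      map_smul' := fun r F => by
        rw [pul_smul]
        funext J l
        simp only [act_apply, Pi.smul_apply, smul_eq_mul, RingHom.id_apply, mul_add,
          Finset.mul_sum]
        congr 1
        · exact Finset.sum_congr rfl fun _ _ => Finset.sum_congr rfl fun _ _ => by ring
        · exact Finset.sum_congr rfl fun _ _ => by ring }
  have h1 : cx f = pul P⁻¹ 1 (pul P 1 (cx f)) := by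
    rw [pul_pul, hPP, mul_one, pul_one]
  rw [h1]
  show A (pul P 1 (cx f)) = 0
  rw [sum_prt (κ := κ') (pul P 1 (cx f)), map_sum]
  refine Finset.sum_eq_zero fun c _ => ?_
  by_cases hc : prt κ' c (pul P 1 (cx f)) = 0
  · rw [hc, map_zero]
  · have h2 := (central0 h hE hxT hxb hxs hD hf hc hu LinearMap.id).2
    have h3 : (x u).map (LinearMap.id : ℂ →ₗ[ℚ] ℂ) = x u := by
      ext a b
      rfl
    rw [h3] at h2
    show act (x u, (0 : Matrix D D ℂ)) (pul P⁻¹ 1 (prt κ' c (pul P 1 (cx f)))) = 0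
    have hX : P⁻¹ * x u * P * P⁻¹ = P⁻¹ * x u := by rw [mul_assoc, hPP, mul_one]
    rw [← pul_act hX (by rw [mul_one, one_mul] : (0 : Matrix D D ℂ) * 1 = 1 * 0), h2]
    exact pul_zero _ _

end Pool.Agent.H842.CR
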