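import Pool.Agent.H842.CR.Num3

/-!
# Numerical types (IV)
-/

set_option linter.unusedSectionVars false

open Matrix Finset Function

namespace Pool.Agent.H842.CR

open Pool.Agent.TH125.Nod

variable {B : Type} [Fintype B] [DecidableEq B] {D : Type} [Fintype D]
  [DecidableEq D] {ι : Type} [DecidableEq ι] {k n : ℕ}

theorem map_skew {x : Matrix B B ℂ} {Q : Matrix B B ℚ} (h : xᵀ * mC Q + mC Q * x = 0)
    (τ : ℂ →ₗ[ℚ] ℂ) : (x.map τ)ᵀ * mC Q + mC Q * x.map τ = 0 := by
  have h3 : (xᵀ * mC Q + mC Q * x).map τ = (0 : Matrix B B ℂ).map τ := by rw [h]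
  rw [Matrix.map_add _ (map_add τ), map_mul_C, map_C_mul] at h3
  rw [← Matrix.transpose_map, h3]
  ext p q
  simp

/-- the relation satisfied by the weights -/
def Rel {E : Type} (U : Set E) (x : E → Matrix B B ℂ) (P : Matrix B B ℂ) (κ' : B → ι × Th)
    (t : ι × Th → ℚ) : Prop :=
  ∀ u ∈ U, ∀ τ : ℂ →ₗ[ℚ] ℂ, ∑ b, (t (κ' b) : ℂ) * (P⁻¹ * (x u).map τ * P) b b = 0

section
variable {E : Type} {U : Set E} {x : E → Matrix B B ℂ} {κ : B → ι} {Q T : Matrix B B ℚ} {d : ℕ}
  {sg : ι → ℚ} (h : Glob κ Q T d sg (mm U x (y0 (E := E)))) {P : Matrix B B ℂ}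
  {κ' : B → ι × Th} (hE : EB κ T d P κ')
include h hE

/-- the determinantal tensors have numerical types -/
theorem numerical_of [NeZero d] {S : ι → ZMod d → ℚ} {u0 : E} (hu0 : u0 ∈ U)
    (hS : HasHodgeSums κ T (x u0) d S) (hxs : (x u0)ᵀ * mC Q + mC Q * x u0 = 0)
    {g : Fin n → ℕ} {c' : Fin n → ι × Th} {ω : (Fin n → B) → Unit → ℚ}
    (hd : DatG κ' (Rel U x P κ') g c') (hω : QDet κ T (mm U x (y0 (E := E))) g c' ω) :
    IsNumerical κ T d S (fun J => ω J ()) := by
  classical
  have hd0 : d ≠ 0 := NeZero.ne d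
  have hζ := zt_prim d hd0
  have hdat := h.dat hE
  obtain ⟨hcol, hcard, hpos, hrel⟩ := hd
  -- exponents
  have hex : ∀ x, ∃ b : ZMod d, ((c' x).2.1 : ℂ) = zt d ^ b.val := by
    intro x
    have h1 : 0 < (blk κ' (c' x)).card := by
      rw [← hcard x]
      exact Finset.card_pos.2 ⟨x, Finset.mem_filter.2 ⟨Finset.mem_univ _, rfl⟩⟩
    obtain ⟨b, hb⟩ := Finset.card_pos.1 h1
    have h2 := hE.one b
    rw [mem_blk.1 hb] at h2
    obtain ⟨i, hi, hi'⟩ := hζ.eq_pow_of_pow_eq_one h2
    exact ⟨(i : ZMod d), by rw [ZMod.val_natCast, Nat.mod_eq_of_lt hi, hi']⟩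
  choose b hb using hex
  have hbcol : ∀ x y, g x = g y → b x = b y := by
    intro x y hxy
    have h1 := hb x
    rw [hcol x y hxy, hb y] at h1
    exact ZMod.val_injective d (hζ.pow_inj (ZMod.val_lt _) (ZMod.val_lt _) h1.symm)
  -- groups
  let A : Finset ℕ := univ.image g
  let eA : {a // a ∈ A} ≃ Fin A.card := A.equivFin
  let G : Fin n → Fin A.card := fun x => eA ⟨g x, Finset.mem_image_of_mem g (Finset.mem_univ x)⟩
  have hG : ∀ x y, G x = G y ↔ g x = g y := by
    intro x y
    constructor
    · intro h1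
      have h2 := eA.injective h1
      exact congrArg Subtype.val h2
    · intro h1
      show eA _ = eA _
      congr 1
      exact Subtype.ext h1
  have hsurj : ∀ a, ∃ x, G x = a := by
    intro a
    obtain ⟨x, -, hx⟩ := Finset.mem_image.1 (eA.symm a).2
    refine ⟨x, ?_⟩
    show eA _ = a
    rw [← eA.eq_symm_apply]
    exact Subtype.ext hx
  choose rep hrep using hsurj
  have hrg : ∀ x, g (rep (G x)) = g x := fun x => (hG _ _).1 (hrep (G x))
  refine ⟨A.card, G, fun a => (c' (rep a)).1, fun a => b (rep a), ?_, ?_, ?_, ?_, ?_, ?_⟩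
  · intro p q hne hpq J
    exact congrFun (hω.alt p q hne ((hG p q).1 hpq) J) ()
  · intro a
    have h1 : univ.filter (fun x => G x = a) = univ.filter (fun y => g y = g (rep a)) := by
      ext x
      rw [Finset.mem_filter, Finset.mem_filter, ← hG, hrep]
    rw [h1]
    refine ⟨Finset.card_pos.2 ⟨rep a, Finset.mem_filter.2 ⟨Finset.mem_univ _, rfl⟩⟩, ?_⟩
    rw [hcard (rep a), ← hb (rep a)]
    exact (hE.finrank (c' (rep a))).symm
  · intro x J hJ
    have h1 : (c' (rep (G x))) = c' x := hcol _ _ (hrg x)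
    have h2 := hω.blk x J (by rw [← h1]; exact hJ)
    exact congrFun h2 ()
  · intro v θ hv hne
    obtain ⟨t, ht⟩ := exists_unit (b := b) (θ := θ) (by
      intro e R hR
      refine hω.typ e R ?_ v θ () hv hne
      simp only [hb]
      exact hR)
    refine ⟨t, fun p => ?_⟩
    show θ p = zt d ^ ((t : ZMod d) * b (rep (G p))).val
    rw [ht p, hbcol _ _ (hrg p)]
  · intro a a' haa h0
    have h1 : c' (rep a') = sig (c' (rep a)) := by
      unfold sig
      refine Prod.ext haa.symm (Subtype.ext ?_)
      show ((c' (rep a')).2.1 : ℂ) = ((c' (rep a)).2.1 : ℂ)⁻¹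
      apply eq_inv_of_mul_eq_one_left
      rw [hb, hb, ← pow_add]
      have h2 : (b (rep a')).val + (b (rep a)).val ≡ 0 [MOD d] := by
        rw [← ZMod.natCast_eq_natCast_iff]
        push_cast
        rw [ZMod.natCast_zmod_val, ZMod.natCast_zmod_val, add_comm]
        exact h0
      rw [zt_mod hd0 h2, pow_zero]
    have h2 := hpos (rep a')
    rw [h1, wt_σ hdat] at h2
    have h3 := hpos (rep a)
    linarith
  · intro t
    obtain ⟨τ, hτ⟩ := exists_lin (N := d) (t := ((t⁻¹ : (ZMod d)ˣ) : ZMod d).val)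
      (Nat.pos_of_ne_zero hd0) (ZMod.val_coe_unit_coprime t⁻¹)
    have h1 := hrel u0 hu0 τ
    rw [wt_trace hdat (conj_skew h hE (map_skew hxs τ)) c'] at h1
    have h2 := (mul_eq_zero.1 h1).resolve_left two_ne_zero
    have h3 : ∀ p : Fin n, ∑ u ∈ blk κ' (c' p), (P⁻¹ * (x u0).map τ * P) u u =
        (S (c' p).1 ((t : ZMod d) * b p) : ℂ) := by
      intro p
      have h4 := block_trace h hE hS (t := t⁻¹) hτ (hb p)
      rw [inv_inv] at h4
      exact h4
    simp only [h3] at h2
    rw [← Finset.sum_fiberwise univ G] at h2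
    have h4 : ∀ a, ∑ p ∈ univ.filter (fun p => G p = a),
        (S (c' p).1 ((t : ZMod d) * b p) : ℂ) / ((blk κ' (c' p)).card : ℂ) =
        (S (c' (rep a)).1 ((t : ZMod d) * b (rep a)) : ℂ) := by
      intro a
      have h5 : ∀ p ∈ univ.filter (fun p => G p = a),
          (S (c' p).1 ((t : ZMod d) * b p) : ℂ) / ((blk κ' (c' p)).card : ℂ) =
          (S (c' (rep a)).1 ((t : ZMod d) * b (rep a)) : ℂ) /
            ((blk κ' (c' (rep a))).card : ℂ) := by
        intro p hp
        have h6 : g p = g (rep a) := by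
          rw [← hG, hrep]
          exact (Finset.mem_filter.1 hp).2
        rw [hcol _ _ h6, hbcol _ _ h6]
      rw [Finset.sum_congr rfl h5, Finset.sum_const]
      have h1 : univ.filter (fun p => G p = a) = univ.filter (fun y => g y = g (rep a)) := by
        ext p
        rw [Finset.mem_filter, Finset.mem_filter, ← hG, hrep]
      rw [h1, hcard (rep a), nsmul_eq_mul]
      have h7 : ((blk κ' (c' (rep a))).card : ℂ) ≠ 0 := by
        rw [← hcard (rep a)]
        have : 0 < (univ.filter fun y => g y = g (rep a)).card :=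
          Finset.card_pos.2 ⟨rep a, Finset.mem_filter.2 ⟨Finset.mem_univ _, rfl⟩⟩
        exact_mod_cast this.ne'
      field_simp
    rw [Finset.sum_congr rfl fun a _ => h4 a] at h2
    exact_mod_cast h2

end

/-- **Numerical types.** -/
theorem num_main {E : Type} [NormedAddCommGroup E] [NormedSpace ℂ E] {U : Set E}
    {x : E → Matrix B B ℂ} {y : E → Matrix D D ℂ} {κ : B → ι} {s : ι → ℤ} {Q T : Matrix B B ℚ}
    {d : ℕ} {S : ι → ZMod d → ℚ} (hV : IsVHS U x) (hP : IsPolarized U κ s Q x)
    (hT : IsAut U κ Q x T d) (hR : ∀ i, HasReflection U κ Q x y T i) (hN : NoChar U y)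
    (hS : ∃ u ∈ U, HasHodgeSums κ T (x u) d S) {u : E} (hu : u ∈ U)
    {f : (Fin k → B) → D → ℚ} (hact : ∀ u ∈ U, act (x u, y u) (cx f) = 0) :
    f ∈ Submodule.span ℚ (productsNum κ Q T d S (x u) (y u) k) := by
  classical
  have : NeZero d := ⟨hT.pos.ne'⟩
  obtain ⟨u0, hu0, hS⟩ := hS
  have hkill : ∀ a ∈ mm U x y, act a f = 0 := fun a ha => act_mm hact ha
  have hG := glob_mm ⟨u, hu⟩ hV hP hT hR
  have hG0 := glob_mm ⟨u, hu⟩ hV hP hT (fun i => (hR i).fst)
  obtain ⟨P, κ', hE⟩ := hG.exists_EB
  -- the slices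
  have hslice : ∀ l, ∀ v ∈ U, act (x v, y0 (E := E) v)
      (cx (fun J (_ : Unit) => f J l)) = 0 := by
    intro l v hv
    have h1 := act_fst hG hE hT.comm hP.blockx hP.skew hN hact hv
    funext J _
    have h2 := congrFun (congrFun h1 J) l
    rw [act_apply] at h2 ⊢
    simp only [Matrix.zero_apply, zero_mul, Finset.sum_const_zero, add_zero] at h2
    have h3 : ∀ m l', y0 (E := E) v m l' = 0 := fun _ _ => rfl
    simp only [h3, zero_mul, Finset.sum_const_zero, add_zero]
    exact h2
  let K : Submodule ℚ ((Fin k → B) → Unit → ℚ) :=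
    { carrier := {p | ∀ a ∈ mm U x (y0 (E := E)), act a p = 0}
      zero_mem' := fun a _ => by
        funext J l
        simp [act_apply]
      add_mem' := fun {p q} hp hq a ha => by
        have h1 : act a (p + q) = act a p + act a q := by
          funext J l
          simp only [act_apply, Pi.add_apply, mul_add, Finset.sum_add_distrib]
          ring
        rw [h1, hp a ha, hq a ha, add_zero]
      smul_mem' := fun r p hp a ha => by
        have h1 : act a (r • p) = r • act a p := by
          funext J l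
          simp only [act_apply, Pi.smul_apply, smul_eq_mul, mul_add, Finset.mul_sum]
          congr 1
          · exact Finset.sum_congr rfl fun _ _ => Finset.sum_congr rfl fun _ _ => by ring
          · exact Finset.sum_congr rfl fun _ _ => by ring
        rw [h1, hp a ha, smul_zero] }
  let P0 : Submodule ℚ ((Fin k → B) → Unit → ℚ) :=
    TQ κ Q T (mm U x (y0 (E := E))) κ' (Rel U x P κ') k ⊓ K
  have hf : ∀ l, (fun J (_ : Unit) => f J l) ∈ P0 := by
    intro l
    have hk : ∀ a ∈ mm U x (y0 (E := E)), act a (fun J (_ : Unit) => f J l) = 0 :=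
      fun a ha => act_mm (hslice l) ha
    refine Submodule.mem_inf.2 ⟨mem_TQ hG0 hE hk ?_, hk⟩
    intro c hc v hv τ
    exact (central0 hG0 hE hT.comm hP.blockx hP.skew noChar_y0 (hslice l) hc hv τ).1
  let b := Module.finBasis ℚ P0
  let w : Fin (Module.finrank ℚ P0) → D → ℚ := fun α l => b.repr ⟨_, hf l⟩ α
  have hexp : ∀ J l, f J l = ∑ α, w α l * (b α : (Fin k → B) → Unit → ℚ) J () := by
    intro J l
    have h1 := b.sum_repr ⟨_, hf l⟩
    have h2 := congrArg (fun z : P0 => (z : (Fin k → B) → Unit → ℚ) J ()) h1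
    simp only [Submodule.coe_sum, Submodule.coe_smul, Finset.sum_apply, Pi.smul_apply,
      smul_eq_mul] at h2
    exact h2.symm
  have hw : ∀ a ∈ mm U x y, ∀ α l, ∑ m, a.2 m l * w α m = 0 := by
    intro a ha α l
    have h1 : ∀ J, ∑ α, (∑ m, a.2 m l * w α m) * (b α : (Fin k → B) → Unit → ℚ) J () = 0 := by
      intro J
      have h2 := congrFun (congrFun (hkill a ha) J) l
      rw [act_apply, Pi.zero_apply, Pi.zero_apply] at h2
      have h3 : ∑ j, ∑ p, a.1 p (J j) * f (update J j p) l = 0 := by
        have h4 : ∀ j p, a.1 p (J j) * f (update J j p) l =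
            ∑ α, w α l * (a.1 p (J j) * (b α : (Fin k → B) → Unit → ℚ) (update J j p) ()) := by
          intro j p
          rw [hexp, Finset.mul_sum]
          exact Finset.sum_congr rfl fun α _ => by ring
        simp only [h4]
        have h5 : ∀ j, ∑ p, ∑ α, w α l * (a.1 p (J j) *
            (b α : (Fin k → B) → Unit → ℚ) (update J j p) ()) =
            ∑ α, w α l * ∑ p, (a.1 p (J j) *
              (b α : (Fin k → B) → Unit → ℚ) (update J j p) ()) := by
          intro j
          rw [Finset.sum_comm]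
          exact Finset.sum_congr rfl fun α _ => by rw [Finset.mul_sum]
        simp only [h5]
        rw [Finset.sum_comm]
        refine Finset.sum_eq_zero fun α _ => ?_
        rw [← Finset.mul_sum]
        have h6 : (b α : (Fin k → B) → Unit → ℚ) ∈ K := (Submodule.mem_inf.1 (b α).2).2
        have h7 := congrFun (congrFun (h6 _ (mm_fst ha)) J) ()
        rw [act_apply] at h7
        simp only [Matrix.zero_apply, zero_mul, Finset.sum_const_zero, add_zero] at h7
        rw [h7]
        simp
      rw [h3, zero_add] at h2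
      rw [← h2]
      simp only [hexp, Finset.mul_sum, Finset.sum_mul]
      rw [Finset.sum_comm]
      exact Finset.sum_congr rfl fun m _ => Finset.sum_congr rfl fun α _ => by ring
    have h6 : ∑ α, (∑ m, a.2 m l * w α m) • b α = 0 := by
      apply Subtype.ext
      funext J l'
      simp only [Submodule.coe_sum, Submodule.coe_smul, Finset.sum_apply, Pi.smul_apply,
        smul_eq_mul]
      exact h1 J
    exact Fintype.linearIndependent_iff.1 b.linearIndependent _ h6 α
  have hwH : ∀ α, IsHodgeD (y u) (w α) := by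
    intro α c v hv hc
    have h1 : ∀ m, ∑ l, (w α l : ℂ) * y u l m = 0 := by
      intro m
      obtain ⟨τ, F, β, φ, -, hy⟩ := exists_decomp (x u) (y u)
      have h2 : ∀ l, y u l m = ∑ t ∈ F, β t * ((φ t (y u l m) : ℚ) : ℂ) := by
        intro l
        have := congrFun (congrFun hy l) m
        rw [Matrix.sum_apply] at this
        exact this
      calc ∑ l, (w α l : ℂ) * y u l m =
            ∑ l, (w α l : ℂ) * ∑ t ∈ F, β t * ((φ t (y u l m) : ℚ) : ℂ) :=
              Finset.sum_congr rfl fun l _ => by rw [← h2 l]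
        _ = ∑ t ∈ F, β t * ∑ l, ((φ t (y u l m) : ℚ) : ℂ) * (w α l : ℂ) := by
              simp only [Finset.mul_sum]
              rw [Finset.sum_comm]
              exact Finset.sum_congr rfl fun m _ => Finset.sum_congr rfl fun α _ => by ring
        _ = 0 := by
              refine Finset.sum_eq_zero fun t _ => ?_
              have h3 := hw _ (gen_mem hu (φ t)) α m
              have h4 : ∑ l, ((φ t (y u l m) : ℚ) : ℂ) * (w α l : ℂ) = 0 := by
                exact_mod_cast h3
              rw [h4, mul_zero]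
    have h2 : (c : ℂ) * ∑ l, (w α l : ℂ) * v l = 0 := by
      have h3 : ∀ l, (c : ℂ) * v l = ∑ m, y u l m * v m := fun l => (congrFun hv l).symm
      calc (c : ℂ) * ∑ l, (w α l : ℂ) * v l = ∑ l, (w α l : ℂ) * ((c : ℂ) * v l) := by
            rw [Finset.mul_sum]
            exact Finset.sum_congr rfl fun l _ => by ring
        _ = ∑ m, (∑ l, (w α l : ℂ) * y u l m) * v m := by
            simp only [h3, Finset.mul_sum, Finset.sum_mul]
            rw [Finset.sum_comm]
            exact Finset.sum_congr rfl fun m _ => Finset.sum_congr rfl fun α _ => by ring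
        _ = 0 := by
            refine Finset.sum_eq_zero fun m _ => ?_
            rw [h1 m, zero_mul]
    rcases mul_eq_zero.1 h2 with h3 | h3
    · exact absurd (by exact_mod_cast h3) hc
    · exact h3
  -- tensors with Hodge classes
  have hten : ∀ p ∈ TQ κ Q T (mm U x (y0 (E := E))) κ' (Rel U x P κ') k, ∀ h : D → ℚ,
      IsHodgeD (y u) h → (fun J l => p J () * h l) ∈
        Submodule.span ℚ (productsNum κ Q T d S (x u) (y u) k) := by
    intro p hp h hh
    unfold TQ at hp
    induction hp using Submodule.span_induction with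
    | mem p hp =>
      obtain ⟨m, n, e, c, a, g, c', ω, hd, hω, rfl⟩ := hp
      refine Submodule.subset_span ⟨m, n, e, c, a, fun J => ω J (), h,
        numerical_of hG0 hE hu0 hS (hP.skew u0 hu0) hd hω, ?_, hh, rfl⟩
      exact hodge_of_kill hu hω.kill
    | zero =>
      have : (fun (J : Fin k → B) (l : D) => (0 : (Fin k → B) → Unit → ℚ) J () * h l) = 0 := by
        funext J l
        simp
      rw [this]
      exact Submodule.zero_mem _
    | add f g _ _ h1 h2 =>
      have : (fun (J : Fin k → B) (l : D) => (f + g) J () * h l) =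
          (fun J l => f J () * h l) + fun J l => g J () * h l := by
        funext J l
        simp [add_mul]
      rw [this]
      exact Submodule.add_mem _ h1 h2
    | smul r f _ h1 =>
      have : (fun (J : Fin k → B) (l : D) => (r • f) J () * h l) =
          r • fun J l => f J () * h l := by
        funext J l
        simp [mul_assoc]
      rw [this]
      exact Submodule.smul_mem _ _ h1
  have hfsum : f = ∑ α, fun J l => (b α : (Fin k → B) → Unit → ℚ) J () * w α l := by
    funext J l
    rw [hexp J l, Finset.sum_apply, Finset.sum_apply]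
    exact Finset.sum_congr rfl fun α _ => mul_comm _ _
  rw [hfsum]
  exact Submodule.sum_mem _ fun α _ => hten _ (Submodule.mem_inf.1 (b α).2).1 _ (hwH α)

end Pool.Agent.H842.CR
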