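import Pool.Agent.H842.CR.Eb
import Pool.Agent.H842.CR.Defs

/-!
# Products of the forms `Q (v, T ^ a w)`
-/

set_option linter.unusedSectionVars false

open Matrix Finset Function

namespace Pool.Agent.H842.CR

open Pool.Agent.TH125.Nod

variable {B : Type} [Fintype B] [DecidableEq B] {D : Type} [Fintype D]
  [DecidableEq D] {ι : Type} [DecidableEq ι] {k : ℕ}

/-- product of forms -/
def prdT (κ : B → ι) (Q T : Matrix B B ℚ) {m : ℕ} (e : Fin m × Fin 2 ≃ Fin k) (c : Fin m → ι)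
    (a : Fin m → ℕ) : (Fin k → B) → ℚ :=
  fun J => ∏ t, block κ (Q * T ^ a t) (c t) (J (e (t, 0))) (J (e (t, 1)))

/-- the span of the products -/
def P0T (κ : B → ι) (Q T : Matrix B B ℚ) (k : ℕ) : Submodule ℚ ((Fin k → B) → ℚ) :=
  Submodule.span ℚ {p | ∃ (m : ℕ) (e : Fin m × Fin 2 ≃ Fin k) (c : Fin m → ι) (a : Fin m → ℕ),
    p = prdT κ Q T e c a}

/-- the complex span of the products -/
def PC (κ : B → ι) (Q T : Matrix B B ℚ) (k : ℕ) : Submodule ℂ ((Fin k → B) → ℂ) :=
  Submodule.span ℂ {p | ∃ (m : ℕ) (e : Fin m × Fin 2 ≃ Fin k) (c : Fin m → ι) (a : Fin m → ℕ),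
    p = fun J => ((prdT κ Q T e c a J : ℚ) : ℂ)}

/-- descent from the complex to the rational span -/
theorem descent {κ : B → ι} {Q T : Matrix B B ℚ} {f : (Fin k → B) → ℚ}
    (hf : (fun J => (f J : ℂ)) ∈ PC κ Q T k) : f ∈ P0T κ Q T k := by
  have key : ∀ g ∈ PC κ Q T k, ∀ τ : ℂ →ₗ[ℚ] ℚ, (fun J => τ (g J)) ∈ P0T κ Q T k := by
    intro g hg
    unfold PC at hg
    induction hg using Submodule.span_induction with
    | mem g hg =>
      obtain ⟨m, e, c, a, rfl⟩ := hg
      intro τ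
      have : (fun J => τ ((prdT κ Q T e c a J : ℚ) : ℂ)) = τ 1 • prdT κ Q T e c a := by
        funext J
        have h1 := lin_mul τ (prdT κ Q T e c a J) 1
        rw [mul_one] at h1
        rw [h1, Pi.smul_apply, smul_eq_mul, mul_comm]
      rw [this]
      exact Submodule.smul_mem _ _ (Submodule.subset_span ⟨m, e, c, a, rfl⟩)
    | zero =>
      intro τ
      have : (fun J => τ ((0 : (Fin k → B) → ℂ) J)) = 0 := by
        funext J
        simp
      rw [this]
      exact Submodule.zero_mem _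
    | add g g' _ _ h h' =>
      intro τ
      have : (fun J => τ ((g + g') J)) = (fun J => τ (g J)) + fun J => τ (g' J) := by
        funext J
        simp
      rw [this]
      exact Submodule.add_mem _ (h τ) (h' τ)
    | smul c g _ h =>
      intro τ
      exact h (τ ∘ₗ (LinearMap.mulLeft ℚ c))
  obtain ⟨τ, hτ⟩ : ∃ τ : ℂ →ₗ[ℚ] ℚ, τ 1 = 1 := by
    obtain ⟨g, hg⟩ := LinearMap.exists_leftInverse_of_injective
      (LinearMap.toSpanSingleton ℚ ℂ 1) (by
        rw [LinearMap.ker_toSpanSingleton]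
        exact one_ne_zero)
    refine ⟨g, ?_⟩
    have := LinearMap.congr_fun hg 1
    simpa using this
  have h1 := key _ hf τ
  have h2 : (fun J => τ ((f J : ℚ) : ℂ)) = f := by
    funext J
    have h3 := lin_mul τ (f J) 1
    rw [mul_one, hτ, mul_one] at h3
    exact h3
  rwa [h2] at h1

/-- the matrix of the pairing of two blocks in the original basis -/
noncomputable def mat (κ' : B → ι × Th) (P : Matrix B B ℂ) (Q' : Matrix B B ℂ)
    (p₁ p₂ : ι × Th) : Matrix B B ℂ :=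
  fun a b => ∑ p ∈ blk κ' p₁, ∑ q ∈ blk κ' p₂, P⁻¹ p a * Q' p q * P⁻¹ q b

section
variable {κ : B → ι} {Q T : Matrix B B ℚ} {d : ℕ} {sg : ι → ℚ}
  {𝔪 : Submodule ℚ (Matrix B B ℚ × Matrix D D ℚ)}
  (h : Glob κ Q T d sg 𝔪) {P : Matrix B B ℂ} {κ' : B → ι × Th} (hE : EB κ T d P κ')
include h hE

theorem geom {r : ℂ} (hr : r ^ d = 1) : ∑ j ∈ range d, r ^ j = if r = 1 then (d : ℂ) else 0 := by
  split_ifs with h1
  · simp [h1]
  · have h2 := mul_neg_geom_sum r d
    rw [hr, sub_self] at h2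
    exact (mul_eq_zero.1 h2).resolve_left (sub_ne_zero.2 (Ne.symm h1))

/-- the projection to a block -/
theorem proj (p : ι × Th) (hp : (p.2.1 : ℂ) ^ d = 1) :
    P * diagonal (fun b => if κ' b = p then (1 : ℂ) else 0) * P⁻¹ =
      ((d : ℂ)⁻¹) • ∑ j ∈ range d, ((p.2.1 : ℂ)⁻¹) ^ j •
        (mC T ^ j * diagonal (fun a => if κ a = p.1 then (1 : ℂ) else 0)) := by
  have hd0 : (d : ℂ) ≠ 0 := by
    exact_mod_cast (by have := h.dpos; omega : d ≠ 0)
  have hPP : P * P⁻¹ = 1 := mul_nonsing_inv _ hE.det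
  have key : P * diagonal (fun b => if κ' b = p then (1 : ℂ) else 0) =
      (((d : ℂ)⁻¹) • ∑ j ∈ range d, ((p.2.1 : ℂ)⁻¹) ^ j •
        (mC T ^ j * diagonal (fun a => if κ a = p.1 then (1 : ℂ) else 0))) * P := by
    ext a b
    rw [mul_diagonal, smul_mul_assoc, Matrix.smul_apply, Finset.sum_mul, Matrix.sum_apply]
    have hcol : ∀ j, (((p.2.1 : ℂ)⁻¹) ^ j •
        (mC T ^ j * diagonal (fun a => if κ a = p.1 then (1 : ℂ) else 0)) * P) a b =
        ((((κ' b).2.1 : ℂ) * (p.2.1 : ℂ)⁻¹) ^ j) * (if (κ' b).1 = p.1 then P a b else 0) := by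
      intro j
      have h1 : diagonal (fun a => if κ a = p.1 then (1 : ℂ) else 0) *ᵥ P.col b =
          (if (κ' b).1 = p.1 then (1 : ℂ) else 0) • P.col b := by
        funext q
        rw [mulVec_diagonal, Pi.smul_apply, smul_eq_mul]
        by_cases hq : κ q = (κ' b).1
        · rw [hq]
        · have : P.col b q = 0 := hE.sup b q hq
          rw [this, mul_zero, mul_zero]
      have h2 : (mC T ^ j * diagonal (fun a => if κ a = p.1 then (1 : ℂ) else 0) * P) a b =
          ((mC T ^ j) *ᵥ (diagonal (fun a => if κ a = p.1 then (1 : ℂ) else 0) *ᵥ P.col b)) a := by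
        rw [mulVec_mulVec]
        rfl
      rw [smul_mul_assoc, Matrix.smul_apply, h2, h1, mulVec_smul, pow_eig (hE.eig b)]
      simp only [Pi.smul_apply, smul_eq_mul, mul_pow]
      show _ * (_ * (_ * P a b)) = _
      split_ifs <;> ring
    rw [Finset.sum_congr rfl fun j _ => hcol j, ← Finset.sum_mul, geom h hE]
    · by_cases hb : κ' b = p
      · have e1 : (κ' b).1 = p.1 := by rw [hb]
        have e2 : ((κ' b).2.1 : ℂ) * (p.2.1 : ℂ)⁻¹ = 1 := by
          rw [hb]
          exact mul_inv_cancel₀ p.2.2.1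
        rw [if_pos hb, if_pos e2, if_pos e1, smul_eq_mul, ← mul_assoc, inv_mul_cancel₀ hd0]
        ring
      · rw [if_neg hb, mul_zero]
        by_cases e1 : (κ' b).1 = p.1
        · have e2 : ((κ' b).2.1 : ℂ) * (p.2.1 : ℂ)⁻¹ ≠ 1 := by
            intro e3
            apply hb
            apply Prod.ext e1
            apply Subtype.ext
            rw [← div_eq_mul_inv, div_eq_one_iff_eq p.2.2.1] at e3
            exact e3
          rw [if_neg e2, zero_mul, smul_zero]
        · rw [if_neg e1, mul_zero, smul_zero]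
    · rw [mul_pow, inv_pow, hp, hE.one, inv_one, mul_one]
  rw [key, mul_assoc, hPP, mul_one]

/-- the matrix of the pairing is a combination of the forms `Q (v, T ^ a w)` -/
theorem mat_eq (p₁ p₂ : ι × Th) : ∃ co : Fin d → ℂ, ∀ a b,
    mat κ' P (Pᵀ * mC Q * P) p₁ p₂ a b =
      ∑ j, co j * ((block κ (Q * T ^ ((d - 1) * (j : ℕ))) p₁.1 a b : ℚ) : ℂ) := by
  by_cases hp : (p₁.2.1 : ℂ) ^ d = 1
  swap
  · refine ⟨fun _ => 0, fun a b => ?_⟩
    unfold mat
    rw [Finset.sum_eq_zero]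
    · simp
    · intro q hq
      exact absurd (by rw [← mem_blk.1 hq]; exact hE.one q) hp
  by_cases hpp : p₂ = sig p₁
  swap
  · refine ⟨fun _ => 0, fun a b => ?_⟩
    unfold mat
    rw [Finset.sum_eq_zero]
    · simp
    · intro p hp1
      refine Finset.sum_eq_zero fun q hq => ?_
      rw [(h.dat hE).Qb p q (by rw [mem_blk.1 hp1, mem_blk.1 hq]; exact hpp)]
      ring
  have hPP : P * P⁻¹ = 1 := mul_nonsing_inv _ hE.det
  set Pj := P * diagonal (fun b => if κ' b = p₁ then (1 : ℂ) else 0) * P⁻¹ with hPj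
  have h1 : mat κ' P (Pᵀ * mC Q * P) p₁ p₂ = Pjᵀ * mC Q := by
    ext a b
    have h2 : Pjᵀ * mC Q = (P⁻¹)ᵀ * diagonal (fun b => if κ' b = p₁ then (1 : ℂ) else 0) *
        ((Pᵀ * mC Q * P) * P⁻¹) := by
      rw [hPj, transpose_mul, transpose_mul, diagonal_transpose, mul_assoc (Pᵀ * mC Q), hPP,
        mul_one]
      simp only [mul_assoc]
    rw [h2, Matrix.mul_apply]
    simp only [mul_diagonal, Matrix.transpose_apply]
    unfold mat
    have h3 : ∀ p, P⁻¹ p a * (if κ' p = p₁ then (1 : ℂ) else 0) *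
        ((Pᵀ * mC Q * P) * P⁻¹) p b =
        if κ' p = p₁ then ∑ q ∈ blk κ' p₂, P⁻¹ p a * (Pᵀ * mC Q * P) p q * P⁻¹ q b else 0 := by
      intro p
      split_ifs with hp1
      · rw [mul_one, Matrix.mul_apply, Finset.mul_sum]
        symm
        rw [Finset.sum_congr rfl fun q _ => mul_assoc _ _ _]
        apply Finset.sum_subset (Finset.subset_univ _)
        intro q _ hq
        rw [mem_blk] at hq
        rw [(h.dat hE).Qb p q (by rw [hp1, ← hpp]; exact hq)]
        ring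
      · ring
    rw [Finset.sum_congr rfl fun p _ => h3 p, ← Finset.sum_filter]
    rfl
  refine ⟨fun j => (d : ℂ)⁻¹ * ((p₁.2.1 : ℂ)⁻¹) ^ (j : ℕ), fun a b => ?_⟩
  rw [h1, hPj, proj h hE p₁ hp]
  have hTQ : ∀ j : ℕ, (Tᵀ) ^ j * Q = Q * T ^ ((d - 1) * j) := by
    have h5 : T * T ^ (d - 1) = 1 := by
      rw [← pow_succ', Nat.sub_add_cancel h.dpos, h.Td]
    have h6 : Tᵀ * Q = Q * T ^ (d - 1) := by
      calc Tᵀ * Q = Tᵀ * Q * (T * T ^ (d - 1)) := by rw [h5, mul_one]
        _ = (Tᵀ * Q * T) * T ^ (d - 1) := by noncomm_ring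
        _ = Q * T ^ (d - 1) := by rw [h.iso]
    intro j
    induction j with
    | zero => rw [pow_zero, one_mul, mul_zero, pow_zero, mul_one]
    | succ j ih =>
      rw [pow_succ, mul_assoc, h6, ← mul_assoc, ih, mul_assoc, ← pow_add]
      congr 2
  have hblkQT : ∀ (n : ℕ) a b, κ a ≠ κ b → (Q * T ^ n) a b = 0 := by
    intro n
    induction n with
    | zero =>
      intro a b hab
      rw [pow_zero, mul_one]
      exact h.Qb a b hab
    | succ n ih =>
      intro a b hab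
      rw [pow_succ, ← mul_assoc, Matrix.mul_apply]
      refine Finset.sum_eq_zero fun q _ => ?_
      by_cases hq : κ a = κ q
      · rw [h.blkT q b (fun hqb => hab (hq.trans hqb)), mul_zero]
      · rw [ih a q hq, zero_mul]
  have h7 : (((d : ℂ)⁻¹) • ∑ j ∈ range d, ((p₁.2.1 : ℂ)⁻¹) ^ j •
        (mC T ^ j * diagonal (fun a => if κ a = p₁.1 then (1 : ℂ) else 0)))ᵀ * mC Q =
      ((d : ℂ)⁻¹) • ∑ j ∈ range d, ((p₁.2.1 : ℂ)⁻¹) ^ j •
        (diagonal (fun a => if κ a = p₁.1 then (1 : ℂ) else 0) *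
          mC (Q * T ^ ((d - 1) * j))) := by
    rw [transpose_smul, transpose_sum, smul_mul_assoc, Finset.sum_mul]
    congr 1
    refine Finset.sum_congr rfl fun j _ => ?_
    rw [transpose_smul, smul_mul_assoc, transpose_mul, diagonal_transpose, mul_assoc, ← hTQ,
      mC_mul]
    congr 3
    have : mC (Tᵀ ^ j) = (mC T ^ j)ᵀ := by
      rw [mC_pow, transpose_pow]
      rfl
    rw [this]
  rw [h7, Matrix.smul_apply, Matrix.sum_apply, smul_eq_mul, Finset.mul_sum,
    ← Fin.sum_univ_eq_sum_range (fun j => (d : ℂ)⁻¹ * (((p₁.2.1 : ℂ)⁻¹) ^ j •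
        (diagonal (fun a => if κ a = p₁.1 then (1 : ℂ) else 0) *
          mC (Q * T ^ ((d - 1) * j)))) a b)]
  refine Finset.sum_congr rfl fun j _ => ?_
  rw [Matrix.smul_apply, diagonal_mul, smul_eq_mul, mul_assoc]
  congr 2
  unfold block mC
  rw [Matrix.map_apply]
  split_ifs
  · rw [one_mul]
  · rw [zero_mul]
    simp

end

theorem sum_fin2 {M : Type} [AddCommMonoid M] (φ : B → B → M) :
    ∑ g : Fin 2 → B, φ (g 0) (g 1) = ∑ p, ∑ q, φ p q := by
  rw [← Finset.sum_product', Finset.univ_product_univ]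
  exact Fintype.sum_equiv (finTwoArrowEquiv B) _ _ fun g => rfl

/-- the pull-back of a generator -/
theorem pul_gen {κ' : B → ι × Th} {P Q' : Matrix B B ℂ} {c : Fin k → ι × Th} {m : ℕ}
    (e : Fin m × Fin 2 ≃ Fin k) (w : D → ℂ) (J : Fin k → B) (l : D) :
    pul P⁻¹ 1 (gen κ' Q' c e w) J l =
      (∏ t, mat κ' P Q' (c (e (t, 0))) (c (e (t, 1))) (J (e (t, 0))) (J (e (t, 1)))) * w l := by
  classical
  have h1 : pul P⁻¹ 1 (gen κ' Q' c e w) J l =
      ∑ I : Fin k → B, gen κ' Q' c e w I l * ∏ j, P⁻¹ (I j) (J j) := by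
    unfold pul
    refine Finset.sum_congr rfl fun I _ => ?_
    rw [Finset.sum_eq_single l]
    · rw [one_apply_eq, mul_one]
    · intro m _ hm
      rw [one_apply_ne hm, mul_zero]
    · intro hl
      exact absurd (Finset.mem_univ _) hl
  rw [h1]
  let φ : Fin m → B → B → ℂ := fun t p q =>
    if κ' p = c (e (t, 0)) ∧ κ' q = c (e (t, 1)) then
      P⁻¹ p (J (e (t, 0))) * Q' p q * P⁻¹ q (J (e (t, 1))) else 0
  have h2 : ∀ I : Fin k → B, gen κ' Q' c e w I l * ∏ j, P⁻¹ (I j) (J j) =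
      (∏ t, φ t (I (e (t, 0))) (I (e (t, 1)))) * w l := by
    intro I
    have h3 : ∏ j, P⁻¹ (I j) (J j) = ∏ t : Fin m, (P⁻¹ (I (e (t, 0))) (J (e (t, 0))) *
        P⁻¹ (I (e (t, 1))) (J (e (t, 1)))) := by
      rw [← Equiv.prod_comp e, Fintype.prod_prod_type]
      exact Finset.prod_congr rfl fun t _ => by rw [Fin.prod_univ_two]
    unfold gen
    by_cases hI : ∀ j, κ' (I j) = c j
    · rw [if_pos hI, h3]
      show (∏ t, Q' (I (e (t, 0))) (I (e (t, 1)))) * w l * _ = _
      rw [mul_right_comm, ← Finset.prod_mul_distrib]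
      congr 1
      refine Finset.prod_congr rfl fun t _ => ?_
      show _ = if _ then _ else _
      rw [if_pos ⟨hI _, hI _⟩]
      ring
    · rw [if_neg hI]
      push Not at hI
      obtain ⟨j, hj⟩ := hI
      obtain ⟨⟨t, τ⟩, rfl⟩ := e.surjective j
      rw [Finset.prod_eq_zero (Finset.mem_univ t), zero_mul]
      · simp
      · show (if _ then _ else _) = _
        rw [if_neg]
        rintro ⟨h4, h5⟩
        fin_cases τ
        · exact hj h4
        · exact hj h5
  simp only [h2]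
  rw [← Finset.sum_mul]
  congr 1
  -- reindexing
  have h3 : ∑ I : Fin k → B, ∏ t, φ t (I (e (t, 0))) (I (e (t, 1))) =
      ∑ I : Fin m → Fin 2 → B, ∏ t, φ t (I t 0) (I t 1) := by
    let E : (Fin k → B) ≃ (Fin m → Fin 2 → B) :=
      (Equiv.arrowCongr e.symm (Equiv.refl B)).trans (Equiv.curry (Fin m) (Fin 2) B)
    refine Fintype.sum_equiv E _ _ fun I => ?_
    rfl
  rw [h3]
  have h4 := Finset.prod_univ_sum (fun _ : Fin m => (univ : Finset (Fin 2 → B)))
    (fun t (g : Fin 2 → B) => φ t (g 0) (g 1))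
  rw [Fintype.piFinset_univ] at h4
  rw [← h4]
  refine Finset.prod_congr rfl fun t _ => ?_
  rw [sum_fin2 (φ t)]
  unfold mat
  show ∑ p : B, ∑ q : B, (if κ' p = c (e (t, 0)) ∧ κ' q = c (e (t, 1)) then
      P⁻¹ p (J (e (t, 0))) * Q' p q * P⁻¹ q (J (e (t, 1))) else 0) = _
  unfold blk
  rw [Finset.sum_filter]
  refine Finset.sum_congr rfl fun p _ => ?_
  by_cases hp : κ' p = c (e (t, 0))
  · rw [if_pos hp, Finset.sum_filter]
    refine Finset.sum_congr rfl fun q _ => ?_
    by_cases hq : κ' q = c (e (t, 1))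
    · rw [if_pos ⟨hp, hq⟩, if_pos hq]
    · rw [if_neg (fun h => hq h.2), if_neg hq]
  · rw [if_neg hp]
    refine Finset.sum_eq_zero fun q _ => ?_
    rw [if_neg (fun h => hp h.1)]

section
variable {κ : B → ι} {Q T : Matrix B B ℚ} {d : ℕ} {sg : ι → ℚ}
  {𝔪 : Submodule ℚ (Matrix B B ℚ × Matrix D D ℚ)}
  (h : Glob κ Q T d sg 𝔪) {P : Matrix B B ℂ} {κ' : B → ι × Th} (hE : EB κ T d P κ')
include h hE

theorem gen_PC {c : Fin k → ι × Th} {m : ℕ} (e : Fin m × Fin 2 ≃ Fin k) (w : D → ℂ) (l : D) :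
    (fun J => pul P⁻¹ 1 (gen κ' (Pᵀ * mC Q * P) c e w) J l) ∈ PC κ Q T k := by
  classical
  have hco := fun t : Fin m => mat_eq h hE (c (e (t, 0))) (c (e (t, 1)))
  choose co hco using hco
  have h1 : (fun J => pul P⁻¹ 1 (gen κ' (Pᵀ * mC Q * P) c e w) J l) =
      ∑ y : Fin m → Fin d, (w l * ∏ t, co t (y t)) • fun J =>
        ((prdT κ Q T e (fun t => (c (e (t, 0))).1) (fun t => (d - 1) * (y t : ℕ)) J : ℚ) : ℂ) := by
    funext J
    rw [pul_gen, Finset.sum_apply]
    have h2 : ∏ t, mat κ' P (Pᵀ * mC Q * P) (c (e (t, 0))) (c (e (t, 1))) (J (e (t, 0)))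
        (J (e (t, 1))) = ∑ y : Fin m → Fin d, ∏ t, (co t (y t) *
        ((block κ (Q * T ^ ((d - 1) * (y t : ℕ))) (c (e (t, 0))).1 (J (e (t, 0)))
          (J (e (t, 1))) : ℚ) : ℂ)) := by
      simp only [hco]
      rw [Finset.prod_univ_sum, Fintype.piFinset_univ]
    rw [h2, Finset.sum_mul]
    refine Finset.sum_congr rfl fun y _ => ?_
    rw [Finset.prod_mul_distrib, Pi.smul_apply, smul_eq_mul]
    unfold prdT
    push_cast
    ring
  rw [h1]
  exact Submodule.sum_mem _ fun y _ => Submodule.smul_mem _ _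
    (Submodule.subset_span ⟨m, e, _, _, rfl⟩)

theorem Gen_PC {c : Fin k → ι × Th} {F : (Fin k → B) → D → ℂ}
    (hF : F ∈ Gen (M := D → ℂ) κ' (Pᵀ * mC Q * P) c) (l : D) :
    (fun J => pul P⁻¹ 1 F J l) ∈ PC κ Q T k := by
  unfold Gen at hF
  induction hF using Submodule.span_induction with
  | mem F hF =>
    obtain ⟨m, e, w, rfl⟩ := hF
    exact gen_PC h hE e w l
  | zero =>
    have : (fun J => pul P⁻¹ 1 (0 : (Fin k → B) → D → ℂ) J l) = 0 := by
      funext J
      simp [pul]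
    rw [this]
    exact Submodule.zero_mem _
  | add F G _ _ h1 h2 =>
    have : (fun J => pul P⁻¹ 1 (F + G) J l) = (fun J => pul P⁻¹ 1 F J l) +
        fun J => pul P⁻¹ 1 G J l := by
      funext J
      simp [pul, add_mul, Finset.sum_add_distrib]
    rw [this]
    exact Submodule.add_mem _ h1 h2
  | smul r F _ h1 =>
    have : (fun J => pul P⁻¹ 1 (r • F) J l) = r • fun J => pul P⁻¹ 1 F J l := by
      funext J
      rw [pul_smul]
      rfl
    rw [this]
    exact Submodule.smul_mem _ _ h1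

/-- **Forms killed by the Lie algebra whose parts have small weights are combinations of
products.** -/
theorem mem_P0T {f : (Fin k → B) → D → ℚ} (hf : ∀ a ∈ 𝔪, act a f = 0)
    (hc : ∀ c : Fin k → ι × Th, prt κ' c (pul P 1 (cx f)) ≠ 0 → ∀ p, wt κ' sig c p < 1) (l : D) :
    (fun J => f J l) ∈ P0T κ Q T k := by
  classical
  apply descent
  have h1 : (fun J => (f J l : ℂ)) = fun J => pul P⁻¹ 1 (pul P 1 (cx f)) J l := by
    funext J
    rw [pul_pul, mul_nonsing_inv _ hE.det, mul_one, pul_one]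
    rfl
  rw [h1, sum_prt (κ := κ') (pul P 1 (cx f))]
  have h2 : (fun J => pul P⁻¹ (1 : Matrix D D ℂ) (∑ c ∈ univ.image
      (fun (J : Fin k → B) j => κ' (J j)), prt κ' c (pul P 1 (cx f))) J l) =
      ∑ c ∈ univ.image (fun (J : Fin k → B) j => κ' (J j)),
        fun J => pul P⁻¹ (1 : Matrix D D ℂ) (prt κ' c (pul P 1 (cx f))) J l := by
    funext J
    rw [Finset.sum_apply]
    have h3 : ∀ (G : Finset (Fin k → ι × Th)), pul P⁻¹ (1 : Matrix D D ℂ)
        (∑ c ∈ G, prt κ' c (pul P 1 (cx f))) J l =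
        ∑ c ∈ G, pul P⁻¹ (1 : Matrix D D ℂ) (prt κ' c (pul P 1 (cx f))) J l := by
      intro G
      induction G using Finset.induction_on with
      | empty =>
        rw [Finset.sum_empty, Finset.sum_empty]
        simp [pul]
      | insert c G hcG ih =>
        rw [Finset.sum_insert hcG, Finset.sum_insert hcG, ← ih]
        simp [pul, add_mul, Finset.sum_add_distrib]
    exact h3 _
  rw [h2]
  refine Submodule.sum_mem _ fun c _ => ?_
  by_cases h0 : prt κ' c (pul P 1 (cx f)) = 0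
  · have : (fun J => pul P⁻¹ (1 : Matrix D D ℂ) (prt κ' c (pul P 1 (cx f))) J l) = 0 := by
      funext J
      rw [h0]
      simp [pul]
    rw [this]
    exact Submodule.zero_mem _
  · exact Gen_PC h hE (h.part_mem hE hf c (hc c h0)) l

end

end Pool.Agent.H842.CR
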