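import Pool.Agent.H842.CR.Prd

/-!
# Products and Hodge classes
-/

set_option linter.unusedSectionVars false

open Matrix Finset Function

namespace Pool.Agent.H842.CR

open Pool.Agent.TH125.Nod

variable {B D : Type} [Fintype B] [DecidableEq B] [Fintype D] [DecidableEq D] {k : ℕ}
  {ι : Type} [DecidableEq ι] {κ : B → ι} {Q T : Matrix B B ℚ}

/-- invariance of products -/
theorem prdN_inv {X : Matrix B B ℚ} {m : ℕ} (N : Fin m → Matrix B B ℚ)
    (hN : ∀ t, Xᵀ * N t + N t * X = 0) (e : Fin m × Fin 2 ≃ Fin k) (J : Fin k → B) :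
    ∑ j, ∑ q, X q (J j) * ∏ t, N t (update J j q (e (t, 0))) (update J j q (e (t, 1))) = 0 := by
  rw [← Equiv.sum_comp e, Fintype.sum_prod_type]
  refine Finset.sum_eq_zero fun t _ => ?_
  rw [Fin.sum_univ_two]
  have hne : e (t, 0) ≠ e (t, 1) := by
    intro h
    have := e.injective h
    rw [Prod.mk.injEq] at this
    exact absurd this.2 (by decide)
  have hp0 : ∀ q, ∏ t', N t' (update J (e (t, 0)) q (e (t', 0)))
      (update J (e (t, 0)) q (e (t', 1))) = N t q (J (e (t, 1))) *
      ∏ t' ∈ univ.erase t, N t' (J (e (t', 0))) (J (e (t', 1))) := by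
    intro q
    rw [← Finset.mul_prod_erase univ _ (Finset.mem_univ t), update_self,
      update_of_ne (Ne.symm hne)]
    congr 1
    refine Finset.prod_congr rfl fun t' ht' => ?_
    have htt := Finset.ne_of_mem_erase ht'
    rw [update_of_ne, update_of_ne]
    · intro h
      have := e.injective h
      rw [Prod.mk.injEq] at this
      exact htt this.1
    · intro h
      have := e.injective h
      rw [Prod.mk.injEq] at this
      exact htt this.1
  have hp1 : ∀ q, ∏ t', N t' (update J (e (t, 1)) q (e (t', 0)))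
      (update J (e (t, 1)) q (e (t', 1))) = N t (J (e (t, 0))) q *
      ∏ t' ∈ univ.erase t, N t' (J (e (t', 0))) (J (e (t', 1))) := by
    intro q
    rw [← Finset.mul_prod_erase univ _ (Finset.mem_univ t), update_self, update_of_ne hne]
    congr 1
    refine Finset.prod_congr rfl fun t' ht' => ?_
    have htt := Finset.ne_of_mem_erase ht'
    rw [update_of_ne, update_of_ne]
    · intro h
      have := e.injective h
      rw [Prod.mk.injEq] at this
      exact htt this.1
    · intro h
      have := e.injective h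
      rw [Prod.mk.injEq] at this
      exact htt this.1
  simp only [hp0, hp1]
  have h2 := congrFun (congrFun (hN t) (J (e (t, 0)))) (J (e (t, 1)))
  rw [Matrix.add_apply, Matrix.mul_apply, Matrix.mul_apply, Matrix.zero_apply] at h2
  have h3 : ∑ q, X q (J (e (t, 0))) * (N t q (J (e (t, 1))) *
      ∏ t' ∈ univ.erase t, N t' (J (e (t', 0))) (J (e (t', 1)))) +
      ∑ q, X q (J (e (t, 1))) * (N t (J (e (t, 0))) q *
      ∏ t' ∈ univ.erase t, N t' (J (e (t', 0))) (J (e (t', 1)))) =
      (∑ q, Xᵀ (J (e (t, 0))) q * N t q (J (e (t, 1))) +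
        ∑ q, N t (J (e (t, 0))) q * X q (J (e (t, 1)))) *
      ∏ t' ∈ univ.erase t, N t' (J (e (t', 0))) (J (e (t', 1))) := by
    rw [add_mul, Finset.sum_mul, Finset.sum_mul]
    congr 1
    · exact Finset.sum_congr rfl fun q _ => by rw [transpose_apply]; ring
    · exact Finset.sum_congr rfl fun q _ => by ring
  rw [h3, h2, zero_mul]

theorem blk_inv {X : Matrix B B ℚ} (hX : Xᵀ * Q + Q * X = 0) (hXT : X * T = T * X)
    (hXb : ∀ p q, κ p ≠ κ q → X p q = 0) (a : ℕ) (i : ι) :
    Xᵀ * block κ (Q * T ^ a) i + block κ (Q * T ^ a) i * X = 0 := by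
  have hXa : X * T ^ a = T ^ a * X := (Commute.pow_right (show Commute X T from hXT) a)
  have h1 : Xᵀ * (Q * T ^ a) + (Q * T ^ a) * X = 0 := by
    rw [mul_assoc Q, ← hXa, ← mul_assoc, ← mul_assoc, ← add_mul, hX, zero_mul]
  ext p q
  have h2 := congrFun (congrFun h1 p) q
  rw [Matrix.add_apply, Matrix.mul_apply, Matrix.mul_apply, Matrix.zero_apply] at h2 ⊢
  have e1 : ∀ r, Xᵀ p r * block κ (Q * T ^ a) i r q =
      if κ p = i then Xᵀ p r * (Q * T ^ a) r q else 0 := by
    intro r
    unfold block
    by_cases hr : κ r = κ p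
    · rw [hr]
      split_ifs
      · rfl
      · rw [mul_zero]
    · rw [transpose_apply, hXb r p hr, zero_mul, zero_mul, ite_self]
  have e2 : ∀ r, block κ (Q * T ^ a) i p r * X r q =
      if κ p = i then (Q * T ^ a) p r * X r q else 0 := by
    intro r
    unfold block
    split_ifs
    · rfl
    · rw [zero_mul]
  rw [Finset.sum_congr rfl fun r _ => e1 r, Finset.sum_congr rfl fun r _ => e2 r]
  split_ifs
  · exact h2
  · simp

theorem P0T_inv {X : Matrix B B ℚ} (hX : Xᵀ * Q + Q * X = 0) (hXT : X * T = T * X)
    (hXb : ∀ p q, κ p ≠ κ q → X p q = 0) {p : (Fin k → B) → ℚ}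
    (hp : p ∈ P0T κ Q T k) (J : Fin k → B) : ∑ j, ∑ q, X q (J j) * p (update J j q) = 0 := by
  unfold P0T at hp
  induction hp using Submodule.span_induction with
  | mem p hp =>
    obtain ⟨m, e, c, a, rfl⟩ := hp
    exact prdN_inv _ (fun t => blk_inv hX hXT hXb (a t) (c t)) e J
  | zero => simp
  | add f g _ _ h h' =>
    simp only [Pi.add_apply, mul_add, Finset.sum_add_distrib]
    rw [h, h', add_zero]
  | smul r f _ h =>
    have : ∀ j q, X q (J j) * (r • f) (update J j q) = r * (X q (J j) * f (update J j q)) := by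
      intro j q
      rw [Pi.smul_apply, smul_eq_mul]
      ring
    simp only [this, ← Finset.mul_sum]
    rw [h, mul_zero]

/-- The coefficients can be chosen to be Hodge classes. -/
theorem refineT {E : Type} {U : Set E} {x : E → Matrix B B ℂ} {y : E → Matrix D D ℂ}
    {u : E} (hu : u ∈ U) (hL : IsLie κ Q (mm U x y)) (hT : ∀ a ∈ mm U x y, a.1 * T = T * a.1)
    {f : (Fin k → B) → D → ℚ} (hf : ∀ l, (fun J => f J l) ∈ P0T κ Q T k)
    (hkill : ∀ a ∈ mm U x y, act a f = 0) :
    f ∈ Submodule.span ℚ (productsT κ Q T (y u) k) := by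
  classical
  let b := Module.finBasis ℚ (P0T κ Q T k)
  let w : Fin (Module.finrank ℚ (P0T κ Q T k)) → D → ℚ := fun α l =>
    b.repr ⟨fun J => f J l, hf l⟩ α
  have hexp : ∀ J l, f J l = ∑ α, w α l * (b α : (Fin k → B) → ℚ) J := by
    intro J l
    have h1 := b.sum_repr ⟨fun J => f J l, hf l⟩
    have h2 := congrArg (fun z : P0T κ Q T k => (z : (Fin k → B) → ℚ) J) h1
    simp only [Submodule.coe_sum, Submodule.coe_smul, Finset.sum_apply, Pi.smul_apply,
      smul_eq_mul] at h2
    exact h2.symm
  have hw : ∀ a ∈ mm U x y, ∀ α l, ∑ m, a.2 m l * w α m = 0 := by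
    intro a ha α l
    have h1 : ∀ J, ∑ α, (∑ m, a.2 m l * w α m) * (b α : (Fin k → B) → ℚ) J = 0 := by
      intro J
      have h2 := congrFun (congrFun (hkill a ha) J) l
      rw [act_apply, Pi.zero_apply, Pi.zero_apply] at h2
      have h3 : ∑ j, ∑ p, a.1 p (J j) * f (update J j p) l = 0 := by
        have h4 : ∀ j p, a.1 p (J j) * f (update J j p) l =
            ∑ α, w α l * (a.1 p (J j) * (b α : (Fin k → B) → ℚ) (update J j p)) := by
          intro j p
          rw [hexp, Finset.mul_sum]
          exact Finset.sum_congr rfl fun α _ => by ring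
        simp only [h4]
        have h5 : ∀ j, ∑ p, ∑ α, w α l * (a.1 p (J j) * (b α : (Fin k → B) → ℚ) (update J j p)) =
            ∑ α, w α l * ∑ p, (a.1 p (J j) * (b α : (Fin k → B) → ℚ) (update J j p)) := by
          intro j
          rw [Finset.sum_comm]
          exact Finset.sum_congr rfl fun α _ => by rw [Finset.mul_sum]
        simp only [h5]
        rw [Finset.sum_comm]
        refine Finset.sum_eq_zero fun α _ => ?_
        rw [← Finset.mul_sum, P0T_inv (hL.skew a ha) (hT a ha) (hL.blk a ha) (b α).2 J, mul_zero]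
      rw [h3, zero_add] at h2
      rw [← h2]
      simp only [hexp, Finset.mul_sum, Finset.sum_mul]
      rw [Finset.sum_comm]
      exact Finset.sum_congr rfl fun m _ => Finset.sum_congr rfl fun α _ => by ring
    have h6 : ∑ α, (∑ m, a.2 m l * w α m) • b α = 0 := by
      apply Subtype.ext
      funext J
      simp only [Submodule.coe_sum, Submodule.coe_smul, Finset.sum_apply, Pi.smul_apply,
        smul_eq_mul]
      exact h1 J
    exact Fintype.linearIndependent_iff.1 b.linearIndependent _ h6 α
  have hwH : ∀ α, IsHodgeD (y u) (w α) := by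
    intro α c v hv hc
    have h1 : ∀ m, ∑ l, (w α l : ℂ) * y u l m = 0 := by
      intro m
      obtain ⟨τ, F, β, φ, -, hy⟩ := exists_decomp (x u) (y u)
      have h2 : ∀ l, y u l m = ∑ t ∈ F, β t * ((φ t (y u l m) : ℚ) : ℂ) := by
        intro l
        have := congrFun (congrFun hy l) m
        rw [Matrix.sum_apply] at this
        exact this
      calc ∑ l, (w α l : ℂ) * y u l m =
            ∑ l, (w α l : ℂ) * ∑ t ∈ F, β t * ((φ t (y u l m) : ℚ) : ℂ) :=
              Finset.sum_congr rfl fun l _ => by rw [← h2 l]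
        _ = ∑ t ∈ F, β t * ∑ l, ((φ t (y u l m) : ℚ) : ℂ) * (w α l : ℂ) := by
              simp only [Finset.mul_sum]
              rw [Finset.sum_comm]
              exact Finset.sum_congr rfl fun m _ => Finset.sum_congr rfl fun α _ => by ring
        _ = 0 := by
              refine Finset.sum_eq_zero fun t _ => ?_
              have h3 := hw _ (gen_mem hu (φ t)) α m
              have h4 : ∑ l, ((φ t (y u l m) : ℚ) : ℂ) * (w α l : ℂ) = 0 := by
                exact_mod_cast h3
              rw [h4, mul_zero]
    have h2 : (c : ℂ) * ∑ l, (w α l : ℂ) * v l = 0 := by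
      have h3 : ∀ l, (c : ℂ) * v l = ∑ m, y u l m * v m := fun l => (congrFun hv l).symm
      calc (c : ℂ) * ∑ l, (w α l : ℂ) * v l = ∑ l, (w α l : ℂ) * ((c : ℂ) * v l) := by
            rw [Finset.mul_sum]
            exact Finset.sum_congr rfl fun l _ => by ring
        _ = ∑ m, (∑ l, (w α l : ℂ) * y u l m) * v m := by
            simp only [h3, Finset.mul_sum, Finset.sum_mul]
            rw [Finset.sum_comm]
            exact Finset.sum_congr rfl fun m _ => Finset.sum_congr rfl fun α _ => by ring
        _ = 0 := by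
            refine Finset.sum_eq_zero fun m _ => ?_
            rw [h1 m, zero_mul]
    rcases mul_eq_zero.1 h2 with h3 | h3
    · exact absurd (by exact_mod_cast h3) hc
    · exact h3
  -- tensors with Hodge classes
  have hten : ∀ p ∈ P0T κ Q T k, ∀ h : D → ℚ, IsHodgeD (y u) h →
      (fun J l => p J * h l) ∈ Submodule.span ℚ (productsT κ Q T (y u) k) := by
    intro p hp h hh
    unfold P0T at hp
    induction hp using Submodule.span_induction with
    | mem p hp =>
      obtain ⟨m, e, c, a, rfl⟩ := hp
      exact Submodule.subset_span ⟨m, e, c, a, h, hh, rfl⟩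
    | zero =>
      have : (fun (J : Fin k → B) (l : D) => (0 : (Fin k → B) → ℚ) J * h l) = 0 := by
        funext J l
        simp
      rw [this]
      exact Submodule.zero_mem _
    | add f g _ _ h1 h2 =>
      have : (fun (J : Fin k → B) (l : D) => (f + g) J * h l) =
          (fun J l => f J * h l) + fun J l => g J * h l := by
        funext J l
        simp [add_mul]
      rw [this]
      exact Submodule.add_mem _ h1 h2
    | smul r f _ h1 =>
      have : (fun (J : Fin k → B) (l : D) => (r • f) J * h l) = r • fun J l => f J * h l := by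
        funext J l
        simp [mul_assoc]
      rw [this]
      exact Submodule.smul_mem _ _ h1
  have hfsum : f = ∑ α, fun J l => (b α : (Fin k → B) → ℚ) J * w α l := by
    funext J l
    rw [hexp J l, Finset.sum_apply, Finset.sum_apply]
    exact Finset.sum_congr rfl fun α _ => mul_comm _ _
  rw [hfsum]
  exact Submodule.sum_mem _ fun α _ => hten _ (b α).2 _ (hwH α)

end Pool.Agent.H842.CR
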