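import Pool.Agent.H842.CR.Defs

/-!
# Algebraic classes on the products with the members of a family
-/

open Matrix Finset Function

namespace Pool.Agent.H842.CR

open Pool.Agent.TH125.Nod

/-- The form `(v_0, …, v_(k-1)) ↦ ∏ t, Q_(c t) (v_(e (t, 0)), T ^ (a t) v_(e (t, 1)))` on `V`,
where `e` is a partition of the `k = 2 m` variables into ordered pairs and `Q_i` is the restriction
of `Q` to the block `V_i`. -/
def formT {ι B : Type} [Fintype B] [DecidableEq B] [DecidableEq ι] (κ : B → ι) (Q T : Matrix B B ℚ)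
    {k m : ℕ} (e : Fin m × Fin 2 ≃ Fin k) (c : Fin m → ι) (a : Fin m → ℕ) : (Fin k → B) → ℚ :=
  fun J => ∏ t, block κ (Q * T ^ a t) (c t) (J (e (t, 0))) (J (e (t, 1)))

/-- A system of algebraic classes: `A u k` stands for the forms on `V × ⋯ × V × D` (with `k` factors
`V`) and `A0 u` for the forms on `D` which are given by combinations of algebraic cycles on the
fibres over `u`. The products of the forms `formT` (given by graphs of powers of the covering
transformation) and of algebraic classes of `D` are algebraic, and the contractions of algebraic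
classes with the forms `formT` (for the form `Q⁻¹`, that is, the push-forwards of the products with
the classes of these graphs) are algebraic. -/
structure IsCycles {E : Type} (U : Set E) {ι B D : Type} [Fintype B] [DecidableEq B] [DecidableEq ι]
    (κ : B → ι) (Q T : Matrix B B ℚ) (A : E → ∀ k : ℕ, Submodule ℚ ((Fin k → B) → D → ℚ))
    (A0 : E → Submodule ℚ (D → ℚ)) : Prop where
  times : ∀ u ∈ U, ∀ h ∈ A0 u, ∀ (k m : ℕ) (e : Fin m × Fin 2 ≃ Fin k) (c : Fin m → ι)
    (a : Fin m → ℕ), (fun J l => formT κ Q T e c a J * h l) ∈ A u k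
  push : ∀ u ∈ U, ∀ (k : ℕ), ∀ f ∈ A u k, ∀ (m : ℕ) (e : Fin m × Fin 2 ≃ Fin k) (c : Fin m → ι)
    (a : Fin m → ℕ),
    (fun l => ∑ I, ∑ J, formT κ Q T e c a I * (∏ j, Q⁻¹ (I j) (J j)) * f J l) ∈ A0 u

/-- `f` is a flat Hodge class on `V × ⋯ × V × D`: it is a Hodge class at all points of `U`. -/
def IsFlatHodge {E : Type} (U : Set E) {B D : Type} [Fintype B] [Fintype D] {k : ℕ}
    (x : E → Matrix B B ℂ) (y : E → Matrix D D ℂ) (f : (Fin k → B) → D → ℚ) : Prop :=
  ∀ u ∈ U, IsHodge (x u) (y u) f

/-- `h` is a flat Hodge class on `D`. -/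
def IsFlatHodgeD {E : Type} (U : Set E) {D : Type} [Fintype D] (y : E → Matrix D D ℂ)
    (h : D → ℚ) : Prop :=
  ∀ u ∈ U, IsHodgeD (y u) h

/-- The variational Hodge conjecture for the family with the cohomology `D`: flat Hodge classes which
are algebraic at the point `u` are algebraic at the point `v`. -/
def VariationalD {E : Type} (U : Set E) {D : Type} [Fintype D] (y : E → Matrix D D ℂ)
    (A0 : E → Submodule ℚ (D → ℚ)) (u v : E) : Prop :=
  ∀ h, IsFlatHodgeD U y h → h ∈ A0 u → h ∈ A0 v

end Pool.Agent.H842.CR
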