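import Pool.Agent.H842.CR.Flat
import Pool.Agent.H842.CR.VDefs

/-!
# The variational Hodge conjecture for products
-/

set_option linter.unusedSectionVars false

open Matrix Finset Function

open scoped ComplexOrder MatrixOrder

namespace Pool.Agent.H842.CR

open Pool.Agent.TH125.Nod

variable {B D : Type} [Fintype B] [DecidableEq B] [Fintype D] [DecidableEq D] {k : ℕ}
  {ι : Type} [DecidableEq ι] {κ : B → ι} {Q T : Matrix B B ℚ} {s : ι → ℤ}

/-- the contraction of two tensors -/
noncomputable def ctr (Q : Matrix B B ℚ) (k : ℕ) : ((Fin k → B) → ℚ) →ₗ[ℚ] ((Fin k → B) → ℚ) →ₗ[ℚ] ℚ :=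
  LinearMap.mk₂ ℚ (fun p q => ∑ I, ∑ J, p I * (∏ j, Q⁻¹ (I j) (J j)) * q J)
    (fun p p' q => by
      simp only [Pi.add_apply, add_mul, Finset.sum_add_distrib])
    (fun r p q => by
      simp only [Pi.smul_apply, smul_eq_mul, Finset.mul_sum]
      exact Finset.sum_congr rfl fun I _ => Finset.sum_congr rfl fun J _ => by ring)
    (fun p q q' => by
      simp only [Pi.add_apply, mul_add, Finset.sum_add_distrib])
    (fun r p q => by
      simp only [Pi.smul_apply, smul_eq_mul, Finset.mul_sum]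
      exact Finset.sum_congr rfl fun I _ => Finset.sum_congr rfl fun J _ => by ring)

theorem ctr_apply (p q : (Fin k → B) → ℚ) :
    ctr Q k p q = ∑ I, ∑ J, p I * (∏ j, Q⁻¹ (I j) (J j)) * q J := rfl

/-- dual tensors -/
theorem exists_dual (hpos : ∀ p ∈ P0T κ Q T k, p ≠ 0 → ctr Q k p p ≠ 0)
    (φ : P0T κ Q T k →ₗ[ℚ] ℚ) : ∃ p ∈ P0T κ Q T k, ∀ q (hq : q ∈ P0T κ Q T k),
      φ ⟨q, hq⟩ = ctr Q k p q := by
  let β : P0T κ Q T k →ₗ[ℚ] (P0T κ Q T k →ₗ[ℚ] ℚ) :=
    (ctr Q k).domRestrict₁₂ (P0T κ Q T k) (P0T κ Q T k)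
  have hβ : ∀ p q : P0T κ Q T k, β p q = ctr Q k p q := fun p q => rfl
  have hinj : Function.Injective β := by
    rw [← LinearMap.ker_eq_bot, LinearMap.ker_eq_bot']
    intro p hp
    by_contra h0
    apply hpos p p.2 (fun h => h0 (Subtype.ext h))
    rw [← hβ, hp]
    rfl
  have hsurj : Function.Surjective β := by
    refine (LinearMap.injective_iff_surjective_of_finrank_eq_finrank ?_).1 hinj
    exact (Subspace.dual_finrank_eq (K := ℚ) (V := P0T κ Q T k)).symm
  obtain ⟨p, hp⟩ := hsurj φ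
  exact ⟨p, p.2, fun q hq => by rw [← hp]; rfl⟩

/-- the coefficients in the space of products are flat Hodge classes -/
theorem coeffs {E : Type} {U : Set E} {x : E → Matrix B B ℂ} {y : E → Matrix D D ℂ}
    (hL : IsLie κ Q (mm U x y)) (hT : ∀ a ∈ mm U x y, a.1 * T = T * a.1)
    {f : (Fin k → B) → D → ℚ} (hf : ∀ l, (fun J => f J l) ∈ P0T κ Q T k)
    (hkill : ∀ a ∈ mm U x y, act a f = 0) {n : ℕ} (b : Module.Basis (Fin n) ℚ (P0T κ Q T k)) :
    (∀ α, IsFlatHodgeD U y fun l => b.repr ⟨fun J => f J l, hf l⟩ α) ∧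
      f = ∑ α, fun J l => (b α : (Fin k → B) → ℚ) J * b.repr ⟨fun J => f J l, hf l⟩ α := by
  classical
  let w : Fin n → D → ℚ := fun α l => b.repr ⟨fun J => f J l, hf l⟩ α
  have hexp : ∀ J l, f J l = ∑ α, w α l * (b α : (Fin k → B) → ℚ) J := by
    intro J l
    have h1 := b.sum_repr ⟨fun J => f J l, hf l⟩
    have h2 := congrArg (fun z : P0T κ Q T k => (z : (Fin k → B) → ℚ) J) h1
    simp only [Submodule.coe_sum, Submodule.coe_smul, Finset.sum_apply, Pi.smul_apply,
      smul_eq_mul] at h2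
    exact h2.symm
  have hw : ∀ a ∈ mm U x y, ∀ α l, ∑ m, a.2 m l * w α m = 0 := by
    intro a ha α l
    have h1 : ∀ J, ∑ α, (∑ m, a.2 m l * w α m) * (b α : (Fin k → B) → ℚ) J = 0 := by
      intro J
      have h2 := congrFun (congrFun (hkill a ha) J) l
      rw [act_apply, Pi.zero_apply, Pi.zero_apply] at h2
      have h3 : ∑ j, ∑ p, a.1 p (J j) * f (update J j p) l = 0 :=
        P0T_inv (hL.skew a ha) (hT a ha) (hL.blk a ha) (hf l) J
      rw [h3, zero_add] at h2
      rw [← h2]
      simp only [hexp, Finset.mul_sum, Finset.sum_mul]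
      rw [Finset.sum_comm]
      exact Finset.sum_congr rfl fun m _ => Finset.sum_congr rfl fun α _ => by ring
    have h6 : ∑ α, (∑ m, a.2 m l * w α m) • b α = 0 := by
      apply Subtype.ext
      funext J
      simp only [Submodule.coe_sum, Submodule.coe_smul, Finset.sum_apply, Pi.smul_apply,
        smul_eq_mul]
      exact h1 J
    exact Fintype.linearIndependent_iff.1 b.linearIndependent _ h6 α
  refine ⟨?_, ?_⟩
  · intro α u hu c v hv hc
    have h1 : ∀ m, ∑ l, (w α l : ℂ) * y u l m = 0 := by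
      intro m
      obtain ⟨τ, F, β, φ, -, hy⟩ := exists_decomp (x u) (y u)
      have h2 : ∀ l, y u l m = ∑ t ∈ F, β t * ((φ t (y u l m) : ℚ) : ℂ) := by
        intro l
        have := congrFun (congrFun hy l) m
        rw [Matrix.sum_apply] at this
        exact this
      calc ∑ l, (w α l : ℂ) * y u l m =
            ∑ l, (w α l : ℂ) * ∑ t ∈ F, β t * ((φ t (y u l m) : ℚ) : ℂ) :=
              Finset.sum_congr rfl fun l _ => by rw [← h2 l]
        _ = ∑ t ∈ F, β t * ∑ l, ((φ t (y u l m) : ℚ) : ℂ) * (w α l : ℂ) := by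
              simp only [Finset.mul_sum]
              rw [Finset.sum_comm]
              exact Finset.sum_congr rfl fun m _ => Finset.sum_congr rfl fun α _ => by ring
        _ = 0 := by
              refine Finset.sum_eq_zero fun t _ => ?_
              have h3 := hw _ (gen_mem hu (φ t)) α m
              have h4 : ∑ l, ((φ t (y u l m) : ℚ) : ℂ) * (w α l : ℂ) = 0 := by
                exact_mod_cast h3
              rw [h4, mul_zero]
    have h2 : (c : ℂ) * ∑ l, (w α l : ℂ) * v l = 0 := by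
      have h3 : ∀ l, (c : ℂ) * v l = ∑ m, y u l m * v m := fun l => (congrFun hv l).symm
      calc (c : ℂ) * ∑ l, (w α l : ℂ) * v l = ∑ l, (w α l : ℂ) * ((c : ℂ) * v l) := by
            rw [Finset.mul_sum]
            exact Finset.sum_congr rfl fun l _ => by ring
        _ = ∑ m, (∑ l, (w α l : ℂ) * y u l m) * v m := by
            simp only [h3, Finset.mul_sum, Finset.sum_mul]
            rw [Finset.sum_comm]
            exact Finset.sum_congr rfl fun m _ => Finset.sum_congr rfl fun α _ => by ring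
        _ = 0 := by
            refine Finset.sum_eq_zero fun m _ => ?_
            rw [h1 m, zero_mul]
    rcases mul_eq_zero.1 h2 with h3 | h3
    · exact absurd (by exact_mod_cast h3) hc
    · exact h3
  · funext J l
    rw [hexp J l, Finset.sum_apply, Finset.sum_apply]
    exact Finset.sum_congr rfl fun α _ => mul_comm _ _

/-- tensors with products -/
theorem tensor_mem {A0 : Submodule ℚ (D → ℚ)} {A : Submodule ℚ ((Fin k → B) → D → ℚ)}
    (hA : ∀ h ∈ A0, ∀ (m : ℕ) (e : Fin m × Fin 2 ≃ Fin k) (c : Fin m → ι) (a : Fin m → ℕ),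
      (fun J l => formT κ Q T e c a J * h l) ∈ A) :
    ∀ p ∈ P0T κ Q T k, ∀ h ∈ A0, (fun J l => p J * h l) ∈ A := by
  intro p hp h hh
  unfold P0T at hp
  induction hp using Submodule.span_induction with
  | mem p hp =>
    obtain ⟨m, e, c, a, rfl⟩ := hp
    exact hA h hh m e c a
  | zero =>
    have : (fun (J : Fin k → B) (l : D) => (0 : (Fin k → B) → ℚ) J * h l) = 0 := by
      funext J l
      simp
    rw [this]
    exact Submodule.zero_mem _
  | add f g _ _ h1 h2 =>
    have : (fun (J : Fin k → B) (l : D) => (f + g) J * h l) =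
        (fun J l => f J * h l) + fun J l => g J * h l := by
      funext J l
      simp [add_mul]
    rw [this]
    exact Submodule.add_mem _ h1 h2
  | smul r f _ h1 =>
    have : (fun (J : Fin k → B) (l : D) => (r • f) J * h l) = r • fun J l => f J * h l := by
      funext J l
      simp [mul_assoc]
    rw [this]
    exact Submodule.smul_mem _ _ h1

/-- the flat Hodge classes on `D` -/
def flatSub {E : Type} (U : Set E) (y : E → Matrix D D ℂ) : Submodule ℚ (D → ℚ) where
  carrier := {h | IsFlatHodgeD U y h}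
  zero_mem' := by
    intro u _ b v _ _
    simp
  add_mem' := by
    intro g h hg hh u hu b v hv hb
    have h1 := hg u hu b v hv hb
    have h2 := hh u hu b v hv hb
    simp only [Pi.add_apply, Rat.cast_add, add_mul, Finset.sum_add_distrib]
    rw [h1, h2, add_zero]
  smul_mem' := by
    intro c h hh u hu b v hv hb
    have h2 := hh u hu b v hv hb
    simp only [Pi.smul_apply, smul_eq_mul, Rat.cast_mul, mul_assoc, ← Finset.mul_sum]
    rw [h2, mul_zero]

/-- **The flat Hodge classes are generated by the forms and the flat Hodge classes on `D`.** -/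
theorem gen_core {E : Type} {U : Set E} {x : E → Matrix B B ℂ} {y : E → Matrix D D ℂ}
    (hL : IsLie κ Q (mm U x y)) (hT : ∀ a ∈ mm U x y, a.1 * T = T * a.1)
    {f : (Fin k → B) → D → ℚ} (hf : ∀ l, (fun J => f J l) ∈ P0T κ Q T k)
    (hkill : ∀ a ∈ mm U x y, act a f = 0) :
    f ∈ Submodule.span ℚ {g | ∃ (m : ℕ) (e : Fin m × Fin 2 ≃ Fin k) (c : Fin m → ι)
      (a : Fin m → ℕ) (h : D → ℚ), IsFlatHodgeD U y h ∧
        g = fun J l => formT κ Q T e c a J * h l} := by
  obtain ⟨h1, h2⟩ := coeffs hL hT hf hkill (Module.finBasis ℚ (P0T κ Q T k))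
  rw [h2]
  refine Submodule.sum_mem _ fun α _ => tensor_mem (A0 := flatSub U y) ?_ _
    (Module.finBasis ℚ (P0T κ Q T k) α).2 _ (h1 α)
  intro h hh m e c a
  exact Submodule.subset_span ⟨m, e, c, a, h, hh, rfl⟩

/-- **The variational Hodge conjecture for products, from the structure of the flat classes.** -/
theorem vhc_core {E : Type} [NormedAddCommGroup E] [NormedSpace ℂ E] {U : Set E}
    {x : E → Matrix B B ℂ} {y : E → Matrix D D ℂ} {u v : E} (hu : u ∈ U) (hv : v ∈ U)
    (hV : IsVHS U x) (hP : IsPolarized U κ s Q x) (hL : IsLie κ Q (mm U x y))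
    (hT : ∀ a ∈ mm U x y, a.1 * T = T * a.1) {A : E → ∀ k : ℕ, Submodule ℚ ((Fin k → B) → D → ℚ)}
    {A0 : E → Submodule ℚ (D → ℚ)} (hA : IsCycles U κ Q T A A0)
    (hZ : VariationalD U y A0 u v) {f : (Fin k → B) → D → ℚ}
    (hf : ∀ l, (fun J => f J l) ∈ P0T κ Q T k) (hkill : ∀ a ∈ mm U x y, act a f = 0)
    (hfA : f ∈ A u k) : f ∈ A v k := by
  classical
  let b := Module.finBasis ℚ (P0T κ Q T k)
  let w : Fin (Module.finrank ℚ (P0T κ Q T k)) → D → ℚ := fun α l =>
    b.repr ⟨fun J => f J l, hf l⟩ α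
  obtain ⟨hwH, hfsum⟩ := coeffs hL hT hf hkill b
  -- the coefficients are contractions
  have hpos : ∀ p ∈ P0T κ Q T k, p ≠ 0 → ctr Q k p p ≠ 0 := fun p hp h0 =>
    gram_ne (y := y) hu hV hP hL hT hp h0
  have hcon : ∀ p ∈ P0T κ Q T k, (fun l => ctr Q k p (fun J => f J l)) ∈ A0 u := by
    intro p hp
    unfold P0T at hp
    induction hp using Submodule.span_induction with
    | mem p hp =>
      obtain ⟨m, e, c, a, rfl⟩ := hp
      exact hA.push u hu k f hfA m e c a
    | zero =>
      have : (fun l => ctr Q k 0 (fun J => f J l)) = 0 := by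
        funext l
        rw [map_zero]
        rfl
      rw [this]
      exact Submodule.zero_mem _
    | add p q _ _ h1 h2 =>
      have : (fun l => ctr Q k (p + q) (fun J => f J l)) =
          (fun l => ctr Q k p (fun J => f J l)) + fun l => ctr Q k q (fun J => f J l) := by
        funext l
        rw [map_add]
        rfl
      rw [this]
      exact Submodule.add_mem _ h1 h2
    | smul r p _ h1 =>
      have : (fun l => ctr Q k (r • p) (fun J => f J l)) =
          r • fun l => ctr Q k p (fun J => f J l) := by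
        funext l
        rw [map_smul]
        rfl
      rw [this]
      exact Submodule.smul_mem _ _ h1
  have hwu : ∀ α, w α ∈ A0 u := by
    intro α
    obtain ⟨p, hp, hpq⟩ := exists_dual hpos (b.coord α)
    have h1 : w α = fun l => ctr Q k p (fun J => f J l) := by
      funext l
      rw [← hpq _ (hf l)]
      rfl
    rw [h1]
    exact hcon p hp
  have hwv : ∀ α, w α ∈ A0 v := fun α => hZ _ (hwH α) (hwu α)
  have hten := tensor_mem (κ := κ) (Q := Q) (T := T) (k := k) (A0 := A0 v) (A := A v k)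
    (fun h hh m e c a => hA.times v hv h hh k m e c a)
  rw [hfsum]
  exact Submodule.sum_mem _ fun α _ => hten _ (b α).2 _ (hwv α)

/-- small degrees -/
theorem gen_small {E : Type} [NormedAddCommGroup E] [NormedSpace ℂ E] {U : Set E}
    {x : E → Matrix B B ℂ} {y : E → Matrix D D ℂ} {d : ℕ} (hV : IsVHS U x)
    (hP : IsPolarized U κ s Q x) (hT : IsAut U κ Q x T d) (hR : ∀ i, HasReflection U κ Q x y T i)
    {u : E} (hu : u ∈ U) {f : (Fin k → B) → D → ℚ}
    (hact : ∀ u ∈ U, act (x u, y u) (cx f) = 0)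
    (hcount : ∀ (i : ι) (z : ℂ), eigenpart κ T i z ≠ ⊥ → ∀ J, f J ≠ 0 →
      (univ.filter fun j => κ (J j) = i).card < Module.finrank ℂ (eigenpart κ T i z)) :
    (∀ l, (fun J => f J l) ∈ P0T κ Q T k) ∧ (∀ a ∈ mm U x y, act a f = 0) ∧
      IsLie κ Q (mm U x y) ∧ ∀ a ∈ mm U x y, a.1 * T = T * a.1 := by
  have hkill : ∀ a ∈ mm U x y, act a f = 0 := fun a ha => act_mm hact ha
  have hG := glob_mm ⟨u, hu⟩ hV hP hT hR
  obtain ⟨P, κ', hE⟩ := hG.exists_EB
  exact ⟨mem_P0T hG hE hkill (wt_lt hE hcount), hkill, hG.lie, hG.comm⟩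

/-- all degrees -/
theorem gen_all {E : Type} [NormedAddCommGroup E] [NormedSpace ℂ E] [Fintype ι] {U : Set E}
    {x : E → Matrix B B ℂ} {y : E → Matrix D D ℂ} {d : ℕ} (hV : IsVHS U x)
    (hP : IsPolarized U κ s Q x) (hT : IsAut U κ Q x T d) (hR : ∀ i, HasReflection U κ Q x y T i)
    {u : E} (hu : u ∈ U) {f : (Fin k → B) → D → ℚ}
    (hact : ∀ u ∈ U, act (x u, y u) (cx f) = 0) {p : ι → ℕ} {C : ι → ℚ}
    (hp : ∀ i, (p i).Prime) (hp2 : ∀ i, p i ≠ 2) (hinj : Injective p) (hCst : ∀ i, C i ≠ 0)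
    (hC : ∃ u ∈ U, HasTypes κ T (x u) p C) (hN : NoChar U y) :
    (∀ l, (fun J => f J l) ∈ P0T κ Q T k) ∧ (∀ a ∈ mm U x y, act a f = 0) ∧
      IsLie κ Q (mm U x y) ∧ ∀ a ∈ mm U x y, a.1 * T = T * a.1 := by
  have hkill : ∀ a ∈ mm U x y, act a f = 0 := fun a ha => act_mm hact ha
  have hG := glob_mm ⟨u, hu⟩ hV hP hT hR
  obtain ⟨P, κ', hE⟩ := hG.exists_EB
  obtain ⟨u0, hu0, hC0⟩ := hC
  refine ⟨mem_P0T hG hE hkill ?_, hkill, hG.lie, hG.comm⟩
  intro c hc q
  rw [wt_zero hp hp2 hCst hinj hG hE hT.comm hP.blockx hP.skew hN hact hc hu0 hC0 q]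
  exact zero_lt_one

end Pool.Agent.H842.CR
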