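import Pool.Agent.H842.CR.Ref2
import Pool.Graph.R_pool_sql_team_seeded_ab47071d.TH125.Nod.Main

/-!
# Variations of Hodge structure with an automorphism and a complex reflection
-/

set_option linter.unusedSectionVars false

open Matrix Finset Function

namespace Pool.Agent.H842.CR

open Pool.Agent.TH125.Nod

variable {B D : Type} [Fintype B] [DecidableEq B] [Fintype D] [DecidableEq D]
  {E : Type} {U : Set E} {x : E → Matrix B B ℂ}
  {y : E → Matrix D D ℂ} {ι : Type} [DecidableEq ι] {κ : B → ι} {s : ι → ℤ} {Q : Matrix B B ℚ}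
  {T : Matrix B B ℚ} {d : ℕ}

/-- conjugation with a monodromy operator -/
theorem conj_mem2 {γ γ' : Matrix B B ℚ} (hγ : γ * γ' = 1) {η η' : Matrix D D ℚ} (hη : η * η' = 1)
    (hmon : ∀ u ∈ U, ∃ u' ∈ U, x u' * mC γ = mC γ * x u ∧ y u' * mC η = mC η * y u)
    {a : Matrix B B ℚ × Matrix D D ℚ} (ha : a ∈ mm U x y) :
    (γ * a.1 * γ', η * a.2 * η') ∈ mm U x y := by
  have hγ2 : γ' * γ = 1 := mul_eq_one_comm.1 hγ
  have hη2 : η' * η = 1 := mul_eq_one_comm.1 hη
  let Φ : (Matrix B B ℚ × Matrix D D ℚ) →ₗ[ℚ] (Matrix B B ℚ × Matrix D D ℚ) :=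
    { toFun := fun a => (γ * a.1 * γ', η * a.2 * η')
      map_add' := fun a b => by
        apply Prod.ext
        · show γ * (a.1 + b.1) * γ' = γ * a.1 * γ' + γ * b.1 * γ'
          rw [mul_add, add_mul]
        · show η * (a.2 + b.2) * η' = η * a.2 * η' + η * b.2 * η'
          rw [mul_add, add_mul]
      map_smul' := fun c a => by
        apply Prod.ext
        · show γ * (c • a.1) * γ' = c • (γ * a.1 * γ')
          rw [mul_smul_comm, smul_mul_assoc]
        · show η * (c • a.2) * η' = c • (η * a.2 * η')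
          rw [mul_smul_comm, smul_mul_assoc] }
  have hle : mm U x y ≤ (mm U x y).comap Φ := by
    apply mm_le
    · intro φ u hu
      obtain ⟨u', hu', hx, hy⟩ := hmon u hu
      show (γ * (x u).map φ * γ', η * (y u).map φ * η') ∈ mm U x y
      rw [← map_mC_mul, ← hx, map_mul_mC, mul_assoc, hγ, mul_one, ← map_mC_mul, ← hy, map_mul_mC,
        mul_assoc, hη, mul_one]
      exact gen_mem hu' φ
    · intro a ha b hb
      have h1 := br_mem (show (γ * a.1 * γ', η * a.2 * η') ∈ mm U x y from ha)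
        (show (γ * b.1 * γ', η * b.2 * η') ∈ mm U x y from hb)
      show (γ * (a.1 * b.1 - b.1 * a.1) * γ', η * (a.2 * b.2 - b.2 * a.2) * η') ∈ mm U x y
      have e : ∀ (g g' p q : Matrix B B ℚ), g' * g = 1 → g * p * g' * (g * q * g') =
          g * (p * q) * g' := by
        intro g g' p q hg
        calc g * p * g' * (g * q * g') = g * p * (g' * g) * q * g' := by noncomm_ring
          _ = g * (p * q) * g' := by rw [hg]; noncomm_ring
      have e' : ∀ (g g' p q : Matrix D D ℚ), g' * g = 1 → g * p * g' * (g * q * g') =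
          g * (p * q) * g' := by
        intro g g' p q hg
        calc g * p * g' * (g * q * g') = g * p * (g' * g) * q * g' := by noncomm_ring
          _ = g * (p * q) * g' := by rw [hg]; noncomm_ring
      convert h1 using 2
      · show γ * (a.1 * b.1 - b.1 * a.1) * γ' =
          γ * a.1 * γ' * (γ * b.1 * γ') - γ * b.1 * γ' * (γ * a.1 * γ')
        rw [e _ _ _ _ hγ2, e _ _ _ _ hγ2]
        noncomm_ring
      · show η * (a.2 * b.2 - b.2 * a.2) * η' =
          η * a.2 * η' * (η * b.2 * η') - η * b.2 * η' * (η * a.2 * η')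
        rw [e' _ _ _ _ hη2, e' _ _ _ _ hη2]
        noncomm_ring
  exact hle ha

theorem mm_comm (hT : ∀ u ∈ U, x u * mC T = mC T * x u) {a : Matrix B B ℚ × Matrix D D ℚ}
    (ha : a ∈ mm U x y) : a.1 * T = T * a.1 := by
  let S : Submodule ℚ (Matrix B B ℚ × Matrix D D ℚ) :=
    { carrier := {a | a.1 * T = T * a.1}
      zero_mem' := by
        show (0 : Matrix B B ℚ) * T = T * 0
        simp
      add_mem' := fun {a b} ha hb => by
        show (a.1 + b.1) * T = T * (a.1 + b.1)
        have ha' : a.1 * T = T * a.1 := ha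
        have hb' : b.1 * T = T * b.1 := hb
        rw [add_mul, mul_add, ha', hb']
      smul_mem' := fun c {a} ha => by
        show (c • a.1) * T = T * (c • a.1)
        have ha' : a.1 * T = T * a.1 := ha
        rw [smul_mul_assoc, mul_smul_comm, ha'] }
  have hS : mm U x y ≤ S := by
    apply mm_le
    · intro φ u hu
      show (x u).map φ * T = T * (x u).map φ
      rw [← map_mul_mC, hT u hu, map_mC_mul]
    · intro a ha b hb
      have ha' : a.1 * T = T * a.1 := ha
      have hb' : b.1 * T = T * b.1 := hb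
      show (a.1 * b.1 - b.1 * a.1) * T = T * (a.1 * b.1 - b.1 * a.1)
      rw [sub_mul, mul_sub, mul_assoc, hb', ← mul_assoc, ha', mul_assoc, mul_assoc b.1, ha',
        ← mul_assoc b.1, hb', mul_assoc]
  exact hS ha

theorem glob_mm [NormedAddCommGroup E] [NormedSpace ℂ E] (hU : U.Nonempty) (hV : IsVHS U x)
    (hP : IsPolarized U κ s Q x)
    (hT : IsAut U κ Q x T d) (hR : ∀ i, HasReflection U κ Q x y T i) :
    Glob κ Q T d (fun i => ((s i : ℤ) : ℚ)) (mm U x y) := by
  obtain ⟨u0, hu0⟩ := hU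
  have hlie := isLie_mm (y := y) hP
  have hdet := det_unit hV hP hu0
  have hcomm : ∀ a ∈ mm U x y, a.1 * T = T * a.1 := fun a ha => mm_comm hT.comm ha
  have hss : ∀ i, ((s i : ℤ) : ℚ) * ((s i : ℤ) : ℚ) = 1 := by
    intro i
    rcases hP.sign i with h | h <;> rw [h] <;> norm_num
  have hQs : ∀ a b, Q a b = ((s (κ a) : ℤ) : ℚ) * Q b a := fun a b => hP.symm a b
  refine ⟨hlie, hcomm, hT.pos, hT.order, hT.isom, hT.block, hT.noreal, hss, hP.blockQ, hQs, hdet,
    fun i => ?_⟩
  obtain ⟨δ, ε, γ, η, n, hδ, hε, hγ1, hγ2, hη, hmon, hgen⟩ := hR i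
  refine ⟨δ, ε, γ, η, n, hlie, hcomm, hT.pos, hT.order, hT.isom, hT.block, hT.noreal, hss i,
    fun a b hab => by rw [hQs a b, hab], hdet, hδ, ?_, hγ1, hγ2, ?_, hη, ?_⟩
  · rcases hε with h | h <;> rw [h] <;> norm_num
  · intro γ' η' h1 h2 a ha
    exact conj_mem2 h1 h2 hmon ha
  · intro W hW hWT hWm hδW w hw
    refine hgen W hW hWT ?_ hδW w hw
    intro u hu w hw
    obtain ⟨τ, F, β, φ, hx, -⟩ := exists_decomp (x u) (y u)
    rw [hx, Matrix.sum_mulVec]
    refine Submodule.sum_mem _ fun t _ => ?_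
    rw [smul_mulVec, mC_mulVec]
    refine Submodule.smul_mem _ _ (Submodule.subset_span ⟨_, ?_, rfl⟩)
    exact hWm _ (gen_mem hu (φ t)) w hw

/-- the dimension of an eigenspace -/
theorem finrank_le {P : Matrix B B ℂ} {κ' : B → ι × Th} (hE : EB κ T d P κ') (p : ι × Th) :
    Module.finrank ℂ (eigenpart κ T p.1 p.2.1) ≤ (blk κ' p).card := by
  classical
  have hPP : P * P⁻¹ = 1 := mul_nonsing_inv _ hE.det
  have hle : eigenpart κ T p.1 p.2.1 ≤ Submodule.span ℂ (Set.range fun b : blk κ' p => P.col b) := by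
    intro v hv
    have h1 : v = ∑ b, (P⁻¹ *ᵥ v) b • P.col b := by
      have h2 : P *ᵥ (P⁻¹ *ᵥ v) = v := by rw [mulVec_mulVec, hPP, one_mulVec]
      conv_lhs => rw [← h2]
      funext a
      rw [Finset.sum_apply]
      show ∑ b, P a b * (P⁻¹ *ᵥ v) b = _
      exact Finset.sum_congr rfl fun b _ => by
        show _ = (P⁻¹ *ᵥ v) b * P a b
        ring
    set c := P⁻¹ *ᵥ v with hc
    have hli : LinearIndependent ℂ (fun b => P.col b) := by
      have := Matrix.linearIndependent_cols_iff_isUnit.2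
        ((Matrix.isUnit_iff_isUnit_det _).2 hE.det)
      exact this
    -- eigenvalue
    have h3 : ∀ b, (((κ' b).2.1 : ℂ) - (p.2.1 : ℂ)) * c b = 0 := by
      have h4 : ∑ b, ((((κ' b).2.1 : ℂ) - (p.2.1 : ℂ)) * c b) • P.col b = 0 := by
        have h5 := hv.2
        rw [h1, mulVec_sum, Finset.smul_sum, ← sub_eq_zero, ← Finset.sum_sub_distrib] at h5
        rw [← h5]
        refine Finset.sum_congr rfl fun b _ => ?_
        rw [mulVec_smul, hE.eig]
        module
      exact Fintype.linearIndependent_iff.1 hli _ h4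
    -- support
    have h6 : ∀ b, (κ' b).1 ≠ p.1 → c b = 0 := by
      have h7 : ∑ b, (if (κ' b).1 = p.1 then 0 else c b) • P.col b = 0 := by
        funext a
        rw [Finset.sum_apply]
        by_cases ha : κ a = p.1
        · refine Finset.sum_eq_zero fun b _ => ?_
          split_ifs with hb
          · simp
          · have : P a b = 0 := hE.sup b a (by rw [ha]; exact Ne.symm hb)
            show c b * P a b = 0
            rw [this, mul_zero]
        · have h8 := congrFun h1 a
          rw [hv.1 a ha, Finset.sum_apply] at h8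
          rw [Pi.zero_apply]
          refine Eq.trans ?_ h8.symm
          refine Finset.sum_congr rfl fun b _ => ?_
          split_ifs with hb
          · have : P a b = 0 := hE.sup b a (by rw [hb]; exact ha)
            show 0 * P a b = c b * P a b
            rw [this, mul_zero, mul_zero]
          · rfl
      have h9 := Fintype.linearIndependent_iff.1 hli _ h7
      intro b hb
      have := h9 b
      rwa [if_neg hb] at this
    rw [h1]
    refine Submodule.sum_mem _ fun b _ => ?_
    by_cases hb : κ' b = p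
    · exact Submodule.smul_mem _ _ (Submodule.subset_span ⟨⟨b, mem_blk.2 hb⟩, rfl⟩)
    · have : c b = 0 := by
        by_cases hb1 : (κ' b).1 = p.1
        · have h10 := h3 b
          rcases mul_eq_zero.1 h10 with h11 | h11
          · exfalso
            apply hb
            exact Prod.ext hb1 (Subtype.ext (sub_eq_zero.1 h11))
          · exact h11
        · exact h6 b hb1
      rw [this, zero_smul]
      exact Submodule.zero_mem _
  calc Module.finrank ℂ (eigenpart κ T p.1 p.2.1) ≤
        Module.finrank ℂ (Submodule.span ℂ (Set.range fun b : blk κ' p => P.col b)) :=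
          Submodule.finrank_mono hle
    _ ≤ Fintype.card (blk κ' p) := finrank_range_le_card _
    _ = (blk κ' p).card := by rw [Fintype.card_coe]

/-- non-vanishing of the form on vectors in blocks -/
theorem exists_J {P : Matrix B B ℂ} {κ' : B → ι × Th} (hE : EB κ T d P κ') {k : ℕ}
    {f : (Fin k → B) → D → ℚ} {c : Fin k → ι × Th}
    (hc : prt κ' c (pul P 1 (cx f)) ≠ 0) : ∃ J, f J ≠ 0 ∧ ∀ j, κ (J j) = (c j).1 := by
  obtain ⟨I, hI⟩ := Function.ne_iff.1 hc
  have h1 : (∀ j, κ' (I j) = c j) ∧ pul P 1 (cx f) I ≠ 0 := by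
    unfold prt at hI
    by_cases h : ∀ j, κ' (I j) = c j
    · rw [if_pos h] at hI
      exact ⟨h, hI⟩
    · rw [if_neg h] at hI
      exact absurd rfl hI
  obtain ⟨h2, h3⟩ := h1
  obtain ⟨l, hl⟩ := Function.ne_iff.1 h3
  change ∑ J : Fin k → B, ∑ m, cx f J m * (∏ j, P (J j) (I j)) * (1 : Matrix D D ℂ) m l ≠ 0 at hl
  obtain ⟨J, -, hJ⟩ := Finset.exists_ne_zero_of_sum_ne_zero hl
  obtain ⟨m, -, hm⟩ := Finset.exists_ne_zero_of_sum_ne_zero hJ
  have h4 := left_ne_zero_of_mul (left_ne_zero_of_mul hm)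
  have h5 := right_ne_zero_of_mul (left_ne_zero_of_mul hm)
  refine ⟨J, ?_, fun j => ?_⟩
  · intro h0
    apply h4
    unfold cx
    rw [h0]
    simp
  · by_contra hj
    apply h5
    refine Finset.prod_eq_zero (Finset.mem_univ j) (hE.sup (I j) (J j) ?_)
    rw [h2 j]
    exact hj

/-- small weights -/
theorem wt_lt {P : Matrix B B ℂ} {κ' : B → ι × Th} (hE : EB κ T d P κ') {k : ℕ}
    {f : (Fin k → B) → D → ℚ}
    (hcount : ∀ (i : ι) (z : ℂ), eigenpart κ T i z ≠ ⊥ → ∀ J, f J ≠ 0 →
      (univ.filter fun j => κ (J j) = i).card < Module.finrank ℂ (eigenpart κ T i z))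
    (c : Fin k → ι × Th) (hc : prt κ' c (pul P 1 (cx f)) ≠ 0) (p : ι × Th) :
    wt κ' sig c p < 1 := by
  obtain ⟨J, hJ, hJc⟩ := exists_J hE hc
  by_cases hb : (blk κ' p).card = 0
  · unfold wt
    rw [hb]
    simp
  · have hpos : 0 < (blk κ' p).card := Nat.pos_of_ne_zero hb
    obtain ⟨b, hbb⟩ := Finset.card_pos.1 hpos
    rw [mem_blk] at hbb
    have hne : eigenpart κ T p.1 p.2.1 ≠ ⊥ := by
      intro h0
      have h1 : P.col b ∈ eigenpart κ T p.1 p.2.1 := by
        refine ⟨fun a ha => hE.sup b a (by rw [hbb]; exact ha), ?_⟩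
        have := hE.eig b
        rwa [hbb] at this
      rw [h0, Submodule.mem_bot] at h1
      exact col_ne hE.det b h1
    have h1 := hcount p.1 p.2.1 hne J hJ
    have h2 := finrank_le hE p
    have h3 : (univ.filter fun j => c j = p).card ≤ (univ.filter fun j => κ (J j) = p.1).card := by
      apply Finset.card_le_card
      intro j hj
      rw [Finset.mem_filter] at hj ⊢
      exact ⟨Finset.mem_univ _, by rw [hJc j, hj.2]⟩
    unfold wt
    rw [div_lt_one (by exact_mod_cast hpos)]
    have h4 : ((univ.filter fun j => c j = p).card : ℚ) < ((blk κ' p).card : ℚ) := by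
      exact_mod_cast (by omega : (univ.filter fun j => c j = p).card < (blk κ' p).card)
    have h5 : (0 : ℚ) ≤ ((univ.filter fun j => c j = sig p).card : ℚ) := by positivity
    linarith

/-- **Theorem (small degrees, arbitrary second variation).** -/
theorem core_small {E : Type} [NormedAddCommGroup E] [NormedSpace ℂ E] {U : Set E}
    {x : E → Matrix B B ℂ} {y : E → Matrix D D ℂ} (hV : IsVHS U x) (hP : IsPolarized U κ s Q x)
    (hT : IsAut U κ Q x T d) (hR : ∀ i, HasReflection U κ Q x y T i) {u : E} (hu : u ∈ U) {k : ℕ}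
    {f : (Fin k → B) → D → ℚ} (hact : ∀ u ∈ U, act (x u, y u) (cx f) = 0)
    (hcount : ∀ (i : ι) (z : ℂ), eigenpart κ T i z ≠ ⊥ → ∀ J, f J ≠ 0 →
      (univ.filter fun j => κ (J j) = i).card < Module.finrank ℂ (eigenpart κ T i z)) :
    f ∈ Submodule.span ℚ (productsT κ Q T (y u) k) := by
  have hkill : ∀ a ∈ mm U x y, act a f = 0 := fun a ha => act_mm hact ha
  have hG := glob_mm ⟨u, hu⟩ hV hP hT hR
  obtain ⟨P, κ', hE⟩ := hG.exists_EB
  exact refineT hu hG.lie hG.comm (mem_P0T hG hE hkill (wt_lt hE hcount)) hkill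

end Pool.Agent.H842.CR
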