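import Pool.Agent.H842.CR.Cplx
import Pool.Agent.H842.CR.Fft

/-!
# Weights and the eigenbasis
-/

set_option linter.unusedSectionVars false

open Matrix Finset Function

namespace Pool.Agent.H842.CR

open Pool.Agent.TH125.Nod

section weights
universe u v
variable {K : Type u} [Field K] {B : Type} [Fintype B] [DecidableEq B] {ι : Type} [DecidableEq ι]
  {M : Type v} [AddCommGroup M] [Module K M]
  {κ : B → ι} {σ : ι → ι} {Q R : Matrix B B K} {s : ι → K} {t : ι → ℚ}

/-- the dimensions of the blocks `i` and `σ i` agree -/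
theorem Dat.card_eq [CharZero K] (h : Dat κ σ Q R s t) (i : ι) :
    (blk κ (σ i)).card = (blk κ i).card := by
  have h1 : ∑ p ∈ blk κ i, ∑ u ∈ blk κ (σ i), R p u * Q u p = ((blk κ i).card : K) := by
    have : ∀ p ∈ blk κ i, ∑ u ∈ blk κ (σ i), R p u * Q u p = 1 := by
      intro p hp
      rw [h.sum_RQ (mem_blk.1 hp) p, if_pos rfl]
    rw [Finset.sum_congr rfl this, Finset.sum_const, nsmul_eq_mul, mul_one]
  have h2 : ∑ p ∈ blk κ i, ∑ u ∈ blk κ (σ i), R p u * Q u p = ((blk κ (σ i)).card : K) := by
    rw [Finset.sum_comm]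
    have : ∀ u ∈ blk κ (σ i), ∑ p ∈ blk κ i, R p u * Q u p = 1 := by
      intro u hu
      have h3 := h.sum_QR (mem_blk.1 hu) u
      rw [if_pos rfl] at h3
      rw [← h3]
      exact Finset.sum_congr rfl fun p _ => mul_comm _ _
    rw [Finset.sum_congr rfl this, Finset.sum_const, nsmul_eq_mul, mul_one]
  exact_mod_cast h2.symm.trans h1

variable {S : Type} [Fintype S] [DecidableEq S]

/-- the center acts by weights -/
theorem weight (h : Dat κ σ Q R s t) {i : ι} {f G : (S → B) → M}
    (hG : ∀ u v, κ u = i → κ v = σ i → ∀ J : S → B,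
      ∑ j, (Q v (J j) • f (update J j u) - (s i * Q u (J j)) • f (update J j v)) =
        Q v u • G J) (J : S → B) :
    (((univ.filter fun j => κ (J j) = i).card : K) -
      ((univ.filter fun j => κ (J j) = σ i).card : K)) • f J = ((blk κ i).card : K) • G J := by
  have h1 : ∑ u ∈ blk κ i, ∑ v ∈ blk κ (σ i), R u v •
      ∑ j, (Q v (J j) • f (update J j u) - (s i * Q u (J j)) • f (update J j v)) =
      ((blk κ i).card : K) • G J := by
    have : ∀ u ∈ blk κ i, ∑ v ∈ blk κ (σ i), R u v •
      ∑ j, (Q v (J j) • f (update J j u) - (s i * Q u (J j)) • f (update J j v)) = G J := by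
      intro u hu
      have h2 : ∀ v ∈ blk κ (σ i), R u v •
          ∑ j, (Q v (J j) • f (update J j u) - (s i * Q u (J j)) • f (update J j v)) =
          (R u v * Q v u) • G J := by
        intro v hv
        rw [hG u v (mem_blk.1 hu) (mem_blk.1 hv), smul_smul]
      rw [Finset.sum_congr rfl h2, ← Finset.sum_smul, h.sum_RQ (mem_blk.1 hu) u, if_pos rfl,
        one_smul]
    rw [Finset.sum_congr rfl this, Finset.sum_const, ← Nat.cast_smul_eq_nsmul K]
  rw [← h1]
  have h2 : ∑ u ∈ blk κ i, ∑ v ∈ blk κ (σ i), R u v •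
      ∑ j, (Q v (J j) • f (update J j u) - (s i * Q u (J j)) • f (update J j v)) =
      ∑ j, (∑ u ∈ blk κ i, ∑ v ∈ blk κ (σ i), (R u v * Q v (J j)) • f (update J j u) -
        ∑ u ∈ blk κ i, ∑ v ∈ blk κ (σ i), (R u v * (s i * Q u (J j))) • f (update J j v)) := by
    simp only [Finset.smul_sum, smul_sub, smul_smul]
    have h3 : ∀ u ∈ blk κ i, ∑ v ∈ blk κ (σ i), ∑ j, ((R u v * Q v (J j)) • f (update J j u) -
        (R u v * (s i * Q u (J j))) • f (update J j v)) =
        ∑ j, ∑ v ∈ blk κ (σ i), ((R u v * Q v (J j)) • f (update J j u) -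
        (R u v * (s i * Q u (J j))) • f (update J j v)) := fun u _ => Finset.sum_comm
    rw [Finset.sum_congr rfl h3, Finset.sum_comm]
    refine Finset.sum_congr rfl fun j _ => ?_
    simp only [Finset.sum_sub_distrib]
  rw [h2, Finset.sum_sub_distrib, sub_smul]
  congr 1
  · have h3 : ∀ j ∈ univ, ∑ u ∈ blk κ i, ∑ v ∈ blk κ (σ i), (R u v * Q v (J j)) •
        f (update J j u) = if κ (J j) = i then f J else 0 := by
      intro j _
      split_ifs with hj
      · have h4 : ∀ u ∈ blk κ i, ∑ v ∈ blk κ (σ i), (R u v * Q v (J j)) • f (update J j u) =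
            (if u = J j then (1 : K) else 0) • f (update J j u) := by
          intro u _
          rw [← Finset.sum_smul, h.sum_RQ hj u]
        rw [Finset.sum_congr rfl h4]
        simp only [ite_smul, one_smul, zero_smul]
        rw [Finset.sum_ite_eq' (blk κ i) (J j) (fun u => f (update J j u)), if_pos (mem_blk.2 hj),
          update_eq_self]
      · refine Finset.sum_eq_zero fun u _ => Finset.sum_eq_zero fun v hv => ?_
        rw [h.Qb v (J j) (by rw [mem_blk.1 hv, h.σσ]; exact hj), mul_zero, zero_smul]
    rw [Finset.sum_congr rfl h3, ← Finset.sum_filter, Finset.sum_const,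
      ← Nat.cast_smul_eq_nsmul K]
  · have h3 : ∀ j ∈ univ, ∑ u ∈ blk κ i, ∑ v ∈ blk κ (σ i), (R u v * (s i * Q u (J j))) •
        f (update J j v) = if κ (J j) = σ i then f J else 0 := by
      intro j _
      split_ifs with hj
      · rw [Finset.sum_comm]
        have h4 : ∀ v ∈ blk κ (σ i), ∑ u ∈ blk κ i, (R u v * (s i * Q u (J j))) •
            f (update J j v) = (if J j = v then (1 : K) else 0) • f (update J j v) := by
          intro v _
          rw [← Finset.sum_smul]
          congr 1
          rw [← h.sum_QR hj v]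
          refine Finset.sum_congr rfl fun u hu => ?_
          rw [h.Qs u (J j), mem_blk.1 hu]
          have := h.ss i
          linear_combination (R u v * Q (J j) u) * this
        rw [Finset.sum_congr rfl h4]
        simp only [ite_smul, one_smul, zero_smul]
        rw [Finset.sum_ite_eq (blk κ (σ i)) (J j) (fun v => f (update J j v)),
          if_pos (mem_blk.2 hj), update_eq_self]
      · refine Finset.sum_eq_zero fun u hu => Finset.sum_eq_zero fun v _ => ?_
        rw [h.Qb u (J j) (by rw [mem_blk.1 hu]; exact hj), mul_zero, mul_zero, zero_smul]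
    rw [Finset.sum_congr rfl h3, ← Finset.sum_filter, Finset.sum_const,
      ← Nat.cast_smul_eq_nsmul K]

open Classical in
/-- the part of a form with values in given blocks -/
noncomputable def prt (κ : B → ι) (c : S → ι) (f : (S → B) → M) : (S → B) → M :=
  fun J => if ∀ j, κ (J j) = c j then f J else 0

theorem sup_prt (c : S → ι) (f : (S → B) → M) : Sup κ c (prt κ c f) := by
  intro J hJ
  unfold prt
  rw [if_neg hJ]

theorem sum_prt (f : (S → B) → M) :
    f = ∑ c ∈ univ.image (fun (J : S → B) j => κ (J j)), prt κ c f := by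
  funext J
  rw [Finset.sum_apply, Finset.sum_eq_single (fun j => κ (J j))]
  · unfold prt
    rw [if_pos (fun j => rfl)]
  · intro c _ hc
    unfold prt
    rw [if_neg]
    intro h
    apply hc
    funext j
    rw [h j]
  · intro h
    exact absurd (Finset.mem_image.2 ⟨J, Finset.mem_univ _, rfl⟩) h

/-- the relations are compatible with the decomposition -/
theorem prt_rel (h : Dat κ σ Q R s t) {i : ι} {f G : (S → B) → M}
    (hG : ∀ u v, κ u = i → κ v = σ i → ∀ J : S → B,
      ∑ j, (Q v (J j) • f (update J j u) - (s i * Q u (J j)) • f (update J j v)) =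
        Q v u • G J) (c : S → ι) :
    ∀ u v, κ u = i → κ v = σ i → ∀ J : S → B,
      ∑ j, (Q v (J j) • prt κ c f (update J j u) - (s i * Q u (J j)) • prt κ c f (update J j v)) =
        Q v u • prt κ c G J := by
  intro u v hu hv J
  have key : ∀ (j : S) (a b : B), κ a = σ (κ b) → Q a (J j) • prt κ c f (update J j b) =
      if ∀ j, κ (J j) = c j then Q a (J j) • f (update J j b) else 0 := by
    intro j a b hab
    by_cases hQ : κ (J j) = κ b
    · have hiff : (∀ j', κ (update J j b j') = c j') ↔ ∀ j', κ (J j') = c j' := by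
        have : ∀ j', κ (update J j b j') = κ (J j') := by
          intro j'
          by_cases hj : j' = j
          · subst hj
            rw [update_self, hQ]
          · rw [update_of_ne hj]
        simp only [this]
      unfold prt
      by_cases hJ : ∀ j', κ (J j') = c j'
      · rw [if_pos hJ, if_pos (hiff.2 hJ)]
      · rw [if_neg hJ, if_neg (fun h => hJ (hiff.1 h)), smul_zero]
    · rw [h.Qb a (J j) (by rw [hab, h.σσ]; exact hQ), zero_smul, zero_smul, ite_self]
  have h2 : ∀ j, Q v (J j) • prt κ c f (update J j u) -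
      (s i * Q u (J j)) • prt κ c f (update J j v) =
      if ∀ j, κ (J j) = c j then (Q v (J j) • f (update J j u) -
        (s i * Q u (J j)) • f (update J j v)) else 0 := by
    intro j
    rw [key j v u (by rw [hv, hu]), mul_smul, key j u v (by rw [hu, hv, h.σσ])]
    split_ifs
    · rw [mul_smul]
    · simp
  rw [Finset.sum_congr rfl fun j _ => h2 j]
  by_cases hJ : ∀ j, κ (J j) = c j
  · simp only [if_pos hJ]
    rw [hG u v hu hv J]
    unfold prt
    rw [if_pos hJ]
  · simp only [if_neg hJ, Finset.sum_const_zero]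
    unfold prt
    rw [if_neg hJ, smul_zero]

/-- the weights -/
noncomputable def wt (κ : B → ι) (σ : ι → ι) (c : S → ι) (i : ι) : ℚ :=
  (((univ.filter fun j => c j = i).card : ℚ) - ((univ.filter fun j => c j = σ i).card : ℚ)) /
    ((blk κ i).card : ℚ)

theorem wt_σ [CharZero K] (h : Dat κ σ Q R s t) (c : S → ι) (i : ι) :
    wt κ σ c (σ i) = - wt κ σ c i := by
  unfold wt
  rw [h.σσ, h.card_eq]
  ring

/-- each part satisfies the relations with its weights -/
theorem invT_prt [CharZero K] (h : Dat κ σ Q R s t) {f : (S → B) → M}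
    (hG : ∀ i, ∃ G : (S → B) → M, ∀ u v, κ u = i → κ v = σ i → ∀ J : S → B,
      ∑ j, (Q v (J j) • f (update J j u) - (s i * Q u (J j)) • f (update J j v)) =
        Q v u • G J) (c : S → ι) : InvT κ σ Q s (wt κ σ c) (prt κ c f) := by
  intro u v huv J
  obtain ⟨G, hG⟩ := hG (κ u)
  have h1 := prt_rel h hG c
  rw [h1 u v rfl huv J]
  have h2 := weight h h1 J
  have hN : ((blk κ (κ u)).card : K) ≠ 0 := by
    have : 0 < (blk κ (κ u)).card := Finset.card_pos.2 ⟨u, mem_blk.2 rfl⟩
    exact_mod_cast this.ne'
  have h3 : prt κ c G J = ((wt κ σ c (κ u) : ℚ) : K) • prt κ c f J := by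
    by_cases hJ : ∀ j, κ (J j) = c j
    · have h4 : ((blk κ (κ u)).card : K) • prt κ c G J = ((blk κ (κ u)).card : K) •
          ((wt κ σ c (κ u) : ℚ) : K) • prt κ c f J := by
        rw [← h2, smul_smul]
        congr 1
        simp only [hJ]
        unfold wt
        push_cast
        field_simp
      exact (smul_right_injective M hN) h4
    · unfold prt
      rw [if_neg hJ, if_neg hJ, smul_zero]
  rw [h3, smul_smul, mul_comm]

/-- **The first fundamental theorem for small weights.** -/
theorem prt_mem [CharZero K] (h : Dat κ σ Q R s t) {f : (S → B) → M}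
    (hG : ∀ i, ∃ G : (S → B) → M, ∀ u v, κ u = i → κ v = σ i → ∀ J : S → B,
      ∑ j, (Q v (J j) • f (update J j u) - (s i * Q u (J j)) • f (update J j v)) =
        Q v u • G J) (c : S → ι) (hc : ∀ i, wt κ σ c i < 1) : prt κ c f ∈ Gen κ Q c := by
  refine fft' (t := wt κ σ c) ⟨h.ss, h.sσ, h.σσ, h.σne, wt_σ h c, h.Qb, h.Qs, h.QR⟩ hc _ S c _ rfl
    (sup_prt c f) (invT_prt h hG c)

end weights

end Pool.Agent.H842.CR
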